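import Pool.Agent.Lib.MP_a52643_an.YA.Av1

/-!
Bounds for averages over discs.
-/

namespace Pool.Agent.Lib.MP_a52643_an.YA

open Complex Filter Topology Metric MeasureTheory Set QS
open scoped ContDiff

variable {F G : ℂ → ℝ} {k : ℕ} {s t b : ℝ} {v z : ℂ}

private theorem av_inner (hv : ‖v‖ ≤ 1) {w : ℂ} (hw : ‖w‖ ≤ 1) :
    |w.re * v.re + w.im * v.im| ≤ 1 := by
  have := abs_real_inner_le_norm v w
  simp only [Complex.inner, mul_re, conj_re, conj_im, mul_neg, sub_neg_eq_add] at this
  nlinarith [norm_nonneg w, norm_nonneg v]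

theorem av_D_le (hG : Sm G) (k : ℕ) (ht : 0 < t) (hv : ‖v‖ ≤ 1) (z : ℂ) :
    t * |av (k + 2) t (D v G) z| ≤ 2 * (k + 2) * av (k + 1) t (fun y => |G y|) z := by
  have c0 := hG.continuous
  have h := ibp (smAf hG z t) k v
  simp only [D_Af hG, Af, mul_assoc, integral_const_mul] at h
  have h3 : |∫ w, G (z + t • w) * ((w.re * v.re + w.im * v.im) * P (k + 1) w)| ≤
      ∫ w, |G (z + t • w)| * P (k + 1) w := by
    rw [← Real.norm_eq_abs]
    refine norm_integral_le_of_norm_le (intP (by fun_prop) k) (Eventually.of_forall fun w => ?_)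
    rcases le_total ‖w‖ 1 with h1 | h1
    · rw [Real.norm_eq_abs, abs_mul, abs_mul, abs_of_nonneg (P_nonneg _ _)]
      exact mul_le_mul_of_nonneg_left
        (mul_le_of_le_one_left (P_nonneg _ _) (av_inner hv h1)) (abs_nonneg _)
    · simp [P_out h1]
  have k0 : (0 : ℝ) ≤ 2 * (k + 2) := by positivity
  unfold av
  rw [← abs_of_pos ht, ← abs_mul, abs_of_pos ht, h, ← mul_assoc, abs_mul, abs_of_nonneg k0]
  exact mul_le_mul_of_nonneg_left h3 k0

/-- The change of variables. -/
private theorem av_eq (G : ℂ → ℝ) (k : ℕ) (ht : 0 < t) (z : ℂ) :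
    t ^ 2 * av k t G z = ∫ y, G y * P k (t⁻¹ • (y - z)) := by
  have h := Measure.integral_comp_smul (volume : Measure ℂ)
    (fun w => G (z + w) * P k (t⁻¹ • w)) t
  simp only [inv_smul_smul₀ ht.ne', finrank_real_complex, smul_eq_mul] at h
  have h2 := integral_add_left_eq_self (μ := (volume : Measure ℂ))
    (fun y => G y * P k (t⁻¹ • (y - z))) z
  simp only [add_sub_cancel_left] at h2
  rw [av, h, ← h2, abs_of_pos (by positivity)]
  field_simp

private theorem av_norm (ht : 0 < t) (y z : ℂ) : ‖t⁻¹ • (y - z)‖ = ‖y - z‖ / t := by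
  rw [norm_smul, Real.norm_of_nonneg (inv_nonneg.2 ht.le), div_eq_inv_mul]

private theorem av_int (hG : Continuous G) (k : ℕ) (ht : 0 < t) (z : ℂ) :
    Integrable fun y => G y * P (k + 1) (t⁻¹ • (y - z)) := by
  have := P_cont (k + 1)
  refine Continuous.integrable_of_hasCompactSupport (by fun_prop)
    (HasCompactSupport.intro (isCompact_closedBall z t) fun y hy => ?_)
  rw [mem_closedBall_iff_norm, not_le] at hy
  rw [P_out (by rw [av_norm ht, le_div_iff₀ ht]; linarith), mul_zero]

theorem av_le_ball (hG : Continuous G) (k : ℕ) (ht : 0 < t) (z : ℂ) :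
    t ^ 2 * |av (k + 1) t G z| ≤ ∫ y in ball z t, |G y| := by
  rw [← abs_of_pos (pow_pos ht 2), ← abs_mul, av_eq G _ ht, ← integral_indicator measurableSet_ball,
    ← Real.norm_eq_abs]
  refine norm_integral_le_of_norm_le ((intB hG.abs z t).integrable_indicator measurableSet_ball)
    (Eventually.of_forall fun y => ?_)
  by_cases hy : y ∈ ball z t
  · rw [indicator_of_mem hy, Real.norm_eq_abs, abs_mul, abs_of_nonneg (P_nonneg _ _)]
    exact mul_le_of_le_one_right (abs_nonneg _) (P_le_one _ _)
  · rw [indicator_of_notMem hy]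
    rw [mem_ball_iff_norm, not_lt] at hy
    rw [P_out (by rw [av_norm ht, le_div_iff₀ ht]; linarith), mul_zero, norm_zero]

theorem ball_le_av (hG : Continuous G) (ht : 0 < t) (h : ∀ y, ‖y - z‖ ≤ t → 0 ≤ G y) :
    ∫ y in ball z (t / 2), G y ≤ 2 * t ^ 2 * av 1 t G z := by
  rw [mul_assoc, av_eq G _ ht, ← integral_indicator measurableSet_ball, ← integral_const_mul]
  refine integral_mono ((intB hG z _).integrable_indicator measurableSet_ball)
    ((av_int hG 0 ht z).const_mul 2) fun y => ?_
  by_cases hy : y ∈ ball z (t / 2)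
  · rw [indicator_of_mem hy]
    rw [mem_ball_iff_norm] at hy
    have h1 : ‖t⁻¹ • (y - z)‖ ≤ 1 / 2 := by rw [av_norm ht, div_le_iff₀ ht]; linarith
    have h2 := h y (by linarith)
    have h3 : 1 / 2 ≤ P 1 (t⁻¹ • (y - z)) := by
      rw [P_in (by linarith), pow_one]
      nlinarith [norm_nonneg (t⁻¹ • (y - z))]
    change G y ≤ 2 * (G y * P 1 (t⁻¹ • (y - z)))
    nlinarith
  · rw [indicator_of_notMem hy]
    change 0 ≤ 2 * (G y * P 1 (t⁻¹ • (y - z)))
    rcases le_total ‖y - z‖ t with h1 | h1
    · exact mul_nonneg zero_le_two (mul_nonneg (h y h1) (P_nonneg _ _))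
    · have h2 : P 1 (t⁻¹ • (y - z)) = 0 :=
        P_out (k := 0) (by rw [av_norm ht, le_div_iff₀ ht]; linarith)
      rw [h2, mul_zero, mul_zero]

theorem int_av_le (hG : Continuous G) (k : ℕ) (ht : 0 ≤ t) {R R' : ℝ} (h : R + t ≤ R') :
    ∫ z in ball (0 : ℂ) R, |av (k + 1) t G z| ≤ 4 * ∫ y in ball (0 : ℂ) R', |G y| := by
  set H : ℂ → ℝ := (ball (0 : ℂ) R').indicator fun y => |G y| with hH
  have iH : Integrable H := (intB hG.abs 0 R').integrable_indicator measurableSet_ball
  have mH : Measurable H := hG.abs.measurable.indicator measurableSet_ball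
  have H0 : ∀ y, 0 ≤ H y := fun y => indicator_nonneg (fun _ _ => abs_nonneg _) y
  have e1 : ∀ w : ℂ, ∫ x, H (x + t • w) * P (k + 1) w = (∫ y, H y) * P (k + 1) w := fun w => by
    rw [integral_mul_const, integral_add_right_eq_self H]
  have i2 : Integrable (Function.uncurry fun x w : ℂ => H (x + t • w) * P (k + 1) w)
      ((volume : Measure ℂ).prod volume) := by
    have m1 : Measurable (Function.uncurry fun x w : ℂ => H (x + t • w) * P (k + 1) w) :=
      (mH.comp (by fun_prop)).mul ((P_cont _).measurable.comp measurable_snd)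
    rw [integrable_prod_iff' m1.aestronglyMeasurable]
    refine ⟨Eventually.of_forall fun w =>
      (iH.comp_add_right (t • w)).mul_const (P (k + 1) w), ?_⟩
    refine ((intP' k).const_mul (∫ y, H y)).congr (Eventually.of_forall fun w => ?_)
    simp only [Function.uncurry_apply_pair]
    rw [← e1 w]
    congr 1
    funext x
    rw [Real.norm_of_nonneg (mul_nonneg (H0 _) (P_nonneg _ _))]
  have i3 : Integrable fun x : ℂ => ∫ w, H (x + t • w) * P (k + 1) w := i2.integral_prod_left
  have I0 : 0 ≤ ∫ y, H y := integral_nonneg H0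
  calc ∫ z in ball (0 : ℂ) R, |av (k + 1) t G z|
      ≤ ∫ x in ball (0 : ℂ) R, ∫ w, H (x + t • w) * P (k + 1) w := by
        refine setIntegral_mono_on (intB (av_cont hG k t).abs 0 R) i3.integrableOn
          measurableSet_ball fun x hx => ?_
        rw [← Real.norm_eq_abs]
        refine (norm_integral_le_integral_norm _).trans (le_of_eq ?_)
        congr 1
        funext w
        rcases le_total ‖w‖ 1 with h1 | h1
        · have h2 : x + t • w ∈ ball (0 : ℂ) R' := by
            rw [mem_ball_zero_iff] at hx ⊢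
            have := norm_add_le x (t • w)
            rw [norm_smul, Real.norm_of_nonneg ht] at this
            nlinarith
          rw [hH, indicator_of_mem h2, Real.norm_eq_abs, abs_mul, abs_of_nonneg (P_nonneg _ _)]
        · simp [P_out h1]
    _ ≤ ∫ x, ∫ w, H (x + t • w) * P (k + 1) w :=
        setIntegral_le_integral i3 (Eventually.of_forall fun x =>
          integral_nonneg fun w => mul_nonneg (H0 _) (P_nonneg _ _))
    _ = (∫ y, H y) * cP (k + 1) := by
        rw [integral_integral_swap i2]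
        simp only [e1]
        rw [integral_const_mul, cP]
    _ ≤ 4 * ∫ y in ball (0 : ℂ) R', |G y| := by
        rw [← integral_indicator measurableSet_ball, ← hH, mul_comm]
        exact mul_le_mul_of_nonneg_right (cP_le k) I0

private theorem av_lap3 (hF : Sm F) (t : ℝ) (z : ℂ) :
    t ^ 2 * av 3 t (Lap F) z = 24 * av 1 t F z - 36 * av 2 t F z := by
  have c0 := hF.continuous
  have h := lap_P3 (smAf hF z t)
  simp only [Lap_Af hF, Af, mul_assoc, integral_const_mul] at h
  have i1 : Integrable fun w => F (z + t • w) * P 1 w := intP (by fun_prop) 0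
  have i2 : Integrable fun w => F (z + t • w) * P 2 w := intP (by fun_prop) 1
  unfold av
  rw [h, ← integral_const_mul, ← integral_const_mul,
    ← integral_sub (i1.const_mul _) (i2.const_mul _)]
  congr 1
  funext w
  ring

/-- From the first weight to the second. -/
theorem av_mix (hF : Sm F) (ht : 0 < t) (hb : 0 ≤ b)
    (h : ∀ s, 0 < s → s ≤ t → -(b / s) ≤ av 1 s F z) : -(b / t) ≤ av 2 t F z := by
  have hd : ∀ s : ℝ, HasDerivAt (fun s => s ^ 6 * av 2 s F z + 4 * b / 5 * s ^ 5)
      (4 * s ^ 4 * (s * av 1 s F z + b)) s := fun s => by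
    have h1 := ((hasDerivAt_pow 6 s).mul (av_deriv hF 1 z s)).add
      ((hasDerivAt_pow 5 s).const_mul (4 * b / 5))
    have h2 := av_lap3 hF s z
    refine HasDerivAt.congr_deriv h1 ?_
    norm_num
    linear_combination (s ^ 5 / 6) * h2
  obtain ⟨c, ⟨c0, c1⟩, hc⟩ := exists_hasDerivAt_eq_slope _ _ ht
    (fun s _ => (hd s).continuousAt.continuousWithinAt) fun s _ => hd s
  have h1 : 0 ≤ c * av 1 c F z + b := by
    have := h c c0 c1.le
    rw [neg_le, le_div_iff₀ c0] at this
    linarith
  have h2 : 0 ≤ 4 * c ^ 4 * (c * av 1 c F z + b) := by positivity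
  rw [hc, sub_zero, le_div_iff₀ ht] at h2
  have h3 : 0 ≤ t ^ 5 * (t * av 2 t F z + 4 * b / 5) := by
    norm_num at h2
    linarith
  have h4 := nonneg_of_mul_nonneg_right h3 (pow_pos ht 5)
  rw [neg_le, le_div_iff₀ ht]
  linarith

/-- The average of the derivative of a bounded function. -/
theorem av_div (hG : Sm G) (ht : 0 < t) (hv : ‖v‖ ≤ 1) (h : ∀ y, ‖y - z‖ ≤ t → |G y| ≤ b) :
    |av 2 t (D v G) z| ≤ 16 * b / t := by
  have h1 := av_D_le hG 0 ht hv z
  have hb : 0 ≤ b := (abs_nonneg _).trans (h z (by simpa using ht.le))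
  have h2 := abs_int_le (f := fun w => |G (z + t • w)|) (H := b) (fun w hw => by
    rw [abs_abs]
    refine h _ ?_
    rw [add_sub_cancel_left, norm_smul, Real.norm_of_nonneg ht.le]
    nlinarith) 0
  have h3 := mul_le_mul_of_nonneg_left (cP_le 0) hb
  have h4 : av (0 + 1) t (fun y => |G y|) z ≤ b * 4 := ((le_abs_self _).trans h2).trans h3
  rw [le_div_iff₀ ht]
  norm_num at h1 h4
  linarith

end Pool.Agent.Lib.MP_a52643_an.YA
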