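import Pool.Agent.Lib.MP_a52643_an.YA.Ker

/-!
Averages over discs.
-/

namespace Pool.Agent.Lib.MP_a52643_an.YA

open Complex Filter Topology Metric MeasureTheory Set QS
open scoped ContDiff

variable {F G : ℂ → ℝ} {k : ℕ} {s t b : ℝ} {v z : ℂ}

theorem cP_le (k : ℕ) : cP (k + 1) ≤ 4 := by
  rw [cP, ← setIntegral_eq_integral_of_forall_compl_eq_zero (s := closedBall (0 : ℂ) 1)
    fun s hs => P_out (not_le.1 (mt mem_closedBall_zero_iff.2 hs)).le]
  have h := norm_setIntegral_le_of_norm_le_const (μ := volume) (s := closedBall (0 : ℂ) 1)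
    (f := P (k + 1)) (C := 1) measure_closedBall_lt_top fun s _ => by
      rw [Real.norm_of_nonneg (P_nonneg _ _)]
      exact P_le_one _ _
  refine ((le_abs_self _).trans h).trans ?_
  simp [Measure.real, Real.pi_le_four]

theorem av_zero (k : ℕ) (F : ℂ → ℝ) (z : ℂ) : av k 0 F z = cP k * F z := by
  simp only [av, cP, zero_smul, add_zero, integral_const_mul, mul_comm (∫ s, P k s)]

theorem av1_cont_t (hF : Continuous F) (k : ℕ) :
    Continuous fun p : ℝ × ℂ => av (k + 1) p.1 F p.2 := by
  have c := P_cont (k + 1)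
  refine (continuous_parametric_integral_of_continuous (μ := volume)
    (f := fun (p : ℝ × ℂ) (s : ℂ) => F (p.2 + p.1 • s) * P (k + 1) s) (by fun_prop)
    (isCompact_closedBall (0 : ℂ) 1)).congr fun p => ?_
  exact setIntegral_eq_integral_of_forall_compl_eq_zero fun s hs => by
    rw [P_out (not_le.1 (mt mem_closedBall_zero_iff.2 hs)).le, mul_zero]

theorem av1_bd (k : ℕ) : Bd (P (k + 1)) 1 1 :=
  ⟨(P_cont _).measurable, fun y => by
    rw [abs_of_nonneg (P_nonneg _ _)]
    exact P_le_one _ _, fun _ h => P_out h.le⟩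

theorem av1_smk (hF : Sm F) (t : ℝ) : SmK fun z s => F (z + t • s) :=
  hF.comp (contDiff_fst.add (contDiff_snd.const_smul t))

theorem av_cont (hF : Continuous F) (k : ℕ) (t : ℝ) : Continuous (av (k + 1) t F) :=
  (av1_cont_t hF k).comp (Continuous.prodMk_right t)

theorem sm_av (hF : Sm F) (k : ℕ) (t : ℝ) : Sm (av (k + 1) t F) :=
  sm_IK (av1_smk hF t) (av1_bd k)

theorem D_av (hF : Sm F) (k : ℕ) (t : ℝ) (v : ℂ) :
    D v (av (k + 1) t F) = av (k + 1) t (D v F) := by
  refine (D_IK (av1_smk hF t) (av1_bd k) v).trans ?_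
  funext z
  simp only [IK, av, D, fderiv_comp_add_right]

theorem Lap_av (hF : Sm F) (k : ℕ) (t : ℝ) : Lap (av (k + 1) t F) = av (k + 1) t (Lap F) := by
  have c1 := (smD (smD hF 1) 1).continuous
  have c2 := (smD (smD hF I) I).continuous
  funext z
  simp only [Lap, D_av hF, D_av (smD hF _)]
  simp only [av, Lap, add_mul]
  exact (integral_add (intP (by fun_prop) k) (intP (by fun_prop) k)).symm

theorem av_add (hF : Continuous F) (hG : Continuous G) (k : ℕ) (t : ℝ) (z : ℂ) :
    av (k + 1) t (fun y => F y + G y) z = av (k + 1) t F z + av (k + 1) t G z := by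
  simp only [av, add_mul]
  exact integral_add (intP (by fun_prop) k) (intP (by fun_prop) k)

theorem av_comm (hF : Continuous F) (k l : ℕ) (s t : ℝ) :
    av (k + 1) s (av (l + 1) t F) = av (l + 1) t (av (k + 1) s F) := by
  have c1 := P_cont (k + 1)
  have c2 := P_cont (l + 1)
  funext z
  simp only [av, ← integral_mul_const]
  rw [integral_integral_swap]
  · congr 1
    funext a
    congr 1
    funext b
    rw [add_right_comm, mul_right_comm]
  · refine Continuous.integrable_of_hasCompactSupport (by fun_prop) (HasCompactSupport.intro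
      ((isCompact_closedBall (0 : ℂ) 1).prod (isCompact_closedBall (0 : ℂ) 1)) fun p hp => ?_)
    rcases not_and_or.1 hp with h | h <;>
      simp [Function.uncurry, P_out (not_le.1 (mt mem_closedBall_zero_iff.2 h)).le]

theorem av_ge (hF : Continuous F) (k : ℕ) (ht : 0 ≤ t) (hb : 0 ≤ b)
    (h : ∀ y, ‖y - z‖ ≤ t → -b ≤ F y) : -(4 * b) ≤ av (k + 1) t F z := by
  have h1 : -b * cP (k + 1) ≤ av (k + 1) t F z := by
    rw [cP, ← integral_const_mul]
    refine integral_mono ((intP' k).const_mul _) (intP (by fun_prop) k) fun s => ?_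
    rcases le_total ‖s‖ 1 with h1 | h1
    · refine mul_le_mul_of_nonneg_right (h _ ?_) (P_nonneg _ _)
      rw [add_sub_cancel_left, norm_smul, Real.norm_of_nonneg ht]
      exact mul_le_of_le_one_right ht h1
    · simp [P_out h1]
  nlinarith [cP_le k]

theorem av_deriv (hF : Sm F) (k : ℕ) (z : ℂ) (t : ℝ) :
    HasDerivAt (fun t => av (k + 1) t F z) (t / (2 * (k + 2)) * av (k + 2) t (Lap F) z) t := by
  have c1 := (smD hF 1).continuous
  have c2 := (smD hF I).continuous
  have c3 := (smD (smD hF 1) 1).continuous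
  have c4 := (smD (smD hF I) I).continuous
  have h := avg_deriv (smAf hF z 1) k t
  have h1 := ibp (smAf (smD hF 1) z t) k 1
  have h2 := ibp (smAf (smD hF I) z t) k I
  simp only [D_Af hF, D_Af (smD hF _), Af, one_smul, one_mul, mul_assoc, integral_const_mul,
    one_re, one_im, I_re, I_im, mul_one, mul_zero, add_zero, zero_add] at h h1 h2
  have e1 : ∫ s, D s F (z + t • s) * P (k + 1) s =
      (∫ s, D 1 F (z + t • s) * (s.re * P (k + 1) s)) +
        ∫ s, D I F (z + t • s) * (s.im * P (k + 1) s) := by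
    simp only [← mul_assoc]
    rw [← integral_add (intP (by fun_prop) k) (intP (by fun_prop) k)]
    congr 1
    funext s
    rw [D_lin F s]
    ring
  have e2 : av (k + 2) t (Lap F) z = (∫ s, D 1 (D 1 F) (z + t • s) * P (k + 2) s) +
      ∫ s, D I (D I F) (z + t • s) * P (k + 2) s := by
    simp only [av, Lap, add_mul]
    exact integral_add (intP (by fun_prop) _) (intP (by fun_prop) _)
  refine h.congr_deriv ?_
  rw [e1, e2, eq_comm, div_mul_eq_mul_div, div_eq_iff (by positivity)]
  linarith

theorem av_cont_t (hF : Continuous F) (k : ℕ) :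
    Continuous fun p : ℝ × ℂ => av (k + 1) p.1 F p.2 := av1_cont_t hF k

end Pool.Agent.Lib.MP_a52643_an.YA
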