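import Pool.Agent.Lib.MP_a52643_an.QS.Bump

/-!
Definitions for the bound on the length of the nodal set.
-/

namespace Pool.Agent.Lib.MP_a52643_an.YA

open Complex Filter Topology Metric MeasureTheory Set QS
open scoped ContDiff ComplexConjugate

/-- The size of the gradient. -/
noncomputable def gn (F : ℂ → ℝ) (z : ℂ) : ℝ := |D 1 F z| + |D I F z|

/-- The divergence. -/
noncomputable def dv (B₁ B₂ : ℂ → ℝ) (z : ℂ) : ℝ := D 1 B₁ z + D I B₂ z

/-- A smooth step from `0` at `1` to `1` at `2`. -/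
noncomputable def ka (t : ℝ) : ℝ := Real.smoothTransition (t - 1)

/-- Its derivative. -/
noncomputable def k1 (t : ℝ) : ℝ := deriv ka t

/-- The derivative of the profile. -/
noncomputable def f1 (t : ℝ) : ℝ := ka t / t

/-- The second derivative of the profile. -/
noncomputable def f2 (t : ℝ) : ℝ := deriv f1 t

/-- The profile, a smooth form of the positive part of the logarithm. -/
noncomputable def ff (t : ℝ) : ℝ := ∫ x in (1 : ℝ)..t, f1 x

/-- An upper bound of `k1`. -/
noncomputable def cK : ℝ := 1 + sSup (range k1)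

/-- Bounded measurable densities that vanish off a disc. -/
structure Bd (μ : ℂ → ℝ) (m r : ℝ) : Prop where
  me : Measurable μ
  le : ∀ y, |μ y| ≤ m
  su : ∀ y, r < ‖y‖ → μ y = 0

/-- The integral operator of a kernel. -/
noncomputable def IK (k : ℂ → ℂ → ℝ) (μ : ℂ → ℝ) (z : ℂ) : ℝ := ∫ y, k z y * μ y

/-- Jointly smooth kernels. -/
abbrev SmK (k : ℂ → ℂ → ℝ) : Prop := ContDiff ℝ ∞ fun p : ℂ × ℂ => k p.1 p.2

/-- The smoothed logarithmic kernel. -/
noncomputable def Nk (ε : ℝ) (w : ℂ) : ℝ := ff (‖w‖ ^ 2 / ε ^ 2) + Real.log (ε ^ 2)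

/-- Its Laplacian. -/
noncomputable def Qk (ε : ℝ) (w : ℂ) : ℝ := 4 / ε ^ 2 * k1 (‖w‖ ^ 2 / ε ^ 2)

/-- The mass of the Laplacian. -/
noncomputable def c0 : ℝ := ∫ w, Qk 1 w

/-- The potential of a density. -/
noncomputable def Pot (ε : ℝ) (μ : ℂ → ℝ) : ℂ → ℝ := IK (fun z y => Nk ε (z - y)) μ

/-- The smoothed Green kernel of the unit disc. -/
noncomputable def Gk (ε ρ : ℝ) (z y : ℂ) : ℝ := Nk ((1 - ρ) / 4) (1 - z * conj y) - Nk ε (z - y)

/-- Weighted averages over discs. -/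
noncomputable def av (k : ℕ) (t : ℝ) (F : ℂ → ℝ) (z : ℂ) : ℝ := ∫ s, F (z + t • s) * P k s

/-- A solution of `Δ u + V u = 0` on a disc, with bounds on the potential. -/
structure Sl (u V : ℂ → ℝ) (l R : ℝ) : Prop where
  hu : Sm u
  hV : Sm V
  eq : ∀ z, ‖z‖ < R → Lap u z = -(V z * u z)
  bd : ∀ z, ‖z‖ < R → |V z| ≤ l ∧ gn V z ≤ l

/-- The regularised square of the solution. -/
noncomputable def yy (u : ℂ → ℝ) (l e : ℝ) (z : ℂ) : ℝ := l * u z ^ 2 + e

/-- The ratio of the squared gradient to the regularised square. -/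
noncomputable def tt (u : ℂ → ℝ) (l e : ℝ) (z : ℂ) : ℝ := Gr u z / yy u l e z

/-- The smooth maximum of the two logarithms. -/
noncomputable def vv (u : ℂ → ℝ) (l e : ℝ) (z : ℂ) : ℝ :=
  Real.log (yy u l e z) + ff (tt u l e z)

/-- The logarithm of the energy density. -/
noncomputable def v0 (u : ℂ → ℝ) (l e : ℝ) (z : ℂ) : ℝ := Real.log (Gr u z + yy u l e z)

/-- The components of the bounded field. -/
noncomputable def BB (u V : ℂ → ℝ) (l e : ℝ) (v : ℂ) (z : ℂ) : ℝ :=
  2 * f1 (tt u l e z) * (V z * u z * D v u z / yy u l e z)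

theorem gn_nonneg (F : ℂ → ℝ) (z : ℂ) : 0 ≤ gn F z := by unfold gn; positivity

theorem gn_cont {F : ℂ → ℝ} (hF : Sm F) : Continuous (gn F) :=
  (smD hF 1).continuous.abs.add (smD hF I).continuous.abs

theorem smdv {B₁ B₂ : ℂ → ℝ} (h1 : Sm B₁) (h2 : Sm B₂) : Sm (dv B₁ B₂) := (smD h1 1).add (smD h2 I)

/-- Continuous functions are integrable on discs. -/
theorem intB {F : ℂ → ℝ} (hF : Continuous F) (z : ℂ) (r : ℝ) : IntegrableOn F (ball z r) :=
  (hF.continuousOn.integrableOn_compact (isCompact_closedBall z r)).mono_set ball_subset_closedBall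

end Pool.Agent.Lib.MP_a52643_an.YA
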