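import Pool.Agent.Lib.MP_a52643_an.YA.Ker

/-!
The potential of the divergence of a bounded field.
-/

namespace Pool.Agent.Lib.MP_a52643_an.YA

open Complex Filter Topology Metric MeasureTheory Set QS
open scoped ContDiff

/-- The singular weight cut at a radius. -/
private noncomputable def div_g (ρ : ℝ) (z : ℂ) : ℂ → ℝ :=
  (ball z ρ).indicator fun x => 1 / ‖z - x‖

private theorem div_g_nonneg (ρ : ℝ) (z x : ℂ) : 0 ≤ div_g ρ z x :=
  indicator_nonneg (fun _ _ => by positivity) x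

private theorem div_g_in {ρ : ℝ} {z x : ℂ} (h : ‖z - x‖ < ρ) : div_g ρ z x = 1 / ‖z - x‖ :=
  indicator_of_mem (by rwa [mem_ball, dist_comm, dist_eq_norm]) _

private theorem div_g_sub (ρ : ℝ) (y x : ℂ) : div_g ρ 0 (y - x) = div_g ρ y x := by
  unfold div_g
  by_cases h : ‖y - x‖ < ρ
  · rw [indicator_of_mem (by simpa using h),
      indicator_of_mem (by rwa [mem_ball, dist_comm, dist_eq_norm]), zero_sub, norm_neg]
  · rw [indicator_of_notMem (by simpa using h),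
      indicator_of_notMem (by rwa [mem_ball, dist_comm, dist_eq_norm])]

private theorem div_g_int {ρ : ℝ} (hρ : 0 ≤ ρ) (z : ℂ) :
    Integrable (div_g ρ z) ∧ ∫ x, div_g ρ z x ≤ 7 * ρ := by
  obtain ⟨h1, h2⟩ := int_inv z hρ
  refine ⟨(integrable_indicator_iff measurableSet_ball).2 h1, ?_⟩
  unfold div_g
  rwa [integral_indicator measurableSet_ball]

private theorem div_bg_int {b : ℂ → ℝ} {m r ρ : ℝ} (hb : Bd b m r) (hρ : 0 ≤ ρ) (y : ℂ) :
    Integrable fun x => |b x| * div_g ρ y x :=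
  (div_g_int hρ y).1.bdd_mul (c := m) (continuous_abs.measurable.comp hb.me).aestronglyMeasurable
    (Eventually.of_forall fun x => by simpa using hb.le x)

/-- The exceptional set. -/
private theorem div_exc {b : ℂ → ℝ} {m r ρ : ℝ} (hb : Bd b m r) (hρ : 0 ≤ ρ) :
    ∃ E : Set ℂ, MeasurableSet E ∧ volume E ≤ ENNReal.ofReal ((∫ x, |b x|) * (7 * ρ)) ∧
      ∀ y, y ∉ E → ∫ x, |b x| * div_g ρ y x ≤ 1 := by
  have h1 : Integrable fun x => |b x| := hb.int'.abs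
  obtain ⟨h2, h3⟩ := div_g_int hρ 0
  have h4 := h1.integrable_convolution (ContinuousLinearMap.mul ℝ ℝ) h2
  have h5 := integral_convolution (ContinuousLinearMap.mul ℝ ℝ) h1 h2
  have e : convolution (fun x => |b x|) (div_g ρ 0) (ContinuousLinearMap.mul ℝ ℝ) volume =
      fun y => ∫ x, |b x| * div_g ρ y x := by
    funext y
    simp only [convolution_def, ContinuousLinearMap.mul_apply', div_g_sub]
  rw [e] at h4 h5
  refine ⟨toMeasurable volume {y | 1 ≤ ∫ x, |b x| * div_g ρ y x}, measurableSet_toMeasurable _ _,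
    ?_, fun y hy => ?_⟩
  · rw [measure_toMeasurable]
    refine (h4.measure_le_integral (Eventually.of_forall fun y => integral_nonneg fun x =>
      mul_nonneg (abs_nonneg _) (div_g_nonneg _ _ _)) fun y hy => hy).trans
      (ENNReal.ofReal_le_ofReal ?_)
    rw [h5, ContinuousLinearMap.mul_apply']
    exact mul_le_mul_of_nonneg_left h3 (integral_nonneg fun x => abs_nonneg _)
  · exact le_of_not_ge fun h => hy (subset_toMeasurable _ _ h)

private theorem div_DN {ε : ℝ} (hε : 0 < ε) {v : ℂ} (hv : v = 1 ∨ v = I) (w : ℂ) :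
    |D v (Nk ε) w| ≤ 4 * (1 / ‖w‖) := by
  have h := gn_Nk hε 0 1 w
  simp only [zero_add, one_mul, norm_one, mul_one] at h
  have h1 := abs_nonneg (D 1 (Nk ε) w)
  have h2 := abs_nonneg (D I (Nk ε) w)
  have h3 : |D 1 (Nk ε) w| + |D I (Nk ε) w| ≤ 4 / ‖w‖ := h
  rw [mul_one_div]
  rcases hv with rfl | rfl <;> linarith

/-- The near part. -/
private theorem div_near {b : ℂ → ℝ} {m r ε δ η : ℝ} (hb : Bd b m r) (hε : 0 < ε) (hεδ : ε ≤ δ)
    (hη : 0 < η) {y z v : ℂ} (hv : v = 1 ∨ v = I) (hz : ‖z - y‖ ≤ η) :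
    |∫ x, (D v (Nk ε) (z - x) - D v (Nk δ) (z - x)) * b x| ≤
      8 * (m * (7 * (2 * η))) + 16 * ∫ x, |b x| * div_g (3 * δ) y x := by
  have hδ : 0 < δ := hε.trans_le hεδ
  have hm : 0 ≤ m := (abs_nonneg _).trans (hb.le 0)
  obtain ⟨g1, g2⟩ := div_g_int (ρ := 2 * η) (by positivity) z
  have g3 := div_bg_int hb (ρ := 3 * δ) (by positivity) y
  have key : ∀ x, ‖(D v (Nk ε) (z - x) - D v (Nk δ) (z - x)) * b x‖ ≤
      8 * (m * div_g (2 * η) z x) + 16 * (|b x| * div_g (3 * δ) y x) := by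
    intro x
    have p1 := mul_nonneg hm (div_g_nonneg (2 * η) z x)
    have p2 := mul_nonneg (abs_nonneg (b x)) (div_g_nonneg (3 * δ) y x)
    by_cases h : 2 * δ ≤ ‖z - x‖
    · rw [D_Nk_far hε hεδ h, sub_self, zero_mul, norm_zero]
      positivity
    have h8 : ‖(D v (Nk ε) (z - x) - D v (Nk δ) (z - x)) * b x‖ ≤
        8 * (|b x| * (1 / ‖z - x‖)) := by
      rw [Real.norm_eq_abs, abs_mul]
      have a1 := div_DN hε hv (z - x)
      have a2 := div_DN hδ hv (z - x)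
      have a3 := abs_sub (D v (Nk ε) (z - x)) (D v (Nk δ) (z - x))
      have a4 := mul_le_mul_of_nonneg_right
        (show |D v (Nk ε) (z - x) - D v (Nk δ) (z - x)| ≤ 8 * (1 / ‖z - x‖) by linarith)
        (abs_nonneg (b x))
      linarith
    refine h8.trans ?_
    by_cases h' : ‖z - x‖ < 2 * η
    · have a1 := mul_le_mul_of_nonneg_right (hb.le x) (show 0 ≤ 1 / ‖z - x‖ by positivity)
      rw [div_g_in h']
      linarith
    · have t1 : ‖y - x‖ ≤ ‖z - x‖ + ‖z - y‖ := by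
        simpa using norm_sub_le (z - x) (z - y) |>.trans' (le_of_eq (by congr 1; ring))
      have t2 : ‖z - x‖ ≤ ‖z - y‖ + ‖y - x‖ := by
        simpa using norm_add_le (z - y) (y - x)
      have t3 : 0 < ‖y - x‖ := by linarith
      have t4 : 0 < ‖z - x‖ := by linarith
      have t5 : 1 / ‖z - x‖ ≤ 2 * (1 / ‖y - x‖) := by
        rw [mul_one_div, div_le_div_iff₀ t4 t3]
        linarith
      have a1 := mul_le_mul_of_nonneg_left t5 (abs_nonneg (b x))
      rw [div_g_in (show ‖y - x‖ < 3 * δ by linarith)]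
      linarith
  refine (Real.norm_eq_abs _ ▸ norm_integral_le_of_norm_le
    (((g1.const_mul m).const_mul 8).add (g3.const_mul 16)) (Eventually.of_forall key)).trans ?_
  simp only [Pi.add_apply]
  rw [integral_add ((g1.const_mul m).const_mul 8) (g3.const_mul 16), integral_const_mul,
    integral_const_mul, integral_const_mul]
  have := mul_le_mul_of_nonneg_left g2 hm
  linarith

/-- The far part. -/
private theorem div_far {A : ℂ → ℝ} {K δ : ℝ} (hA : Sm A) (h0 : ∀ x, 3 ≤ ‖x‖ → A x = 0)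
    (hK : ∀ x, |A x| ≤ K) (hδ : 0 < δ) {u v z : ℂ} (hu : ‖u‖ ≤ 1) (hv : ‖v‖ ≤ 1) (hz : ‖z‖ ≤ 2) :
    |∫ x, D v (Nk δ) (z - x) * D u A x| ≤ K * (40 * cK) * (4 * Real.log (1 + 5 ^ 2 / δ ^ 2)) := by
  have hG := smD (sm_Nk δ) v
  have hK0 : 0 ≤ K := (abs_nonneg _).trans (hK 0)
  have hc : 0 ≤ cK := zero_le_one.trans one_le_cK
  have h1 := ibp1 hA (smAf hG z (-1)) h0 u
  rw [D_Af hG] at h1
  have e1 : ∫ x, D v (Nk δ) (z - x) * D u A x = ∫ x, A x * D u (D v (Nk δ)) (z - x) := by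
    have e2 : ∀ x, z + (-1 : ℝ) • x = z - x := fun x => by rw [neg_one_smul, sub_eq_add_neg]
    simp only [Af, e2, neg_mul, one_mul, mul_neg, integral_neg, neg_inj] at h1
    rw [h1]
    simp only [mul_comm]
  have hw : Continuous fun x => 1 / (δ ^ 2 + ‖z - x‖ ^ 2) :=
    continuous_const.div (by fun_prop) fun x => by positivity
  have g1 : Integrable ((ball z 5).indicator fun x => 1 / (δ ^ 2 + ‖z - x‖ ^ 2)) :=
    (integrable_indicator_iff measurableSet_ball).2 (intB hw z 5)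
  have key : ∀ x, ‖A x * D u (D v (Nk δ)) (z - x)‖ ≤
      K * (40 * cK) * (ball z 5).indicator (fun x => 1 / (δ ^ 2 + ‖z - x‖ ^ 2)) x := by
    intro x
    by_cases h : 3 ≤ ‖x‖
    · rw [h0 x h, zero_mul, norm_zero]
      exact mul_nonneg (by positivity) (indicator_nonneg (fun _ _ => by positivity) x)
    · have t1 := norm_sub_le x z
      rw [indicator_of_mem (by rw [mem_ball, dist_eq_norm]; linarith), Real.norm_eq_abs, abs_mul,
        mul_assoc, mul_one_div]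
      exact mul_le_mul (hK x) (DD_Nk hδ hu hv _) (abs_nonneg _) hK0
  rw [e1]
  refine (Real.norm_eq_abs _ ▸ norm_integral_le_of_norm_le (g1.const_mul _)
    (Eventually.of_forall key)).trans ?_
  rw [integral_const_mul, integral_indicator measurableSet_ball]
  exact mul_le_mul_of_nonneg_left (int_log hδ z (by norm_num)) (by positivity)

/-- The cut field. -/
private theorem div_cut : ∃ C : ℝ, 1 ≤ C ∧ ∀ (B₁ B₂ : ℂ → ℝ) (K Γ : ℝ), Sm B₁ → Sm B₂ → 0 ≤ K →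
    K ≤ Γ → (∀ z, ‖z‖ ≤ 3 → |B₁ z| ≤ K ∧ |B₂ z| ≤ K) → ∫ z in ball (0 : ℂ) 3, |dv B₁ B₂ z| ≤ Γ →
    ∃ A₁ A₂ : ℂ → ℝ, Sm A₁ ∧ Sm A₂ ∧ (∀ x, 3 ≤ ‖x‖ → A₁ x = 0) ∧ (∀ x, 3 ≤ ‖x‖ → A₂ x = 0) ∧
      (∀ x, |A₁ x| ≤ K) ∧ (∀ x, |A₂ x| ≤ K) ∧ (∀ z, ‖z‖ ≤ 2 → dv A₁ A₂ z = dv B₁ B₂ z) ∧
      ∫ z, |dv A₁ A₂ z| ≤ C * Γ := by
  obtain ⟨χ, C, hχ, hC, h1, h0, hb⟩ := exists_cut (a := 5 / 2) (b := 3) (by norm_num) (by norm_num)
  have ha : 0 ≤ volume.real (ball (0 : ℂ) 3) := measureReal_nonneg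
  refine ⟨1 + volume.real (ball (0 : ℂ) 3) * C, le_add_of_nonneg_right (by positivity),
    fun B₁ B₂ K Γ s1 s2 hK hKΓ hB hI => ?_⟩
  have z0 : ∀ B : ℂ → ℝ, ∀ x, 3 ≤ ‖x‖ → χ x * B x = 0 := fun B x hx => by rw [h0 x hx, zero_mul]
  have zb : ∀ B : ℂ → ℝ, (∀ z, ‖z‖ ≤ 3 → |B z| ≤ K) → ∀ x, |χ x * B x| ≤ K := fun B h x => by
    by_cases hx : 3 ≤ ‖x‖
    · rwa [z0 B x hx, abs_zero]
    · rw [abs_mul, abs_of_nonneg (hb x).1]
      exact (mul_le_of_le_one_left (abs_nonneg _) (hb x).2.1).trans (h x (not_le.1 hx).le)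
  have zc : ∀ (B : ℂ → ℝ) (v z : ℂ), ‖z‖ ≤ 2 → D v (fun x => χ x * B x) z = D v B z :=
    fun B v z hz => D_congr (by
      filter_upwards [isOpen_ball.mem_nhds
        (show z ∈ ball (0 : ℂ) (5 / 2) by rw [mem_ball_zero_iff]; linarith)] with x hx
      rw [h1 x (mem_ball_zero_iff.1 hx).le, one_mul]) v
  have t1 : Sm fun x => χ x * B₁ x := hχ.mul s1
  have t2 : Sm fun x => χ x * B₂ x := hχ.mul s2
  refine ⟨_, _, t1, t2, z0 B₁, z0 B₂, zb B₁ fun z hz => (hB z hz).1, zb B₂ fun z hz => (hB z hz).2,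
    fun z hz => by unfold dv; rw [zc B₁ 1 z hz, zc B₂ I z hz], ?_⟩
  rw [← setIntegral_eq_integral_of_forall_compl_eq_zero (s := ball (0 : ℂ) 3) fun x hx => by
    have hx' : 3 ≤ ‖x‖ := by simpa using hx
    unfold dv
    rw [D_out t1 (z0 B₁) 1 x hx', D_out t2 (z0 B₂) I x hx', add_zero, abs_zero]]
  have i1 := intB (smdv s1 s2).continuous.abs 0 3
  have i2 : IntegrableOn (fun _ : ℂ => C * K) (ball (0 : ℂ) 3) := intB continuous_const 0 3
  refine (setIntegral_mono_on (intB (smdv t1 t2).continuous.abs 0 3) (i1.add i2)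
    measurableSet_ball fun x hx => ?_).trans ?_
  · obtain ⟨b1, b2⟩ := hB x (mem_ball_zero_iff.1 hx).le
    obtain ⟨c1, c2, c3, -⟩ := hb x
    have e : dv (fun x => χ x * B₁ x) (fun x => χ x * B₂ x) x =
        χ x * dv B₁ B₂ x + (D 1 χ x * B₁ x + D I χ x * B₂ x) := by
      unfold dv
      rw [D_mul hχ s1, D_mul hχ s2]
      ring
    have a1 := abs_add_le (χ x * dv B₁ B₂ x) (D 1 χ x * B₁ x + D I χ x * B₂ x)
    have a2 := abs_add_le (D 1 χ x * B₁ x) (D I χ x * B₂ x)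
    rw [abs_mul, abs_of_nonneg c1] at a1
    rw [abs_mul, abs_mul] at a2
    have a3 := mul_le_mul_of_nonneg_left b1 (abs_nonneg (D 1 χ x))
    have a4 := mul_le_mul_of_nonneg_left b2 (abs_nonneg (D I χ x))
    have a5 := mul_le_of_le_one_left (abs_nonneg (dv B₁ B₂ x)) c2
    have a6 := mul_le_mul_of_nonneg_right c3 hK
    unfold gn at a6
    rw [e]
    show _ ≤ |dv B₁ B₂ x| + C * K
    linarith
  · simp only [Pi.add_apply]
    rw [integral_add i1 i2, setIntegral_const, smul_eq_mul]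
    have := mul_le_mul_of_nonneg_left (mul_le_mul_of_nonneg_left hKΓ hC) ha
    linarith

/-- Off a small set the gradient of the potential is bounded with a logarithmic loss. -/
theorem div_pot : ∃ C : ℝ, 1 ≤ C ∧ ∀ (B₁ B₂ : ℂ → ℝ) (K Γ : ℝ), Sm B₁ → Sm B₂ → 1 ≤ K → 3 ≤ Γ →
    K ≤ Γ → (∀ z, ‖z‖ ≤ 3 → |B₁ z| ≤ K ∧ |B₂ z| ≤ K) → ∫ z in ball (0 : ℂ) 3, |dv B₁ B₂ z| ≤ Γ →
    ∃ (b : ℂ → ℝ) (m ε₁ : ℝ) (E : Set ℂ), Bd b m 3 ∧ (∀ z, ‖z‖ ≤ 2 → b z = dv B₁ B₂ z) ∧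
      ∫ z, |b z| ≤ C * Γ ∧ MeasurableSet E ∧ volume E ≤ ENNReal.ofReal (1 / Γ ^ 2) ∧ 0 < ε₁ ∧
      ∀ (ε : ℝ) (y z : ℂ), 0 < ε → ε ≤ ε₁ → ‖y‖ ≤ 1 → y ∉ E → ‖z - y‖ ≤ 2 * ε →
        gn (Pot ε b) z ≤ C * K * Real.log Γ := by
  obtain ⟨C, hC, H⟩ := div_cut
  have hc : 0 ≤ cK := zero_le_one.trans one_le_cK
  obtain ⟨M, hM⟩ : ∃ M : ℝ, M = 1 + 5 ^ 2 * (21 * C) ^ 2 := ⟨_, rfl⟩
  have hM0 : 0 < M := by rw [hM]; positivity
  refine ⟨C + (48 + 640 * cK * (M + 6)), le_add_of_le_of_nonneg hC (by positivity),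
    fun B₁ B₂ K Γ s1 s2 hK hΓ hKΓ hB hI => ?_⟩
  obtain ⟨A₁, A₂, t1, t2, z1, z2, k1, k2, he, hb⟩ := H B₁ B₂ K Γ s1 s2 (by linarith) hKΓ hB hI
  have hΓ0 : 0 < Γ := by linarith
  have hC0 : 0 < C := by linarith
  have o1 := D_out t1 z1 1
  have o2 := D_out t2 z2 I
  have ob : ∀ x, 3 ≤ ‖x‖ → dv A₁ A₂ x = 0 := fun x hx => by
    unfold dv; rw [o1 x hx, o2 x hx, add_zero]
  obtain ⟨m, hm⟩ := (smdv t1 t2).continuous.bounded_above_of_compact_support
    (HasCompactSupport.intro (isCompact_closedBall (0 : ℂ) 3) fun x hx =>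
      ob x (not_le.1 (mt mem_closedBall_zero_iff.2 hx)).le)
  have bd : Bd (dv A₁ A₂) m 3 :=
    ⟨(smdv t1 t2).continuous.measurable, hm, fun y hy => ob y hy.le⟩
  have hm0 : 0 ≤ m := (norm_nonneg _).trans (hm 0)
  obtain ⟨δ, hδ⟩ : ∃ δ : ℝ, δ = 1 / (21 * C * Γ ^ 3) := ⟨_, rfl⟩
  have hδ0 : 0 < δ := by rw [hδ]; positivity
  obtain ⟨E, hE, hv, hn⟩ := div_exc bd (ρ := 3 * δ) (by positivity)
  refine ⟨_, m, min (δ / 2) (1 / (28 * (m + 1))), E, bd, he, hb.trans (mul_le_mul_of_nonneg_right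
    (le_add_of_nonneg_right (by positivity)) hΓ0.le), hE, hv.trans (ENNReal.ofReal_le_ofReal ?_),
    by positivity, fun ε y z hε hε1 hy hyE hz => ?_⟩
  · refine (mul_le_mul_of_nonneg_right hb (by positivity)).trans (le_of_eq ?_)
    rw [hδ]
    field_simp
    ring
  have e1 : ε ≤ δ / 2 := hε1.trans (min_le_left _ _)
  have e2 : ε * (28 * (m + 1)) ≤ 1 :=
    (le_div_iff₀ (by positivity)).1 (hε1.trans (min_le_right _ _))
  have e3 : 0 ≤ ε * m := by positivity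
  have hz2 : ‖z‖ ≤ 2 := by
    have := norm_add_le (z - y) y
    rw [sub_add_cancel] at this
    linarith
  have l1 : 1 ≤ Real.log Γ := by
    rw [Real.le_log_iff_exp_le hΓ0]
    linarith [Real.exp_one_lt_d9]
  have l2 : Real.log (1 + 5 ^ 2 / δ ^ 2) ≤ (M + 6) * Real.log Γ := by
    have p1 : 1 ≤ Γ ^ 6 := one_le_pow₀ (by linarith)
    have p2 : 1 + 5 ^ 2 / δ ^ 2 ≤ M * Γ ^ 6 := by
      have : 5 ^ 2 / δ ^ 2 = 5 ^ 2 * (21 * C) ^ 2 * Γ ^ 6 := by
        rw [hδ]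
        field_simp
      rw [this, hM]
      linarith
    have p3 := Real.log_le_log (by positivity) p2
    rw [Real.log_mul hM0.ne' (by positivity), Real.log_pow] at p3
    have p4 := Real.log_le_sub_one_of_pos hM0
    have p5 := mul_le_mul_of_nonneg_left l1 hM0.le
    push_cast at p3
    linarith
  have main : ∀ v : ℂ, v = 1 ∨ v = I → |D v (Pot ε (dv A₁ A₂)) z| ≤
      24 + 2 * (K * (40 * cK) * (4 * ((M + 6) * Real.log Γ))) := by
    intro v hv
    have hv1 : ‖v‖ ≤ 1 := by rcases hv with rfl | rfl <;> simp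
    have cε : Continuous fun x => D v (Nk ε) (z - x) :=
      (smD (sm_Nk ε) v).continuous.comp (continuous_const.sub continuous_id)
    have cδ : Continuous fun x => D v (Nk δ) (z - x) :=
      (smD (sm_Nk δ) v).continuous.comp (continuous_const.sub continuous_id)
    have i0 : Integrable fun x => (D v (Nk ε) (z - x) - D v (Nk δ) (z - x)) * dv A₁ A₂ x :=
      bd.int (cε.sub cδ)
    have i1 : Integrable fun x => D v (Nk δ) (z - x) * D 1 A₁ x :=
      int_out (cδ.mul (smD t1 1).continuous) fun x hx => by rw [o1 x hx, mul_zero]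
    have i2 : Integrable fun x => D v (Nk δ) (z - x) * D I A₂ x :=
      int_out (cδ.mul (smD t2 I).continuous) fun x hx => by rw [o2 x hx, mul_zero]
    have i3 : Integrable fun x => D v (Nk δ) (z - x) * D 1 A₁ x + D v (Nk δ) (z - x) * D I A₂ x :=
      i1.add i2
    have e : D v (Pot ε (dv A₁ A₂)) z =
        (∫ x, (D v (Nk ε) (z - x) - D v (Nk δ) (z - x)) * dv A₁ A₂ x) +
          ((∫ x, D v (Nk δ) (z - x) * D 1 A₁ x) + ∫ x, D v (Nk δ) (z - x) * D I A₂ x) := by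
      rw [D_Pot ε bd, ← integral_add i1 i2, ← integral_add i0 i3]
      refine integral_congr_ae (Eventually.of_forall fun x => ?_)
      simp only [dv]
      ring
    have n1 := div_near bd hε (show ε ≤ δ by linarith) (by positivity) hv hz
    have n2 := hn y hyE
    have f1 := div_far t1 z1 k1 hδ0 (u := 1) (by simp) hv1 hz2
    have f2 := div_far t2 z2 k2 hδ0 (u := I) (by simp) hv1 hz2
    have f3 := mul_le_mul_of_nonneg_left (mul_le_mul_of_nonneg_left l2 (by norm_num : (0 : ℝ) ≤ 4))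
      (show 0 ≤ K * (40 * cK) by positivity)
    rw [e]
    refine (abs_add_le _ _).trans ?_
    have f4 := abs_add_le (∫ x, D v (Nk δ) (z - x) * D 1 A₁ x) (∫ x, D v (Nk δ) (z - x) * D I A₂ x)
    linarith
  have m1 := main 1 (Or.inl rfl)
  have m2 := main I (Or.inr rfl)
  have m3 : 1 ≤ K * Real.log Γ := one_le_mul_of_one_le_of_one_le hK l1
  have m4 : 0 ≤ C * (K * Real.log Γ) := by positivity
  unfold gn
  linarith

end Pool.Agent.Lib.MP_a52643_an.YA
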