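import Pool.Agent.Lib.MP_a52643_an.YA.Glob1

/-!
Length and area on a compact connected surface.
-/

namespace Pool.Agent.Lib.MP_a52643_an.YA

open Complex Filter Topology Metric MeasureTheory Set QS
open scoped ContDiff Laplacian

theorem glob_num {M A : ℝ} (hM : 1 ≤ M) (hA : 0 ≤ A) : ∃ C : ℝ, 0 ≤ C ∧ ∀ l : ℝ, 3 ≤ l →
    A * (√l * (Real.log l * √(Real.log l))) + √(M * l) *
      (Real.log (M * l + A * (√l * (Real.log l * √(Real.log l)))) ^ 2 *
        √(Real.log (M * l + A * (√l * (Real.log l * √(Real.log l)))))) ≤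
      C * √(l * Real.log l ^ 5) := by
  have hk0 : 0 ≤ Real.log (M + A) := Real.log_nonneg (by linarith)
  obtain ⟨k, hk⟩ : ∃ k, k = Real.log (M + A) + 3 := ⟨_, rfl⟩
  have hk1 : 1 ≤ k := by linarith
  refine ⟨A + √M * k ^ 3, by positivity, fun l hl => ?_⟩
  have l0 : 0 < l := by linarith
  obtain ⟨L, hL⟩ : ∃ L, L = Real.log l := ⟨_, rfl⟩
  have L1 : 1 ≤ L := by
    rw [hL, Real.le_log_iff_exp_le l0]
    linarith [Real.exp_one_lt_d9]
  have L2 : L ≤ l := by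
    have := Real.log_le_sub_one_of_pos l0
    linarith
  rw [← hL]
  have s0 : 0 ≤ √L := Real.sqrt_nonneg _
  have s1 : √L ≤ L := by
    rw [Real.sqrt_le_left (by linarith)]; nlinarith
  have s2 : √l ≤ l := by
    rw [Real.sqrt_le_left (by linarith)]; nlinarith
  have s3 : 0 ≤ √l := Real.sqrt_nonneg _
  have e1 : √(l * L ^ 5) = √l * (L ^ 2 * √L) := by
    rw [Real.sqrt_mul l0.le, show L ^ 5 = (L ^ 2) ^ 2 * L by ring,
      Real.sqrt_mul (by positivity), Real.sqrt_sq (by positivity)]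
  have hY : √l * (L * √L) ≤ l ^ 3 := by
    calc _ ≤ l * (l * l) := by gcongr; exact s1.trans L2
      _ = _ := by ring
  have hY0 : 0 ≤ √l * (L * √L) := by positivity
  have hl3 : l ≤ l ^ 3 := by nlinarith [mul_pos l0 l0]
  obtain ⟨W, hW⟩ : ∃ W, W = M * l + A * (√l * (L * √L)) := ⟨_, rfl⟩
  rw [← hW]
  have W1 : 1 ≤ W := by nlinarith [mul_nonneg hA hY0]
  have W2 : W ≤ (M + A) * l ^ 3 := by
    have a1 := mul_le_mul_of_nonneg_left hY hA
    have a2 := mul_le_mul_of_nonneg_left hl3 (show 0 ≤ M by linarith)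
    linarith
  have W3 : Real.log W ≤ k * L := by
    have a1 := Real.log_le_log (by linarith) W2
    rw [Real.log_mul (by linarith) (by positivity), Real.log_pow, ← hL] at a1
    push_cast at a1
    nlinarith
  have W4 : 0 ≤ Real.log W := Real.log_nonneg W1
  have W5 : √(Real.log W) ≤ k * √L := by
    refine (Real.sqrt_le_sqrt W3).trans ?_
    rw [Real.sqrt_mul (by linarith)]
    refine mul_le_mul_of_nonneg_right ?_ s0
    rw [Real.sqrt_le_left (by linarith)]; nlinarith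
  have b1 : √l * (L * √L) ≤ √l * (L ^ 2 * √L) := by
    gcongr; nlinarith
  have b2 : √(M * l) * (Real.log W ^ 2 * √(Real.log W)) ≤
      √M * √l * ((k * L) ^ 2 * (k * √L)) := by
    rw [Real.sqrt_mul (by linarith)]
    gcongr
  rw [e1]
  have b3 := mul_le_mul_of_nonneg_left b1 hA
  calc _ ≤ A * (√l * (L ^ 2 * √L)) + √M * √l * ((k * L) ^ 2 * (k * √L)) := add_le_add b3 b2
    _ = _ := by ring

theorem glob_vol (c : ℂ) {r : ℝ} (hr : 0 < r) (B : Set ℂ) :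
    volume ((fun w : ℂ => c + r • w) '' B) = ENNReal.ofReal (r ^ 2) * volume B := by
  have e : (fun w : ℂ => c + r • w) '' B = (fun w : ℂ => c + w) '' ((fun w : ℂ => r • w) '' B) := by
    rw [image_image]
  rw [e, image_add_left, measure_preimage_add, image_smul, Measure.addHaar_smul,
    Complex.finrank_real_complex, abs_of_nonneg (by positivity)]

theorem glob_len (c : ℂ) {r : ℝ} (hr : 0 < r) (B : Set ℂ) :
    μH[1] ((fun w : ℂ => c + r • w) '' B) ≤ ENNReal.ofReal r * μH[1] B := by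
  have h : LipschitzWith (Real.toNNReal r) (fun w : ℂ => c + r • w) := by
    refine LipschitzWith.of_dist_le' fun a b => le_of_eq ?_
    rw [dist_add_left, dist_smul₀, Real.norm_of_nonneg hr.le]
  have := h.hausdorffMeasure_image_le (d := 1) zero_le_one B
  rwa [ENNReal.rpow_one] at this

theorem glob_loc {X : Type} [TopologicalSpace X] [ChartedSpace ℂ X] [CompactSpace X]
    [PreconnectedSpace X] {σ : X → ℂ → ℝ}
    (hσ : ∀ x, ContDiffOn ℝ ∞ (σ x) (chartAt ℂ x).target) (x : X) {c : ℂ} {r : ℝ} (hr : 0 < r)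
    (hc : closedBall c (300 * r) ⊆ (chartAt ℂ x).target) : ∃ C : ℝ, 0 ≤ C ∧
      ∀ φ l, 3 ≤ l → φ ≠ 0 → Eig σ φ l →
        μH[1] {z ∈ closedBall c (r / 2) | φ ((chartAt ℂ x).symm z) = 0} ≤
          ENNReal.ofReal (C * √(l * Real.log l ^ 5)) ∧
        ∀ δ, 0 < δ → volume {z ∈ closedBall c (r / 2) | |φ ((chartAt ℂ x).symm z)| ≤
            δ * ‖fderiv ℝ (φ ∘ (chartAt ℂ x).symm) z‖} ≤
          ENNReal.ofReal (C * δ * √(l * Real.log l ^ 5)) := by
  obtain ⟨M, hM, HM⟩ := pack2 (chartAt ℂ x).open_target hr hc (hσ x)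
  have hct : c ∈ (chartAt ℂ x).target := hc (mem_closedBall_self (by positivity))
  obtain ⟨A, hA, HA⟩ := base2 hσ ((chartAt ℂ x).symm c)
    ((chartAt ℂ x).source ∩ chartAt ℂ x ⁻¹' ball c r)
    (((chartAt ℂ x).isOpen_inter_preimage isOpen_ball).mem_nhds
      ⟨(chartAt ℂ x).map_target hct, by
        rw [mem_preimage, (chartAt ℂ x).right_inv hct]; exact mem_ball_self hr⟩)
  obtain ⟨C0, hC0, H0⟩ := loc_len
  obtain ⟨C1, hC1, H1⟩ := glob_num hM hA
  refine ⟨r * (C0 * C1), by positivity, fun φ l hl h0 h => ?_⟩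
  obtain ⟨p, ⟨p1, p2⟩, p3⟩ := HA φ l h hl
  have H2 := H1 l hl
  have l1 : 1 ≤ Real.log l := by
    rw [Real.le_log_iff_exp_le (by linarith)]
    linarith [Real.exp_one_lt_d9]
  obtain ⟨Y, hY⟩ : ∃ Y, Y = A * (√l * (Real.log l * √(Real.log l))) := ⟨_, rfl⟩
  have Y0 : 0 ≤ Y := by rw [hY]; positivity
  rw [← hY] at H2 p3
  have q0 : 0 < |φ p| := by
    refine abs_pos.2 fun k => h0 (funext fun y => ?_)
    have := p3 y
    rw [k, abs_zero, mul_zero] at this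
    exact abs_nonpos_iff.1 this
  obtain ⟨S, hS⟩ : ∃ S, S = 1 / (Real.exp Y * |φ p|) := ⟨_, rfl⟩
  have E0 := Real.exp_pos Y
  have S0 : 0 < S := by rw [hS]; positivity
  obtain ⟨u, V, hsl, hu⟩ := HM l S (φ ∘ (chartAt ℂ x).symm) (by linarith) (h.1 x) (h.2 x)
  have back : ∀ z : ℂ, c + r • (r⁻¹ • (z - c)) = z := fun z => by
    rw [smul_inv_smul₀ hr.ne', add_sub_cancel]
  have nb : ∀ (z : ℂ) (t : ℝ), ‖z - c‖ ≤ r * t → ‖r⁻¹ • (z - c)‖ ≤ t := fun z t hz => by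
    rw [norm_smul, Real.norm_of_nonneg (by positivity), inv_mul_le_iff₀ hr]
    exact hz
  have hN : Nm u V (M * l) Y := by
    refine ⟨hsl, by nlinarith, Y0, fun z hz => ?_, ?_⟩
    · rw [(hu z hz).1, abs_mul, abs_of_pos S0, hS, one_div, inv_mul_le_iff₀ (by positivity),
        mul_one]
      exact p3 _
    · have a1 : ‖r⁻¹ • (chartAt ℂ x p - c)‖ ≤ 1 :=
        nb _ 1 (by rw [mul_one]; exact (mem_ball_iff_norm.1 p2).le)
      refine ⟨_, a1, le_of_eq ?_⟩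
      rw [(hu _ (by linarith)).1, back, Function.comp_apply, (chartAt ℂ x).left_inv p1, abs_mul,
        abs_of_pos S0, hS, Real.exp_neg]
      field_simp
  obtain ⟨G1, G2⟩ := H0 u V (M * l) Y hN
  obtain ⟨B, hB⟩ : ∃ B, B = Y + √(M * l) *
      (Real.log (M * l + Y) ^ 2 * √(Real.log (M * l + Y))) := ⟨_, rfl⟩
  rw [← hB] at H2 G1 G2
  have H3 : C0 * B ≤ C0 * (C1 * √(l * Real.log l ^ 5)) :=
    mul_le_mul_of_nonneg_left H2 (by linarith)
  refine ⟨?_, fun δ hδ => ?_⟩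
  · refine (measure_mono (t := (fun w : ℂ => c + r • w) '' {z : ℂ | ‖z‖ ≤ 1 / 2 ∧ u z = 0})
      fun z hz => ?_).trans ((glob_len c hr _).trans ?_)
    · have a1 : ‖r⁻¹ • (z - c)‖ ≤ 1 / 2 :=
        nb _ _ ((mem_closedBall_iff_norm.1 hz.1).trans (by linarith))
      refine ⟨r⁻¹ • (z - c), ⟨a1, ?_⟩, back z⟩
      rw [(hu _ (by linarith)).1, back, Function.comp_apply, hz.2, mul_zero]
    · refine (mul_le_mul_right G1 _).trans ?_
      rw [← ENNReal.ofReal_mul hr.le]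
      refine ENNReal.ofReal_le_ofReal ?_
      calc _ ≤ r * (C0 * (C1 * √(l * Real.log l ^ 5))) := mul_le_mul_of_nonneg_left H3 hr.le
        _ = _ := by ring
  · refine (measure_mono (t := (fun w : ℂ => c + r • w) ''
      {z : ℂ | ‖z‖ ≤ 1 ∧ u z ^ 2 ≤ (δ / r) ^ 2 * Gr u z}) fun z hz => ?_).trans ?_
    · have a1 : ‖r⁻¹ • (z - c)‖ ≤ 1 :=
        nb _ _ ((mem_closedBall_iff_norm.1 hz.1).trans (by linarith))
      refine ⟨r⁻¹ • (z - c), ⟨a1, ?_⟩, back z⟩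
      obtain ⟨a2, a3⟩ := hu (r⁻¹ • (z - c)) (by linarith)
      rw [back] at a2 a3
      have a4 := pow_le_pow_left₀ (abs_nonneg _) hz.2 2
      rw [sq_abs] at a4
      rw [a2, Function.comp_apply]
      calc _ = S ^ 2 * φ ((chartAt ℂ x).symm z) ^ 2 := by ring
        _ ≤ S ^ 2 * (δ * ‖fderiv ℝ (φ ∘ (chartAt ℂ x).symm) z‖) ^ 2 :=
          mul_le_mul_of_nonneg_left a4 (sq_nonneg _)
        _ = (δ / r) ^ 2 * ((S * r) ^ 2 * ‖fderiv ℝ (φ ∘ (chartAt ℂ x).symm) z‖ ^ 2) := by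
          field_simp
        _ ≤ _ := mul_le_mul_of_nonneg_left a3 (sq_nonneg _)
    · rw [glob_vol c hr]
      refine (mul_le_mul_right (G2 (δ / r) (by positivity)) _).trans ?_
      rw [← ENNReal.ofReal_mul (by positivity)]
      refine ENNReal.ofReal_le_ofReal ?_
      calc _ = r * δ * (C0 * B) := by field_simp
        _ ≤ r * δ * (C0 * (C1 * √(l * Real.log l ^ 5))) :=
          mul_le_mul_of_nonneg_left H3 (by positivity)
        _ = _ := by ring

theorem glob_union {α : Type} [MeasurableSpace α] (μ : Measure α) {s t : Set α} {P : α → Prop}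
    {a b : ℝ} (ha : 0 ≤ a) (hb : 0 ≤ b) (h1 : μ {z ∈ s | P z} ≤ ENNReal.ofReal a)
    (h2 : μ {z ∈ t | P z} ≤ ENNReal.ofReal b) :
    μ {z ∈ s ∪ t | P z} ≤ ENNReal.ofReal (a + b) := by
  rw [ENNReal.ofReal_add ha hb]
  refine le_trans (measure_mono ?_) ((measure_union_le _ _).trans (add_le_add h1 h2))
  rintro z ⟨hz | hz, hp⟩
  · exact Or.inl ⟨hz, hp⟩
  · exact Or.inr ⟨hz, hp⟩

theorem glob_mono {α : Type} [MeasurableSpace α] (μ : Measure α) {s t : Set α} {P : α → Prop}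
    {a : ENNReal} (h : s ⊆ t) (h2 : μ {z ∈ t | P z} ≤ a) : μ {z ∈ s | P z} ≤ a := by
  refine le_trans (measure_mono ?_) h2
  exact fun z hz => ⟨h hz.1, hz.2⟩

theorem main2 {X : Type} [TopologicalSpace X] [ChartedSpace ℂ X] [CompactSpace X]
    [PreconnectedSpace X] {σ : X → ℂ → ℝ}
    (hσ : ∀ x, ContDiffOn ℝ ∞ (σ x) (chartAt ℂ x).target) (x : X) (K : Set ℂ)
    (hK : IsCompact K) (hKx : K ⊆ (chartAt ℂ x).target) : ∃ C : ℝ, 0 ≤ C ∧
      ∀ φ l, 3 ≤ l → φ ≠ 0 → Eig σ φ l →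
        μH[1] {z ∈ K | φ ((chartAt ℂ x).symm z) = 0} ≤
          ENNReal.ofReal (C * √(l * Real.log l ^ 5)) ∧
        ∀ δ, 0 < δ → volume {z ∈ K | |φ ((chartAt ℂ x).symm z)| ≤
            δ * ‖fderiv ℝ (φ ∘ (chartAt ℂ x).symm) z‖} ≤
          ENNReal.ofReal (C * δ * √(l * Real.log l ^ 5)) := by
  refine hK.induction_on (p := fun K => ∃ C : ℝ, 0 ≤ C ∧
      ∀ φ l, 3 ≤ l → φ ≠ 0 → Eig σ φ l →
        μH[1] {z ∈ K | φ ((chartAt ℂ x).symm z) = 0} ≤
          ENNReal.ofReal (C * √(l * Real.log l ^ 5)) ∧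
        ∀ δ, 0 < δ → volume {z ∈ K | |φ ((chartAt ℂ x).symm z)| ≤
            δ * ‖fderiv ℝ (φ ∘ (chartAt ℂ x).symm) z‖} ≤
          ENNReal.ofReal (C * δ * √(l * Real.log l ^ 5))) ?_ ?_ ?_ ?_
  · exact ⟨0, le_rfl, fun φ l _ _ _ => ⟨by simp, fun δ _ => by simp⟩⟩
  · rintro s t hst ⟨C, hC, H⟩
    refine ⟨C, hC, fun φ l hl h0 h => ?_⟩
    obtain ⟨a1, a2⟩ := H φ l hl h0 h
    exact ⟨glob_mono _ hst a1, fun δ hδ => glob_mono _ hst (a2 δ hδ)⟩
  · rintro s t ⟨C, hC, H⟩ ⟨C', hC', H'⟩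
    refine ⟨C + C', by positivity, fun φ l hl h0 h => ?_⟩
    obtain ⟨a1, a2⟩ := H φ l hl h0 h
    obtain ⟨b1, b2⟩ := H' φ l hl h0 h
    refine ⟨?_, fun δ hδ => ?_⟩
    · rw [add_mul]
      exact glob_union _ (by positivity) (by positivity) a1 b1
    · rw [add_mul, add_mul]
      exact glob_union _ (by positivity) (by positivity) (a2 δ hδ) (b2 δ hδ)
  · intro c hc
    obtain ⟨r, r0, hr⟩ := exists_ball (chartAt ℂ x).open_target (hKx hc)
    refine ⟨closedBall c (r / 100 / 2),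
      mem_nhdsWithin_of_mem_nhds (closedBall_mem_nhds c (by positivity)), ?_⟩
    exact glob_loc hσ x (by positivity)
      ((closedBall_subset_closedBall (by linarith)).trans hr)

/-- The total length of the zero set. -/
theorem main3 {X : Type} [MetricSpace X] [MeasurableSpace X] [BorelSpace X] [ChartedSpace ℂ X]
    [CompactSpace X] [PreconnectedSpace X] {σ : X → ℂ → ℝ}
    (hσ : ∀ x, ContDiffOn ℝ ∞ (σ x) (chartAt ℂ x).target)
    (hL : ∀ x : X, LocallyLipschitzOn (chartAt ℂ x).target (chartAt ℂ x).symm) :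
    ∃ C : ℝ, 0 ≤ C ∧ ∀ φ l, 3 ≤ l → φ ≠ 0 → Eig σ φ l →
      μH[1] {p | φ p = 0} ≤ ENNReal.ofReal (C * √(l * Real.log l ^ 5)) := by
  have key : ∃ C : ℝ, 0 ≤ C ∧ ∀ φ l, 3 ≤ l → φ ≠ 0 → Eig σ φ l →
      μH[1] {p ∈ (univ : Set X) | φ p = 0} ≤ ENNReal.ofReal (C * √(l * Real.log l ^ 5)) := by
    refine isCompact_univ.induction_on (p := fun s : Set X => ∃ C : ℝ, 0 ≤ C ∧
      ∀ φ l, 3 ≤ l → φ ≠ 0 → Eig σ φ l →
        μH[1] {p ∈ s | φ p = 0} ≤ ENNReal.ofReal (C * √(l * Real.log l ^ 5))) ?_ ?_ ?_ ?_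
    · exact ⟨0, le_rfl, fun φ l _ _ _ => by simp⟩
    · rintro s t hst ⟨C, hC, H⟩
      exact ⟨C, hC, fun φ l hl h0 h => glob_mono _ hst (H φ l hl h0 h)⟩
    · rintro s t ⟨C, hC, H⟩ ⟨C', hC', H'⟩
      refine ⟨C + C', by positivity, fun φ l hl h0 h => ?_⟩
      rw [add_mul]
      exact glob_union _ (by positivity) (by positivity) (H φ l hl h0 h) (H' φ l hl h0 h)
    · intro x _
      obtain ⟨K, t, ht, hK⟩ := hL x (mem_chart_target ℂ x)
      have h1 : (chartAt ℂ x).target ∈ 𝓝 (chartAt ℂ x x) := chart_target_mem_nhds ℂ x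
      rw [nhdsWithin_eq_nhds.2 h1] at ht
      obtain ⟨ρ, ρ0, hρ⟩ := Metric.nhds_basis_closedBall.mem_iff.1 (inter_mem ht h1)
      obtain ⟨C, hC, H⟩ := main2 hσ x (closedBall (chartAt ℂ x x) ρ) (isCompact_closedBall _ _)
        (hρ.trans inter_subset_right)
      refine ⟨(chartAt ℂ x).source ∩ chartAt ℂ x ⁻¹' ball (chartAt ℂ x x) ρ,
        mem_nhdsWithin_of_mem_nhds (((chartAt ℂ x).isOpen_inter_preimage isOpen_ball).mem_nhds
          ⟨mem_chart_source ℂ x, mem_ball_self ρ0⟩), K * C, by positivity,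
        fun φ l hl h0 h => ?_⟩
      have a1 := (hK.mono (s := {z ∈ closedBall (chartAt ℂ x x) ρ | φ ((chartAt ℂ x).symm z) = 0})
        fun z hz => (hρ hz.1).1).hausdorffMeasure_image_le (d := 1) zero_le_one
      rw [ENNReal.rpow_one] at a1
      refine (measure_mono fun p hp => ?_).trans (a1.trans ?_)
      · refine ⟨chartAt ℂ x p, ⟨ball_subset_closedBall hp.1.2, ?_⟩, (chartAt ℂ x).left_inv hp.1.1⟩
        rw [(chartAt ℂ x).left_inv hp.1.1]
        exact hp.2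
      · refine (mul_le_mul_right (H φ l hl h0 h).1 _).trans (le_of_eq ?_)
        rw [mul_assoc, ENNReal.ofReal_mul K.coe_nonneg, ENNReal.ofReal_coe_nnreal]
  obtain ⟨C, hC, H⟩ := key
  exact ⟨C, hC, fun φ l hl h0 h => by simpa using H φ l hl h0 h⟩

end Pool.Agent.Lib.MP_a52643_an.YA
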