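import Pool.Agent.Lib.MP_a52643_an.YA.Loc
import Pool.Agent.Lib.MP_a52643_an.QS.Glob

/-!
The theorem on a compact connected surface.
-/

namespace Pool.Agent.Lib.MP_a52643_an.YA

open Complex Filter Topology Metric MeasureTheory Set QS
open scoped ContDiff Laplacian

private theorem glob1_norm (F : ℂ → ℝ) (z : ℂ) : ‖fderiv ℝ F z‖ ^ 2 ≤ Gr F z := by
  have h : ‖fderiv ℝ F z‖ ≤ √(Gr F z) := by
    refine ContinuousLinearMap.opNorm_le_bound _ (Real.sqrt_nonneg _) fun v => ?_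
    refine abs_le_of_sq_le_sq' ?_ (by positivity) |> abs_le.2
    have e : fderiv ℝ F z v = _ := D_lin F v z
    rw [mul_pow, Real.sq_sqrt (Gr_nonneg F z), e, Complex.sq_norm, Complex.normSq_apply, Gr]
    nlinarith [sq_nonneg (v.re * D I F z - v.im * D 1 F z)]
  exact (pow_le_pow_left₀ (norm_nonneg _) h 2).trans_eq (Real.sq_sqrt (Gr_nonneg F z))

private theorem glob1_log {M A l : ℝ} (hM : 1 ≤ M) (hA : 0 ≤ A) (hl : 3 ≤ l) :
    √(M * l) * (Real.log (M * l + A * (√l * (Real.log l * √(Real.log l)))) *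
      √(Real.log (M * l + A * (√l * (Real.log l * √(Real.log l)))))) ≤
    √M * ((Real.log (M + A) + 2) * √(Real.log (M + A) + 2)) *
      (√l * (Real.log l * √(Real.log l))) := by
  have l0 : 0 < l := by linarith
  have h1 : 1 ≤ Real.log l := by
    rw [Real.le_log_iff_exp_le l0]
    linarith [Real.exp_one_lt_d9]
  have h2 : Real.log l ≤ l := (Real.log_le_sub_one_of_pos l0).trans (by linarith)
  have h3 : √l * (Real.log l * √(Real.log l)) ≤ l ^ 2 := by
    calc _ ≤ √l * (l * √l) := by gcongr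
      _ = l * (√l * √l) := by ring
      _ = _ := by rw [Real.mul_self_sqrt l0.le, sq]
  have h4 : 0 ≤ Real.log (M + A) := Real.log_nonneg (by linarith)
  have h5 : 0 ≤ √l * (Real.log l * √(Real.log l)) := by positivity
  have h6 : Real.log (M * l + A * (√l * (Real.log l * √(Real.log l)))) ≤
      (Real.log (M + A) + 2) * Real.log l := by
    have a1 : M * l + A * (√l * (Real.log l * √(Real.log l))) ≤ (M + A) * l ^ 2 := by
      have a2 := mul_le_mul_of_nonneg_left h3 hA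
      have a3 : M * l ≤ M * l ^ 2 := mul_le_mul_of_nonneg_left (by nlinarith) (by linarith)
      linarith
    refine (Real.log_le_log (by positivity) a1).trans ?_
    rw [Real.log_mul (by positivity) (by positivity), Real.log_pow]
    push_cast
    nlinarith
  generalize Real.log (M * l + A * (√l * (Real.log l * √(Real.log l)))) = L at h6
  calc _ ≤ √(M * l) * (((Real.log (M + A) + 2) * Real.log l) *
        √((Real.log (M + A) + 2) * Real.log l)) := by gcongr
    _ = _ := by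
      rw [Real.sqrt_mul (by linarith), Real.sqrt_mul (by linarith)]
      ring

/-- Rescaled global data for the equation on a disc of a chart. -/
theorem pack2 {U : Set ℂ} (hU : IsOpen U) {c : ℂ} {r : ℝ} (hr : 0 < r)
    (hc : closedBall c (300 * r) ⊆ U) {σ : ℂ → ℝ} (hσ : ContDiffOn ℝ ∞ σ U) : ∃ M : ℝ, 1 ≤ M ∧
      ∀ (l S : ℝ) (f : ℂ → ℝ), 1 ≤ l → ContDiffOn ℝ ∞ f U →
        (∀ z ∈ U, Δ f z = -l * σ z * f z) → ∃ u V, Sl u V (M * l) 100 ∧
          ∀ z, ‖z‖ < 100 → u z = S * f (c + r • z) ∧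
            (S * r) ^ 2 * ‖fderiv ℝ f (c + r • z)‖ ^ 2 ≤ Gr u z := by
  have hr' : 0 < 100 * r := by positivity
  have hc' : closedBall c (3 * (100 * r)) ⊆ U := by rwa [← mul_assoc, show (3 * 100 : ℝ) = 300 by
    norm_num]
  obtain ⟨τ, t1, t2⟩ := extend hU hr' hc' hσ
  have b1 : ∀ z : ℂ, ‖z‖ < 100 → c + r • z ∈ ball c (2 * (100 * r)) := fun z hz => by
    rw [mem_ball_iff_norm, add_sub_cancel_left, norm_smul, Real.norm_of_nonneg hr.le]
    nlinarith
  have b2 : ∀ s ∈ ball c (2 * (100 * r)), s ∈ U := fun s hs =>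
    hc' (closedBall_subset_closedBall (by linarith) (ball_subset_closedBall hs))
  have s1 : Sm fun z => r ^ 2 * Af c r τ z := contDiff_const.mul (smAf t1 c r)
  obtain ⟨K, hK⟩ := (isCompact_closedBall (0 : ℂ) 100).exists_bound_of_continuousOn
    (s1.continuous.abs.add (gn_cont s1)).continuousOn
  refine ⟨max 1 K, le_max_left _ _, fun l S f hl hf he => ?_⟩
  obtain ⟨g, g1, g2⟩ := extend hU hr' hc' hf
  have ev : ∀ z : ℂ, ‖z‖ < 100 → g =ᶠ[𝓝 (c + r • z)] f := fun z hz => by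
    filter_upwards [isOpen_ball.mem_nhds (b1 z hz)] with a ha using g2 a ha
  refine ⟨fun z => S * Af c r g z, fun z => l * (r ^ 2 * Af c r τ z),
    ⟨contDiff_const.mul (smAf g1 c r), contDiff_const.mul s1, fun z hz => ?_, fun z hz => ?_⟩,
    fun z hz => ⟨congrArg (S * ·) (g2 _ (b1 z hz)), ?_⟩⟩
  · rw [Lap_cmul (smAf g1 c r), Lap_Af g1, ← laplacian_eq g1,
      (InnerProductSpace.laplacian_congr_nhds (ev z hz)).self_of_nhds, he _ (b2 _ (b1 z hz)),
      Af, Af, t2 _ (b1 z hz), g2 _ (b1 z hz)]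
    ring
  · have k1 := ((le_abs_self _).trans (hK z (mem_closedBall_zero_iff.2 hz.le))).trans
      (le_max_right 1 K)
    have l0 : 0 ≤ l := by linarith
    have k2 : gn (fun z => l * (r ^ 2 * Af c r τ z)) z =
        l * gn (fun z => r ^ 2 * Af c r τ z) z := by
      simp only [gn, D_cmul s1, abs_mul, abs_of_nonneg l0]
      ring
    simp only [Pi.add_apply] at k1
    rw [k2, abs_mul, abs_of_nonneg l0, mul_comm (max 1 K)]
    exact ⟨mul_le_mul_of_nonneg_left (by linarith [gn_nonneg (fun z => r ^ 2 * Af c r τ z) z]) l0,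
      mul_le_mul_of_nonneg_left (by linarith [abs_nonneg (r ^ 2 * Af c r τ z)]) l0⟩
  · rw [← (ev z hz).fderiv_eq]
    refine (mul_le_mul_of_nonneg_left (glob1_norm g _) (sq_nonneg _)).trans_eq ?_
    simp only [Gr, D_cmul (smAf g1 c r), D_Af g1]
    simp only [Af]
    ring

variable {X : Type} [TopologicalSpace X] [ChartedSpace ℂ X] [CompactSpace X]
  [PreconnectedSpace X] {σ : X → ℂ → ℝ}

/-- Every neighbourhood carries a point where the eigenfunction is not small. -/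
theorem base2 (hσ : ∀ x, ContDiffOn ℝ ∞ (σ x) (chartAt ℂ x).target) (y : X) (N : Set X)
    (hN : N ∈ 𝓝 y) : ∃ A : ℝ, 0 ≤ A ∧ ∀ φ l, Eig σ φ l → 3 ≤ l → ∃ z ∈ N, ∀ x,
      |φ x| ≤ Real.exp (A * (√l * (Real.log l * √(Real.log l)))) * |φ z| := by
  have : Nonempty X := ⟨y⟩
  have hY : ∀ l : ℝ, 3 ≤ l → 0 ≤ √l * (Real.log l * √(Real.log l)) := fun l hl =>
    mul_nonneg (Real.sqrt_nonneg _)
      (mul_nonneg (Real.log_nonneg (by linarith)) (Real.sqrt_nonneg _))
  have mono : ∀ {a A A' l : ℝ} {b : ℝ}, 3 ≤ l → A ≤ A' →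
      a ≤ Real.exp (A * (√l * (Real.log l * √(Real.log l)))) * |b| →
      a ≤ Real.exp (A' * (√l * (Real.log l * √(Real.log l)))) * |b| := fun hl hA h =>
    h.trans (mul_le_mul_of_nonneg_right
      (Real.exp_le_exp.2 (mul_le_mul_of_nonneg_right hA (hY _ hl))) (abs_nonneg _))
  obtain ⟨A, H⟩ := QSLoc.chain (ι := {p : (X → ℝ) × ℝ // Eig σ p.1 p.2 ∧ 3 ≤ p.2})
    (fun N A i => ∃ z ∈ N, ∀ x, |i.1.1 x| ≤
      Real.exp (A * (√i.1.2 * (Real.log i.1.2 * √(Real.log i.1.2)))) * |i.1.1 z|)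
    (fun N A A' i hA ⟨z, hz, h⟩ => ⟨z, hz, fun x => mono i.2.2 hA (h x)⟩)
    (fun i => by
      obtain ⟨x, -, hx⟩ := isCompact_univ.exists_isMaxOn univ_nonempty
        i.2.1.cont.abs.continuousOn
      exact ⟨x, fun N hN => ⟨x, mem_of_mem_nhds hN, fun x' => by simpa using hx (mem_univ x')⟩⟩)
    (fun x0 => by
      obtain ⟨r', r0, hr⟩ := exists_ball (chartAt ℂ x0).open_target (mem_chart_target ℂ x0)
      obtain ⟨r, rfl⟩ : ∃ r, r' = 100 * r := ⟨r' / 100, by ring⟩
      have r1 : 0 < r := by linarith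
      rw [← mul_assoc, show (3 * 100 : ℝ) = 300 by norm_num] at hr
      obtain ⟨M, M1, HM⟩ := pack2 (chartAt ℂ x0).open_target r1 hr (hσ x0)
      have hE : ∀ φ l, Eig σ φ l → ∀ S, 1 ≤ l → ∃ u V, Sl u V (M * l) 100 ∧
          ∀ z, ‖z‖ < 100 → u z = S * φ ((chartAt ℂ x0).symm (chartAt ℂ x0 x0 + r • z)) :=
        fun φ l h S hl => by
          obtain ⟨u, V, h1, h2⟩ := HM l S _ hl (h.1 x0) (h.2 x0)
          exact ⟨u, V, h1, fun z hz => (h2 z hz).1⟩
      have hx0 : x0 ∈ (chartAt ℂ x0).source := mem_chart_source ℂ x0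
      generalize chartAt ℂ x0 = e at hE hx0
      generalize hc : e x0 = c at hE
      have hVo : IsOpen (e.source ∩ e ⁻¹' ball c r) := e.isOpen_inter_preimage isOpen_ball
      have co : ∀ p ∈ e.source ∩ e ⁻¹' ball c r, ∃ z : ℂ, ‖z‖ ≤ 1 ∧ c + r • z = e p :=
        fun p hp => ⟨r⁻¹ • (e p - c), by
          have : ‖e p - c‖ < r := mem_ball_iff_norm.1 hp.2
          rw [norm_smul, Real.norm_of_nonneg (by positivity), inv_mul_le_iff₀ r1]
          linarith, by rw [smul_inv_smul₀ r1.ne', add_sub_cancel]⟩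
      refine ⟨_, hVo.mem_nhds ⟨hx0, by rw [mem_preimage, hc]; exact mem_ball_self r1⟩,
        fun x hx y hy => ⟨_, hVo.mem_nhds hx, fun Ny hNy A => ?_⟩⟩
      have hpre : e.symm ⁻¹' Ny ∈ 𝓝 (e y) := by
        apply (e.continuousAt_symm (e.map_source hy.1)).preimage_mem_nhds
        rw [e.left_inv hy.1]
        exact hNy
      obtain ⟨ε, hε, hεN⟩ := Metric.mem_nhds_iff.1 hpre
      obtain ⟨C, C1, HC⟩ := loc_prop (ρ := min (ε / (2 * r)) 1) (by positivity) (min_le_right _ _)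
      obtain ⟨z₁, y1, y2⟩ := co y hy
      refine ⟨C * (|A| + √M * ((Real.log (M + |A|) + 2) * √(Real.log (M + |A|) + 2))), ?_⟩
      rintro ⟨⟨φ, l⟩, i1, i2⟩ ⟨p, hp, h1⟩
      simp only at i1 i2 h1 ⊢
      have h2 := fun x => mono i2 (le_abs_self A) (h1 x)
      have h3 := glob1_log M1 (abs_nonneg A) i2
      have h4 := hY l i2
      generalize √l * (Real.log l * √(Real.log l)) = Y at h2 h3 h4 ⊢
      by_cases h0 : φ p = 0
      · refine ⟨y, mem_of_mem_nhds hNy, fun x => (h2 x).trans ?_⟩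
        rw [h0, abs_zero, mul_zero]
        positivity
      obtain ⟨S, hS⟩ : ∃ S, S = Real.exp (|A| * Y) * |φ p| := ⟨_, rfl⟩
      have S0 : 0 < S := by rw [hS]; positivity
      obtain ⟨u, V, u1, u2⟩ := hE φ l i1 S⁻¹ (by linarith)
      have u3 : ∀ z, ‖z‖ < 100 → |u z| = |φ (e.symm (c + r • z))| / S := fun z hz => by
        rw [u2 z hz, abs_mul, abs_of_pos (inv_pos.2 S0), inv_mul_eq_div]
      obtain ⟨z₀, p1, p2⟩ := co p hp
      obtain ⟨z, z1, z2⟩ := HC u V (M * l) (|A| * Y) z₁ ⟨u1, by nlinarith, by positivity,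
        fun z hz => by rw [u3 z hz, div_le_one S0, hS]; exact h2 _, z₀, p1, by
          rw [u3 z₀ (by linarith), p2, e.left_inv hp.1, hS, Real.exp_neg]
          have := abs_pos.2 h0
          exact le_of_eq (by field_simp)⟩ y1
      have z3 : ‖z‖ < 100 := by
        linarith [norm_le_norm_add_norm_sub' z z₁, min_le_right (ε / (2 * r)) 1]
      refine ⟨e.symm (c + r • z), hεN ?_, fun x => (h2 x).trans ?_⟩
      · rw [mem_ball_iff_norm, ← y2, add_sub_add_left_eq_sub, ← smul_sub, norm_smul,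
          Real.norm_of_nonneg r1.le]
        have a1 := mul_le_mul_of_nonneg_left (z1.trans (min_le_left _ _)) r1.le
        rw [show r * (ε / (2 * r)) = ε / 2 by field_simp] at a1
        linarith
      · rw [u3 z z3, le_div_iff₀ S0, Real.exp_neg, inv_mul_le_iff₀ (Real.exp_pos _)] at z2
        rw [← hS]
        refine z2.trans (mul_le_mul_of_nonneg_right (Real.exp_le_exp.2 ?_) (abs_nonneg _))
        rw [mul_assoc C]
        exact mul_le_mul_of_nonneg_left (by linarith) (by linarith)) y N hN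
  refine ⟨|A|, abs_nonneg A, fun φ l h1 h2 => ?_⟩
  obtain ⟨z, hz, h⟩ := H ⟨⟨φ, l⟩, h1, h2⟩
  exact ⟨z, hz, fun x => mono h2 (le_abs_self A) (h x)⟩

end Pool.Agent.Lib.MP_a52643_an.YA
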