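import Pool.Agent.Lib.MP_a52643_an.YA.Ker

/-!
The smoothed Green operator of the unit disc.
-/

namespace Pool.Agent.Lib.MP_a52643_an.YA

open Complex Filter Topology Metric MeasureTheory Set QS
open scoped ContDiff ComplexConjugate

variable {μ : ℂ → ℝ} {m ρ ε : ℝ} {z : ℂ}

private theorem green_sm (ε : ℝ) (a b : ℂ) : Sm fun x => Nk ε (a + b * x) :=
  (sm_Nk ε).comp (contDiff_const.add (contDiff_const.mul contDiff_id))

private theorem green_form (ε ρ : ℝ) (y : ℂ) : (fun x => Gk ε ρ x y) =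
    fun x => Nk ((1 - ρ) / 4) (1 + -conj y * x) + -1 * Nk ε (-y + 1 * x) := by
  funext x
  rw [Gk, show 1 + -conj y * x = 1 - x * conj y by ring, show -y + 1 * x = x - y by ring]
  ring

private theorem green_D (ε ρ : ℝ) (v y z : ℂ) : D v (fun x => Gk ε ρ x y) z =
    D v (fun x => Nk ((1 - ρ) / 4) (1 + -conj y * x)) z - D v (fun x => Nk ε (-y + 1 * x)) z := by
  rw [green_form, D_add (green_sm _ _ _) (contDiff_const.mul (green_sm _ _ _)),
    D_cmul (green_sm _ _ _)]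
  ring

private theorem green_D' (ε : ℝ) (v y z : ℂ) :
    D v (fun x => Nk ε (-y + 1 * x)) z = D v (Nk ε) (z - y) := by
  rw [← D_sub_Nk]
  congr 1
  funext x
  rw [show -y + 1 * x = x - y by ring]

private theorem green_Lap (hρ : ρ < 1) (hε : 0 < ε) (y z : ℂ) : Lap (fun x => Gk ε ρ x y) z =
    ‖y‖ ^ 2 * Qk ((1 - ρ) / 4) (1 - z * conj y) - Qk ε (z - y) := by
  have h1 := Lap_Nk (ε := (1 - ρ) / 4) (by linarith) 1 (-conj y) z
  have h2 := Lap_Nk hε (-y) 1 z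
  rw [show 1 + -conj y * z = 1 - z * conj y by ring, norm_neg, RCLike.norm_conj] at h1
  rw [show -y + 1 * z = z - y by ring, norm_one] at h2
  have s1 := green_sm ((1 - ρ) / 4) 1 (-conj y)
  have s2 := green_sm ε (-y) 1
  have s3 : Sm fun x => -1 * Nk ε (-y + 1 * x) := contDiff_const.mul s2
  have h3 := Lap_cmul s2 (-1) z
  rw [green_form]
  simp only [Lap] at h1 h3 ⊢
  rw [D_add s1 s3, D_add s1 s3, D_add (smD s1 _) (smD s3 _), D_add (smD s1 _) (smD s3 _)]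
  simp only [Lap] at h2
  linarith

private theorem green_su (hμ : Bd μ m ρ) {y : ℂ} (h : μ y ≠ 0) : ‖y‖ ≤ ρ :=
  not_lt.1 fun h' => h (hμ.su y h')

private theorem green_ge (hz : ‖z‖ ≤ 1) {y : ℂ} (hy : ‖y‖ ≤ ρ) : 1 - ρ ≤ ‖1 - z * conj y‖ := by
  have h1 := norm_sub_norm_le (1 : ℂ) (z * conj y)
  rw [norm_one, norm_mul, RCLike.norm_conj] at h1
  nlinarith [norm_nonneg y, norm_nonneg z]

private theorem green_sq (z y : ℂ) :
    ‖1 - z * conj y‖ ^ 2 - ‖z - y‖ ^ 2 = (1 - ‖z‖ ^ 2) * (1 - ‖y‖ ^ 2) := by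
  simp only [Complex.sq_norm, normSq_apply, sub_re, sub_im, mul_re, mul_im, conj_re, conj_im,
    one_re, one_im]
  ring

private theorem green_ge' (hz : ‖z‖ ≤ 1) {y : ℂ} (hy : ‖y‖ ≤ 1) : ‖z - y‖ ≤ ‖1 - z * conj y‖ := by
  refine abs_le_of_sq_le_sq' ?_ (norm_nonneg _) |>.2
  have h1 : 0 ≤ 1 - ‖z‖ ^ 2 := by nlinarith [norm_nonneg z]
  have h2 : 0 ≤ 1 - ‖y‖ ^ 2 := by nlinarith [norm_nonneg y]
  linarith [green_sq z y, mul_nonneg h1 h2]

private theorem green_mass (hρ : ρ < 1) (hμ : Bd μ m ρ) : ∫ y, |μ y| ≤ 4 * m := by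
  have hm : 0 ≤ m := (abs_nonneg _).trans (hμ.le 0)
  have h1 : ∫ y, |μ y| ≤ ∫ y, (ball (0 : ℂ) 1).indicator (fun _ => m) y := by
    refine integral_mono hμ.int'.abs
      ((intB continuous_const 0 1).integrable_indicator measurableSet_ball) fun y => ?_
    by_cases h : μ y = 0
    · simp only [h, abs_zero]
      exact indicator_nonneg (fun _ _ => hm) y
    · rw [indicator_of_mem (mem_ball_zero_iff.2 ((green_su hμ h).trans_lt hρ))]
      exact hμ.le y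
  rw [integral_indicator measurableSet_ball, setIntegral_const, Measure.real, Complex.volume_ball]
    at h1
  simp only [ENNReal.ofReal_one, one_pow, one_mul, ENNReal.coe_toReal, NNReal.coe_real_pi,
    smul_eq_mul] at h1
  nlinarith [Real.pi_le_four]

private theorem green_cont {k : ℂ → ℂ → ℝ} (hk : SmK k) (v z : ℂ) :
    Continuous fun y => D v (fun x => k x y) z :=
  (hk.D v).continuous.comp (continuous_const.prodMk continuous_id)

theorem smK_Gk (ε ρ : ℝ) : SmK (Gk ε ρ) :=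
  ((sm_Nk _).comp (contDiff_const.sub
    (contDiff_fst.mul (Complex.conjCLE.contDiff.comp contDiff_snd)))).sub (smK_Nk ε)

theorem Gk_symm (ε ρ : ℝ) (z y : ℂ) : Gk ε ρ z y = Gk ε ρ y z := by
  have h : ‖1 - z * conj y‖ = ‖1 - y * conj z‖ := by
    rw [← RCLike.norm_conj]
    simp [mul_comm]
  simp only [Gk, Nk]
  rw [h, norm_sub_rev z y]

theorem Lap_G (hρ : ρ < 1) (hε : 0 < ε) (hμ : Bd μ m ρ) (hz : ‖z‖ ≤ 1) :
    Lap (IK (Gk ε ρ) μ) z = -∫ y, Qk ε (z - y) * μ y := by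
  rw [Lap_IK (smK_Gk ε ρ) hμ, ← integral_neg]
  refine integral_congr_ae (.of_forall fun y => ?_)
  by_cases h : μ y = 0
  · simp [h]
  · have := green_ge hz (green_su hμ h)
    simp only
    rw [green_Lap hρ hε, Qk_out (ε := (1 - ρ) / 4) (by linarith) (by linarith)]
    ring

theorem G_bdry (hρ : ρ < 1) (hε : 0 < ε) (h : ε ≤ (1 - ρ) / 4) (hμ : Bd μ m ρ) (hz : ‖z‖ = 1) :
    IK (Gk ε ρ) μ z = 0 := by
  rw [IK, ← integral_zero ℂ ℝ]
  refine integral_congr_ae (.of_forall fun y => ?_)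
  by_cases h0 : μ y = 0
  · simp [h0]
  · have h1 := green_ge hz.le (green_su hμ h0)
    have h2 : ‖z - y‖ = ‖1 - z * conj y‖ := by
      refine (pow_left_inj₀ (norm_nonneg _) (norm_nonneg _) two_ne_zero).1 ?_
      have := green_sq z y
      rw [hz] at this
      linarith
    simp only
    rw [Gk, Nk_far (ε := (1 - ρ) / 4) (by linarith) hε (by linarith) (by linarith) h2]
    ring

theorem gn_G (hρ : ρ < 1) (hε : 0 < ε) (hμ : Bd μ m ρ) (hz : ‖z‖ ≤ 1) :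
    gn (IK (Gk ε ρ) μ) z ≤ 8 * ∫ y, |μ y| / ‖z - y‖ := by
  have hk := smK_Gk ε ρ
  have i1 := (hμ.int (green_cont hk 1 z)).abs
  have i2 := (hμ.int (green_cont hk I z)).abs
  rw [gn, D_IK hk hμ, D_IK hk hμ, IK, IK, ← integral_const_mul]
  refine (add_le_add abs_integral_le_integral_abs abs_integral_le_integral_abs).trans ?_
  rw [← integral_add i1 i2]
  refine integral_mono_ae (i1.add i2) ((hμ.int_inv z).const_mul 8) ?_
  filter_upwards [Measure.ae_ne volume z] with y hy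
  by_cases h : μ y = 0
  · simp [h]
  have h0 : 0 < ‖z - y‖ := norm_pos_iff.2 (sub_ne_zero.2 hy.symm)
  have hy1 : ‖y‖ ≤ 1 := (green_su hμ h).trans hρ.le
  have h1 := gn_Nk (ε := (1 - ρ) / 4) (by linarith) 1 (-conj y) z
  have h2 := gn_Nk hε (-y) 1 z
  rw [show 1 + -conj y * z = 1 - z * conj y by ring, norm_neg, RCLike.norm_conj] at h1
  rw [show -y + 1 * z = z - y by ring, norm_one] at h2
  have h3 : 4 * ‖y‖ / ‖1 - z * conj y‖ ≤ 4 * 1 / ‖z - y‖ := by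
    gcongr
    exact green_ge' hz hy1
  have h4 : |D 1 (fun x => Gk ε ρ x y) z| + |D I (fun x => Gk ε ρ x y) z| ≤ 8 / ‖z - y‖ := by
    rw [green_D, green_D]
    unfold gn at h1 h2
    have e : 8 / ‖z - y‖ = 4 * 1 / ‖z - y‖ + 4 * 1 / ‖z - y‖ := by ring
    linarith [abs_sub (D 1 (fun x => Nk ((1 - ρ) / 4) (1 + -conj y * x)) z)
      (D 1 (fun x => Nk ε (-y + 1 * x)) z), abs_sub
      (D I (fun x => Nk ((1 - ρ) / 4) (1 + -conj y * x)) z) (D I (fun x => Nk ε (-y + 1 * x)) z)]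
  rw [abs_mul, abs_mul, ← add_mul]
  exact (mul_le_mul_of_nonneg_right h4 (abs_nonneg _)).trans_eq (by ring)

theorem gn_G' (hρ : ρ < 1) (hε : 0 < ε) (hμ : Bd μ m ρ) (hz : ‖z‖ ≤ 1) :
    gn (IK (Gk ε ρ) μ) z ≤ 90 * m := by
  have hm : 0 ≤ m := (abs_nonneg _).trans (hμ.le 0)
  have h1 := gn_G hρ hε hμ hz
  have h2 := hμ.inv_le z one_pos
  have h3 := green_mass hρ hμ
  rw [div_one] at h2
  linarith

theorem G_lip (hρ : ρ < 1) (hε : 0 < ε) (hμ : Bd μ m ρ) (hz : ‖z‖ ≤ 1) {z' : ℂ} (hz' : ‖z'‖ ≤ 1) :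
    |IK (Gk ε ρ) μ z - IK (Gk ε ρ) μ z'| ≤ 90 * m * ‖z - z'‖ := by
  have hm : 0 ≤ m := (abs_nonneg _).trans (hμ.le 0)
  refine (convex_closedBall (0 : ℂ) 1).norm_image_sub_le_of_norm_fderiv_le (𝕜 := ℝ)
    (fun x _ => dif (sm_IK (smK_Gk ε ρ) hμ) x) (fun x hx => ?_) (mem_closedBall_zero_iff.2 hz')
    (mem_closedBall_zero_iff.2 hz)
  refine ContinuousLinearMap.opNorm_le_bound _ (by positivity) fun v => ?_
  have h1 := gn_G' hρ hε hμ (mem_closedBall_zero_iff.1 hx)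
  have h2 := D_lin (IK (Gk ε ρ) μ) v x
  unfold gn at h1
  change |D v (IK (Gk ε ρ) μ) x| ≤ _
  rw [h2]
  refine (abs_add_le _ _).trans ?_
  rw [abs_mul, abs_mul]
  nlinarith [abs_re_le_norm v, abs_im_le_norm v, abs_nonneg (D 1 (IK (Gk ε ρ) μ) x),
    abs_nonneg (D I (IK (Gk ε ρ) μ) x), norm_nonneg v]

theorem G_small (hρ : ρ < 1) (hε : 0 < ε) (h : ε ≤ (1 - ρ) / 4) (hμ : Bd μ m ρ) (hz : ‖z‖ ≤ 1) :
    |IK (Gk ε ρ) μ z| ≤ 90 * m * (1 - ‖z‖ ^ 2) := by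
  have hm : 0 ≤ m := (abs_nonneg _).trans (hμ.le 0)
  obtain ⟨w, hw, e⟩ : ∃ w : ℂ, ‖w‖ = 1 ∧ z = ‖z‖ • w := by
    by_cases h0 : z = 0
    · exact ⟨1, norm_one, by simp [h0]⟩
    · have := norm_ne_zero_iff.2 h0
      exact ⟨‖z‖⁻¹ • z, by rw [norm_smul]; simp [this], by rw [smul_inv_smul₀ this]⟩
  have h1 := G_lip hρ hε hμ hz hw.le
  rw [G_bdry hρ hε h hμ hw, sub_zero] at h1
  have h2 : ‖z - w‖ = 1 - ‖z‖ := by
    have : z - w = (‖z‖ - 1) • w := by rw [sub_smul, one_smul, ← e]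
    rw [this, norm_smul, hw, mul_one, Real.norm_eq_abs, abs_sub_comm, abs_of_nonneg (by linarith)]
  rw [h2] at h1
  refine h1.trans (mul_le_mul_of_nonneg_left ?_ (by positivity))
  nlinarith [norm_nonneg z]

private theorem green_near {δ : ℝ} (hε : 0 < ε) (h : ε ≤ δ) (hμ : Bd μ m ρ) (z : ℂ) {v : ℂ}
    (hv : v = 1 ∨ v = I) : |D v (IK (Gk ε ρ) μ) z - D v (IK (Gk δ ρ) μ) z| ≤ 112 * m * δ := by
  have hm : 0 ≤ m := (abs_nonneg _).trans (hμ.le 0)
  have hδ : 0 < δ := hε.trans_le h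
  have i1 := hμ.int (green_cont (smK_Gk ε ρ) v z)
  have i2 := hμ.int (green_cont (smK_Gk δ ρ) v z)
  obtain ⟨i3, h3⟩ := int_inv z (r := 2 * δ) (by positivity)
  rw [D_IK (smK_Gk ε ρ) hμ, D_IK (smK_Gk δ ρ) hμ, IK, IK, ← integral_sub i1 i2]
  refine abs_integral_le_integral_abs.trans ?_
  have h1 : ∀ η : ℝ, 0 < η → ∀ y, |D v (fun x => Nk η (-y + 1 * x)) z| ≤ 4 * (1 / ‖z - y‖) :=
    fun η hη y => by
      have h2 := gn_Nk hη (-y) 1 z
      rw [show -y + 1 * z = z - y by ring, norm_one, mul_div_assoc] at h2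
      unfold gn at h2
      rcases hv with rfl | rfl
      · linarith [abs_nonneg (D I (fun x => Nk η (-y + 1 * x)) z)]
      · linarith [abs_nonneg (D 1 (fun x => Nk η (-y + 1 * x)) z)]
  have h2 : ∫ y, |D v (fun x => Gk ε ρ x y) z * μ y - D v (fun x => Gk δ ρ x y) z * μ y| ≤
      ∫ y, (ball z (2 * δ)).indicator (fun y => 8 * m * (1 / ‖z - y‖)) y := by
    refine integral_mono (i1.sub i2).abs
      (IntegrableOn.integrable_indicator (i3.const_mul (8 * m)) measurableSet_ball) fun y => ?_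
    simp only
    rw [← sub_mul, green_D, green_D, sub_sub_sub_cancel_left, abs_mul]
    by_cases hy : y ∈ ball z (2 * δ)
    · rw [indicator_of_mem hy]
      have h4 := (abs_sub _ _).trans (add_le_add (h1 δ hδ y) (h1 ε hε y))
      refine (mul_le_mul h4 (hμ.le y) (abs_nonneg _) (by positivity)).trans_eq (by ring)
    · rw [indicator_of_notMem hy, green_D', green_D', D_Nk_far hε h (by
        rwa [mem_ball', dist_eq_norm, not_lt] at hy)]
      simp
  rw [integral_indicator measurableSet_ball, integral_const_mul] at h2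
  nlinarith

private theorem green_unif (δ ρ : ℝ) (v : ℂ) {γ : ℝ} (hγ : 0 < γ) : ∃ r, 0 < r ∧ ∀ z z' y : ℂ,
    ‖z‖ ≤ 1 → ‖z'‖ ≤ 1 → ‖y‖ ≤ 1 → ‖z - z'‖ < r →
      |D v (fun x => Gk δ ρ x y) z - D v (fun x => Gk δ ρ x y) z'| ≤ γ := by
  have hc := ((isCompact_closedBall (0 : ℂ) 1).prod
    (isCompact_closedBall (0 : ℂ) 1)).uniformContinuousOn_of_continuous
      ((smK_Gk δ ρ).D v).continuous.continuousOn
  obtain ⟨r, hr, h⟩ := Metric.uniformContinuousOn_iff.1 hc γ hγ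
  refine ⟨r, hr, fun z z' y hz hz' hy hd => ?_⟩
  exact (h (z, y) ⟨mem_closedBall_zero_iff.2 hz, mem_closedBall_zero_iff.2 hy⟩ (z', y)
    ⟨mem_closedBall_zero_iff.2 hz', mem_closedBall_zero_iff.2 hy⟩
    (by rw [Prod.dist_eq, dist_self, dist_eq_norm]; exact max_lt hd hr)).le

/-- The gradients are equicontinuous, uniformly in the smoothing. -/
theorem G_equi (hρ : ρ < 1) (m : ℝ) {γ : ℝ} (hγ : 0 < γ) : ∃ r, 0 < r ∧ ∀ (ε : ℝ) (μ : ℂ → ℝ)
    (z z' v : ℂ), 0 < ε → ε ≤ r → Bd μ m ρ → ‖z‖ ≤ 1 → ‖z'‖ ≤ 1 → ‖z - z'‖ ≤ r → v = 1 ∨ v = I →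
      |D v (IK (Gk ε ρ) μ) z - D v (IK (Gk ε ρ) μ) z'| ≤ γ := by
  obtain ⟨κ, hκ, hκ'⟩ : ∃ κ : ℝ, 0 < κ ∧ m * κ ≤ γ := by
    have h0 : 0 < |m| + 1 := by positivity
    refine ⟨γ / (|m| + 1), by positivity, ?_⟩
    rw [← mul_div_assoc, div_le_iff₀ h0]
    nlinarith [le_abs_self m]
  obtain ⟨r1, hr1, h1⟩ := green_unif (κ / 1000) ρ 1 (γ := κ / 8) (by positivity)
  obtain ⟨r2, hr2, h2⟩ := green_unif (κ / 1000) ρ I (γ := κ / 8) (by positivity)
  refine ⟨min (κ / 1000) (min r1 r2 / 2), by positivity,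
    fun ε μ z z' v hε hεr hμ hz hz' hd hv => ?_⟩
  have hm : 0 ≤ m := (abs_nonneg _).trans (hμ.le 0)
  have hδ : ε ≤ κ / 1000 := hεr.trans (min_le_left _ _)
  have hd' : ‖z - z'‖ < min r1 r2 :=
    (hd.trans (min_le_right _ _)).trans_lt (half_lt_self (by positivity))
  have a1 := green_near hε hδ hμ z hv
  have a2 := green_near hε hδ hμ z' hv
  have a3 : |D v (IK (Gk (κ / 1000) ρ) μ) z - D v (IK (Gk (κ / 1000) ρ) μ) z'| ≤
      κ / 8 * (4 * m) := by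
    have hk := smK_Gk (κ / 1000) ρ
    have i1 := hμ.int (green_cont hk v z)
    have i2 := hμ.int (green_cont hk v z')
    rw [D_IK hk hμ, IK, IK, ← integral_sub i1 i2]
    refine abs_integral_le_integral_abs.trans (le_trans ?_
      (mul_le_mul_of_nonneg_left (green_mass hρ hμ) (by positivity)))
    rw [← integral_const_mul]
    refine integral_mono (i1.sub i2).abs (hμ.int'.abs.const_mul _) fun y => ?_
    by_cases h : μ y = 0
    · simp [h]
    have hy : ‖y‖ ≤ 1 := (green_su hμ h).trans hρ.le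
    simp only
    rw [← sub_mul, abs_mul]
    refine mul_le_mul_of_nonneg_right ?_ (abs_nonneg _)
    rcases hv with rfl | rfl
    · exact h1 z z' y hz hz' hy (hd'.trans_le (min_le_left _ _))
    · exact h2 z z' y hz hz' hy (hd'.trans_le (min_le_right _ _))
  rw [abs_le] at a1 a2 a3 ⊢
  constructor <;> nlinarith [a1.1, a1.2, a2.1, a2.2, a3.1, a3.2]

end Pool.Agent.Lib.MP_a52643_an.YA
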