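import Pool.Agent.Lib.MP_a52643_an.YA.Jet1

/-!
The negative part of the corrected Laplacian.
-/

namespace Pool.Agent.Lib.MP_a52643_an.YA

open Complex Filter Topology Metric MeasureTheory Set QS
open scoped ContDiff

variable {u V : ℂ → ℝ} {l e R : ℝ} {z : ℂ}

theorem jet_smy (hu : Sm u) (l e : ℝ) : ContDiff ℝ ∞ (yy u l e) :=
  (contDiff_const.mul (hu.pow 2)).add contDiff_const

theorem jet_smt (hu : Sm u) (hl : 0 ≤ l) (he : 0 < e) : ContDiff ℝ ∞ (tt u l e) :=
  (smGr hu).div (jet_smy hu l e) fun z => (yy_pos u hl he z).ne'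

theorem jet_Lap_mul {F G : ℂ → ℝ} (hF : ContDiff ℝ ∞ F) (hG : ContDiff ℝ ∞ G) (z : ℂ) :
    Lap (fun s => F s * G s) z =
      Lap F z * G z + 2 * (D 1 F z * D 1 G z + D I F z * D I G z) + F z * Lap G z := by
  have h1 := smD hF 1
  have h2 := smD hF I
  have h3 := smD hG 1
  have h4 := smD hG I
  unfold Lap
  simp (disch := fun_prop) only [D_add, D_mul]
  ring

theorem jet_Lap_add {F G : ℂ → ℝ} (hF : ContDiff ℝ ∞ F) (hG : ContDiff ℝ ∞ G) (z : ℂ) :
    Lap (fun s => F s + G s) z = Lap F z + Lap G z := by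
  have h1 := smD hF 1
  have h2 := smD hF I
  have h3 := smD hG 1
  have h4 := smD hG I
  unfold Lap
  simp (disch := fun_prop) only [D_add]
  ring

theorem jet_D_const (c : ℝ) (v : ℂ) : D v (fun _ => c) = fun _ => 0 := by
  funext z
  simp [D]

theorem jet_key {a b α β γ W Wx Wy y t tx ty Lt Lx Ly LL M1 M2 d1 d2 : ℝ} (hy : y ≠ 0)
    (e0 : α + γ = -W) (hg : a ^ 2 + b ^ 2 = t * y)
    (hgx : 2 * (a * α + b * β) = tx * y + t * (Lx * y))
    (hgy : 2 * (a * β + b * γ) = ty * y + t * (Ly * y))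
    (hLg : 2 * (α ^ 2 + 2 * β ^ 2 + γ ^ 2) - 2 * (a * Wx + b * Wy) =
      Lt * y + 2 * (tx * (Lx * y) + ty * (Ly * y)) + t * (LL * y + (Lx ^ 2 + Ly ^ 2) * y))
    (hM1 : W * a = M1 * y) (hM2 : W * b = M2 * y)
    (hd1 : Wx * a + W * α = d1 * y + M1 * (Lx * y))
    (hd2 : Wy * b + W * γ = d2 * y + M2 * (Ly * y)) :
    t * Lt + 2 * t * (d1 + d2) = tx ^ 2 + ty ^ 2 + 2 * (M1 * tx + M2 * ty) - t ^ 2 * LL := by
  have id : (a ^ 2 + b ^ 2) * (2 * (α ^ 2 + 2 * β ^ 2 + γ ^ 2) - 2 * (a * Wx + b * Wy)) -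
      (2 * (a * α + b * β)) ^ 2 - (2 * (a * β + b * γ)) ^ 2 +
      2 * (a ^ 2 + b ^ 2) * ((Wx * a + W * α) + (Wy * b + W * γ)) -
      2 * ((W * a) * (2 * (a * α + b * β)) + (W * b) * (2 * (a * β + b * γ))) = 0 := by
    rw [show W = -(α + γ) by linarith]
    ring
  rw [hg, hgx, hgy, hLg, hM1, hM2, hd1, hd2] at id
  refine mul_left_cancel₀ (pow_ne_zero 2 hy) ?_
  linear_combination id

theorem jet_abs {p q c l : ℝ} (hl : 0 ≤ l) (hc : 0 ≤ c) (h : 2 * (p ^ 2 + q ^ 2) ≤ c ^ 2 * l) :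
    |p| + |q| ≤ c * √l := by
  refine (pow_le_pow_iff_left₀ (by positivity) (by positivity) two_ne_zero).1 ?_
  rw [mul_pow, Real.sq_sqrt hl]
  nlinarith [sq_abs p, sq_abs q, sq_nonneg (|p| - |q|)]

theorem jet_fin {l t Lx Ly LL M1 M2 tx ty T : ℝ} (hl : 1 ≤ l) (ht : 0 ≤ t)
    (hL : Lx ^ 2 + Ly ^ 2 ≤ 4 * l * t) (hLL : -(2 * l) - 2 * l * t ≤ LL)
    (hM : M1 ^ 2 + M2 ^ 2 ≤ l * t) (h0 : t ≤ 1 → T = LL)
    (h1 : t * T = t * (1 - ka t) * LL + k1 t * (tx ^ 2 + ty ^ 2 + 2 * (M1 * tx + M2 * ty))) :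
    -(20 * cK * l) ≤ T ∧ (T < 0 → |Lx + f1 t * tx| + |Ly + f1 t * ty| ≤ 20 * √l) := by
  have hK := one_le_cK
  have hKl : l ≤ cK * l := by nlinarith
  rcases le_or_gt t 1 with a | a
  · have b : l * t ≤ l := by nlinarith
    refine ⟨by rw [h0 a]; linarith, fun _ => ?_⟩
    rw [(low a).2.2.1, zero_mul, zero_mul, add_zero, add_zero]
    exact jet_abs (by linarith) (by norm_num) (by linarith)
  rcases le_or_gt 2 t with b | b
  · rw [(high b).1, (high b).2] at h1
    have c : T = 0 := by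
      have : t * T = 0 := by rw [h1]; ring
      exact (mul_eq_zero.1 this).resolve_left (by linarith)
    rw [c]
    exact ⟨by linarith, fun h => absurd h (lt_irrefl _)⟩
  have k0 := ka_nonneg t
  have k1' := ka_le_one t
  have k2 := k1_nonneg t
  have k3 := k1_le t
  have k4 := k1_ge t
  have k5 := mul_f1 t
  have k6 := f1_nonneg t
  have lt2 : l * t ≤ 2 * l := by nlinarith
  have c1 : -(6 * l) ≤ LL := by linarith
  have c2 : t * (1 - ka t) * -(6 * l) ≤ t * (1 - ka t) * LL :=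
    mul_le_mul_of_nonneg_left c1 (mul_nonneg ht (by linarith))
  set S := tx ^ 2 + ty ^ 2 with hS
  have S0 : 0 ≤ S := by positivity
  constructor
  · have c3 : -(l * t) ≤ S + 2 * (M1 * tx + M2 * ty) := by
      nlinarith [sq_nonneg (tx + M1), sq_nonneg (ty + M2)]
    have c4 := mul_le_mul_of_nonneg_left c3 k2
    have c5 : k1 t * (l * t) ≤ cK * (l * t) := mul_le_mul_of_nonneg_right k3 (by positivity)
    have c6 : 0 ≤ t * ka t * l := by positivity
    have c7 : t * l ≤ t * (cK * l) := mul_le_mul_of_nonneg_left hKl ht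
    have c8 : 0 ≤ t * l := by positivity
    refine le_of_mul_le_mul_left ?_ (show 0 < t by linarith)
    rw [h1]
    nlinarith
  · intro hT
    have c3 : S / 2 - 2 * (l * t) ≤ S + 2 * (M1 * tx + M2 * ty) := by
      nlinarith [sq_nonneg (tx + 2 * M1), sq_nonneg (ty + 2 * M2)]
    have c4 := mul_le_mul_of_nonneg_left c3 k2
    have c5 : t * T < 0 := mul_neg_of_pos_of_neg (by linarith) hT
    have c6 : ka t * S ≤ 24 * (l * t) := by
      rcases le_or_gt S (8 * (l * t)) with d | d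
      · nlinarith
      · have d1 : k1 t * (S / 4) ≤ k1 t * (S / 2 - 2 * (l * t)) :=
          mul_le_mul_of_nonneg_left (by linarith) k2
        have d2 : ka t * (1 - ka t) * (S / 4) ≤ k1 t * (S / 4) :=
          mul_le_mul_of_nonneg_right k4 (by linarith)
        have d3 : (1 - ka t) * (ka t * S) < (1 - ka t) * (24 * (l * t)) := by nlinarith
        exact (lt_of_mul_lt_mul_left d3 (by linarith)).le
    have c7 : f1 t ≤ 1 := by nlinarith
    have c8 : f1 t * S ≤ 24 * l := by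
      refine le_of_mul_le_mul_left ?_ (show 0 < t by linarith)
      rw [← mul_assoc, k5]
      linarith
    have c9 : f1 t ^ 2 * S ≤ 24 * l := by nlinarith [mul_nonneg k6 S0]
    refine jet_abs (by linarith) (by norm_num) ?_
    nlinarith [sq_nonneg (Lx - f1 t * tx), sq_nonneg (Ly - f1 t * ty)]

/-- The negative part is bounded and sits where the slope is small. -/
theorem T_bd (h : Sl u V l R) (hl : 1 ≤ l) (he : 0 < e) (hz : ‖z‖ < R) :
    -(20 * cK * l) ≤ Lap (vv u l e) z + dv (BB u V l e 1) (BB u V l e I) z ∧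
    (Lap (vv u l e) z + dv (BB u V l e 1) (BB u V l e I) z < 0 → gn (vv u l e) z ≤ 20 * √l) := by
  have hl0 : 0 ≤ l := by linarith
  have hu : ContDiff ℝ ∞ u := h.hu
  have hV : ContDiff ℝ ∞ V := h.hV
  have y0 := yy_pos u hl0 he
  have sy := jet_smy hu l e
  have st := jet_smt hu hl0 he
  have ha := smD hu 1
  have hb := smD hu I
  set L : ℂ → ℝ := fun s => Real.log (yy u l e s) with hL
  set W : ℂ → ℝ := fun s => V s * u s with hW
  set M : ℂ → ℂ → ℝ := fun v s => V s * u s * D v u s / yy u l e s with hM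
  have sL : ContDiff ℝ ∞ L := sy.log fun s => (y0 s).ne'
  have sW : ContDiff ℝ ∞ W := hV.mul hu
  have sM : ∀ v, ContDiff ℝ ∞ (M v) := fun v => (sW.mul (smD hu v)).div sy fun s => (y0 s).ne'
  have sf : ContDiff ℝ ∞ fun s => ff (tt u l e s) := ff_sm.comp st
  have sf1 : ContDiff ℝ ∞ fun s => f1 (tt u l e s) := f1_sm.comp st
  -- derivatives of `y`
  have dy : ∀ v, D v (yy u l e) = fun s => D v L s * yy u l e s := fun v => by
    funext s
    rw [hL, D_comp (Real.hasDerivAt_log (y0 s).ne') (dif sy s)]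
    field_simp [(y0 s).ne']
  have dy' : ∀ v, D v (yy u l e) = fun s => 2 * l * (u s * D v u s) := fun v => by
    have : yy u l e = fun s => l * (u s * u s) + e := by funext s; simp only [yy]; ring
    rw [this]
    simp (disch := fun_prop) only [D_add, D_cmul, D_mul, jet_D_const]
    funext s
    ring
  have ly : Lap (yy u l e) z =
      Lap L z * yy u l e z + (D 1 L z ^ 2 + D I L z ^ 2) * yy u l e z := by
    have h1 := smD sL 1
    have h2 := smD sL I
    unfold Lap
    rw [dy 1, dy I, D_mul h1 sy, D_mul h2 sy, dy 1, dy I]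
    ring
  have ly' : Lap (yy u l e) z = 2 * l * (Gr u z + u z * Lap u z) := by
    unfold Lap Gr
    rw [dy' 1, dy' I]
    simp (disch := fun_prop) only [D_cmul, D_mul]
    ring
  -- the equation
  have ev : Lap u =ᶠ[𝓝 z] fun s => -1 * W s := by
    filter_upwards [(isOpen_lt continuous_norm continuous_const).mem_nhds hz] with s hs
    rw [h.eq s hs, hW]
    ring
  have e0 : D 1 (D 1 u) z + D I (D I u) z = -W z := h.eq z hz
  have e1 : ∀ v, Lap (D v u) z = -D v W z := fun v => by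
    rw [Lap_D hu, D_congr ev v, D_cmul sW]
    ring
  have hc : D I (D 1 u) z = D 1 (D I u) z := congrFun (D_comm hu I 1) z
  -- derivatives of `g`
  have g1 : Gr u = fun s => D 1 u s * D 1 u s + D I u s * D I u s := by
    funext s; simp only [Gr]; ring
  have g2 : Gr u = fun s => tt u l e s * yy u l e s := by
    funext s; simp only [tt]; field_simp [(y0 s).ne']
  have gd : ∀ v, 2 * (D 1 u z * D v (D 1 u) z + D I u z * D v (D I u) z) =
      D v (tt u l e) z * yy u l e z + tt u l e z * (D v L z * yy u l e z) := fun v => by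
    have a1 : D v (Gr u) z = 2 * (D 1 u z * D v (D 1 u) z + D I u z * D v (D I u) z) := by
      rw [g1]
      simp (disch := fun_prop) only [D_add, D_mul]
      ring
    rw [← a1]
    conv_lhs => rw [g2, D_mul st sy, dy v]
  have gl : Lap (Gr u) z = 2 * (D 1 (D 1 u) z ^ 2 + 2 * D 1 (D I u) z ^ 2 + D I (D I u) z ^ 2) -
      2 * (D 1 u z * D 1 W z + D I u z * D I W z) := by
    rw [g1, jet_Lap_add (ha.mul ha) (hb.mul hb), jet_Lap_mul ha ha, jet_Lap_mul hb hb, e1, e1, hc]
    ring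
  have gl' : Lap (Gr u) z = Lap (tt u l e) z * yy u l e z +
      2 * (D 1 (tt u l e) z * (D 1 L z * yy u l e z) + D I (tt u l e) z * (D I L z * yy u l e z)) +
      tt u l e z * (Lap L z * yy u l e z + (D 1 L z ^ 2 + D I L z ^ 2) * yy u l e z) := by
    conv_lhs => rw [g2, jet_Lap_mul st sy, ly, dy 1, dy I]
  -- the field
  have m1 : ∀ v, (fun s => W s * D v u s) = fun s => M v s * yy u l e s := fun v => by
    funext s; simp only [hM, hW]; field_simp [(y0 s).ne']
  have m2 : ∀ v, D v W z * D v u z + W z * D v (D v u) z =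
      D v (M v) z * yy u l e z + M v z * (D v L z * yy u l e z) := fun v => by
    have a1 := congrArg (fun F => D v F z) (m1 v)
    simp only [D_mul sW (smD hu v), D_mul (sM v) sy, dy v] at a1
    exact a1
  have gy := gd I
  rw [hc] at gy
  have key := jet_key (y0 z).ne' e0 (congrFun g2 z) (gd 1) gy (gl.symm.trans gl')
    (congrFun (m1 1) z) (congrFun (m1 I) z) (m2 1) (m2 I)
  -- the expression
  have v1 : vv u l e = fun s => L s + ff (tt u l e s) := rfl
  have v2 : ∀ v, D v (vv u l e) z = D v L z + f1 (tt u l e z) * D v (tt u l e) z := fun v => by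
    rw [v1, D_add sL sf]
    simp only [D_comp (ff_deriv _) (dif st z)]
  have v3 : Lap (vv u l e) z = Lap L z + (f2 (tt u l e z) * Gr (tt u l e) z +
      f1 (tt u l e z) * Lap (tt u l e) z) := by
    rw [v1, jet_Lap_add sL sf, Lap_comp ff_deriv f1_deriv st]
  have b1 : ∀ v, D v (BB u V l e v) z = 2 * (f2 (tt u l e z) * D v (tt u l e) z * M v z +
      f1 (tt u l e z) * D v (M v) z) := fun v => by
    have : BB u V l e v = fun s => 2 * (f1 (tt u l e s) * M v s) := by
      funext s; simp only [BB, hM]; ring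
    rw [this, D_cmul (sf1.mul (sM v)), D_mul sf1 (sM v)]
    simp only [D_comp (f1_deriv _) (dif st z)]
  -- the bounds
  have t0 : 0 ≤ tt u l e z := div_nonneg (Gr_nonneg u z) (y0 z).le
  have hg : D 1 u z ^ 2 + D I u z ^ 2 = tt u l e z * yy u l e z := congrFun g2 z
  have uy : l * u z ^ 2 ≤ yy u l e z := by simp only [yy]; linarith
  have hVl := abs_le.1 (h.bd z hz).1
  have yz := y0 z
  have n1 : D 1 L z ^ 2 + D I L z ^ 2 ≤ 4 * l * tt u l e z := by
    have a1 := congrFun ((dy 1).symm.trans (dy' 1)) z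
    have a2 := congrFun ((dy I).symm.trans (dy' I)) z
    have a3 : (D 1 L z ^ 2 + D I L z ^ 2) * yy u l e z ^ 2 =
        4 * l * tt u l e z * yy u l e z * (l * u z ^ 2) := by
      rw [add_mul, ← mul_pow, ← mul_pow, a1, a2]
      linear_combination 4 * l ^ 2 * u z ^ 2 * hg
    refine le_of_mul_le_mul_right ?_ (pow_pos yz 2)
    have a4 := mul_le_mul_of_nonneg_left uy
      (show 0 ≤ 4 * l * tt u l e z * yy u l e z by positivity)
    rw [a3]
    linarith
  have n2 : -(2 * l) - 2 * l * tt u l e z ≤ Lap L z := by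
    have a1 := ly.symm.trans ly'
    rw [h.eq z hz, congrFun g2 z] at a1
    have a2 := mul_le_mul_of_nonneg_right n1 yz.le
    have a3 : V z * u z ^ 2 ≤ l * u z ^ 2 := mul_le_mul_of_nonneg_right hVl.2 (sq_nonneg _)
    have a4 := mul_le_mul_of_nonneg_left (a3.trans uy) hl0
    refine le_of_mul_le_mul_right ?_ yz
    nlinarith
  have n3 : M 1 z ^ 2 + M I z ^ 2 ≤ l * tt u l e z := by
    have a1 := congrFun (m1 1) z
    have a2 := congrFun (m1 I) z
    have a3 : (M 1 z ^ 2 + M I z ^ 2) * yy u l e z ^ 2 =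
        tt u l e z * yy u l e z * (V z ^ 2 * u z ^ 2) := by
      rw [add_mul, ← mul_pow, ← mul_pow, ← a1, ← a2, hW]
      linear_combination V z ^ 2 * u z ^ 2 * hg
    have a4 : V z ^ 2 ≤ l ^ 2 := sq_le_sq' hVl.1 hVl.2
    have a5 : V z ^ 2 * u z ^ 2 ≤ l * yy u l e z := by
      nlinarith [mul_le_mul_of_nonneg_right a4 (sq_nonneg (u z)), mul_le_mul_of_nonneg_left uy hl0]
    have a6 := mul_le_mul_of_nonneg_left a5 (mul_nonneg t0 yz.le)
    refine le_of_mul_le_mul_right ?_ (pow_pos yz 2)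
    rw [a3]
    linarith
  unfold gn dv
  rw [v2 1, v2 I, v3, b1 1, b1 I]
  refine jet_fin hl t0 n1 n2 n3 (fun a => ?_) ?_
  · rw [(low a).2.2.1, (low a).2.2.2.1]
    ring
  · have a1 := mul_f1 (tt u l e z)
    have a2 := mul_f2 (tt u l e z)
    simp only [Gr]
    linear_combination (D 1 (tt u l e) z ^ 2 + D I (tt u l e) z ^ 2 +
      2 * (M 1 z * D 1 (tt u l e) z + M I z * D I (tt u l e) z)) * a2 + f1 (tt u l e z) * key -
      tt u l e z * Lap L z * a1

end Pool.Agent.Lib.MP_a52643_an.YA
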