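import Pool.Agent.Lib.MP_a52643_an.YA.Phi

/-!
The pointwise inequalities.
-/

namespace Pool.Agent.Lib.MP_a52643_an.YA

open Complex Filter Topology Metric MeasureTheory Set QS
open scoped ContDiff

variable {u V : ℂ → ℝ} {l e R : ℝ} {z : ℂ}

theorem yy_pos (u : ℂ → ℝ) (hl : 0 ≤ l) (he : 0 < e) (z : ℂ) : 0 < yy u l e z := by
  unfold yy; positivity

theorem jet1_sm_yy (hu : Sm u) (l e : ℝ) : Sm (yy u l e) :=
  (contDiff_const.mul (hu.pow 2)).add contDiff_const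

theorem jet1_sm_tt (hu : Sm u) (hl : 0 ≤ l) (he : 0 < e) : Sm (tt u l e) :=
  (smGr hu).div (jet1_sm_yy hu l e) fun z => (yy_pos u hl he z).ne'

theorem jet1_Q_pos (u : ℂ → ℝ) (hl : 0 ≤ l) (he : 0 < e) (z : ℂ) : 0 < Gr u z + yy u l e z :=
  add_pos_of_nonneg_of_pos (Gr_nonneg u z) (yy_pos u hl he z)

theorem jet1_tt_nonneg (u : ℂ → ℝ) (hl : 0 ≤ l) (he : 0 < e) (z : ℂ) : 0 ≤ tt u l e z :=
  div_nonneg (Gr_nonneg u z) (yy_pos u hl he z).le

theorem jet1_tt_mul (u : ℂ → ℝ) (hl : 0 ≤ l) (he : 0 < e) (z : ℂ) :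
    tt u l e z * yy u l e z = Gr u z := div_mul_cancel₀ _ (yy_pos u hl he z).ne'

theorem sm_vv (hu : Sm u) (hl : 0 ≤ l) (he : 0 < e) : Sm (vv u l e) :=
  ((jet1_sm_yy hu l e).log fun z => (yy_pos u hl he z).ne').add (ff_sm.comp (jet1_sm_tt hu hl he))

theorem sm_v0 (hu : Sm u) (hl : 0 ≤ l) (he : 0 < e) : Sm (v0 u l e) :=
  ((smGr hu).add (jet1_sm_yy hu l e)).log fun z => (jet1_Q_pos u hl he z).ne'

theorem jet1_sm_H (hu : Sm u) (hV : Sm V) (hl : 0 ≤ l) (he : 0 < e) (v : ℂ) :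
    Sm fun z => V z * u z * D v u z / yy u l e z :=
  ((hV.mul hu).mul (smD hu v)).div (jet1_sm_yy hu l e) fun z => (yy_pos u hl he z).ne'

theorem sm_BB (hu : Sm u) (hV : Sm V) (hl : 0 ≤ l) (he : 0 < e) (v : ℂ) : Sm (BB u V l e v) :=
  (contDiff_const.mul (f1_sm.comp (jet1_sm_tt hu hl he))).mul (jet1_sm_H hu hV hl he v)

theorem vv_v0 (u : ℂ → ℝ) (hl : 0 ≤ l) (he : 0 < e) (z : ℂ) :
    vv u l e z ≤ v0 u l e z ∧ v0 u l e z ≤ vv u l e z + Real.log 4 := by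
  have hy := yy_pos u hl he z
  have ht := jet1_tt_nonneg u hl he z
  have e1 : v0 u l e z = Real.log (yy u l e z) + Real.log (1 + tt u l e z) := by
    rw [← Real.log_mul hy.ne' (by positivity), v0, ← jet1_tt_mul u hl he z]
    congr 1; ring
  have e2 : Real.log 4 = Real.log 2 + Real.log 2 := by
    rw [← Real.log_mul (by norm_num) (by norm_num)]; norm_num
  have e3 : 0 ≤ Real.log 2 := Real.log_nonneg (by norm_num)
  rw [e1, vv, e2]
  set t := tt u l e z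
  rcases le_total t 1 with h | h
  · rw [(low h).2.2.2.2]
    have a1 : 0 ≤ Real.log (1 + t) := Real.log_nonneg (by linarith)
    have a2 : Real.log (1 + t) ≤ Real.log 2 := Real.log_le_log (by linarith) (by linarith)
    constructor <;> linarith
  · have a1 : Real.log t ≤ Real.log (1 + t) := Real.log_le_log (by linarith) (by linarith)
    have a2 : Real.log (1 + t) ≤ Real.log (2 * t) := Real.log_le_log (by linarith) (by linarith)
    rw [Real.log_mul (by norm_num) (by linarith)] at a2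
    have a3 := ff_bd h
    constructor <;> linarith [a3.1, a3.2]

theorem jet1_sq_le (u : ℂ → ℝ) (z : ℂ) {v : ℂ} (hv : v = 1 ∨ v = I) : D v u z ^ 2 ≤ Gr u z := by
  unfold Gr
  rcases hv with rfl | rfl <;> nlinarith [sq_nonneg (D 1 u z), sq_nonneg (D I u z)]

theorem jet1_le_of_sq {x y : ℝ} (hy : 0 ≤ y) (h : x ^ 2 ≤ y ^ 2) : |x| ≤ y :=
  abs_le.2 (abs_le_of_sq_le_sq' h hy)

/-- The size of the field before the cut-off. -/
theorem jet1_H_sq (hl : 0 ≤ l) (he : 0 < e) (hV : |V z| ≤ l) {v : ℂ} (hv : v = 1 ∨ v = I) :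
    (V z * u z * D v u z / yy u l e z) ^ 2 ≤ l * tt u l e z := by
  have hy := yy_pos u hl he z
  have h1 := jet1_sq_le u z hv
  have h2 : V z ^ 2 ≤ l ^ 2 := sq_le_sq' (abs_le.1 hV).1 (abs_le.1 hV).2
  have h3 : l * u z ^ 2 ≤ yy u l e z := by unfold yy; linarith
  have hg := Gr_nonneg u z
  rw [div_pow, div_le_iff₀ (by positivity), mul_pow, mul_pow]
  calc V z ^ 2 * u z ^ 2 * D v u z ^ 2 ≤ l ^ 2 * u z ^ 2 * Gr u z := by gcongr
    _ = l * (l * u z ^ 2) * Gr u z := by ring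
    _ ≤ l * yy u l e z * Gr u z := by gcongr
    _ = l * tt u l e z * yy u l e z ^ 2 := by rw [← jet1_tt_mul u hl he z]; ring

theorem BB_le (h : Sl u V l R) (hl : 1 ≤ l) (he : 0 < e) (hz : ‖z‖ < R) {v : ℂ}
    (hv : v = 1 ∨ v = I) : |BB u V l e v z| ≤ 2 * √l := by
  have l0 : 0 ≤ l := by linarith
  have h1 := jet1_H_sq (u := u) l0 he (h.bd z hz).1 hv
  unfold BB
  set t := tt u l e z
  set H := V z * u z * D v u z / yy u l e z
  rcases le_total t 1 with ht | ht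
  · rw [(low ht).2.2.1]; simp
  · refine jet1_le_of_sq (by positivity) ?_
    have a1 := mul_f1 t
    have a2 := ka_nonneg t
    have a3 := ka_le_one t
    have a4 := f1_nonneg t
    have a5 : f1 t ≤ 1 := by nlinarith
    have a6 : f1 t ^ 2 * t ≤ 1 := by nlinarith
    rw [mul_pow, mul_pow, mul_pow, Real.sq_sqrt l0]
    calc 2 ^ 2 * f1 t ^ 2 * H ^ 2 ≤ 2 ^ 2 * f1 t ^ 2 * (l * t) := by gcongr
      _ = 2 ^ 2 * l * (f1 t ^ 2 * t) := by ring
      _ ≤ 2 ^ 2 * l * 1 := by gcongr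
      _ = 2 ^ 2 * l := by ring

theorem jet1_D_log {F : ℂ → ℝ} (hF : Sm F) (hp : ∀ z, 0 < F z) (v : ℂ) :
    D v (fun s => Real.log (F s)) = fun z => D v F z / F z := by
  funext z
  rw [D_comp (Real.hasDerivAt_log (hp z).ne') (dif hF z)]
  ring

theorem jet1_D_div {F G : ℂ → ℝ} (hF : Sm F) (hG : Sm G) (hp : 0 < G z) (v : ℂ) :
    D v (fun s => F s / G s) z = D v F z / G z - F z * D v G z / G z ^ 2 := by
  have h1 : DifferentiableAt ℝ (fun s => (G s)⁻¹) z := (dif hG z).inv hp.ne'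
  simp only [div_eq_mul_inv]
  rw [D_mul_at (dif hF z) h1, D_comp (g := fun x => x⁻¹) (hasDerivAt_inv hp.ne') (dif hG z)]
  ring

theorem jet1_Lap_log {F : ℂ → ℝ} (hF : Sm F) (hp : ∀ z, 0 < F z) (z : ℂ) :
    Lap (fun s => Real.log (F s)) z = (F z * Lap F z - Gr F z) / F z ^ 2 := by
  simp only [Lap, Gr, jet1_D_log hF hp, jet1_D_div (smD hF _) hF (hp z)]
  field_simp [(hp z).ne']
  ring

theorem jet1_D_yy (hu : Sm u) (l e : ℝ) (v : ℂ) :
    D v (yy u l e) = fun s => 2 * l * (u s * D v u s) := by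
  have h1 : yy u l e = fun s => l * (u s * u s) + e := by
    funext s; simp only [yy]; ring
  have h2 : D v (fun s => l * (u s * u s) + e) = D v fun s => l * (u s * u s) := by
    funext s; simp only [D]; rw [fderiv_add_const]
  rw [h1, h2, D_cmul (hu.mul hu), D_mul hu hu]
  funext s; ring

theorem jet1_D_Gr (hu : Sm u) (v : ℂ) :
    D v (Gr u) = fun s => 2 * (D 1 u s * D v (D 1 u) s + D I u s * D v (D I u) s) := by
  have h1 : Gr u = fun s => D 1 u s * D 1 u s + D I u s * D I u s := by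
    funext s; simp only [Gr]; ring
  have ha := smD hu 1
  have hb := smD hu I
  rw [h1, D_add (ha.mul ha) (hb.mul hb), D_mul ha ha, D_mul hb hb]
  funext s; ring

/-- The equation and its derivatives. -/
theorem jet1_eq (h : Sl u V l R) (hz : ‖z‖ < R) (v : ℂ) :
    Lap (D v u) z = -(D v V z * u z + V z * D v u z) := by
  have h1 : Lap u =ᶠ[𝓝 z] fun s => -1 * (V s * u s) := by
    filter_upwards [(isOpen_lt continuous_norm continuous_const).mem_nhds hz] with s hs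
    rw [h.eq s hs]; ring
  rw [Lap_D h.hu, D_congr h1, D_cmul (h.hV.mul h.hu), D_mul h.hV h.hu]
  ring

theorem jet1_dot {a b c d l : ℝ} (h : |c| + |d| ≤ l) :
    (a * c + b * d) ^ 2 ≤ l ^ 2 * (a ^ 2 + b ^ 2) := by
  have h1 : c ^ 2 + d ^ 2 ≤ l ^ 2 := by
    have a1 := abs_nonneg c
    have a2 := abs_nonneg d
    rw [← sq_abs c, ← sq_abs d]
    nlinarith [mul_nonneg a1 a2]
  nlinarith [sq_nonneg (a * d - b * c), mul_le_mul_of_nonneg_right h1
    (add_nonneg (sq_nonneg a) (sq_nonneg b))]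

theorem jet1_amgm {x A B : ℝ} (hA : 0 ≤ A) (hB : 0 ≤ B) (h : x ^ 2 ≤ 4 * A * B) : |x| ≤ A + B :=
  jet1_le_of_sq (by positivity) (by nlinarith [sq_nonneg (A - B)])

theorem jet1_alg {u a b p q r V Vx Vy l y : ℝ} (hl : 1 ≤ l) (hy : l * u ^ 2 ≤ y)
    (hV : |V| ≤ l) (hd : |Vx| + |Vy| ≤ l) (e0 : p + r = -(V * u)) :
    -(40 * l) * (a ^ 2 + b ^ 2 + y) ^ 2 ≤ (a ^ 2 + b ^ 2 + y) *
      (2 * (p ^ 2 + 2 * q ^ 2 + r ^ 2 - a * (Vx * u + V * a) - b * (Vy * u + V * b)) +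
        2 * l * (a ^ 2 + b ^ 2 - V * u ^ 2)) -
      ((2 * (a * p + b * q) + 2 * l * (u * a)) ^ 2 + (2 * (a * q + b * r) + 2 * l * (u * b)) ^ 2) := by
  obtain ⟨α, hα⟩ : ∃ α, α = (p - r) / 2 := ⟨_, rfl⟩
  have hp : p = α - V * u / 2 := by linarith
  have hr : r = -α - V * u / 2 := by linarith
  obtain ⟨c, hc⟩ : ∃ c, c = l * u - V * u / 2 := ⟨_, rfl⟩
  obtain ⟨g, hg⟩ : ∃ g, g = a ^ 2 + b ^ 2 := ⟨_, rfl⟩
  obtain ⟨k, hk⟩ : ∃ k, k = α ^ 2 + q ^ 2 := ⟨_, rfl⟩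
  obtain ⟨X, hX⟩ : ∃ X, X = α * (a ^ 2 - b ^ 2) + 2 * a * b * q := ⟨_, rfl⟩
  have l0 : 0 ≤ l := by linarith
  have g0 : 0 ≤ g := by rw [hg]; positivity
  have k0 : 0 ≤ k := by rw [hk]; positivity
  have u0 : 0 ≤ l * u ^ 2 := by positivity
  have y0 : 0 ≤ y := u0.trans hy
  obtain ⟨V1, V2⟩ := abs_le.1 hV
  have f1 : (2 * (a * p + b * q) + 2 * l * (u * a)) ^ 2 +
      (2 * (a * q + b * r) + 2 * l * (u * b)) ^ 2 = 4 * (k * g + c ^ 2 * g + 2 * c * X) := by
    rw [hp, hr, hk, hg, hX, hc]; ring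
  have f2 : X ^ 2 ≤ k * g ^ 2 := by
    rw [hX, hk, hg]; nlinarith [sq_nonneg (q * (a ^ 2 - b ^ 2) - 2 * a * b * α)]
  have f3 : 4 * c ^ 2 ≤ 9 * l * y := by
    have : (2 * l - V) ^ 2 ≤ (3 * l) ^ 2 := sq_le_sq' (by linarith) (by linarith)
    calc 4 * c ^ 2 = (2 * l - V) ^ 2 * u ^ 2 := by rw [hc]; ring
      _ ≤ (3 * l) ^ 2 * u ^ 2 := by gcongr
      _ = 9 * l * (l * u ^ 2) := by ring
      _ ≤ 9 * l * y := by gcongr
  have f4 : |8 * c * X| ≤ 4 * k * y + 9 * l * g ^ 2 := by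
    refine jet1_amgm (by positivity) (by positivity) ?_
    calc (8 * c * X) ^ 2 = 16 * (4 * c ^ 2) * X ^ 2 := by ring
      _ ≤ 16 * (9 * l * y) * (k * g ^ 2) := by gcongr
      _ = _ := by ring
  have f5 : |2 * u * (a * Vx + b * Vy)| ≤ l * u ^ 2 + l * g := by
    refine jet1_amgm u0 (by positivity) ?_
    have := jet1_dot (a := a) (b := b) hd
    rw [← hg] at this
    calc (2 * u * (a * Vx + b * Vy)) ^ 2 = 4 * u ^ 2 * (a * Vx + b * Vy) ^ 2 := by ring
      _ ≤ 4 * u ^ 2 * (l ^ 2 * g) := by gcongr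
      _ = _ := by ring
  have f6 : 4 * k - 3 * l * (g + y) ≤
      2 * (p ^ 2 + 2 * q ^ 2 + r ^ 2 - a * (Vx * u + V * a) - b * (Vy * u + V * b)) +
        2 * l * (g - V * u ^ 2) := by
    have e1 : 2 * (p ^ 2 + 2 * q ^ 2 + r ^ 2 - a * (Vx * u + V * a) - b * (Vy * u + V * b)) =
        4 * k + (V * u) ^ 2 - 2 * u * (a * Vx + b * Vy) - 2 * V * g := by
      rw [hp, hr, hk, hg]; ring
    have e2 : 0 ≤ (l - V) * g := mul_nonneg (by linarith) g0
    have e3 : V * (l * u ^ 2) ≤ l * y := mul_le_mul V2 hy u0 l0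
    have e4 : y ≤ l * y := le_mul_of_one_le_left y0 hl
    have e5 := (abs_le.1 f5).2
    have e6 := mul_nonneg l0 g0
    rw [e1]
    nlinarith [sq_nonneg (V * u)]
  rw [f1, ← hg]
  have f7 := mul_le_mul_of_nonneg_left f6 (add_nonneg g0 y0)
  have f8 := mul_le_mul_of_nonneg_right f3 g0
  have f9 := (abs_le.1 f4).2
  nlinarith [mul_nonneg l0 (mul_nonneg g0 y0), mul_nonneg l0 (sq_nonneg g),
    mul_nonneg l0 (sq_nonneg y)]

/-- The inequality of Dong. -/
theorem v0_lap (h : Sl u V l R) (hl : 1 ≤ l) (he : 0 < e) (hz : ‖z‖ < R) :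
    -(40 * l) ≤ Lap (v0 u l e) z := by
  have l0 : 0 ≤ l := by linarith
  have hu := h.hu
  have hQ := (smGr hu).add (jet1_sm_yy hu l e)
  have hp := jet1_Q_pos u l0 he
  have ha := smD hu 1
  have hb := smD hu I
  have hc : D I (D 1 u) z = D 1 (D I u) z := congrFun (D_comm hu I 1) z
  have d : ∀ v, D v (fun s => Gr u s + yy u l e s) = fun s =>
      2 * (D 1 u s * D v (D 1 u) s + D I u s * D v (D I u) s) + 2 * l * (u s * D v u s) :=
    fun v => by rw [D_add (smGr hu) (jet1_sm_yy hu l e), jet1_D_Gr hu, jet1_D_yy hu]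
  have dd : ∀ v, D v (D v fun s => Gr u s + yy u l e s) z =
      2 * (D v (D 1 u) z ^ 2 + D v (D I u) z ^ 2 + D 1 u z * D v (D v (D 1 u)) z +
        D I u z * D v (D v (D I u)) z) + 2 * l * (D v u z ^ 2 + u z * D v (D v u) z) := fun v => by
    have h2 := smD ha v
    have h3 := smD hb v
    have h4 := smD hu v
    rw [d v]
    simp (disch := fun_prop) only [D_add, D_cmul, D_mul]
    ring
  have e0 := h.eq z hz
  have e1 := jet1_eq h hz 1
  have e2 := jet1_eq h hz I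
  have key := jet1_alg (a := D 1 u z) (b := D I u z) (q := D 1 (D I u) z) (y := yy u l e z) hl
    (by unfold yy; linarith) (h.bd z hz).1 (h.bd z hz).2 e0
  have g1 : Gr (fun s => Gr u s + yy u l e s) z =
      D 1 (fun s => Gr u s + yy u l e s) z ^ 2 + D I (fun s => Gr u s + yy u l e s) z ^ 2 := rfl
  unfold v0
  rw [jet1_Lap_log hQ hp, le_div_iff₀ (pow_pos (hp z) 2), g1]
  refine key.trans (le_of_eq ?_)
  simp only [Lap] at e0 e1 e2
  simp only [Lap, dd]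
  simp only [d, hc]
  simp only [Gr]
  linear_combination (-(D 1 u z ^ 2 + D I u z ^ 2 + yy u l e z)) *
    (2 * D 1 u z * e1 + 2 * D I u z * e2 + 2 * l * u z * e0)

/-- The gradient of the logarithm of the regularised square. -/
theorem jet1_gn_sq (hu : Sm u) (hl : 0 ≤ l) (he : 0 < e) (z : ℂ) :
    (|D 1 (yy u l e) z / yy u l e z| + |D I (yy u l e) z / yy u l e z|) ^ 2 ≤
      8 * (l * tt u l e z) := by
  have hy := yy_pos u hl he z
  have h3 : l * u z ^ 2 ≤ yy u l e z := by unfold yy; linarith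
  have hg := Gr_nonneg u z
  have h1 : (D 1 (yy u l e) z / yy u l e z) ^ 2 + (D I (yy u l e) z / yy u l e z) ^ 2 ≤
      4 * (l * tt u l e z) := by
    rw [div_pow, div_pow, ← add_div, div_le_iff₀ (by positivity), jet1_D_yy hu, jet1_D_yy hu]
    calc _ = 4 * l * (l * u z ^ 2) * Gr u z := by simp only [Gr]; ring
      _ ≤ 4 * l * yy u l e z * Gr u z := by gcongr
      _ = _ := by rw [← jet1_tt_mul u hl he z]; ring
  rw [← sq_abs (D 1 _ z / _), ← sq_abs (D I _ z / _)] at h1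
  nlinarith [sq_nonneg (|D 1 (yy u l e) z / yy u l e z| - |D I (yy u l e) z / yy u l e z|)]

theorem jet1_D_tt (hu : Sm u) (hl : 0 ≤ l) (he : 0 < e) (v z : ℂ) :
    D v (tt u l e) z = (1 + tt u l e z) * (D v (v0 u l e) z - D v (yy u l e) z / yy u l e z) := by
  have hy := yy_pos u hl he z
  have hp := jet1_Q_pos u hl he
  have hq := hp z
  unfold v0
  rw [jet1_D_log ((smGr hu).add (jet1_sm_yy hu l e)) hp, D_add (smGr hu) (jet1_sm_yy hu l e)]
  unfold tt
  rw [jet1_D_div (smGr hu) (jet1_sm_yy hu l e) hy]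
  field_simp
  ring

theorem jet1_D_vv (hu : Sm u) (hl : 0 ≤ l) (he : 0 < e) (v z : ℂ) :
    D v (vv u l e) z = D v (yy u l e) z / yy u l e z + f1 (tt u l e z) * D v (tt u l e) z := by
  have h1 := (jet1_sm_yy hu l e).log fun z => (yy_pos u hl he z).ne'
  have h2 : Sm fun s => ff (tt u l e s) := ff_sm.comp (jet1_sm_tt hu hl he)
  unfold vv
  rw [D_add h1 h2, jet1_D_log (jet1_sm_yy hu l e) (yy_pos u hl he)]
  simp only
  rw [D_comp (ff_deriv _) (dif (jet1_sm_tt hu hl he) z)]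

theorem gn_vv (hu : Sm u) (hl : 1 ≤ l) (he : 0 < e) (z : ℂ) :
    gn (vv u l e) z ≤ 2 * gn (v0 u l e) z + 6 * √l := by
  have l0 : 0 ≤ l := by linarith
  have h1 := jet1_gn_sq hu l0 he z
  have t0 := jet1_tt_nonneg u l0 he z
  unfold gn
  simp only [jet1_D_vv hu l0 he, jet1_D_tt hu l0 he]
  set t := tt u l e z
  set A := D 1 (yy u l e) z / yy u l e z
  set B := D I (yy u l e) z / yy u l e z
  set θ := f1 t * (1 + t) with hθ
  have a1 := mul_f1 t
  have a2 := ka_nonneg t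
  have a3 := ka_le_one t
  have a4 := f1_nonneg t
  have θ0 : 0 ≤ θ := by positivity
  have θ2 : θ ≤ 2 := by
    rcases le_total t 1 with h | h
    · rw [hθ, (low h).2.2.1]; norm_num
    · nlinarith
  have b1 : ∀ x w : ℝ, |x + f1 t * ((1 + t) * (w - x))| ≤ 2 * |w| + |1 - θ| * |x| := fun x w => by
    rw [show x + f1 t * ((1 + t) * (w - x)) = θ * w + (1 - θ) * x by rw [hθ]; ring]
    refine (abs_add_le _ _).trans ?_
    rw [abs_mul θ, abs_mul (1 - θ), abs_of_nonneg θ0]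
    gcongr
  have b2 : |1 - θ| * (|A| + |B|) ≤ 6 * √l := by
    refine (le_abs_self _).trans (jet1_le_of_sq (by positivity) ?_)
    rw [mul_pow, mul_pow, Real.sq_sqrt l0, sq_abs]
    have c1 : (1 - θ) ^ 2 * t ≤ 2 := by
      rcases le_total t 2 with h | h
      · have : (1 - θ) ^ 2 ≤ 1 := by nlinarith
        nlinarith
      · have c2 : 1 - θ = -f1 t := by rw [hθ, mul_add, mul_comm _ t, a1, (high h).1]; ring
        rw [(high h).1] at a1
        rw [c2]
        nlinarith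
    calc (1 - θ) ^ 2 * (|A| + |B|) ^ 2 ≤ (1 - θ) ^ 2 * (8 * (l * t)) := by gcongr
      _ = 8 * l * ((1 - θ) ^ 2 * t) := by ring
      _ ≤ 8 * l * 2 := by gcongr
      _ ≤ 6 ^ 2 * l := by linarith
  linarith [b1 A (D 1 (v0 u l e) z), b1 B (D I (v0 u l e) z)]

theorem jet1_f2 {t : ℝ} (ht : 1 ≤ t) : |f2 t| * t ^ 2 ≤ 2 * cK := by
  have a1 := mul_f1 t
  have a3 := ka_le_one t
  have a4 := f1_nonneg t
  have a5 := mul_f2 t
  have a6 := k1_nonneg t
  have a7 := k1_le t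
  have a8 := one_le_cK
  have e1 : |f2 t| * t ^ 2 = |k1 t - f1 t| * t := by
    rw [← a5, abs_mul, abs_of_nonneg (by linarith : 0 ≤ t)]; ring
  rw [e1]
  rcases le_total t 2 with h | h
  · have b1 : f1 t ≤ 1 := by nlinarith
    have b2 : |k1 t - f1 t| ≤ cK := abs_le.2 ⟨by linarith, by linarith⟩
    nlinarith [abs_nonneg (k1 t - f1 t)]
  · rw [(high h).2, zero_sub, abs_neg, abs_of_nonneg a4]
    linarith

theorem jet1_D_BB (hu : Sm u) (hV : Sm V) (hl : 0 ≤ l) (he : 0 < e) (v z : ℂ) :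
    D v (BB u V l e v) z =
      2 * (f2 (tt u l e z) * D v (tt u l e) z) * (V z * u z * D v u z / yy u l e z) +
      2 * f1 (tt u l e z) * (((D v V z * u z + V z * D v u z) * D v u z +
        V z * u z * D v (D v u) z) / yy u l e z -
        V z * u z * D v u z * (2 * l * (u z * D v u z)) / yy u l e z ^ 2) := by
  have h2 : Sm fun s => f1 (tt u l e s) := f1_sm.comp (jet1_sm_tt hu hl he)
  unfold BB
  rw [D_mul (contDiff_const.mul h2) (jet1_sm_H hu hV hl he v), D_cmul h2]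
  simp only
  rw [D_comp (f1_deriv _) (dif (jet1_sm_tt hu hl he) z),
    jet1_D_div ((hV.mul hu).mul (smD hu v)) (jet1_sm_yy hu l e) (yy_pos u hl he z),
    D_mul (hV.mul hu) (smD hu v), D_mul hV hu, jet1_D_yy hu]

theorem jet1_div {u a b V Vx Vy l y t f : ℝ} (hl : 1 ≤ l) (hy : l * u ^ 2 ≤ y) (y0 : 0 < y)
    (hV : |V| ≤ l) (hd : |Vx| + |Vy| ≤ l) (ht : 1 ≤ t) (hg : t * y = a ^ 2 + b ^ 2) (f0 : 0 ≤ f)
    (hf : t * f ≤ 1) :
    |f * ((u * (a * Vx + b * Vy) + V * (a ^ 2 + b ^ 2) - (V * u) ^ 2) / y -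
      2 * l * V * u ^ 2 * (a ^ 2 + b ^ 2) / y ^ 2)| ≤ 5 * l := by
  have l0 : 0 ≤ l := by linarith
  have h1 := jet1_dot (a := a) (b := b) hd
  rw [← hg] at h1 ⊢
  have t0 : 0 ≤ t := by linarith
  have h0 : y ≤ t * y := le_mul_of_one_le_left y0.le ht
  have h2 : u ^ 2 ≤ t * y := by nlinarith [sq_nonneg u]
  have h3 : |u * (a * Vx + b * Vy)| ≤ l * (t * y) := by
    refine jet1_le_of_sq (by positivity) ?_
    calc (u * (a * Vx + b * Vy)) ^ 2 = u ^ 2 * (a * Vx + b * Vy) ^ 2 := by ring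
      _ ≤ t * y * (l ^ 2 * (t * y)) := by gcongr
      _ = _ := by ring
  have h4 : |V * (t * y)| ≤ l * (t * y) := by
    rw [abs_mul, abs_of_nonneg (by positivity : 0 ≤ t * y)]; gcongr
  have h5 : (V * u) ^ 2 ≤ l * (t * y) := by
    have : V ^ 2 ≤ l ^ 2 := sq_le_sq' (abs_le.1 hV).1 (abs_le.1 hV).2
    calc (V * u) ^ 2 = V ^ 2 * u ^ 2 := by ring
      _ ≤ l ^ 2 * u ^ 2 := by gcongr
      _ = l * (l * u ^ 2) := by ring
      _ ≤ l * (t * y) := mul_le_mul_of_nonneg_left (hy.trans h0) l0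
  have h6 : |V * t * (l * u ^ 2)| ≤ l * (t * y) := by
    rw [abs_mul, abs_mul, abs_of_nonneg t0, abs_of_nonneg (by positivity : 0 ≤ l * u ^ 2),
      ← mul_assoc l t]
    gcongr
  have e1 : (u * (a * Vx + b * Vy) + V * (t * y) - (V * u) ^ 2) / y -
      2 * l * V * u ^ 2 * (t * y) / y ^ 2 =
      (u * (a * Vx + b * Vy) + V * (t * y) - (V * u) ^ 2 - 2 * (V * t * (l * u ^ 2))) / y := by
    field_simp
  have h7 : |u * (a * Vx + b * Vy) + V * (t * y) - (V * u) ^ 2 - 2 * (V * t * (l * u ^ 2))| ≤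
      5 * (l * (t * y)) := by
    obtain ⟨a1, a2⟩ := abs_le.1 h3
    obtain ⟨a3, a4⟩ := abs_le.1 h4
    obtain ⟨a5, a6⟩ := abs_le.1 h6
    have a7 := sq_nonneg (V * u)
    exact abs_le.2 ⟨by linarith, by linarith⟩
  rw [e1, abs_mul, abs_div, abs_of_nonneg f0, abs_of_pos y0, ← mul_div_assoc, div_le_iff₀ y0]
  calc _ ≤ f * (5 * (l * (t * y))) := by gcongr
    _ = 5 * l * y * (t * f) := by ring
    _ ≤ 5 * l * y * 1 := by gcongr
    _ = _ := by ring

theorem dv_le (h : Sl u V l R) (hl : 1 ≤ l) (he : 0 < e) (hz : ‖z‖ < R) :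
    |dv (BB u V l e 1) (BB u V l e I) z| ≤ 100 * cK * (l + √l * gn (v0 u l e) z) := by
  have l0 : 0 ≤ l := by linarith
  have hu := h.hu
  have c1 := one_le_cK
  have g0 := gn_nonneg (v0 u l e) z
  have s0 := Real.sqrt_nonneg l
  have e0 := h.eq z hz
  have h1 := jet1_gn_sq hu l0 he z
  have h2 := jet1_H_sq (u := u) l0 he (h.bd z hz).1 (Or.inl rfl)
  have h3 := jet1_H_sq (u := u) l0 he (h.bd z hz).1 (Or.inr rfl)
  have h4 := jet1_tt_mul u l0 he z
  have hy := yy_pos u l0 he z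
  unfold dv
  rw [jet1_D_BB hu h.hV l0 he, jet1_D_BB hu h.hV l0 he, jet1_D_tt hu l0 he, jet1_D_tt hu l0 he]
  set t := tt u l e z
  rcases le_total t 1 with ht | ht
  · rw [(low ht).2.2.1, (low ht).2.2.2.1]
    simp only [mul_zero, zero_mul, add_zero, abs_zero]
    positivity
  have h5 := jet1_div (u := u z) (a := D 1 u z) (b := D I u z) hl (by unfold yy; linarith) hy
    (h.bd z hz).1 (h.bd z hz).2 ht h4 (f1_nonneg t) (by rw [mul_f1]; exact ka_le_one t)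
  have h6 := jet1_f2 ht
  unfold gn at g0 ⊢
  set A := D 1 (yy u l e) z / yy u l e z
  set B := D I (yy u l e) z / yy u l e z
  set H1 := V z * u z * D 1 u z / yy u l e z
  set H2 := V z * u z * D I u z / yy u l e z
  set w1 := D 1 (v0 u l e) z
  set w2 := D I (v0 u l e) z
  obtain ⟨m, m0, hm⟩ : ∃ m : ℝ, 0 ≤ m ∧ m ^ 2 = l * t :=
    ⟨√(l * t), Real.sqrt_nonneg _, Real.sq_sqrt (by positivity)⟩
  have b1 : |H1| ≤ m := jet1_le_of_sq m0 (by linarith)
  have b2 : |H2| ≤ m := jet1_le_of_sq m0 (by linarith)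
  have b3 : |A| + |B| ≤ 3 * m :=
    (le_abs_self _).trans (jet1_le_of_sq (by positivity) (by nlinarith [sq_nonneg m]))
  have b4 : m ≤ √l * t := by
    refine (le_abs_self _).trans (jet1_le_of_sq (by positivity) ?_)
    rw [hm, mul_pow, Real.sq_sqrt l0]
    gcongr
    nlinarith
  have b5 : |(w1 - A) * H1 + (w2 - B) * H2| ≤ t * (√l * (|w1| + |w2|) + 3 * l) := by
    refine (abs_add_le _ _).trans ?_
    rw [abs_mul, abs_mul]
    calc _ ≤ (|w1| + |A|) * m + (|w2| + |B|) * m := by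
          gcongr
          · exact abs_sub _ _
          · exact abs_sub _ _
      _ = (|w1| + |w2|) * m + (|A| + |B|) * m := by ring
      _ ≤ (|w1| + |w2|) * (√l * t) + 3 * m * m := by gcongr
      _ = _ := by linear_combination 3 * hm
  have b6 : |2 * (f2 t * (1 + t) * ((w1 - A) * H1 + (w2 - B) * H2))| ≤
      8 * cK * (√l * (|w1| + |w2|) + 3 * l) := by
    rw [abs_mul, abs_mul, abs_mul, abs_two, abs_of_nonneg (by linarith : 0 ≤ 1 + t)]
    calc _ ≤ 2 * (|f2 t| * (2 * t) * (t * (√l * (|w1| + |w2|) + 3 * l))) := by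
          gcongr
          linarith
      _ = 4 * (|f2 t| * t ^ 2) * (√l * (|w1| + |w2|) + 3 * l) := by ring
      _ ≤ 4 * (2 * cK) * (√l * (|w1| + |w2|) + 3 * l) := by gcongr
      _ = _ := by ring
  simp only [Lap] at e0
  obtain ⟨a1, a2⟩ := abs_le.1 h5
  obtain ⟨a3, a4⟩ := abs_le.1 b6
  have a5 : l ≤ cK * l := le_mul_of_one_le_left l0 c1
  have a6 : 0 ≤ cK * (√l * (|w1| + |w2|)) := by positivity
  have e1 : D I (D I u) z = -(V z * u z) - D 1 (D 1 u) z := by linarith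
  rw [e1]
  refine abs_le.2 ⟨?_, ?_⟩
  · refine le_trans ?_ ((add_le_add a3 (mul_le_mul_of_nonneg_left a1 zero_le_two)).trans_eq ?_)
    · linarith
    · ring
  · refine le_trans (le_of_eq_of_le ?_ (add_le_add a4 (mul_le_mul_of_nonneg_left a2 zero_le_two))) ?_
    · ring
    · linarith

end Pool.Agent.Lib.MP_a52643_an.YA
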