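import Pool.Agent.Lib.MP_a52643_an.YA.Ker1

/-!
Integrals of singular weights.
-/

namespace Pool.Agent.Lib.MP_a52643_an.YA

open Complex Filter Topology Metric MeasureTheory Set QS
open scoped ContDiff ComplexConjugate

variable {k : ℂ → ℂ → ℝ} {μ : ℂ → ℝ} {m r ε δ : ℝ} {v w z : ℂ}

private theorem ker_ind (f : ℝ → ℝ) (z : ℂ) (r : ℝ) :
    (ball z r).indicator (fun y => f ‖z - y‖) = fun y => (Iio r).indicator f ‖z - y‖ := by
  funext y
  by_cases h : y ∈ ball z r
  · have h' : ‖z - y‖ ∈ Iio r := by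
      rw [mem_ball, dist_comm, dist_eq_norm] at h; exact h
    rw [indicator_of_mem h, indicator_of_mem h']
  · have h' : ‖z - y‖ ∉ Iio r := by
      rw [mem_ball, dist_comm, dist_eq_norm] at h; exact h
    rw [indicator_of_notMem h, indicator_of_notMem h']

private theorem ker_rad (f : ℝ → ℝ) (r : ℝ) :
    EqOn (fun t : ℝ => t ^ (Module.finrank ℝ ℂ - 1) • (Iio r).indicator f t)
      ((Iio r).indicator fun t => t * f t) (Ioi 0) := by
  intro t _
  by_cases h : t ∈ Iio r
  · simp only [indicator_of_mem h, Complex.finrank_real_complex]; simp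
  · simp only [indicator_of_notMem h]; simp

private theorem ker_polar_int (f : ℝ → ℝ) (z : ℂ) (r : ℝ)
    (h : IntegrableOn (fun t => t * f t) (Ioo 0 r)) :
    IntegrableOn (fun y => f ‖z - y‖) (ball z r) := by
  rw [← integrable_indicator_iff measurableSet_ball, ker_ind]
  refine Integrable.comp_sub_left (f := fun y : ℂ => (Iio r).indicator f ‖y‖) ?_ z
  rw [integrable_fun_norm_addHaar (volume : Measure ℂ) (f := (Iio r).indicator f),
    integrableOn_congr_fun (ker_rad f r) measurableSet_Ioi,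
    integrableOn_indicator_iff measurableSet_Iio, inter_comm, Ioi_inter_Iio]
  exact h

private theorem ker_polar (f : ℝ → ℝ) (z : ℂ) (r : ℝ) :
    ∫ y in ball z r, f ‖z - y‖ = 2 * Real.pi * ∫ t in Ioo 0 r, t * f t := by
  rw [← integral_indicator measurableSet_ball, ker_ind,
    integral_sub_left_eq_self (fun y : ℂ => (Iio r).indicator f ‖y‖) volume z,
    integral_fun_norm_addHaar (volume : Measure ℂ) ((Iio r).indicator f),
    setIntegral_congr_fun measurableSet_Ioi (ker_rad f r),
    setIntegral_indicator measurableSet_Iio, Ioi_inter_Iio, Complex.finrank_real_complex]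
  have : (volume : Measure ℂ).real (ball 0 1) = Real.pi := by
    simp [Measure.real, Complex.volume_ball]
  rw [this]
  simp only [smul_eq_mul, nsmul_eq_mul]
  push_cast
  ring

private theorem ker_one (r : ℝ) : EqOn (fun t : ℝ => t * (1 / t)) (fun _ => 1) (Ioo 0 r) := by
  intro t ht
  have := ht.1.ne'
  simp only
  field_simp

/-- The weight `1 / |z - y|` on a disc. -/
theorem int_inv (z : ℂ) (hr : 0 ≤ r) : IntegrableOn (fun y => 1 / ‖z - y‖) (ball z r) ∧
    ∫ y in ball z r, 1 / ‖z - y‖ ≤ 7 * r := by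
  constructor
  · refine ker_polar_int (fun t => 1 / t) z r ?_
    rw [integrableOn_congr_fun (ker_one r) measurableSet_Ioo]
    exact integrableOn_const (by simp)
  · rw [ker_polar (fun t => 1 / t) z r, setIntegral_congr_fun measurableSet_Ioo (ker_one r)]
    have h1 : ∫ _ in Ioo (0 : ℝ) r, (1 : ℝ) = r := by simp [hr]
    rw [h1]
    have := Real.pi_lt_d2
    nlinarith

private theorem ker_meas (hμ : Bd μ m r) (z : ℂ) : Measurable fun y => |μ y| / ‖z - y‖ :=
  (continuous_abs.measurable.comp hμ.me).div (by fun_prop)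

private theorem ker_pt (hμ : Bd μ m r) (z : ℂ) {s : ℝ} (hs : 0 < s) (y : ℂ) :
    |μ y| / ‖z - y‖ ≤ m * (ball z s).indicator (fun y => 1 / ‖z - y‖) y + |μ y| / s := by
  have hm : 0 ≤ m := (abs_nonneg _).trans (hμ.le 0)
  by_cases h : y ∈ ball z s
  · rw [indicator_of_mem h, mul_one_div]
    have h1 : |μ y| / ‖z - y‖ ≤ m / ‖z - y‖ :=
      div_le_div_of_nonneg_right (hμ.le y) (norm_nonneg _)
    have h2 : 0 ≤ |μ y| / s := by positivity
    linarith
  · rw [indicator_of_notMem h, mul_zero, zero_add]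
    rw [mem_ball, dist_comm, dist_eq_norm, not_lt] at h
    exact div_le_div_of_nonneg_left (abs_nonneg _) hs h

private theorem ker_maj (hμ : Bd μ m r) (z : ℂ) {s : ℝ} (hs : 0 < s) :
    Integrable fun y => m * (ball z s).indicator (fun y => 1 / ‖z - y‖) y + |μ y| / s :=
  (((integrable_indicator_iff measurableSet_ball).2 (int_inv z hs.le).1).const_mul m).add
    (hμ.int'.abs.div_const s)

theorem Bd.int_inv (hμ : Bd μ m r) (z : ℂ) : Integrable fun y => |μ y| / ‖z - y‖ := by
  refine (ker_maj hμ z one_pos).mono' (ker_meas hμ z).aestronglyMeasurable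
    (Eventually.of_forall fun y => ?_)
  rw [Real.norm_eq_abs, abs_of_nonneg (by positivity)]
  exact ker_pt hμ z one_pos y

theorem Bd.inv_le (hμ : Bd μ m r) (z : ℂ) {s : ℝ} (hs : 0 < s) :
    ∫ y, |μ y| / ‖z - y‖ ≤ 7 * m * s + (∫ y, |μ y|) / s := by
  have hm : 0 ≤ m := (abs_nonneg _).trans (hμ.le 0)
  have h1 := integral_mono (hμ.int_inv z) (ker_maj hμ z hs) (ker_pt hμ z hs)
  rw [integral_add
    (((integrable_indicator_iff measurableSet_ball).2 (YA.int_inv z hs.le).1).const_mul m)
    (hμ.int'.abs.div_const s), integral_const_mul, integral_div,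
    integral_indicator measurableSet_ball] at h1
  have h2 := mul_le_mul_of_nonneg_left (YA.int_inv z hs.le).2 hm
  linarith

private theorem ker_disc (y : ℂ) : IntegrableOn (fun z => 1 / ‖z - y‖) (ball (0 : ℂ) 1) ∧
    ∫ z in ball (0 : ℂ) 1, 1 / ‖z - y‖ ≤ 11 := by
  have hb : Bd ((ball (0 : ℂ) 1).indicator fun _ => (1 : ℝ)) 1 1 := by
    refine ⟨measurable_const.indicator measurableSet_ball, fun x => ?_, fun x hx => ?_⟩
    · by_cases h : x ∈ ball (0 : ℂ) 1
      · simp [indicator_of_mem h]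
      · simp [indicator_of_notMem h]
    · exact indicator_of_notMem (by simpa using hx.le) _
  have he : (fun z => |(ball (0 : ℂ) 1).indicator (fun _ => (1 : ℝ)) z| / ‖y - z‖) =
      (ball (0 : ℂ) 1).indicator fun z => 1 / ‖z - y‖ := by
    funext x
    by_cases h : x ∈ ball (0 : ℂ) 1
    · simp [indicator_of_mem h, norm_sub_rev]
    · simp [indicator_of_notMem h]
  have ha : (fun z => |(ball (0 : ℂ) 1).indicator (fun _ => (1 : ℝ)) z|) =
      (ball (0 : ℂ) 1).indicator fun _ => (1 : ℝ) := by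
    funext x
    by_cases h : x ∈ ball (0 : ℂ) 1
    · simp [indicator_of_mem h]
    · simp [indicator_of_notMem h]
  have h1 := hb.int_inv y
  have h2 := hb.inv_le y one_pos
  rw [he] at h1 h2
  rw [ha, integral_indicator measurableSet_ball, integral_indicator measurableSet_ball] at h2
  refine ⟨(integrable_indicator_iff measurableSet_ball).1 h1, h2.trans ?_⟩
  have : ∫ _ in ball (0 : ℂ) 1, (1 : ℝ) = Real.pi := by
    simp [Measure.real, Complex.volume_ball]
  rw [this]
  have := Real.pi_lt_four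
  linarith

theorem Bd.inv_fub (hμ : Bd μ m r) :
    IntegrableOn (fun z => ∫ y, |μ y| / ‖z - y‖) (ball (0 : ℂ) 1) ∧
    ∫ z in ball (0 : ℂ) 1, ∫ y, |μ y| / ‖z - y‖ ≤ 11 * ∫ y, |μ y| := by
  have hme : Measurable fun p : ℂ × ℂ => |μ p.2| / ‖p.1 - p.2‖ :=
    (continuous_abs.measurable.comp (hμ.me.comp measurable_snd)).div (by fun_prop)
  have hin : ∀ y, ∫ z in ball (0 : ℂ) 1, |μ y| / ‖z - y‖ ≤ 11 * |μ y| := by
    intro y
    have e : (fun z => |μ y| / ‖z - y‖) = fun z => |μ y| * (1 / ‖z - y‖) := by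
      funext z; rw [mul_one_div]
    rw [e, integral_const_mul, mul_comm]
    exact mul_le_mul_of_nonneg_right (ker_disc y).2 (abs_nonneg _)
  have hI : Integrable (fun p : ℂ × ℂ => |μ p.2| / ‖p.1 - p.2‖)
      ((volume.restrict (ball (0 : ℂ) 1)).prod volume) := by
    rw [integrable_prod_iff' hme.aestronglyMeasurable]
    refine ⟨Eventually.of_forall fun y => ?_, ?_⟩
    · have e : (fun z => |μ y| / ‖z - y‖) = fun z => |μ y| * (1 / ‖z - y‖) := by
        funext z; rw [mul_one_div]
      simp only [e]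
      exact (ker_disc y).1.const_mul _
    · refine (hμ.int'.abs.const_mul 11).mono' ?_ (Eventually.of_forall fun y => ?_)
      · exact (hme.norm.stronglyMeasurable.integral_prod_left').aestronglyMeasurable
      · have e : (fun z => ‖|μ y| / ‖z - y‖‖) = fun z => |μ y| / ‖z - y‖ := by
          funext z; rw [Real.norm_eq_abs, abs_of_nonneg (by positivity)]
        simp only [e]
        rw [Real.norm_eq_abs, abs_of_nonneg (integral_nonneg fun z => by positivity)]
        exact hin y
  refine ⟨hI.integral_prod_left, ?_⟩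
  rw [integral_integral_swap (f := fun z y => |μ y| / ‖z - y‖) hI, ← integral_const_mul]
  exact integral_mono hI.integral_prod_right (hμ.int'.abs.const_mul 11) hin

theorem gn_Pot (hε : 0 < ε) (hμ : Bd μ m r) (z : ℂ) :
    gn (Pot ε μ) z ≤ 4 * ∫ y, |μ y| / ‖z - y‖ := by
  have hc : ∀ v : ℂ, Integrable fun y => D v (Nk ε) (z - y) * μ y := fun v =>
    hμ.int ((smD (sm_Nk ε) v).continuous.comp (continuous_const.sub continuous_id))
  have hp : ∀ y, |D 1 (Nk ε) (z - y) * μ y| + |D I (Nk ε) (z - y) * μ y| ≤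
      4 * (|μ y| / ‖z - y‖) := by
    intro y
    have h := gn_Nk hε 0 1 (z - y)
    simp only [zero_add, one_mul, norm_one, mul_one] at h
    unfold gn at h
    rw [abs_mul, abs_mul, ← add_mul]
    have h2 := mul_le_mul_of_nonneg_right h (abs_nonneg (μ y))
    refine h2.trans (le_of_eq ?_)
    ring
  unfold gn
  rw [D_Pot ε hμ, D_Pot ε hμ, ← integral_const_mul]
  calc _ ≤ (∫ y, |D 1 (Nk ε) (z - y) * μ y|) + ∫ y, |D I (Nk ε) (z - y) * μ y| :=
        add_le_add abs_integral_le_integral_abs abs_integral_le_integral_abs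
    _ = ∫ y, (|D 1 (Nk ε) (z - y) * μ y| + |D I (Nk ε) (z - y) * μ y|) :=
        (integral_add (hc 1).abs (hc I).abs).symm
    _ ≤ _ := integral_mono ((hc 1).abs.add (hc I).abs) ((hμ.int_inv z).const_mul 4) hp

/-- The logarithmic integral. -/
theorem int_log (hδ : 0 < δ) (z : ℂ) (hr : 0 ≤ r) :
    ∫ y in ball z r, 1 / (δ ^ 2 + ‖z - y‖ ^ 2) ≤ 4 * Real.log (1 + r ^ 2 / δ ^ 2) := by
  rw [ker_polar (fun t => 1 / (δ ^ 2 + t ^ 2)) z r, ← integral_Ioc_eq_integral_Ioo,
    ← intervalIntegral.integral_of_le hr]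
  have hd : ∀ t ∈ uIcc (0 : ℝ) r, HasDerivAt (fun t => Real.log (δ ^ 2 + t ^ 2) / 2)
      (t * (1 / (δ ^ 2 + t ^ 2))) t := by
    intro t _
    have h0 : δ ^ 2 + t ^ 2 ≠ 0 := by positivity
    have h1 : HasDerivAt (fun t : ℝ => δ ^ 2 + t ^ 2) (2 * t) t := by
      simpa using (hasDerivAt_pow 2 t).const_add (δ ^ 2)
    have e : t * (1 / (δ ^ 2 + t ^ 2)) = 2 * t / (δ ^ 2 + t ^ 2) / 2 := by ring
    rw [e]
    exact (h1.log h0).div_const 2
  have hc : Continuous fun t : ℝ => t * (1 / (δ ^ 2 + t ^ 2)) :=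
    continuous_id.mul (continuous_const.div (by fun_prop) fun t => by positivity)
  rw [intervalIntegral.integral_eq_sub_of_hasDerivAt hd (hc.intervalIntegrable _ _)]
  have e : Real.log (1 + r ^ 2 / δ ^ 2) = Real.log (δ ^ 2 + r ^ 2) - Real.log (δ ^ 2 + 0 ^ 2) := by
    rw [← Real.log_div (by positivity) (by positivity)]
    congr 1
    field_simp
    ring
  have h0 : 0 ≤ Real.log (1 + r ^ 2 / δ ^ 2) :=
    Real.log_nonneg (by have : 0 ≤ r ^ 2 / δ ^ 2 := by positivity
                        linarith)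
  have := Real.pi_lt_four
  rw [← sub_div, ← e]
  nlinarith

end Pool.Agent.Lib.MP_a52643_an.YA
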