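import Pool.Agent.Lib.MP_a52643_an.YA.Phi

/-!
Integral operators, the smoothed logarithmic kernel, and integrals of singular weights.
-/

namespace Pool.Agent.Lib.MP_a52643_an.YA

open Complex Filter Topology Metric MeasureTheory Set QS
open scoped ContDiff ComplexConjugate

variable {k : ℂ → ℂ → ℝ} {μ : ℂ → ℝ} {m r ε δ : ℝ} {v w z : ℂ}

theorem Bd.int (hμ : Bd μ m r) {g : ℂ → ℝ} (hg : Continuous g) :
    Integrable fun y => g y * μ y := by
  have h1 : IntegrableOn (fun y => g y * μ y) (closedBall 0 r) :=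
    Integrable.mul_bdd (hg.continuousOn.integrableOn_compact (isCompact_closedBall 0 r))
      hμ.me.aestronglyMeasurable (Eventually.of_forall hμ.le)
  refine h1.integrable_of_forall_notMem_eq_zero fun y hy => ?_
  rw [hμ.su y (by simpa using hy), mul_zero]

theorem Bd.int' (hμ : Bd μ m r) : Integrable μ := by
  simpa using hμ.int (g := fun _ => 1) continuous_const

theorem ker1_fst (hk : SmK k) (y : ℂ) : Sm fun x => k x y :=
  hk.comp (contDiff_id.prodMk contDiff_const)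

theorem ker1_snd (hk : SmK k) (z : ℂ) : Continuous (k z) :=
  hk.continuous.comp (continuous_const.prodMk continuous_id)

theorem SmK.D (hk : SmK k) (v : ℂ) : SmK fun z y => D v (fun x => k x y) z :=
  ContDiff.fderiv_apply (m := ∞) (f := fun (p : ℂ × ℂ) x => k x p.2) (g := fun p => p.1)
    (k := fun _ => v) (hk.comp (contDiff_snd.prodMk (contDiff_snd.comp contDiff_fst)))
    contDiff_fst contDiff_const (by simp)

theorem sm_IK (hk : SmK k) (hμ : Bd μ m r) : Sm (IK k μ) := by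
  obtain ⟨χ, C, h1, -, h2, h3, -⟩ := exists_cut (a := |r| + 1) (b := |r| + 2) (by positivity)
    (by linarith)
  have key := contDiffOn_convolution_right_with_param_comp (𝕜 := ℝ) (μ := volume) (n := ⊤)
    (ContinuousLinearMap.mul ℝ ℝ) (s := univ) (v := fun _ : ℂ => (0 : ℂ)) contDiffOn_const
    (f := μ) (g := fun p x => k p (-x) * χ x) (k := closedBall 0 (|r| + 2)) isOpen_univ
    (isCompact_closedBall _ _) (fun p x _ hx => by
      rw [h3 x (le_of_lt (by simpa using hx)), mul_zero]) hμ.int'.locallyIntegrable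
    (((hk.comp (contDiff_fst.prodMk contDiff_snd.neg)).mul (h1.comp contDiff_snd)).contDiffOn)
  rw [contDiffOn_univ] at key
  convert key using 1
  funext z
  simp only [IK, convolution_def, ContinuousLinearMap.mul_apply', zero_sub, neg_neg]
  refine integral_congr_ae (Eventually.of_forall fun y => ?_)
  rcases le_or_gt ‖y‖ r with h | h
  · simp only
    rw [h2 (-y) (by rw [norm_neg]; linarith [le_abs_self r])]
    ring
  · simp [hμ.su y h]

theorem D_IK (hk : SmK k) (hμ : Bd μ m r) (v : ℂ) :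
    D v (IK k μ) = IK (fun z y => D v (fun x => k x y) z) μ := by
  funext z
  have h1 := line (sm_IK hk hμ) z v 0
  have c3 : Continuous fun p : ℝ × ℂ => D v (fun x => k x p.2) (z + p.1 • v) :=
    (hk.D v).continuous.comp
      ((continuous_const.add (continuous_fst.smul continuous_const)).prodMk continuous_snd)
  obtain ⟨K, hK⟩ := ((isCompact_closedBall (0 : ℝ) 1).prod
    (isCompact_closedBall (0 : ℂ) r)).exists_bound_of_continuousOn c3.continuousOn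
  have h2 := (hasDerivAt_integral_of_dominated_loc_of_deriv_le (μ := volume)
    (F := fun (t : ℝ) y => k (z + t • v) y * μ y) (bound := fun y => K * ‖μ y‖)
    (F' := fun t y => D v (fun x => k x y) (z + t • v) * μ y) (closedBall_mem_nhds 0 one_pos)
    (Eventually.of_forall fun x => (hμ.int (ker1_snd hk _)).aestronglyMeasurable)
    (hμ.int (ker1_snd hk _)) (hμ.int (ker1_snd (hk.D v) _)).aestronglyMeasurable
    (Eventually.of_forall fun y x hx => ?_) (hμ.int'.norm.const_mul K)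
    (Eventually.of_forall fun y x _ => (line (ker1_fst hk y) z v x).mul_const (μ y))).2
  · simpa [IK] using h1.unique h2
  · rcases le_or_gt ‖y‖ r with h | h
    · rw [norm_mul]
      exact mul_le_mul_of_nonneg_right (hK (x, y) ⟨hx, mem_closedBall_zero_iff.2 h⟩)
        (norm_nonneg _)
    · simp [hμ.su y h]

theorem Lap_IK (hk : SmK k) (hμ : Bd μ m r) (z : ℂ) :
    Lap (IK k μ) z = ∫ y, Lap (fun x => k x y) z * μ y := by
  unfold Lap
  rw [D_IK hk hμ, D_IK hk hμ, D_IK (hk.D 1) hμ, D_IK (hk.D I) hμ]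
  simp only [IK, add_mul]
  exact (integral_add (hμ.int (ker1_snd ((hk.D 1).D 1) z))
    (hμ.int (ker1_snd ((hk.D I).D I) z))).symm

theorem ker1_sm (ε : ℝ) (a b : ℂ) : Sm fun x => ‖a + b * x‖ ^ 2 / ε ^ 2 :=
  ((contDiff_norm_sq ℝ).comp (contDiff_const.add (contDiff_const.mul contDiff_id))).div_const _

theorem ker1_aff (a b v z : ℂ) : HasDerivAt (fun t : ℝ => a + b * (z + t • v)) (b * v) 0 := by
  have h1 : HasDerivAt (fun t : ℝ => z + t • v) v 0 := by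
    simpa using ((hasDerivAt_id (0 : ℝ)).smul_const v).const_add z
  exact (h1.const_mul b).const_add a

theorem ker1_D (ε : ℝ) (a b v : ℂ) : D v (fun x => ‖a + b * x‖ ^ 2 / ε ^ 2) =
    fun z => 2 * ((a + b * z) * conj (b * v)).re / ε ^ 2 := by
  funext z
  have h1 := line (ker1_sm ε a b) z v 0
  have h2 := (ker1_aff a b v z).norm_sq.div_const (ε ^ 2)
  have h3 := h1.unique h2
  simp only [zero_smul, add_zero] at h3
  rw [h3, real_inner_comm, Complex.inner]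

theorem ker1_sm' (ε : ℝ) (a b c : ℂ) : Sm fun z => 2 * ((a + b * z) * c).re / ε ^ 2 :=
  (contDiff_const.mul (reCLM.contDiff.comp
    ((contDiff_const.add (contDiff_const.mul contDiff_id)).mul contDiff_const))).div_const _

theorem ker1_DD (ε : ℝ) (a b c v z : ℂ) :
    D v (fun z => 2 * ((a + b * z) * c).re / ε ^ 2) z = 2 * (b * v * c).re / ε ^ 2 := by
  have h1 := line (ker1_sm' ε a b c) z v 0
  have h2 := ((reCLM.hasFDerivAt.comp_hasDerivAt (0 : ℝ)
    ((ker1_aff a b v z).mul_const c)).const_mul 2).div_const (ε ^ 2)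
  have h3 := h1.unique h2
  simpa only [zero_smul, add_zero, reCLM_apply] using h3

theorem sm_Nk (ε : ℝ) : Sm (Nk ε) :=
  (ff_sm.comp ((contDiff_norm_sq ℝ).div_const _)).add contDiff_const

theorem smK_Nk (ε : ℝ) : SmK fun z y => Nk ε (z - y) :=
  (sm_Nk ε).comp (contDiff_fst.sub contDiff_snd)

theorem D_Nk (ε : ℝ) (a b v z : ℂ) : D v (fun x => Nk ε (a + b * x)) z =
    f1 (‖a + b * z‖ ^ 2 / ε ^ 2) * (2 * ((a + b * z) * conj (b * v)).re / ε ^ 2) := by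
  have := D_comp (g := fun t => ff t + Real.log (ε ^ 2))
    (F := fun x => ‖a + b * x‖ ^ 2 / ε ^ 2) (z := z) ((ff_deriv _).add_const _)
    (dif (ker1_sm ε a b) z) v
  rw [ker1_D] at this
  exact this

theorem Lap_Nk (hε : 0 < ε) (a b z : ℂ) :
    Lap (fun x => Nk ε (a + b * x)) z = ‖b‖ ^ 2 * Qk ε (a + b * z) := by
  have h := Lap_comp (g := fun t => ff t + Real.log (ε ^ 2)) (fun t => (ff_deriv t).add_const _)
    f1_deriv (ker1_sm ε a b) z
  have e1 : Gr (fun x => ‖a + b * x‖ ^ 2 / ε ^ 2) z =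
      4 * ‖b‖ ^ 2 / ε ^ 2 * (‖a + b * z‖ ^ 2 / ε ^ 2) := by
    simp only [Gr, ker1_D]
    generalize a + b * z = u
    simp only [Complex.sq_norm, normSq_apply, mul_re, mul_im, conj_re, conj_im, one_re, one_im,
      I_re, I_im]
    field_simp
    ring
  have e2 : Lap (fun x => ‖a + b * x‖ ^ 2 / ε ^ 2) z = 4 * ‖b‖ ^ 2 / ε ^ 2 := by
    simp only [Lap, ker1_D, ker1_DD]
    simp only [Complex.sq_norm, normSq_apply, mul_re, mul_im, conj_re, conj_im, one_re, one_im,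
      I_re, I_im]
    ring
  rw [e1, e2] at h
  refine h.trans ?_
  have := mul_f2 (‖a + b * z‖ ^ 2 / ε ^ 2)
  unfold Qk
  linear_combination (4 * ‖b‖ ^ 2 / ε ^ 2) * this

theorem ker1_re (u c : ℂ) : |(u * conj c).re| ≤ ‖u‖ * ‖c‖ := by
  simpa using abs_re_le_norm (u * conj c)

theorem gn_Nk (hε : 0 < ε) (a b z : ℂ) :
    gn (fun x => Nk ε (a + b * x)) z ≤ 4 * ‖b‖ / ‖a + b * z‖ := by
  have key : ∀ v : ℂ, ‖v‖ = 1 → |D v (fun x => Nk ε (a + b * x)) z| ≤ 2 * ‖b‖ / ‖a + b * z‖ := by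
    intro v hv
    rw [D_Nk]
    generalize a + b * z = u
    rcases eq_or_ne u 0 with rfl | hu
    · simp
    have h0 : 0 < ‖u‖ := norm_pos_iff.2 hu
    have h1 := ker1_re u (b * v)
    rw [norm_mul, hv, mul_one] at h1
    have h2 := mul_f1 (‖u‖ ^ 2 / ε ^ 2)
    have h3 := ka_le_one (‖u‖ ^ 2 / ε ^ 2)
    have h4 := f1_nonneg (‖u‖ ^ 2 / ε ^ 2)
    rw [abs_mul, abs_of_nonneg h4, abs_div, abs_mul, abs_two, abs_of_pos (pow_pos hε 2)]
    calc _ ≤ f1 (‖u‖ ^ 2 / ε ^ 2) * (2 * (‖u‖ * ‖b‖) / ε ^ 2) := by gcongr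
      _ = ‖u‖ ^ 2 / ε ^ 2 * f1 (‖u‖ ^ 2 / ε ^ 2) * (2 * ‖b‖ / ‖u‖) := by field_simp
      _ ≤ 1 * (2 * ‖b‖ / ‖u‖) := by rw [h2]; gcongr
      _ = _ := one_mul _
  have h1 := key 1 norm_one
  have h2 := key I norm_I
  unfold gn
  calc _ ≤ 2 * ‖b‖ / ‖a + b * z‖ + 2 * ‖b‖ / ‖a + b * z‖ := add_le_add h1 h2
    _ = _ := by ring

theorem D_sub_Nk (ε : ℝ) (v y z : ℂ) : D v (fun x => Nk ε (x - y)) z = D v (Nk ε) (z - y) := by
  unfold D
  rw [fderiv_comp_sub]

theorem ker1_two (hε : 0 < ε) (h : 2 * ε ≤ ‖w‖) : 2 ≤ ‖w‖ ^ 2 / ε ^ 2 := by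
  rw [le_div_iff₀ (pow_pos hε 2)]
  nlinarith

theorem Nk_far (hε : 0 < ε) (hδ : 0 < δ) {w' : ℂ} (h1 : 2 * ε ≤ ‖w‖) (h2 : 2 * δ ≤ ‖w‖)
    (h : ‖w'‖ = ‖w‖) : Nk ε w = Nk δ w' := by
  have h0 : ‖w‖ ^ 2 ≠ 0 := pow_ne_zero 2 (by linarith)
  unfold Nk
  rw [h, ff_high (ker1_two hε h1), ff_high (ker1_two hδ h2),
    Real.log_div h0 (pow_ne_zero 2 hε.ne'), Real.log_div h0 (pow_ne_zero 2 hδ.ne')]
  ring

theorem ker1_D0 (ε : ℝ) (v : ℂ) : D v (Nk ε) =
    fun z => f1 (‖0 + 1 * z‖ ^ 2 / ε ^ 2) * (2 * ((0 + 1 * z) * conj v).re / ε ^ 2) := by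
  funext z
  simpa using D_Nk ε 0 1 v z

theorem D_Nk_far (hε : 0 < ε) (h : ε ≤ δ) (h2 : 2 * δ ≤ ‖w‖) (v : ℂ) :
    D v (Nk ε) w = D v (Nk δ) w := by
  have hδ : 0 < δ := by linarith
  have h0 : 0 < ‖w‖ := by linarith
  simp only [ker1_D0, zero_add, one_mul, f1]
  rw [(high (ker1_two hε (by linarith))).1, (high (ker1_two hδ h2)).1]
  field_simp

theorem DD_Nk (hδ : 0 < δ) (hv : ‖v‖ ≤ 1) (hw : ‖w‖ ≤ 1) (z : ℂ) :
    |D v (D w (Nk δ)) z| ≤ 40 * cK / (δ ^ 2 + ‖z‖ ^ 2) := by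
  have hK := one_le_cK
  have hd : 0 < δ ^ 2 := pow_pos hδ 2
  have s1 : Sm fun x => f1 (‖0 + 1 * x‖ ^ 2 / δ ^ 2) := f1_sm.comp (ker1_sm δ 0 1)
  rw [ker1_D0, D_mul_at (dif s1 z) (dif (ker1_sm' δ 0 1 _) z),
    D_comp (f1_deriv _) (dif (ker1_sm δ 0 1) z), ker1_D, ker1_DD]
  simp only [zero_add, one_mul]
  obtain ⟨n, hn⟩ : ∃ n, n = ‖z‖ ^ 2 / δ ^ 2 := ⟨_, rfl⟩
  rw [← hn]
  rcases le_total n 1 with h | h
  · obtain ⟨-, -, a1, a2, -⟩ := low h
    rw [a1, a2]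
    simp only [zero_mul, add_zero, abs_zero]
    positivity
  have hz : ‖z‖ ^ 2 = n * δ ^ 2 := by rw [hn]; field_simp
  have a1 : |(z * conj v).re| ≤ ‖z‖ := (ker1_re z v).trans (mul_le_of_le_one_right (norm_nonneg _) hv)
  have a2 : |(z * conj w).re| ≤ ‖z‖ := (ker1_re z w).trans (mul_le_of_le_one_right (norm_nonneg _) hw)
  have a3 : |(v * conj w).re| ≤ 1 := (ker1_re v w).trans (mul_le_one₀ hv (norm_nonneg _) hw)
  have b0 := f1_nonneg n
  have b1 : n * f1 n ≤ 1 := (mul_f1 n).le.trans (ka_le_one n)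
  have b2 : n * k1 n ≤ 2 * cK := by
    rcases le_total n 2 with h2 | h2
    · exact mul_le_mul h2 (k1_le n) (k1_nonneg n) zero_le_two
    · rw [(high h2).2]; linarith
  have b3 : n * |f2 n| ≤ k1 n + f1 n := by
    rw [← abs_of_nonneg (show 0 ≤ n by linarith), ← abs_mul, abs_of_nonneg (show 0 ≤ n by linarith),
      mul_f2, abs_le]
    constructor <;> linarith [k1_nonneg n]
  have c1 : |f2 n * (2 * (z * conj v).re / δ ^ 2) * (2 * (z * conj w).re / δ ^ 2)| ≤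
      4 * (k1 n + f1 n) / δ ^ 2 := by
    simp only [abs_mul, abs_div, abs_two, abs_of_pos hd]
    calc _ ≤ |f2 n| * (2 * ‖z‖ / δ ^ 2) * (2 * ‖z‖ / δ ^ 2) := by gcongr
      _ = 4 * (|f2 n| * ‖z‖ ^ 2 / δ ^ 2) / δ ^ 2 := by ring
      _ = 4 * (n * |f2 n|) / δ ^ 2 := by rw [hz]; field_simp
      _ ≤ _ := by gcongr
  have c2 : |f1 n * (2 * (v * conj w).re / δ ^ 2)| ≤ 2 * f1 n / δ ^ 2 := by
    simp only [abs_mul, abs_div, abs_two, abs_of_pos hd, abs_of_nonneg b0]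
    calc _ ≤ f1 n * (2 * 1 / δ ^ 2) := by gcongr
      _ = _ := by ring
  refine (abs_add_le _ _).trans ((add_le_add c1 c2).trans ?_)
  rw [← add_div, hz, show δ ^ 2 + n * δ ^ 2 = (1 + n) * δ ^ 2 by ring, ← div_div]
  gcongr
  rw [le_div_iff₀ (by linarith)]
  nlinarith [k1_nonneg n, mul_nonneg (k1_nonneg n) (sub_nonneg.2 h), mul_nonneg b0 (sub_nonneg.2 h)]

theorem Qk_nonneg (ε : ℝ) (w : ℂ) : 0 ≤ Qk ε w := mul_nonneg (by positivity) (k1_nonneg _)

theorem Qk_out (hε : 0 < ε) (h : 2 * ε ≤ ‖w‖) : Qk ε w = 0 := by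
  unfold Qk
  rw [(high (ker1_two hε h)).2, mul_zero]

theorem Qk_cont (ε : ℝ) : Continuous (Qk ε) :=
  continuous_const.mul (k1_sm.continuous.comp ((continuous_norm.pow 2).div_const _))

theorem Qk_bd (hε : 0 < ε) : Bd (Qk ε) (4 / ε ^ 2 * cK) (2 * ε) where
  me := (Qk_cont ε).measurable
  le y := by
    rw [abs_of_nonneg (Qk_nonneg ε y)]
    exact mul_le_mul_of_nonneg_left (k1_le _) (by positivity)
  su _ h := Qk_out hε h.le

theorem int_Qk (hε : 0 < ε) (z : ℂ) : ∫ y, Qk ε (z - y) = c0 := by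
  have e : ∀ y, Qk ε y = (ε ^ 2)⁻¹ * Qk 1 (ε⁻¹ • y) := fun y => by
    unfold Qk
    rw [norm_smul, Real.norm_of_nonneg (inv_nonneg.2 hε.le), mul_pow, inv_pow, one_pow, div_one,
      div_one, ← div_eq_inv_mul (‖y‖ ^ 2)]
    ring
  rw [integral_sub_left_eq_self (Qk ε) volume z]
  simp only [e]
  rw [integral_const_mul, Measure.integral_comp_smul, finrank_real_complex, inv_pow, inv_inv,
    abs_of_pos (pow_pos hε 2), smul_eq_mul, ← mul_assoc, inv_mul_cancel₀ (pow_ne_zero 2 hε.ne'),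
    one_mul, c0]

theorem c0_pos : 0 < c0 := by
  obtain ⟨t, h0, h1⟩ := k1_pos
  refine integral_pos_of_integrable_nonneg_nonzero (x := ((√t : ℝ) : ℂ)) (Qk_cont 1)
    (Qk_bd one_pos).int' (Qk_nonneg 1) (ne_of_gt ?_)
  unfold Qk
  rw [Complex.norm_real, Real.norm_of_nonneg (Real.sqrt_nonneg t), Real.sq_sqrt h0.le, one_pow,
    div_one, div_one]
  positivity

theorem sm_Pot (ε : ℝ) (hμ : Bd μ m r) : Sm (Pot ε μ) := sm_IK (smK_Nk ε) hμ

theorem D_Pot (ε : ℝ) (hμ : Bd μ m r) (v z : ℂ) :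
    D v (Pot ε μ) z = ∫ y, D v (Nk ε) (z - y) * μ y := by
  rw [Pot, D_IK (smK_Nk ε) hμ]
  simp only [IK, D_sub_Nk]

theorem Lap_Pot (hε : 0 < ε) (hμ : Bd μ m r) (z : ℂ) :
    Lap (Pot ε μ) z = ∫ y, Qk ε (z - y) * μ y := by
  rw [Pot, Lap_IK (smK_Nk ε) hμ]
  refine integral_congr_ae (Eventually.of_forall fun y => ?_)
  have := Lap_Nk hε (-y) 1 z
  simp only [one_mul, neg_add_eq_sub, norm_one, one_pow] at this
  simp only [this]

end Pool.Agent.Lib.MP_a52643_an.YA
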