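import Pool.Agent.Lib.MP_a52643_an.YA.Key1
import Pool.Agent.Lib.MP_a52643_an.YA.Av

/-!
The key lemma at every scale.
-/

namespace Pool.Agent.Lib.MP_a52643_an.YA

open Complex Filter Topology Metric MeasureTheory Set QS
open scoped ContDiff

theorem key_cv {F : ℂ → ℝ} (hF : Continuous F) (h0 : ∀ y, 0 ≤ F y) {z : ℂ} {s R : ℝ} (hs : 0 < s)
    (hR : ‖z‖ + 3 * s < R) :
    s ^ 2 * ∫ w in ball (0 : ℂ) 3, F (z + s • w) ≤ ∫ y in ball (0 : ℂ) R, F y := by
  have e : (ball (0 : ℂ) 3).indicator (fun w => F (z + s • w)) =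
      fun w => (fun y => (ball z (3 * s)).indicator F (z + y)) (s • w) := by
    funext w
    have : z + s • w ∈ ball z (3 * s) ↔ w ∈ ball (0 : ℂ) 3 := by
      rw [mem_ball_iff_norm, mem_ball_zero_iff, add_sub_cancel_left, norm_smul,
        Real.norm_of_nonneg hs.le, mul_comm, mul_lt_mul_iff_left₀ hs]
    by_cases h : w ∈ ball (0 : ℂ) 3
    · simp only [indicator_of_mem h, indicator_of_mem (this.2 h)]
    · simp only [indicator_of_notMem h, indicator_of_notMem (mt this.1 h)]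
  rw [← integral_indicator measurableSet_ball, e, Measure.integral_comp_smul,
    integral_add_left_eq_self, integral_indicator measurableSet_ball, finrank_real_complex,
    abs_of_pos (by positivity), smul_eq_mul, mul_inv_cancel_left₀ (by positivity)]
  refine setIntegral_mono_set (intB hF 0 R) (Eventually.of_forall h0)
    (LE.le.eventuallyLE (ball_subset_ball' ?_))
  rw [dist_zero_right]
  linarith

theorem key_gn {v : ℂ → ℝ} (hv : Sm v) (z : ℂ) {s : ℝ} (hs : 0 < s) (w : ℂ) :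
    gn (Af z s v) w = s * gn v (z + s • w) := by
  simp only [gn, D_Af hv, Af, abs_mul, abs_of_pos hs]
  ring

theorem key_dv {B₁ B₂ : ℂ → ℝ} (h1 : Sm B₁) (h2 : Sm B₂) (z : ℂ) (s : ℝ) (w : ℂ) :
    dv (fun y => s * Af z s B₁ y) (fun y => s * Af z s B₂ y) w = s ^ 2 * dv B₁ B₂ (z + s • w) := by
  simp only [dv, D_cmul (smAf h1 z s), D_cmul (smAf h2 z s), D_Af h1, D_Af h2]
  simp only [Af]
  ring

/-- The key lemma at every scale. -/
theorem key_scale : ∃ C : ℝ, 1 ≤ C ∧ ∀ (v B₁ B₂ : ℂ → ℝ) (k Γ R : ℝ), Sm v → Sm B₁ → Sm B₂ →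
    1 ≤ k → 3 ≤ Γ → k ≤ Γ →
    (∀ z, ‖z‖ < R → |B₁ z| ≤ k ∧ |B₂ z| ≤ k ∧ -k ^ 2 ≤ Lap v z + dv B₁ B₂ z ∧
      (Lap v z + dv B₁ B₂ z < 0 → gn v z ≤ k)) →
    ∫ z in ball (0 : ℂ) R, gn v z ≤ Γ → ∫ z in ball (0 : ℂ) R, |Lap v z + dv B₁ B₂ z| ≤ Γ →
    ∫ z in ball (0 : ℂ) R, |dv B₁ B₂ z| ≤ Γ →
    ∀ (z : ℂ) (t : ℝ), 0 < t → t ≤ 12 → ‖z‖ + 3 * t < R →
      -(C * k * (Real.log Γ * √(Real.log Γ)) / t) ≤ av 2 t (Lap v) z := by
  obtain ⟨C, hC, H⟩ := key_unit
  refine ⟨21 * C + 32, by linarith, fun v B₁ B₂ k Γ R hv h1 h2 hk hΓ hkΓ hb i1 i2 i3 z t ht ht' hR => ?_⟩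
  have hT : Sm fun y => Lap v y + dv B₁ B₂ y := (smLap hv).add (smdv h1 h2)
  have hL : 1 ≤ Real.log Γ := by
    rw [Real.le_log_iff_exp_le (by linarith)]
    linarith [Real.exp_one_lt_d9]
  have hS : 1 ≤ √(Real.log Γ) := Real.one_le_sqrt.2 hL
  have hX : 1 ≤ Real.log Γ * √(Real.log Γ) := one_le_mul_of_one_le_of_one_le hL hS
  have hin : ∀ y, ‖y - z‖ ≤ 3 * t → ‖y‖ < R := fun y hy => by
    linarith [norm_le_insert' y z]
  have g5 : 243 ≤ Γ ^ 5 := le_trans (by norm_num) (pow_le_pow_left₀ (by norm_num) hΓ 5)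
  have g2 : 243 * Γ ^ 2 ≤ Γ ^ 7 := by nlinarith [sq_nonneg Γ]
  have g1 : 3 * Γ ≤ Γ ^ 2 := by nlinarith
  have hlog : Real.log (Γ ^ 7) * √(Real.log (Γ ^ 7)) ≤ 21 * (Real.log Γ * √(Real.log Γ)) := by
    have : √(7 * Real.log Γ) ≤ 3 * √(Real.log Γ) := by
      rw [Real.sqrt_le_left (by positivity), mul_pow, Real.sq_sqrt (by linarith)]
      linarith
    rw [Real.log_pow, Nat.cast_ofNat]
    nlinarith
  generalize Real.log Γ * √(Real.log Γ) = X at hX hlog ⊢
  have hCX : 1 ≤ C * X := one_le_mul_of_one_le_of_one_le hC hX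
  have m1 := av_mix (z := z) (b := 21 * C * k * X) hT ht (by positivity) fun s hs hst => by
    rw [← neg_div, div_le_iff₀ hs]
    rcases le_total (k * s) 1 with h | h
    · have := av_ge (z := z) hT.continuous 0 hs.le (sq_nonneg k)
        fun y hy => (hb y (hin y (by linarith))).2.2.1
      have h3 := mul_le_mul_of_nonneg_right this hs.le
      have h4 : k * (k * s) ≤ k * 1 := by gcongr
      have h5 : k * 1 ≤ k * (C * X) := by gcongr
      rw [zero_add] at h3
      nlinarith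
    have hR' : ‖z‖ + 3 * s < R := by linarith
    have eT : ∀ w, Lap (Af z s v) w + dv (fun y => s * Af z s B₁ y) (fun y => s * Af z s B₂ y) w =
        s ^ 2 * (Lap v (z + s • w) + dv B₁ B₂ (z + s • w)) := fun w => by
      rw [Lap_Af hv, key_dv h1 h2, mul_add]
    have hks : k * s ≤ 12 * Γ := by nlinarith
    have s2 : 0 < s ^ 2 := by positivity
    have := H (Af z s v) (fun y => s * Af z s B₁ y) (fun y => s * Af z s B₂ y) (k * s) (Γ ^ 7)
      (smAf hv z s) (contDiff_const.mul (smAf h1 z s)) (contDiff_const.mul (smAf h2 z s)) h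
      (by linarith) (by linarith) (fun w hw => ?_) ?_ ?_ ?_
    · simp only [eT, mul_assoc (s ^ 2), integral_const_mul] at this
      have h3 : C * (k * s) * (Real.log (Γ ^ 7) * √(Real.log (Γ ^ 7))) ≤ C * (k * s) * (21 * X) := by
        gcongr
      refine le_of_mul_le_mul_left ?_ hs
      change _ ≤ s ^ 2 * av 1 s (fun y => Lap v y + dv B₁ B₂ y) z at this
      nlinarith
    · obtain ⟨a1, a2, a3, a4⟩ := hb (z + s • w) (hin _ (by
        rw [add_sub_cancel_left, norm_smul, Real.norm_of_nonneg hs.le]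
        nlinarith [norm_nonneg w]))
      simp only [eT, key_gn hv z hs, abs_mul, abs_of_pos hs, mul_comm k s]
      refine ⟨mul_le_mul_of_nonneg_left a1 hs.le, mul_le_mul_of_nonneg_left a2 hs.le, ?_,
        fun h3 => mul_le_mul_of_nonneg_left (a4 (neg_of_mul_neg_right h3 s2.le)) hs.le⟩
      have h3 := mul_le_mul_of_nonneg_left a3 s2.le
      have h4 : (k * s) ^ 2 ≤ (12 * Γ) ^ 2 := by gcongr
      nlinarith
    · have h3 := (key_cv (gn_cont hv) (gn_nonneg v) hs hR').trans i1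
      simp only [key_gn hv z hs, integral_const_mul]
      have h4 : 0 ≤ ∫ w in ball (0 : ℂ) 3, gn v (z + s • w) := integral_nonneg fun _ => gn_nonneg _ _
      generalize ∫ w in ball (0 : ℂ) 3, gn v (z + s • w) = J at h3 h4 ⊢
      have h5 : s * J * 1 ≤ s * J * (k * s) := by gcongr
      have h6 : k * (s ^ 2 * J) ≤ Γ * Γ := by gcongr
      nlinarith
    · have h3 := (key_cv hT.continuous.abs (fun _ => abs_nonneg _) hs hR').trans i2
      simp only [eT, abs_mul, abs_of_pos s2, integral_const_mul]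
      linarith
    · have h3 := (key_cv (smdv h1 h2).continuous.abs (fun _ => abs_nonneg _) hs hR').trans i3
      simp only [key_dv h1 h2, abs_mul, abs_of_pos s2, integral_const_mul]
      linarith
  have m2 := av_div (z := z) h1 ht (v := 1) (by simp) fun y hy => (hb y (hin y (by linarith))).1
  have m3 := av_div (z := z) h2 ht (v := I) (by simp) fun y hy => (hb y (hin y (by linarith))).2.1
  have m4 := av_add (smLap hv).continuous (smdv h1 h2).continuous 1 t z
  have m5 : av 2 t (dv B₁ B₂) z = _ := av_add (smD h1 1).continuous (smD h2 I).continuous 1 t z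
  have m6 : 16 * k / t ≤ 16 * k * X / t :=
    div_le_div_of_nonneg_right (by nlinarith) ht.le
  have m7 : (21 * C + 32) * k * X / t = 21 * C * k * X / t + 2 * (16 * k * X / t) := by ring
  change av 2 t _ z = av 2 t _ z + av 2 t _ z at m4
  change _ = av 2 t _ z + av 2 t _ z at m5
  linarith [(abs_le.1 m2).2, (abs_le.1 m3).2]

end Pool.Agent.Lib.MP_a52643_an.YA
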