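import Pool.Agent.Lib.MP_a52643_an.YA.Test

/-!
The mass of a function that is harmonic where its gradient is large.
-/

namespace Pool.Agent.Lib.MP_a52643_an.YA

open Complex Filter Topology Metric MeasureTheory Set QS
open scoped ContDiff

variable {U w : ℂ → ℝ} {K L : ℝ} {z : ℂ}

theorem mass_jet (hU : ContDiff ℝ ∞ U) (h0 : Lap U =ᶠ[𝓝 z] fun _ => 0) :
    D 1 (Gr U) z = 2 * (D 1 U z * D 1 (D 1 U) z + D I U z * D 1 (D I U) z) ∧
    D I (Gr U) z = 2 * (D 1 U z * D 1 (D I U) z - D I U z * D 1 (D 1 U) z) ∧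
    Lap (Gr U) z = 4 * (D 1 (D 1 U) z ^ 2 + D 1 (D I U) z ^ 2) := by
  have e : ∀ v, Lap (D v U) z = 0 := fun v => by
    rw [Lap_D hU, D_congr h0 v]
    simp [D]
  have hc : D I (D 1 U) z = D 1 (D I U) z := congrFun (D_comm hU I 1) z
  have e0 : D I (D I U) z = -D 1 (D 1 U) z := by
    have := h0.self_of_nhds
    simp only [Lap] at this
    linarith
  have e1 := e 1
  have e2 := e I
  have ha := smD hU 1
  have hb := smD hU I
  have g : Gr U = fun s => D 1 U s * D 1 U s + D I U s * D I U s := by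
    funext s
    simp only [Gr]
    ring
  have d : ∀ v, D v (Gr U) = fun s => D v (D 1 U) s * D 1 U s + D 1 U s * D v (D 1 U) s +
      (D v (D I U) s * D I U s + D I U s * D v (D I U) s) := fun v => by
    rw [g]
    simp (disch := fun_prop) only [D_add, D_mul]
  have dd : ∀ v, D v (D v (Gr U)) z = 2 * (D v (D 1 U) z ^ 2 + D v (D I U) z ^ 2 +
      D 1 U z * D v (D v (D 1 U)) z + D I U z * D v (D v (D I U)) z) := fun v => by
    have h2 := smD ha v
    have h3 := smD hb v
    rw [d v]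
    simp (disch := fun_prop) only [D_add, D_mul]
    ring
  refine ⟨?_, ?_, ?_⟩
  · rw [d 1]
    ring
  · rw [d I]
    simp only [hc, e0]
    ring
  · simp only [Lap, dd] at e1 e2 ⊢
    rw [hc, e0]
    linear_combination 2 * D 1 U z * e1 + 2 * D I U z * e2

theorem mass_gr (U : ℂ → ℝ) (z : ℂ) : Gr U z ≤ gn U z ^ 2 := by
  simp only [Gr, gn]
  rw [← sq_abs (D 1 U z), ← sq_abs (D I U z)]
  nlinarith [mul_nonneg (abs_nonneg (D 1 U z)) (abs_nonneg (D I U z))]

/-- The normalised squared gradient. -/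
noncomputable def massS (U : ℂ → ℝ) (K : ℝ) (z : ℂ) : ℝ := 1 / (4 * K ^ 2) * Gr U z

theorem mass_sm (hU : Sm U) (K : ℝ) : ContDiff ℝ ∞ (massS U K) := contDiff_const.mul (smGr hU)

theorem mass_eq (hK : 0 < K) (U : ℂ → ℝ) (z : ℂ) : Gr U z = 4 * K ^ 2 * massS U K z := by
  unfold massS
  field_simp

theorem mass_small (hK : 0 < K) (h : gn U z ≤ K) : massS U K z ≤ 1 := by
  have h1 := mass_gr U z
  have h2 := pow_le_pow_left₀ (gn_nonneg U z) h 2
  rw [mass_eq hK] at h1
  have h3 : 0 < K ^ 2 := by positivity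
  nlinarith

theorem mass_key (hU : Sm U) (hK : 0 < K) (h : ∀ z, ‖z‖ < 1 → Lap U z ≠ 0 → gn U z ≤ K)
    (hz : ‖z‖ < 1) :
    k1 (massS U K z) * (D 1 (massS U K) z * D 1 U z + D I (massS U K) z * D I U z) ^ 2 ≤
      16 * K ^ 2 * Lap (fun y => ff (massS U K y)) z := by
  rw [Lap_comp ff_deriv f1_deriv (mass_sm hU K)]
  rcases le_or_gt (massS U K z) 1 with h1 | h1
  · obtain ⟨-, a1, a2, a3, -⟩ := low h1
    simp [a1, a2, a3]
  have h0 : Lap U =ᶠ[𝓝 z] fun _ => 0 := by
    filter_upwards [continuous_norm.continuousAt.eventually (gt_mem_nhds hz),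
      (mass_sm hU K).continuous.continuousAt.eventually (lt_mem_nhds h1)] with y y1 y2
    by_contra y3
    exact absurd (mass_small hK (h y y1 y3)) (not_le.2 y2)
  obtain ⟨j1, j2, j3⟩ := mass_jet hU h0
  have d : ∀ v, D v (massS U K) z = 1 / (4 * K ^ 2) * D v (Gr U) z := fun v =>
    congrFun (D_cmul (smGr hU) _ v) z
  have l : Lap (massS U K) z = 1 / (4 * K ^ 2) * Lap (Gr U) z := Lap_cmul (smGr hU) _ z
  have m := mul_f2 (massS U K z)
  have k0 := k1_nonneg (massS U K z)
  have hs : massS U K z = 1 / (4 * K ^ 2) * (D 1 U z ^ 2 + D I U z ^ 2) := rfl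
  have hc : 4 * K ^ 2 * (1 / (4 * K ^ 2)) = 1 := by field_simp
  have hh := high (t := massS U K z)
  simp only [Gr, d, l, j1, j2, j3]
  generalize 1 / (4 * K ^ 2) = c at *
  generalize massS U K z = s at *
  generalize D 1 (D 1 U) z = a at *
  generalize D 1 (D I U) z = b at *
  generalize D 1 U z = p at *
  generalize D I U z = q at *
  have e1 : 16 * K ^ 2 * (f2 s * ((c * (2 * (p * a + q * b))) ^ 2 +
      (c * (2 * (p * b - q * a))) ^ 2) + f1 s * (c * (4 * (a ^ 2 + b ^ 2)))) =
      k1 s * (16 * (a ^ 2 + b ^ 2)) := by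
    have e2 : (c * (2 * (p * a + q * b))) ^ 2 + (c * (2 * (p * b - q * a))) ^ 2 =
        4 * c * s * (a ^ 2 + b ^ 2) := by
      rw [hs]
      ring
    rw [e2]
    linear_combination 16 * (a ^ 2 + b ^ 2) * (s * f2 s + f1 s) * hc + 16 * (a ^ 2 + b ^ 2) * m
  rw [e1]
  rcases le_total 2 s with h2 | h2
  · simp [(hh h2).2]
  refine mul_le_mul_of_nonneg_left ?_ k0
  have e3 : (c * (2 * (p * a + q * b)) * p + c * (2 * (p * b - q * a)) * q) ^ 2 +
      (2 * c * (b * (p ^ 2 - q ^ 2) - 2 * a * p * q)) ^ 2 = 4 * s ^ 2 * (a ^ 2 + b ^ 2) := by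
    rw [hs]
    ring
  have e4 : s ^ 2 ≤ 4 := by nlinarith
  have e5 := mul_le_mul_of_nonneg_right e4 (add_nonneg (sq_nonneg a) (sq_nonneg b))
  nlinarith [sq_nonneg (2 * c * (b * (p ^ 2 - q ^ 2) - 2 * a * p * q))]

theorem mass_cut (hK : 0 < K) {x : ℝ} (hx : x ^ 2 ≤ Gr U z) :
    |(1 - ka (massS U K z)) * x| ≤ 3 * K := by
  rcases le_total 2 (massS U K z) with h2 | h2
  · rw [(high h2).1, sub_self, zero_mul, abs_zero]
    positivity
  rw [mass_eq hK] at hx
  have h3 : 0 < K ^ 2 := by positivity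
  have h4 : |x| ≤ 3 * K := abs_le_of_sq_le_sq' (by nlinarith) (by positivity) |> abs_le.2
  rw [abs_mul, abs_of_nonneg (sub_nonneg.2 (ka_le_one _))]
  exact (mul_le_of_le_one_left (abs_nonneg x) (by linarith [ka_nonneg (massS U K z)])).trans h4

theorem mass_ff (hK : 0 < K) (hL : 0 ≤ L) (U : ℂ → ℝ) (z : ℂ) :
    ff (massS U K z) ≤ 2 * L + 2 / (K * Real.exp L) * gn U z := by
  have g0 := gn_nonneg U z
  rcases le_total (massS U K z) 1 with h1 | h1
  · rw [(low h1).2.2.2.2]
    positivity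
  have h2 := mass_gr U z
  rw [mass_eq hK] at h2
  have h3 : 0 < K ^ 2 := by positivity
  have h4 : massS U K z ≤ (gn U z / K) ^ 2 := by
    rw [div_pow, le_div_iff₀ h3]
    nlinarith
  have h5 : gn U z / K ≠ 0 := fun e => by
    rw [e] at h4
    linarith
  have h6 : 0 < gn U z / K := lt_of_le_of_ne (by positivity) h5.symm
  have h7 := Real.log_le_log (by linarith) h4
  have h8 := Real.log_le_sub_one_of_pos (div_pos h6 (Real.exp_pos L))
  rw [Real.log_div h5 (Real.exp_ne_zero L), Real.log_exp] at h8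
  rw [Real.log_pow] at h7
  have e : 2 / (K * Real.exp L) * gn U z = 2 * (gn U z / K / Real.exp L) := by field_simp
  have h9 := (ff_bd h1).2
  push_cast at h7
  linarith

/-- The flux bound. -/
theorem mass_bound : ∃ C : ℝ, 1 ≤ C ∧ ∀ (U w : ℂ → ℝ) (K L C₁ : ℝ), Sm U → Sm w →
    (∀ z, 1 ≤ ‖z‖ → w z = 0) →
    (∀ z, 0 ≤ w z ∧ w z ≤ 1 ∧ gn w z ≤ 4 ∧ |Lap (fun s => w s * w s) z| ≤ C₁) →
    0 < K → 1 ≤ L → 1 ≤ C₁ → (∀ z, ‖z‖ < 1 → Lap U z ≠ 0 → gn U z ≤ K) →
    ∫ z in ball (0 : ℂ) 1, gn U z ≤ K * Real.exp L →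
    -∫ z, w z * Lap U z ≤ C * C₁ * K * √L := by
  have cK1 := one_le_cK
  refine ⟨128 + 2 * cK, by linarith, fun U w K L C₁ hU hw w0 wb hK hL hC h hI => ?_⟩
  have hs := mass_sm hU K
  have r1 : 1 ≤ √L := Real.one_le_sqrt.2 hL
  have r2 : √L * √L = L := Real.mul_self_sqrt (by linarith)
  set r := √L with hr
  have r0 : 0 < r := by linarith
  set F : ℂ → ℂ → ℝ := fun v y => (1 - ka (massS U K y)) * D v U y with hF
  set Φ : ℂ → ℝ := fun y => ff (massS U K y) with hΦ
  set W : ℂ → ℝ := fun y => w y * w y with hW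
  have sA : Sm fun y => 1 - ka (massS U K y) := contDiff_const.sub (ka_sm.comp hs)
  have sF : ∀ v, Sm (F v) := fun v => sA.mul (smD hU v)
  have sΦ : Sm Φ := ff_sm.comp hs
  have sW : Sm W := hw.mul hw
  have W0 : ∀ z, 1 ≤ ‖z‖ → W z = 0 := fun z hz => by simp only [hW, w0 z hz, mul_zero]
  have L0 : ∀ z, 1 ≤ ‖z‖ → Lap W z = 0 := fun z hz => by
    simp only [Lap, D_out (smD sW _) (D_out sW W0 _) _ z hz, add_zero]
  have T0 : ∀ v z, 1 ≤ ‖z‖ → w z * F v z = 0 := fun v z hz => by rw [w0 z hz, zero_mul]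
  have sT : ∀ v, Sm fun y => w y * F v y := fun v => hw.mul (sF v)
  have dF : ∀ v z, D v (F v) z = (1 - ka (massS U K z)) * D v (D v U) z -
      k1 (massS U K z) * (D v (massS U K) z * D v U z) := fun v z => by
    have h1 := D_comp (g := fun t => 1 - ka t) ((ka_deriv (massS U K z)).const_sub 1) (dif hs z) v
    rw [hF, D_mul sA (smD hU v)]
    simp only [h1]
    ring
  set B : ℂ → ℝ := fun y => (12 * K + cK * K * r / 2 + 16 * C₁ * K * r) +
    16 * C₁ / (r * Real.exp L) * gn U y with hB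
  have iB : IntegrableOn B (ball 0 1) :=
    intB (continuous_const.add (continuous_const.mul (gn_cont hU))) 0 1
  have pt : ∀ z, -(w z * Lap U z) ≤ 8 * K / r * (W z * Lap Φ z - Lap W z * Φ z) -
      (D 1 (fun y => w y * F 1 y) z + D I (fun y => w y * F I y) z) +
      (ball (0 : ℂ) 1).indicator B z := fun z => by
    rcases le_or_gt 1 ‖z‖ with hz | hz
    · rw [indicator_of_notMem (by simpa using hz), D_out (sT 1) (T0 1) 1 z hz,
        D_out (sT I) (T0 I) I z hz, W0 z hz, L0 z hz, w0 z hz]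
      simp
    rw [indicator_of_mem (by simpa using hz), D_mul hw (sF 1), D_mul hw (sF I)]
    simp only [dF]
    obtain ⟨b0, b1, b2, b3⟩ := wb z
    have a0 : ka (massS U K z) * Lap U z = 0 := by
      by_cases h0 : Lap U z = 0
      · rw [h0, mul_zero]
      · rw [(low (mass_small hK (h z hz h0))).1, zero_mul]
    have a1 := mass_key hU hK h hz
    have a2 : |F 1 z| ≤ 3 * K := mass_cut hK (le_add_of_nonneg_right (sq_nonneg _))
    have a3 : |F I z| ≤ 3 * K := mass_cut hK (le_add_of_nonneg_left (sq_nonneg _))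
    have a4 : D 1 w z * F 1 z + D I w z * F I z ≤ 12 * K := by
      have c1 := (le_abs_self _).trans (abs_mul (D 1 w z) (F 1 z)).le
      have c2 := (le_abs_self _).trans (abs_mul (D I w z) (F I z)).le
      have c3 := mul_le_mul_of_nonneg_left a2 (abs_nonneg (D 1 w z))
      have c4 := mul_le_mul_of_nonneg_left a3 (abs_nonneg (D I w z))
      have c5 := mul_le_mul_of_nonneg_right b2 (show 0 ≤ 3 * K by positivity)
      simp only [gn] at c5
      linarith
    have a5 : Lap W z * Φ z ≤ C₁ * (2 * L + 2 / (K * Real.exp L) * gn U z) :=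
      mul_le_mul ((le_abs_self _).trans b3) (mass_ff hK (by linarith) U z) (ff_nonneg _)
        (by linarith)
    have a6 := mul_le_mul_of_nonneg_left a5 (show 0 ≤ 8 * K / r by positivity)
    have e6 : 8 * K / r * (C₁ * (2 * L + 2 / (K * Real.exp L) * gn U z)) =
        16 * C₁ * K * r + 16 * C₁ / (r * Real.exp L) * gn U z := by
      rw [← r2]
      field_simp
      ring
    have k0 := k1_nonneg (massS U K z)
    have k2 := k1_le (massS U K z)
    set X := D 1 (massS U K) z * D 1 U z + D I (massS U K) z * D I U z with hX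
    have a7 : -(w z * (k1 (massS U K z) * X)) ≤ 8 * K / r * (W z * Lap Φ z) + cK * K * r / 2 := by
      have c1 := mul_le_mul_of_nonneg_left a1
        (show 0 ≤ w z * w z / (2 * K * r) by positivity)
      have c2 : w z * w z / (2 * K * r) * (16 * K ^ 2 * Lap Φ z) = 8 * K / r * (W z * Lap Φ z) := by
        simp only [hW]
        field_simp
        ring
      have c3 : 0 ≤ k1 (massS U K z) * ((w z * X + K * r) ^ 2 / (2 * K * r)) := by positivity
      have c4 : k1 (massS U K z) * ((w z * X + K * r) ^ 2 / (2 * K * r)) =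
          w z * w z / (2 * K * r) * (k1 (massS U K z) * X ^ 2) + w z * (k1 (massS U K z) * X) +
            k1 (massS U K z) * (K * r / 2) := by
        field_simp
        ring
      have c5 := mul_le_mul_of_nonneg_right k2 (show 0 ≤ K * r / 2 by positivity)
      linarith
    have a8 : w z * Lap U z = w z * ((1 - ka (massS U K z)) * D 1 (D 1 U) z +
        (1 - ka (massS U K z)) * D I (D I U) z) := by
      simp only [Lap] at a0 ⊢
      linear_combination w z * a0
    simp only [hB]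
    rw [hX] at a7
    nlinarith
  have i0 : Integrable fun z => w z * Lap U z :=
    int_out (hw.mul (smLap hU)).continuous fun z hz => by rw [w0 z hz, zero_mul]
  have i1 : Integrable fun z => W z * Lap Φ z :=
    int_out (sW.mul (smLap sΦ)).continuous fun z hz => by rw [W0 z hz, zero_mul]
  have i2 : Integrable fun z => Lap W z * Φ z :=
    int_out ((smLap sW).mul sΦ).continuous fun z hz => by rw [L0 z hz, zero_mul]
  have i3 : ∀ v, Integrable (D v fun y => w y * F v y) := fun v =>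
    int_out (smD (sT v) v).continuous (D_out (sT v) (T0 v) v)
  have i4 := (integrable_indicator_iff measurableSet_ball).2 iB
  have i5 : Integrable fun z => 8 * K / r * (W z * Lap Φ z - Lap W z * Φ z) :=
    (i1.sub i2).const_mul _
  have i6 : Integrable fun z => D 1 (fun y => w y * F 1 y) z + D I (fun y => w y * F I y) z :=
    (i3 1).add (i3 I)
  have i7 : Integrable fun z => 8 * K / r * (W z * Lap Φ z - Lap W z * Φ z) -
      (D 1 (fun y => w y * F 1 y) z + D I (fun y => w y * F I y) z) := i5.sub i6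
  have m := integral_mono i0.neg (i7.add i4) pt
  have m1 : ∫ z, 8 * K / r * (W z * Lap Φ z - Lap W z * Φ z) -
      (D 1 (fun y => w y * F 1 y) z + D I (fun y => w y * F I y) z) +
      (ball (0 : ℂ) 1).indicator B z = ∫ z in ball (0 : ℂ) 1, B z := by
    rw [integral_add i7 i4, integral_sub i5 i6, integral_add (i3 1) (i3 I),
      integral_const_mul, integral_sub i1 i2, green sW sΦ W0, int_D (sT 1) (T0 1),
      int_D (sT I) (T0 I), integral_indicator measurableSet_ball]
    ring
  have m2 : ∫ z in ball (0 : ℂ) 1, B z = Real.pi * (12 * K + cK * K * r / 2 + 16 * C₁ * K * r) +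
      16 * C₁ / (r * Real.exp L) * ∫ z in ball (0 : ℂ) 1, gn U z := by
    rw [hB, integral_add (intB continuous_const 0 1) ((intB (gn_cont hU) 0 1).const_mul _),
      integral_const_mul, setIntegral_const]
    simp [Measure.real]
  have m3 := mul_le_mul_of_nonneg_left hI (show 0 ≤ 16 * C₁ / (r * Real.exp L) by positivity)
  have m4 : 16 * C₁ / (r * Real.exp L) * (K * Real.exp L) ≤ 16 * (C₁ * K * r) := by
    have e : 16 * C₁ / (r * Real.exp L) * (K * Real.exp L) = 16 * (C₁ * K) / r := by field_simp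
    rw [e, div_le_iff₀ r0]
    have : C₁ * K * 1 ≤ C₁ * K * (r * r) := by gcongr; nlinarith
    nlinarith
  have m5 := mul_le_mul_of_nonneg_right Real.pi_le_four
    (show 0 ≤ 12 * K + cK * K * r / 2 + 16 * C₁ * K * r by positivity)
  have m6 : K * 1 * 1 ≤ K * C₁ * r := by gcongr
  have m7 : cK * K * r * 1 ≤ cK * K * r * C₁ := by gcongr
  rw [← integral_neg]
  refine (m.trans_eq (m1.trans m2)).trans ?_
  nlinarith

end Pool.Agent.Lib.MP_a52643_an.YA
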