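import Pool.Agent.Lib.MP_a52643_an.YA.Obst
import Pool.Agent.Lib.MP_a52643_an.YA.Mass
import Pool.Agent.Lib.MP_a52643_an.YA.Div

/-!
The key lemma: negative mass that sits only where the slope is small is a flux.
-/

namespace Pool.Agent.Lib.MP_a52643_an.YA

open Complex Filter Topology Metric MeasureTheory Set QS
open scoped ContDiff

/-- Smoothing by the Laplacian of the kernel. -/
noncomputable def Cv (ε : ℝ) (F : ℂ → ℝ) (z : ℂ) : ℝ := ∫ y, Qk ε (z - y) * F y

variable {ε m r : ℝ} {μ F G : ℂ → ℝ} {z : ℂ}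

theorem key1_Lap_add (hF : Sm F) (hG : Sm G) (z : ℂ) :
    Lap (fun s => F s + G s) z = Lap F z + Lap G z := by
  simp only [Lap, D_add hF hG, D_add (smD hF _) (smD hG _)]
  ring

theorem key1_gn_add (hF : Sm F) (hG : Sm G) (z : ℂ) :
    gn (fun s => F s + G s) z ≤ gn F z + gn G z := by
  simp only [gn, D_add hF hG]
  linarith [abs_add_le (D 1 F z) (D 1 G z), abs_add_le (D I F z) (D I G z)]

theorem key1_Qint (hε : 0 < ε) (hF : Continuous F) (z : ℂ) :
    Integrable fun y => Qk ε (z - y) * F y := by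
  have h := ((Qk_bd hε).int (g := fun y => F (z - y)) (by fun_prop)).comp_sub_left z
  simpa [mul_comm] using h

theorem key1_near (hε : 0 < ε) (hi : Integrable fun y => Qk ε (z - y) * F y) {a γ : ℝ}
    (h : ∀ y, ‖z - y‖ ≤ 2 * ε → |F y - a| ≤ γ) : |Cv ε F z - c0 * a| ≤ c0 * γ := by
  have i1 : Integrable fun y => Qk ε (z - y) := by
    simpa using key1_Qint hε (F := fun _ => 1) continuous_const z
  rw [← int_Qk hε z, Cv, ← integral_mul_const, ← integral_mul_const,
    ← integral_sub hi (i1.mul_const a), ← Real.norm_eq_abs]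
  refine norm_integral_le_of_norm_le (i1.mul_const γ) (Eventually.of_forall fun y => ?_)
  rcases le_total ‖z - y‖ (2 * ε) with h1 | h1
  · rw [← mul_sub, Real.norm_eq_abs, abs_mul, abs_of_nonneg (Qk_nonneg _ _)]
    exact mul_le_mul_of_nonneg_left (h y h1) (Qk_nonneg _ _)
  · simp [Qk_out hε h1]

theorem key1_fub (hε : 0 < ε) (hμ : Bd μ m r) :
    Integrable (Cv ε μ) ∧ ∫ z, |Cv ε μ z| ≤ c0 * ∫ y, |μ y| := by
  have iQ := (Qk_bd hε).int'
  have e : ∀ ν : ℂ → ℝ, Cv ε ν = convolution ν (Qk ε) (ContinuousLinearMap.mul ℝ ℝ) volume :=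
    fun ν => funext fun z => by simp [Cv, convolution_def, mul_comm]
  have i1 : Integrable (Cv ε μ) := e μ ▸ hμ.int'.integrable_convolution _ iQ
  have i2 : Integrable (Cv ε fun y => |μ y|) := e _ ▸ hμ.int'.abs.integrable_convolution _ iQ
  refine ⟨i1, (integral_mono i1.abs i2 fun z => ?_).trans_eq ?_⟩
  · refine (abs_integral_le_integral_abs).trans_eq ?_
    simp only [Cv, abs_mul, abs_of_nonneg (Qk_nonneg _ _)]
  · rw [e, integral_convolution _ hμ.int'.abs iQ]
    have := int_Qk hε 0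
    rw [integral_sub_left_eq_self (Qk ε)] at this
    simp [this, mul_comm]

theorem key1_wCv (hε : 0 < ε) (hμ : Bd μ m r) {w : ℂ → ℝ} (h : ∀ z, 0 ≤ w z ∧ w z ≤ 1) :
    |∫ z, w z * Cv ε μ z| ≤ c0 * ∫ y, |μ y| := by
  refine le_trans ?_ (key1_fub hε hμ).2
  rw [← Real.norm_eq_abs]
  refine norm_integral_le_of_norm_le (key1_fub hε hμ).1.abs (Eventually.of_forall fun z => ?_)
  rw [Real.norm_eq_abs, abs_mul, abs_of_nonneg (h z).1]
  exact mul_le_of_le_one_left (abs_nonneg _) (h z).2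

theorem key1_smK (hF : Sm F) : SmK fun z y => F (z - y) := hF.comp (contDiff_fst.sub contDiff_snd)

theorem key1_D_sub (hF : Sm F) (v y z : ℂ) : D v (fun x => F (x - y)) z = D v F (z - y) := by
  have h := ((dif hF (z - y)).hasFDerivAt.comp z ((hasFDerivAt_id z).sub_const y)).fderiv
  simp only [D]
  rw [show (fun x => F (x - y)) = F ∘ fun x => id x - y from rfl, h]
  simp

theorem key1_IK (ε : ℝ) (F : ℂ → ℝ) : IK (fun z y => F (z - y)) (Qk ε) = Cv ε F := by
  funext z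
  rw [IK, Cv, ← integral_sub_left_eq_self _ volume z]
  simp [mul_comm]

theorem key1_sm (hε : 0 < ε) (hF : Sm F) : Sm (Cv ε F) :=
  key1_IK ε F ▸ sm_IK (key1_smK hF) (Qk_bd hε)

theorem key1_D (hε : 0 < ε) (hF : Sm F) (v : ℂ) : D v (Cv ε F) = Cv ε (D v F) := by
  rw [← key1_IK ε, D_IK (key1_smK hF) (Qk_bd hε), ← key1_IK ε]
  simp only [key1_D_sub hF]

theorem key1_Lap (hε : 0 < ε) (hF : Sm F) (z : ℂ) : Lap (Cv ε F) z = Cv ε (Lap F) z := by
  simp only [Lap, key1_D hε hF, key1_D hε (smD hF _), Cv, mul_add]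
  rw [integral_add (key1_Qint hε (smD (smD hF _) _).continuous z)
    (key1_Qint hε (smD (smD hF _) _).continuous z)]

theorem key1_ind (hF : Continuous F) {S : Set ℂ} (hS : MeasurableSet S)
    (h : ∀ y ∈ S, ‖y‖ ≤ r ∧ |F y| ≤ m) (hm : 0 ≤ m) : Bd (S.indicator F) m r := by
  refine ⟨hF.measurable.indicator hS, fun y => ?_, fun y hy => ?_⟩
  · by_cases hy : y ∈ S
    · simpa [hy] using (h y hy).2
    · simpa [hy] using hm
  · exact indicator_of_notMem (fun k => (h y k).1.not_gt hy) _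

theorem key1_ind_int {S : Set ℂ} (hS : MeasurableSet S) (hμ : Bd (S.indicator F) m r) {a : ℝ}
    (ha : 0 ≤ a) (h : volume S ≤ ENNReal.ofReal a) : ∫ y, |S.indicator F y| ≤ m * a := by
  have hm : 0 ≤ m := (abs_nonneg _).trans (hμ.le 0)
  have hf : volume S ≠ ⊤ := ne_top_of_le_ne_top ENNReal.ofReal_ne_top h
  refine le_trans (integral_mono hμ.int'.abs (g := S.indicator fun _ => m)
    ((integrable_indicator_iff hS).2 (integrableOn_const hf)) fun y => ?_) ?_
  · by_cases hy : y ∈ S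
    · simpa [hy] using hμ.le y
    · simp [hy]
  · rw [integral_indicator hS, setIntegral_const, smul_eq_mul, mul_comm]
    exact mul_le_mul_of_nonneg_left (ENNReal.toReal_le_of_le_ofReal ha h) hm

theorem key1_ball (G : ℂ → ℝ) {a : ℝ} (ha : 0 ≤ a) (h : ∀ z, ‖z‖ < 1 → |G z| ≤ a) :
    |∫ z in ball (0 : ℂ) 1, G z| ≤ 4 * a := by
  have h1 := norm_setIntegral_le_of_norm_le_const (μ := volume) (s := ball (0 : ℂ) 1) (f := G)
    (C := a) measure_ball_lt_top fun z hz => h z (by simpa using hz)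
  refine h1.trans ?_
  rw [mul_comm]
  refine mul_le_mul_of_nonneg_right ?_ ha
  simp [Measure.real, Complex.volume_ball, Real.pi_le_four]

theorem key1_out (G : ℂ → ℝ) {a : ℝ} (ha : 0 ≤ a) (h : ∀ z, ‖z‖ < 1 → |G z| ≤ a)
    (h0 : ∀ z, 1 ≤ ‖z‖ → G z = 0) : |∫ z, G z| ≤ 4 * a := by
  rw [← setIntegral_eq_integral_of_forall_compl_eq_zero (s := ball (0 : ℂ) 1)
    fun z hz => h0 z (by simpa using hz)]
  exact key1_ball G ha h

theorem key1_ann {θ : ℝ} (h0 : 0 < θ) (h1 : θ ≤ 1) :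
    volume (closedBall (0 : ℂ) (1 + θ) \ closedBall 0 (1 - θ)) ≤ ENNReal.ofReal (16 * θ) := by
  rw [measure_sdiff (closedBall_subset_closedBall (by linarith))
    measurableSet_closedBall.nullMeasurableSet measure_closedBall_lt_top.ne,
    Complex.volume_closedBall, Complex.volume_closedBall, tsub_le_iff_right,
    ← ENNReal.ofReal_pow (by linarith), ← ENNReal.ofReal_pow (by linarith),
    ← ENNReal.ofReal_coe_nnreal, ← ENNReal.ofReal_mul (by positivity),
    ← ENNReal.ofReal_mul (by positivity), ← ENNReal.ofReal_add (by positivity) (by positivity)]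
  refine ENNReal.ofReal_le_ofReal ?_
  simp only [NNReal.coe_real_pi]
  nlinarith [Real.pi_le_four]

theorem key1_unif (hF : Continuous F) : ∃ r, 0 < r ∧ ∀ y y' : ℂ, ‖y‖ ≤ 1 → ‖y - y'‖ ≤ r →
    |F y' - F y| ≤ 1 := by
  obtain ⟨δ, δ0, h⟩ := Metric.uniformContinuousOn_iff.1
    ((isCompact_closedBall (0 : ℂ) 2).uniformContinuousOn_of_continuous hF.continuousOn) 1 one_pos
  refine ⟨min (δ / 2) 1, by positivity, fun y y' h1 h2 => ?_⟩
  rw [le_min_iff] at h2
  have h3 : ‖y'‖ ≤ 2 := by linarith [norm_sub_norm_le y' y, norm_sub_rev y y', h2.2]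
  refine (h y' (by simpa using h3) y (by simp; linarith) ?_).le
  rw [dist_eq_norm, norm_sub_rev]
  linarith [h2.1]

theorem key_unit : ∃ C : ℝ, 1 ≤ C ∧ ∀ (v B₁ B₂ : ℂ → ℝ) (K Γ : ℝ), Sm v → Sm B₁ → Sm B₂ →
    1 ≤ K → 3 ≤ Γ → K ≤ Γ →
    (∀ z, ‖z‖ ≤ 3 → |B₁ z| ≤ K ∧ |B₂ z| ≤ K ∧ -Γ ≤ Lap v z + dv B₁ B₂ z ∧
      (Lap v z + dv B₁ B₂ z < 0 → gn v z ≤ K)) →
    ∫ z in ball (0 : ℂ) 3, gn v z ≤ Γ → ∫ z in ball (0 : ℂ) 3, |Lap v z + dv B₁ B₂ z| ≤ Γ →
    ∫ z in ball (0 : ℂ) 3, |dv B₁ B₂ z| ≤ Γ →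
    -(C * K * (Real.log Γ * √(Real.log Γ))) ≤ ∫ z, (Lap v z + dv B₁ B₂ z) * P 1 z := by
  obtain ⟨Cd, Cd1, Hd⟩ := div_pot
  obtain ⟨Cm, Cm1, Hm⟩ := mass_bound
  obtain ⟨Ct, Ct1, Ht⟩ := exists_test
  have c00 := c0_pos
  set C₁ := 3 * c0 + Cd + 125 with hC₁
  set C₂ := c0 + 44 * Cd + 300 with hC₂
  refine ⟨(Cm * Ct * C₁ * C₂ + 14) / c0 + 7, le_add_of_nonneg_of_le (by positivity) (by norm_num),
    fun v B₁ B₂ K Γ hv h1 h2 hK hΓ hKΓ hp i1 i2 i3 => ?_⟩
  set T : ℂ → ℝ := fun z => Lap v z + dv B₁ B₂ z with hT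
  have cT : Continuous T := ((smLap hv).add (smdv h1 h2)).continuous
  obtain ⟨b, mb, ε₁, E, bB, bE, bI, Em, Ev, ε1, HE⟩ := Hd B₁ B₂ K Γ h1 h2 hK hΓ hKΓ
    (fun z hz => ⟨(hp z hz).1, (hp z hz).2.1⟩) i3
  obtain ⟨m, m1, hm⟩ : ∃ m, 1 ≤ m ∧ ∀ z : ℂ, ‖z‖ ≤ 3 → |T z| ≤ m := by
    obtain ⟨m, hm⟩ := (isCompact_closedBall (0 : ℂ) 3).exists_bound_of_continuousOn cT.continuousOn
    exact ⟨max 1 m, le_max_left _ _, fun z hz => (hm z (by simpa using hz)).trans (le_max_right _ _)⟩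
  have lg : 1 ≤ Real.log Γ := by
    rw [Real.le_log_iff_exp_le (by linarith)]
    linarith [Real.exp_one_lt_d9]
  have G0 : 0 < Γ := by linarith
  set θ := 1 / (16 * m ^ 2) with hθ
  have θ0 : 0 < θ := by positivity
  have θ1 : θ ≤ 1 / 16 := one_div_le_one_div_of_le (by norm_num) (by nlinarith)
  obtain ⟨ε₀, ε0, ε0', Ho⟩ := obstacle m (ρ := 1 - θ) (by linarith) (by linarith)
  obtain ⟨w, w1, w2, w3, w4⟩ := Ht (1 / (90 * Ct * m)) (by positivity)
    (one_div_le_one_div_of_le (by norm_num) (by nlinarith))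
  obtain ⟨r1, r10, u1⟩ := key1_unif (smD hv 1).continuous
  obtain ⟨r2, r20, u2⟩ := key1_unif (smD hv I).continuous
  obtain ⟨r3, r30, u3⟩ := key1_unif cT
  obtain ⟨ε, hε, e0, e1, e2, e3, e4⟩ : ∃ ε, 0 < ε ∧ ε ≤ ε₀ ∧ ε ≤ ε₁ ∧ 4 * ε ≤ r1 ∧ 4 * ε ≤ r2 ∧
      2 * ε ≤ r3 := by
    refine ⟨min (min ε₀ ε₁) (min (r1 / 4) (min (r2 / 4) (r3 / 2))), by positivity, ?_⟩
    simp only [← le_div_iff₀' (show (0 : ℝ) < 4 by norm_num),
      ← le_div_iff₀' (show (0 : ℝ) < 2 by norm_num), min_le_iff, le_refl, true_or, or_true,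
      and_self]
  have e5 : 4 * ε ≤ θ := by linarith
  set S₀ := closedBall (0 : ℂ) (1 - θ) with hS₀
  set S₁ := E ∩ S₀ with hS₁
  set S₂ := closedBall (0 : ℂ) (1 + θ) \ S₀ with hS₂
  have n0 : ∀ y, y ∈ S₀ ↔ ‖y‖ ≤ 1 - θ := fun y => mem_closedBall_zero_iff
  have M0 : MeasurableSet S₀ := measurableSet_closedBall
  have M1 : MeasurableSet S₁ := Em.inter M0
  have M2 : MeasurableSet S₂ := measurableSet_closedBall.diff M0
  set a₁ := S₁.indicator fun y => max (-T y) 0 with ha₁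
  set a₂ := S₂.indicator fun y => -T y with ha₂
  set τ : ℂ → ℝ := fun y => S₀.indicator T y + a₁ y with hτ
  have b1 : Bd a₁ Γ 1 := key1_ind (by fun_prop) M1 (fun y hy => by
    have := (n0 y).1 hy.2
    refine ⟨by linarith, ?_⟩
    rw [abs_of_nonneg (le_max_right _ _)]
    exact max_le (neg_le.1 (hp y (by linarith)).2.2.1) G0.le) G0.le
  have b2 : Bd a₂ m 2 := key1_ind (by fun_prop) M2 (fun y hy => by
    have := mem_closedBall_zero_iff.1 hy.1
    exact ⟨by linarith, by rw [abs_neg]; exact hm y (by linarith)⟩) (by linarith)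
  have t1 : ∀ y, |τ y| ≤ |S₀.indicator T y| ∧ (0 < max (-τ y) 0 → y ∈ S₀ ∧ y ∉ E ∧ T y < 0) := by
    intro y
    by_cases k0 : y ∈ S₀
    · by_cases k1 : y ∈ E
      · have : y ∈ S₁ := ⟨k1, k0⟩
        simp only [hτ, ha₁, indicator_of_mem k0, indicator_of_mem this]
        rcases le_total (T y) 0 with k | k
        · simp [max_eq_left (neg_nonneg.2 k)]
        · simp [max_eq_right (neg_nonpos.2 k)]
      · have : y ∉ S₁ := fun k => k1 k.1
        simp [hτ, ha₁, indicator_of_notMem this, k0, k1]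
    · have : y ∉ S₁ := fun k => k0 k.2
      simp [hτ, ha₁, indicator_of_notMem k0, indicator_of_notMem this]
  have b0 : Bd (S₀.indicator T) m (1 - θ) := key1_ind cT M0
    (fun y hy => ⟨(n0 y).1 hy, hm y (by linarith [(n0 y).1 hy])⟩) (by linarith)
  have bτ : Bd τ m (1 - θ) := ⟨b0.me.add b1.me, fun y => (t1 y).1.trans (b0.le y),
    fun y hy => abs_nonpos_iff.1 ((t1 y).1.trans (by rw [b0.su y hy, abs_zero]))⟩
  obtain ⟨p, p1, p2, p3, p4⟩ := Ho ε τ hε e0 bτ
  have bμ := bτ.add_of_le p1 p2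
  set μ : ℂ → ℝ := fun y => p y + τ y with hμ
  set R := IK (Gk ε (1 - θ)) μ with hR
  have ρ1 : 1 - θ < 1 := by linarith
  have sR : Sm R := sm_IK (smK_Gk _ _) bμ
  have s1 := key1_sm hε hv
  have s2 := sm_Pot ε bB
  have s3 := sm_Pot ε b1
  have s4 := sm_Pot ε b2
  set U : ℂ → ℝ := fun z => Cv ε v z + Pot ε b z + Pot ε a₁ z + Pot ε a₂ z + R z with hU
  have sU : Sm U := (((s1.add s2).add s3).add s4).add sR
  have gU : ∀ z, gn U z ≤ gn (Cv ε v) z + gn (Pot ε b) z + gn (Pot ε a₁) z + gn (Pot ε a₂) z +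
      gn R z := fun z => by
    linarith [key1_gn_add (((s1.add s2).add s3).add s4) sR z, key1_gn_add ((s1.add s2).add s3) s4 z,
      key1_gn_add (s1.add s2) s3 z, key1_gn_add s1 s2 z]
  have lU : ∀ z, Lap U z = Cv ε (Lap v) z + Cv ε b z + Cv ε a₁ z + Cv ε a₂ z + Lap R z :=
    fun z => by
      rw [key1_Lap_add (((s1.add s2).add s3).add s4) sR, key1_Lap_add ((s1.add s2).add s3) s4,
        key1_Lap_add (s1.add s2) s3, key1_Lap_add s1 s2, key1_Lap hε hv, Lap_Pot hε bB,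
        Lap_Pot hε b1, Lap_Pot hε b2]
      rfl
  have cQ : ∀ z : ℂ, Continuous fun y => Qk ε (z - y) := fun z => (Qk_cont ε).comp (by fun_prop)
  have iL := key1_Qint hε (smLap hv).continuous
  have nr : ∀ z y : ℂ, ‖z‖ < 1 → ‖z - y‖ ≤ 2 * ε → ‖y‖ ≤ 1 + θ := fun z y hz hy => by
    linarith [norm_sub_norm_le y z, norm_sub_rev y z]
  have lS : ∀ z, ‖z‖ < 1 → Cv ε (Lap v) z + Cv ε b z = Cv ε T z := fun z hz => by
    rw [Cv, Cv, Cv, ← integral_add (iL z) (bB.int (cQ z))]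
    refine integral_congr_ae (Eventually.of_forall fun y => ?_)
    rcases le_total ‖z - y‖ (2 * ε) with k | k
    · simp only [hT, bE y (by linarith [nr z y hz k])]
      ring
    · simp [Qk_out hε k]
  have lz : ∀ z, ‖z‖ < 1 → Lap U z ≠ 0 → ∃ y, p y ≠ 0 ∧ ‖z - y‖ ≤ 2 * ε := fun z hz h => by
    by_contra k
    push Not at k
    refine h ?_
    have k5 : Integrable fun y => Qk ε (z - y) * T y + Qk ε (z - y) * a₁ y :=
      (key1_Qint hε cT z).add (b1.int (cQ z))
    rw [lU, lS z hz, hR, Lap_G ρ1 hε bμ hz.le, Cv, Cv, Cv,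
      ← integral_add (key1_Qint hε cT z) (b1.int (cQ z)), ← integral_add k5 (b2.int (cQ z)),
      add_neg_eq_zero]
    refine integral_congr_ae (Eventually.of_forall fun y => ?_)
    rcases le_total ‖z - y‖ (2 * ε) with k1 | k1
    · have k2 : p y = 0 := by_contra fun k2 => (k y k2).not_ge k1
      by_cases k0 : y ∈ S₀
      · have : y ∉ S₂ := fun k => k.2 k0
        simp only [hμ, hτ, ha₂, k2, indicator_of_mem k0, indicator_of_notMem this]
        ring
      · have k3 : y ∈ S₂ := ⟨mem_closedBall_zero_iff.2 (nr z y hz k1), k0⟩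
        have k4 : y ∉ S₁ := fun k => k0 k.2
        simp only [hμ, hτ, ha₁, ha₂, k2, indicator_of_notMem k0, indicator_of_mem k3,
          indicator_of_notMem k4]
        ring
    · simp [Qk_out hε k1]
  have j1 : ∫ y, |a₁ y| ≤ 1 / Γ :=
    (key1_ind_int M1 b1 (by positivity) ((measure_mono inter_subset_left).trans Ev)).trans_eq
      (by field_simp)
  have j2 : ∫ y, |a₂ y| ≤ 1 / m :=
    (key1_ind_int M2 b2 (by positivity) (key1_ann θ0 (by linarith))).trans_eq
      (by rw [hθ]; field_simp)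
  have g1 : ∀ z, gn (Pot ε a₁) z ≤ 32 := fun z => by
    have k1 := b1.inv_le z (s := 1 / Γ) (by positivity)
    have k2 : (∫ y, |a₁ y|) / (1 / Γ) ≤ 1 := (div_le_one (by positivity)).2 j1
    have k3 : 7 * Γ * (1 / Γ) = 7 := by field_simp
    linarith [gn_Pot hε b1 z]
  have g2 : ∀ z, gn (Pot ε a₂) z ≤ 32 := fun z => by
    have k1 := b2.inv_le z (s := 1 / m) (by positivity)
    have k2 : (∫ y, |a₂ y|) / (1 / m) ≤ 1 := (div_le_one (by positivity)).2 j2
    have k3 : 7 * m * (1 / m) = 7 := by field_simp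
    linarith [gn_Pot hε b2 z]
  have KL : 1 ≤ K * Real.log Γ := one_le_mul_of_one_le_of_one_le hK lg
  have KL' : K ≤ K * Real.log Γ := le_mul_of_one_le_right (by linarith) lg
  have g3 : ∀ z, ‖z‖ < 1 → Lap U z ≠ 0 → gn U z ≤ C₁ * (K * Real.log Γ) := fun z hz h => by
    obtain ⟨y, y1, y2⟩ := lz z hz h
    obtain ⟨y3, y4, y5⟩ := (t1 y).2 (((p2 y).1.lt_of_ne' y1).trans_le (p2 y).2)
    have y6 : ‖y‖ ≤ 1 := by linarith [(n0 y).1 y3]
    have y7 : ∀ y', ‖z - y'‖ ≤ 2 * ε → ‖y - y'‖ ≤ 4 * ε := fun y' hy' => by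
      linarith [norm_sub_le_norm_sub_add_norm_sub y z y', norm_sub_rev y z]
    have k1 := key1_near hε (key1_Qint hε (smD hv 1).continuous z)
      fun y' hy' => u1 y y' y6 ((y7 y' hy').trans e2)
    have k2 := key1_near hε (key1_Qint hε (smD hv I).continuous z)
      fun y' hy' => u2 y y' y6 ((y7 y' hy').trans e3)
    have k3 := mul_le_mul_of_nonneg_left ((hp y (by linarith)).2.2.2 y5) c00.le
    have k4 : gn (Cv ε v) z ≤ c0 * K + 2 * c0 := by
      simp only [gn, key1_D hε hv] at k3 ⊢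
      have a1 := abs_sub_abs_le_abs_sub (Cv ε (D 1 v) z) (c0 * D 1 v y)
      have a2 := abs_sub_abs_le_abs_sub (Cv ε (D I v) z) (c0 * D I v y)
      rw [abs_mul, abs_of_pos c00] at a1 a2
      linarith
    have k5 := HE ε y z hε e1 y6 y4 y2
    have k6 := p4 y z y1 y2
    have k7 := mul_le_mul_of_nonneg_left KL c00.le
    have k8 := mul_le_mul_of_nonneg_left KL' c00.le
    rw [hC₁]
    linarith [gU z, g1 z, g2 z]
  have j3 : ∀ x : ℂ, ∫ z in ball (0 : ℂ) 1, |D x (Cv ε v) z| ≤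
      c0 * ∫ z in ball (0 : ℂ) 3, |D x v z| := fun x => by
    have c1 := (smD hv x).continuous
    obtain ⟨m', hm'⟩ := (isCompact_closedBall (0 : ℂ) 3).exists_bound_of_continuousOn
      c1.continuousOn
    have k1 : Bd ((ball (0 : ℂ) 3).indicator (D x v)) m' 3 := key1_ind c1 measurableSet_ball
      (fun y hy => ⟨(mem_ball_zero_iff.1 hy).le, hm' y (ball_subset_closedBall hy)⟩)
      ((norm_nonneg _).trans (hm' 0 (by simp)))
    obtain ⟨k2, k3⟩ := key1_fub hε k1
    calc _ = ∫ z in ball (0 : ℂ) 1, |Cv ε ((ball (0 : ℂ) 3).indicator (D x v)) z| := by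
          refine setIntegral_congr_fun measurableSet_ball fun z hz => ?_
          simp only [key1_D hε hv, Cv]
          congr 1
          refine integral_congr_ae (Eventually.of_forall fun y => ?_)
          rcases le_total ‖z - y‖ (2 * ε) with k | k
          · have := nr z y (mem_ball_zero_iff.1 hz) k
            simp only [indicator_of_mem (mem_ball_zero_iff.2 (by linarith) : y ∈ ball (0 : ℂ) 3)]
          · simp [Qk_out hε k]
      _ ≤ _ := setIntegral_le_integral k2.abs (Eventually.of_forall fun z => abs_nonneg _)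
      _ ≤ _ := k3
      _ = _ := by
          rw [← integral_indicator measurableSet_ball]
          simp only [← Real.norm_eq_abs, norm_indicator_eq_indicator_norm]
  have j4 : ∫ y, |μ y| ≤ Γ := by
    refine le_trans (integral_mono bμ.int'.abs (g := (ball (0 : ℂ) 3).indicator fun y => |T y|)
      ((integrable_indicator_iff measurableSet_ball).2 (intB cT.abs _ _)) fun y => ?_) ?_
    · have k1 : |μ y| ≤ |τ y| := by
        obtain ⟨k1, k2⟩ := p2 y
        rcases le_total (τ y) 0 with k | k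
        · rw [max_eq_left (neg_nonneg.2 k)] at k2
          rw [abs_of_nonpos k, abs_of_nonpos (by simp only [hμ]; linarith)]
          simp only [hμ]
          linarith
        · rw [max_eq_right (neg_nonpos.2 k)] at k2
          simp [hμ, le_antisymm k2 k1]
      refine (k1.trans (t1 y).1).trans ?_
      by_cases k0 : y ∈ S₀
      · rw [indicator_of_mem k0,
          indicator_of_mem (mem_ball_zero_iff.2 (by linarith [(n0 y).1 k0]))]
      · rw [indicator_of_notMem k0, abs_zero]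
        exact indicator_nonneg (fun _ _ => abs_nonneg _) _
    · rwa [integral_indicator measurableSet_ball]
  have j5 : ∫ z in ball (0 : ℂ) 1, gn U z ≤ C₂ * Γ := by
    have q1 := intB (smD s1 1).continuous.abs 0 1
    have q2 := intB (smD s1 I).continuous.abs 0 1
    obtain ⟨q3, q4⟩ := bB.inv_fub
    obtain ⟨q5, q6⟩ := bμ.inv_fub
    have q7 : IntegrableOn (fun _ : ℂ => (64 : ℝ)) (ball 0 1) := intB continuous_const 0 1
    have q8 := (le_abs_self _).trans (key1_ball (fun _ => (64 : ℝ)) (a := 64) (by norm_num)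
      fun z _ => by norm_num)
    refine le_trans (setIntegral_mono_on (intB (gn_cont sU) 0 1)
      ((((q1.add q2).add (q3.const_mul 4)).add q7).add (q5.const_mul 8)) measurableSet_ball
      fun z hz => ?_) ?_
    · have := gn_G ρ1 hε bμ (mem_ball_zero_iff.1 hz).le
      have k : gn (Cv ε v) z = |D 1 (Cv ε v) z| + |D I (Cv ε v) z| := rfl
      simp only [Pi.add_apply]
      linarith [gU z, g1 z, g2 z, gn_Pot hε bB z]
    · rw [integral_add' (((q1.add q2).add (q3.const_mul 4)).add q7) (q5.const_mul 8),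
        integral_add' ((q1.add q2).add (q3.const_mul 4)) q7,
        integral_add' (q1.add q2) (q3.const_mul 4), integral_add' q1 q2, integral_const_mul,
        integral_const_mul]
      simp only [gn] at i1
      rw [integral_add (intB (smD hv 1).continuous.abs 0 3) (intB (smD hv I).continuous.abs 0 3)]
        at i1
      have k := mul_le_mul_of_nonneg_left i1 c00.le
      rw [hC₂]
      linarith [j3 1, j3 I]
  have C10 : 1 ≤ C₁ := by rw [hC₁]; linarith
  have C20 : 1 ≤ C₂ := by rw [hC₂]; linarith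
  have j6 := Hm U w (C₁ * (K * Real.log Γ)) (C₂ * Real.log Γ) Ct sU w1 w2
    (fun z => ⟨(w3 z).1, (w3 z).2.1, (w3 z).2.2.2⟩) (by positivity)
    (one_le_mul_of_one_le_of_one_le C20 lg) Ct1 g3 (by
      refine j5.trans (le_trans ?_ (le_mul_of_one_le_left (Real.exp_pos _).le
        (one_le_mul_of_one_le_of_one_le C10 KL)))
      rw [show C₂ * Real.log Γ = (C₂ - 1) * Real.log Γ + Real.log Γ by ring, Real.exp_add,
        Real.exp_log G0]
      refine mul_le_mul_of_nonneg_right ?_ G0.le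
      nlinarith [Real.add_one_le_exp ((C₂ - 1) * Real.log Γ)])
  have j7 := w4 R (90 * m) sR fun z hz => ⟨p3 z hz, G_small ρ1 hε (by linarith) bμ hz⟩
  have j8 : Ct * (90 * m) * (1 / (90 * Ct * m)) = 1 := by field_simp
  have w5 : ∀ z, 0 ≤ w z ∧ w z ≤ 1 := fun z => ⟨(w3 z).1, (w3 z).2.1⟩
  have j9 := (le_abs_self _).trans (key1_wCv hε b1 w5)
  have j10 := (le_abs_self _).trans (key1_wCv hε b2 w5)
  have cw := w1.continuous
  have iw : ∀ F : ℂ → ℝ, Continuous F → Integrable fun z => w z * F z := fun F hF =>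
    int_out (r := 1) (cw.mul hF) fun z hz => by simp [w2 z hz]
  have ca1 : Continuous (Cv ε a₁) := (smLap s3).continuous.congr fun z => Lap_Pot hε b1 z
  have ca2 : Continuous (Cv ε a₂) := (smLap s4).continuous.congr fun z => Lap_Pot hε b2 z
  have cU := (smLap sU).continuous
  have cR := (smLap sR).continuous
  have j11 := key1_out (fun z => w z * Lap U z - w z * Cv ε a₁ z - w z * Cv ε a₂ z -
      w z * Lap R z - c0 * (T z * P 1 z)) (a := c0 * (5 / 4)) (by positivity) (fun z hz => by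
    have k1 := key1_near hε (key1_Qint hε cT z) fun y hy => u3 z y hz.le (hy.trans e4)
    have k2 := mul_le_mul (w3 z).2.2.1 (hm z (by linarith)) (abs_nonneg _) (by positivity)
    have k3 : 2 * (1 / (90 * Ct * m)) * m ≤ 1 / 4 := by
      rw [show 2 * (1 / (90 * Ct * m)) * m = 1 / (45 * Ct) by field_simp; norm_num]
      exact one_div_le_one_div_of_le (by norm_num) (by linarith)
    rw [lU, lS z hz, show w z * (Cv ε T z + Cv ε a₁ z + Cv ε a₂ z + Lap R z) - w z * Cv ε a₁ z -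
      w z * Cv ε a₂ z - w z * Lap R z - c0 * (T z * P 1 z) =
      w z * (Cv ε T z - c0 * T z) + c0 * ((w z - P 1 z) * T z) by ring]
    refine (abs_add_le _ _).trans ?_
    rw [abs_mul, abs_mul, abs_mul, abs_of_nonneg (w5 z).1, abs_of_pos c00]
    have k4 := mul_le_of_le_one_left (abs_nonneg (Cv ε T z - c0 * T z)) (w5 z).2
    have k5 := mul_le_mul_of_nonneg_left (k2.trans k3) c00.le
    linarith) fun z hz => by simp [w2 z hz, P_out (k := 0) hz]
  have n1 : Integrable fun z => w z * Lap U z - w z * Cv ε a₁ z := (iw _ cU).sub (iw _ ca1)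
  have n2 : Integrable fun z => w z * Lap U z - w z * Cv ε a₁ z - w z * Cv ε a₂ z :=
    n1.sub (iw _ ca2)
  have n3 : Integrable fun z => w z * Lap U z - w z * Cv ε a₁ z - w z * Cv ε a₂ z -
      w z * Lap R z := n2.sub (iw _ cR)
  rw [integral_sub n3 ((intP cT 0).const_mul c0), integral_sub n2 (iw _ cR),
    integral_sub n1 (iw _ ca2), integral_sub (iw _ cU) (iw _ ca1), integral_const_mul] at j11
  have j12 : √(C₂ * Real.log Γ) ≤ C₂ * √(Real.log Γ) := by
    rw [Real.sqrt_mul (by linarith)]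
    exact mul_le_mul_of_nonneg_right (Real.sqrt_le_iff.2 ⟨by linarith, by nlinarith⟩)
      (Real.sqrt_nonneg _)
  have j13 := mul_le_mul_of_nonneg_left j12
    (show 0 ≤ Cm * Ct * (C₁ * (K * Real.log Γ)) by positivity)
  have j14 : 1 ≤ K * (Real.log Γ * √(Real.log Γ)) := one_le_mul_of_one_le_of_one_le hK
    (one_le_mul_of_one_le_of_one_le lg (Real.one_le_sqrt.2 lg))
  have j15 := mul_le_mul_of_nonneg_left (j1.trans ((div_le_one G0).2 (by linarith))) c00.le
  have j16 := mul_le_mul_of_nonneg_left (j2.trans ((div_le_one (by linarith)).2 m1)) c00.le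
  have j17 := mul_le_mul_of_nonneg_left j14 c00.le
  refine le_of_mul_le_mul_left ?_ c00
  rw [show c0 * -(((Cm * Ct * C₁ * C₂ + 14) / c0 + 7) * K * (Real.log Γ * √(Real.log Γ))) =
    -(Cm * Ct * (C₁ * (K * Real.log Γ)) * (C₂ * √(Real.log Γ)) +
      14 * (K * (Real.log Γ * √(Real.log Γ))) +
      7 * (c0 * (K * (Real.log Γ * √(Real.log Γ))))) by field_simp]
  linarith [(abs_le.1 j11).2]

end Pool.Agent.Lib.MP_a52643_an.YA
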