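import Pool.Agent.Lib.MP_a52643_an.YA.Loc1

/-!
Propagation, area and length on a disc.
-/

namespace Pool.Agent.Lib.MP_a52643_an.YA

open Complex Filter Topology Metric MeasureTheory Set QS
open scoped ContDiff

theorem loc_sl {u V : ℂ → ℝ} {l A : ℝ} (h : Nm u V l A) : Sl u V l 3 :=
  ⟨h.sl.hu, h.sl.hV, fun z hz => h.sl.eq z (by linarith), fun z hz => h.sl.bd z (by linarith)⟩

theorem loc_log {l A : ℝ} (hl : 3 ≤ l) (hA : 0 ≤ A) :
    1 ≤ Real.log (l + A) ∧ Real.log l ≤ Real.log (l + A) ∧ 1 ≤ √(Real.log (l + A)) ∧ 1 ≤ √l := by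
  have h1 : 1 ≤ Real.log (l + A) := by
    rw [Real.le_log_iff_exp_le (by linarith)]
    have := Real.exp_one_lt_d9
    linarith
  exact ⟨h1, Real.log_le_log (by linarith) (by linarith), Real.one_le_sqrt.2 h1,
    Real.one_le_sqrt.2 (by linarith)⟩

theorem loc_mono {F : ℂ → ℝ} (hF : Continuous F) (h0 : ∀ z, 0 ≤ F z) {r R : ℝ} (h : r ≤ R) :
    ∫ z in ball (0 : ℂ) r, F z ≤ ∫ z in ball (0 : ℂ) R, F z :=
  setIntegral_mono_set (intB hF 0 R) (Eventually.of_forall h0) (ball_subset_ball h).eventuallyLE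

theorem loc_sing {u V : ℂ → ℝ} {l A : ℝ} (h : Nm u V l A) :
    {z : ℂ | ‖z‖ ≤ 1 ∧ u z = 0 ∧ Gr u z = 0}.Finite := by
  obtain ⟨C, -, hC⟩ := crude
  obtain ⟨c, -, -, hc⟩ := hC u V l A h
  have hl := h.hl
  refine sing_finite h.sl.hu (l := l) (c := c) (A := C * (l + A)) (by linarith) fun e he he1 => ?_
  obtain ⟨-, h1, h2, -⟩ := hc e he he1
  have hs := sm_v0 h.sl.hu (show 0 ≤ l by linarith) he
  exact ⟨(loc_mono (F := fun z => |v0 u l e z - c|) (hs.continuous.sub continuous_const).abs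
      (fun _ => abs_nonneg _) (by norm_num)).trans h1,
    (loc_mono (F := fun z => |Lap (v0 u l e) z|) (smLap hs).continuous.abs
      (fun _ => abs_nonneg _) (by norm_num)).trans h2⟩

theorem loc_area : ∃ C : ℝ, 1 ≤ C ∧ ∀ (u V : ℂ → ℝ) (l A : ℝ), Nm u V l A →
    ∀ δ, 0 < δ → volume {z : ℂ | ‖z‖ ≤ 1 ∧ u z ^ 2 ≤ δ ^ 2 * Gr u z} ≤
      ENNReal.ofReal (C * (A + √l * (Real.log (l + A) ^ 2 * √(Real.log (l + A)))) * δ) := by
  obtain ⟨C₁, hC₁, h₁⟩ := sharp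
  obtain ⟨C₂, hC₂, h₂⟩ := ratio_area
  refine ⟨4 + C₂ * (1 + C₁), by nlinarith, fun u V l A h δ hδ => ?_⟩
  obtain ⟨c, -, hc⟩ := h₁ u V l A h
  have hl := h.hl
  have hA := h.hA
  obtain ⟨a1, -, a3, a4⟩ := loc_log hl hA
  set Y := A + √l * (Real.log (l + A) ^ 2 * √(Real.log (l + A))) with hY
  have hY1 : √l ≤ Y := by
    have b1 : 1 ≤ Real.log (l + A) ^ 2 * √(Real.log (l + A)) :=
      one_le_mul_of_one_le_of_one_le (one_le_pow₀ a1) a3
    have b2 := mul_le_mul_of_nonneg_left b1 (Real.sqrt_nonneg l)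
    linarith
  have hY0 : 0 ≤ Y * δ := mul_nonneg (by linarith) hδ.le
  have hYd : √l * δ ≤ Y * δ := mul_le_mul_of_nonneg_right hY1 hδ.le
  have hCC : 0 ≤ C₂ * (1 + C₁) := by positivity
  by_cases hτ : δ * √l ≤ 1
  · have hsub : {z : ℂ | ‖z‖ ≤ 1 ∧ u z ^ 2 ≤ δ ^ 2 * Gr u z} ⊆
        (⋃ n : ℕ, {z : ℂ | ‖z‖ ≤ 1 ∧ l * u z ^ 2 ≤ (δ * √l) ^ 2 * Gr u z ∧
          1 / ((n : ℝ) + 1) ≤ Gr u z}) ∪ {z : ℂ | ‖z‖ ≤ 1 ∧ u z = 0 ∧ Gr u z = 0} := by
      rintro z ⟨hz, hz'⟩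
      rcases (Gr_nonneg u z).eq_or_lt with h0 | h0
      · rw [← h0, mul_zero] at hz'
        exact Or.inr ⟨hz, pow_eq_zero_iff two_ne_zero |>.1 (le_antisymm hz' (sq_nonneg _)), h0.symm⟩
      · obtain ⟨n, hn⟩ := exists_nat_one_div_lt h0
        refine Or.inl (mem_iUnion.2 ⟨n, hz, ?_, hn.le⟩)
        rw [mul_pow, Real.sq_sqrt (by linarith)]
        have := mul_le_mul_of_nonneg_left hz' (show 0 ≤ l by linarith)
        linarith
    refine (measure_mono hsub).trans ((measure_union_le _ _).trans ?_)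
    rw [(loc_sing h).measure_zero, add_zero, Monotone.measure_iUnion]
    · refine iSup_le fun n => ?_
      have he : (0 : ℝ) < 1 / ((n : ℝ) + 1) := Nat.one_div_pos_of_nat
      have he1 : 1 / ((n : ℝ) + 1) ≤ 1 := by
        rw [div_le_one (by positivity)]
        linarith [Nat.cast_nonneg (α := ℝ) n]
      refine (h₂ u V (vv u l (1 / ((n : ℝ) + 1))) l _ (δ * √l) (loc_sl h)
        (sm_vv h.sl.hu (by linarith) he) (by linarith) he (by positivity) hτ fun z => ?_).trans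
        (ENNReal.ofReal_le_ofReal ?_)
      · obtain ⟨b1, b2⟩ := vv_v0 u (show 0 ≤ l by linarith) he z
        have b3 : Real.exp (v0 u l (1 / ((n : ℝ) + 1)) z) = Gr u z + yy u l (1 / ((n : ℝ) + 1)) z :=
          Real.exp_log (add_pos_of_nonneg_of_pos (Gr_nonneg u z) (yy_pos u (by linarith) he z))
        have b4 := Real.exp_le_exp.2 b2
        rw [Real.exp_add, Real.exp_log (by norm_num : (0 : ℝ) < 4), b3] at b4
        exact ⟨by linarith, b3 ▸ Real.exp_le_exp.2 b1⟩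
      · have b1 := (hc _ he he1).2
        have l0 : 0 < √l := by linarith
        have e1 : C₂ * (δ * √l) * (1 + (∫ z in ball (0 : ℂ) 2, gn (vv u l (1 / ((n : ℝ) + 1))) z) / √l) =
            C₂ * (√l * δ + (∫ z in ball (0 : ℂ) 2, gn (vv u l (1 / ((n : ℝ) + 1))) z) * δ) := by
          field_simp
        have b2 := mul_le_mul_of_nonneg_right b1 hδ.le
        have b3 := mul_le_mul_of_nonneg_left (add_le_add hYd b2) (show 0 ≤ C₂ by linarith)
        rw [e1]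
        linarith
    · intro n m hnm z hz
      exact ⟨hz.1, hz.2.1, (Nat.one_div_le_one_div hnm).trans hz.2.2⟩
  · have hsub : {z : ℂ | ‖z‖ ≤ 1 ∧ u z ^ 2 ≤ δ ^ 2 * Gr u z} ⊆ closedBall (0 : ℂ) 1 :=
      fun z hz => mem_closedBall_zero_iff.2 hz.1
    refine (measure_mono hsub).trans ?_
    rw [Complex.volume_closedBall, ENNReal.ofReal_one, one_pow, one_mul,
      ← ENNReal.ofReal_coe_nnreal]
    refine ENNReal.ofReal_le_ofReal ?_
    have b1 := Real.pi_le_four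
    have b2 := mul_nonneg hCC hY0
    rw [NNReal.coe_real_pi]
    linarith

/-- Propagation of a lower bound. -/
theorem loc_prop {ρ : ℝ} (hρ : 0 < ρ) (hρ1 : ρ ≤ 1) : ∃ C : ℝ, 1 ≤ C ∧
    ∀ (u V : ℂ → ℝ) (l A : ℝ) (z₁ : ℂ), Nm u V l A → ‖z₁‖ ≤ 1 → ∃ z, ‖z - z₁‖ ≤ ρ ∧
      Real.exp (-(C * (A + √l * (Real.log (l + A) * √(Real.log (l + A)))))) ≤ |u z| := by
  obtain ⟨C₁, hC₁, h₁⟩ := sharp
  obtain ⟨C₂, hC₂, h₂⟩ := large_value hρ hρ1
  refine ⟨C₂ * (C₁ + 1), by nlinarith, fun u V l A z₁ h hz₁ => ?_⟩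
  obtain ⟨c, c0, hc⟩ := h₁ u V l A h
  have hA := h.hA
  obtain ⟨a1, a2, a3, a4⟩ := loc_log h.hl hA
  set Y := A + √l * (Real.log (l + A) * √(Real.log (l + A))) with hY
  have hY1 : Real.log (l + A) ≤ Y := by
    have b1 : Real.log (l + A) ≤ Real.log (l + A) * √(Real.log (l + A)) :=
      le_mul_of_one_le_right (by linarith) a3
    have b2 : Real.log (l + A) * √(Real.log (l + A)) ≤
        √l * (Real.log (l + A) * √(Real.log (l + A))) := le_mul_of_one_le_left (by linarith) a4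
    linarith
  obtain ⟨z, hz, hz'⟩ := h₂ u V l c (C₁ * Y) z₁ (loc_sl h) h.hl c0
    (mul_nonneg (by linarith) (by linarith)) hz₁ fun e he he1 => (hc e he he1).1
  refine ⟨z, hz, le_trans (Real.exp_le_exp.2 ?_) hz'⟩
  have := mul_le_mul_of_nonneg_left (a2.trans hY1) (show 0 ≤ C₂ by linarith)
  linarith

/-- Area and length on a disc. -/
theorem loc_len : ∃ C : ℝ, 1 ≤ C ∧ ∀ (u V : ℂ → ℝ) (l A : ℝ), Nm u V l A →
    μH[1] {z : ℂ | ‖z‖ ≤ 1 / 2 ∧ u z = 0} ≤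
      ENNReal.ofReal (C * (A + √l * (Real.log (l + A) ^ 2 * √(Real.log (l + A))))) ∧
    ∀ δ, 0 < δ → volume {z : ℂ | ‖z‖ ≤ 1 ∧ u z ^ 2 ≤ δ ^ 2 * Gr u z} ≤
      ENNReal.ofReal (C * (A + √l * (Real.log (l + A) ^ 2 * √(Real.log (l + A)))) * δ) := by
  obtain ⟨C, hC, h₁⟩ := loc_area
  refine ⟨40 * C, by linarith, fun u V l A h => ?_⟩
  have hA := h.hA
  have hY : 0 ≤ A + √l * (Real.log (l + A) ^ 2 * √(Real.log (l + A))) := by positivity
  constructor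
  · have hsub : {z : ℂ | ‖z‖ ≤ 1 / 2 ∧ u z = 0} ⊆ {z : ℂ | ‖z‖ ≤ 1 / 2 ∧ u z = 0 ∧ Gr u z ≠ 0} ∪
        {z : ℂ | ‖z‖ ≤ 1 ∧ u z = 0 ∧ Gr u z = 0} := by
      rintro z ⟨hz, hz'⟩
      by_cases h0 : Gr u z = 0
      · exact Or.inr ⟨by linarith, hz', h0⟩
      · exact Or.inl ⟨hz, hz', h0⟩
    have := Measure.nullSingletonClass_hausdorff ℂ (d := 1) one_pos
    refine (measure_mono hsub).trans ((measure_union_le _ _).trans ?_)
    rw [(loc_sing h).measure_zero, add_zero, mul_assoc]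
    exact reg_le h.sl.hu (h₁ u V l A h)
  · refine fun δ hδ => (h₁ u V l A h δ hδ).trans (ENNReal.ofReal_le_ofReal ?_)
    exact mul_le_mul_of_nonneg_right (mul_le_mul_of_nonneg_right (by linarith) hY) hδ.le

end Pool.Agent.Lib.MP_a52643_an.YA
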