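import Pool.Agent.Lib.MP_a52643_an.YA.Scale
import Pool.Agent.Lib.MP_a52643_an.YA.Jet

/-!
Singular zeros, and lower bounds on small discs.
-/

namespace Pool.Agent.Lib.MP_a52643_an.YA

open Complex Filter Topology Metric MeasureTheory Set QS
open scoped ContDiff

theorem sing_av_le {G : ℂ → ℝ} (hG : Continuous G) {t b : ℝ} {z : ℂ} (ht : 0 ≤ t)
    (h : ∀ y, ‖y - z‖ ≤ t → G y ≤ b) : av 1 t G z ≤ b * cP 1 := by
  unfold av cP
  rw [← integral_const_mul]
  refine integral_mono (intP (f := fun s => G (z + t • s)) (by fun_prop) 0)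
    ((intP' 0).const_mul b) fun s => ?_
  rcases le_total ‖s‖ 1 with h1 | h1
  · refine mul_le_mul_of_nonneg_right (h _ ?_) (P_nonneg _ _)
    rw [add_sub_cancel_left, norm_smul, Real.norm_of_nonneg ht]
    exact mul_le_of_le_one_right ht h1
  · have : P 1 s = 0 := P_out (k := 0) h1
    simp [this]

theorem sing_mono {G : ℂ → ℝ} (hG : Continuous G) {s : Set ℂ} (h : s ⊆ ball (0 : ℂ) 2) :
    ∫ y in s, |G y| ≤ ∫ y in ball (0 : ℂ) 2, |G y| :=
  setIntegral_mono_set (intB hG.abs 0 2) (Eventually.of_forall fun _ => abs_nonneg _)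
    h.eventuallyLE

theorem sing_ball_sub {z : ℂ} {r : ℝ} (hz : ‖z‖ ≤ 1) (hr : r ≤ 1) : ball z r ⊆ ball (0 : ℂ) 2 :=
  ball_subset_ball' (by rw [dist_zero_right]; linarith)

theorem sing_av_ge {G : ℂ → ℝ} (hG : Continuous G) {r c A : ℝ} {z : ℂ} (hr : 0 < r) (hr1 : r ≤ 1)
    (hz : ‖z‖ ≤ 1) (h : ∫ y in ball (0 : ℂ) 2, |G y - c| ≤ A) :
    c * cP 1 - A / r ^ 2 ≤ av 1 r G z := by
  have hc : Continuous fun y => G y - c := hG.sub continuous_const
  have e1 := av_add hc (continuous_const (y := c)) 0 r z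
  simp only [sub_add_cancel] at e1
  have e2 : av (0 + 1) r (fun _ => c) z = c * cP 1 := by
    unfold av cP
    rw [integral_const_mul]
  have h1 := (av_le_ball hc 0 hr z).trans ((sing_mono hc (sing_ball_sub hz hr1)).trans h)
  have h2 : |av (0 + 1) r (fun y => G y - c) z| ≤ A / r ^ 2 := by
    rw [le_div_iff₀ (by positivity), mul_comm]; exact h1
  have h3 := (abs_le.1 h2).1
  have e3 : av 1 r G z = av (0 + 1) r (fun y => G y) z := rfl
  rw [e3, e1, e2]
  linarith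

/-- A bound of the second derivatives on the closed disc. -/
theorem sing_hess {u : ℂ → ℝ} (hu : Sm u) : ∃ M : ℝ, 0 ≤ M ∧ ∀ y : ℂ, ‖y‖ ≤ 2 →
    (|D 1 (D 1 u) y| ≤ M ∧ |D I (D 1 u) y| ≤ M) ∧ |D 1 (D I u) y| ≤ M ∧ |D I (D I u) y| ≤ M := by
  have hc : Continuous fun y => gn (D 1 u) y + gn (D I u) y :=
    (gn_cont (smD hu 1)).add (gn_cont (smD hu I))
  obtain ⟨M, hM⟩ := (isCompact_closedBall (0 : ℂ) 2).exists_bound_of_continuousOn hc.continuousOn
  refine ⟨max M 0, le_max_right _ _, fun y hy => ?_⟩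
  have h1 := (le_abs_self _).trans
    ((hM y (mem_closedBall_zero_iff.2 hy)).trans (le_max_left M 0))
  unfold gn at h1
  have a1 := abs_nonneg (D 1 (D 1 u) y)
  have a2 := abs_nonneg (D I (D 1 u) y)
  have a3 := abs_nonneg (D 1 (D I u) y)
  have a4 := abs_nonneg (D I (D I u) y)
  exact ⟨⟨by linarith, by linarith⟩, by linarith, by linarith⟩

/-- The energy density is quadratically small near a singular zero. -/
theorem sing_small {u : ℂ → ℝ} (hu : Sm u) {l : ℝ} (hl : 0 ≤ l) : ∃ K : ℝ, 0 < K ∧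
    ∀ (z y : ℂ) (s : ℝ), ‖z‖ ≤ 1 → u z = 0 → Gr u z = 0 → 0 < s → s ≤ 1 → ‖y - z‖ ≤ s →
      Gr u y + yy u l (s ^ 2) y ≤ K * s ^ 2 := by
  obtain ⟨M, hM0, hM⟩ := sing_hess hu
  refine ⟨8 * M ^ 2 + 16 * l * M ^ 2 + 1, by positivity, fun z y s hz h0 hg hs hs1 hy => ?_⟩
  have g1 : D 1 u z = 0 := by
    unfold Gr at hg
    nlinarith [sq_nonneg (D 1 u z), sq_nonneg (D I u z)]
  have g2 : D I u z = 0 := by
    unfold Gr at hg
    nlinarith [sq_nonneg (D 1 u z), sq_nonneg (D I u z)]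
  have hn : ∀ w : ℂ, ‖w - z‖ ≤ s → ‖w‖ ≤ 2 := fun w hw => by
    have := norm_add_le (w - z) z
    rw [sub_add_cancel] at this
    linarith
  have d : ∀ w : ℂ, ‖w - z‖ ≤ s → |D 1 u w| ≤ 2 * s * M ∧ |D I u w| ≤ 2 * s * M := fun w hw => by
    have a1 := sub_le (smD hu 1) (fun x hx => (hM x (hn x hx)).1) hw
    have a2 := sub_le (smD hu I) (fun x hx => (hM x (hn x hx)).2) hw
    rw [g1, sub_zero] at a1
    rw [g2, sub_zero] at a2
    exact ⟨a1, a2⟩
  have d0 := sub_le hu d hy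
  rw [h0, sub_zero] at d0
  have d1 : |u y| ≤ 4 * s * M := by
    refine d0.trans ?_
    nlinarith [mul_nonneg hs.le hM0]
  have q0 : u y ^ 2 ≤ (4 * s * M) ^ 2 := sq_le_sq' (abs_le.1 d1).1 (abs_le.1 d1).2
  have q1 : D 1 u y ^ 2 ≤ (2 * s * M) ^ 2 := sq_le_sq' (abs_le.1 (d y hy).1).1 (abs_le.1 (d y hy).1).2
  have q2 : D I u y ^ 2 ≤ (2 * s * M) ^ 2 := sq_le_sq' (abs_le.1 (d y hy).2).1 (abs_le.1 (d y hy).2).2
  have q3 := mul_le_mul_of_nonneg_left q0 hl
  unfold Gr yy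
  nlinarith

theorem sing_sep (T : Finset ℂ) : ∃ r : ℝ, 0 < r ∧ r ≤ 1 ∧
    ∀ x ∈ T, ∀ y ∈ T, x ≠ y → r + r ≤ dist x y := by
  have h1 : ∀ᶠ r in 𝓝[>] (0 : ℝ), ∀ x ∈ T, ∀ y ∈ T, x ≠ y → r + r ≤ dist x y := by
    refine (eventually_all_finset T).2 fun x _ => (eventually_all_finset T).2 fun y _ => ?_
    by_cases h : x = y
    · exact Eventually.of_forall fun _ h' => absurd h h'
    · have hd : 0 < dist x y / 2 := half_pos (dist_pos.2 h)
      filter_upwards [Ioo_mem_nhdsGT hd] with r hr _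
      linarith [hr.2]
  obtain ⟨r, h2, h3⟩ := (h1.and (Ioo_mem_nhdsGT (zero_lt_one' ℝ))).exists
  exact ⟨r, h3.1, h3.2.le, h2⟩

/-- The singular zeros are finitely many. -/
theorem sing_finite {u : ℂ → ℝ} (hu : Sm u) {l c A : ℝ} (hl : 1 ≤ l)
    (h : ∀ e, 0 < e → e ≤ 1 → ∫ z in ball (0 : ℂ) 2, |v0 u l e z - c| ≤ A ∧
      ∫ z in ball (0 : ℂ) 2, |Lap (v0 u l e) z| ≤ A) :
    {z : ℂ | ‖z‖ ≤ 1 ∧ u z = 0 ∧ Gr u z = 0}.Finite := by
  by_contra hinf
  have hl0 : 0 ≤ l := by linarith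
  have hp : 0 < cP 1 := cP_pos 0
  obtain ⟨N, hN⟩ := exists_nat_ge ((A / 4 + 1) / (2 * cP 1))
  rw [div_le_iff₀ (by positivity)] at hN
  obtain ⟨T, hT, hcard⟩ := Set.Infinite.exists_subset_card_eq hinf N
  obtain ⟨r, hr, hr1, hsep⟩ := sing_sep T
  obtain ⟨K, hK, hsm⟩ := sing_small hu hl0
  set B : ℝ := N * (c * cP 1 - A / r ^ 2 - (Real.log K + 2 * Real.log r) * cP 1) with hB
  set X : ℝ := |B| + 1 with hX
  have hX0 : 0 < X := by positivity
  set s : ℝ := r * Real.exp (-X) with hs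
  have hs0 : 0 < s := by positivity
  have hsr : s ≤ r := mul_le_of_le_one_right hr.le (Real.exp_le_one_iff.2 (by linarith))
  have hs1 : s ≤ 1 := hsr.trans hr1
  have he : 0 < s ^ 2 := by positivity
  obtain ⟨hA1, hA2⟩ := h (s ^ 2) he (pow_le_one₀ hs0.le hs1)
  have hF := sm_v0 hu hl0 he
  have l1 : Real.log s = Real.log r - X := by
    rw [hs, Real.log_mul hr.ne' (Real.exp_pos _).ne', Real.log_exp]; ring
  have l2 : Real.log (r / s) = X := by
    rw [Real.log_div hr.ne' hs0.ne', l1]; ring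
  have each : ∀ z ∈ T, c * cP 1 - A / r ^ 2 - (Real.log K + 2 * Real.log r) * cP 1 +
      2 * X * cP 1 ≤ X / 4 * ∫ y in ball z r, |Lap (v0 u l (s ^ 2)) y| := by
    intro z hz
    obtain ⟨z1, z2, z3⟩ := hT hz
    have a1 := av_growth hF hs0 hsr z
    have a2 := sing_av_ge hF.continuous hr hr1 z1 hA1
    have a3 : av 1 s (v0 u l (s ^ 2)) z ≤ (Real.log K + 2 * (Real.log r - X)) * cP 1 := by
      refine sing_av_le hF.continuous hs0.le fun y hy => ?_
      have b1 := hsm z y s z1 z2 z3 hs0 hs1 hy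
      have b2 : 0 < Gr u y + yy u l (s ^ 2) y :=
        add_pos_of_nonneg_of_pos (Gr_nonneg u y) (yy_pos u hl0 he y)
      refine (Real.log_le_log b2 b1).trans (le_of_eq ?_)
      rw [Real.log_mul hK.ne' he.ne', Real.log_pow, l1]
      push_cast
      ring
    rw [l2] at a1
    linarith
  have hLc : Continuous (Lap (v0 u l (s ^ 2))) := (smLap hF).continuous
  have tot : ∑ z ∈ T, ∫ y in ball z r, |Lap (v0 u l (s ^ 2)) y| ≤ A := by
    rw [← integral_biUnion_finset T (fun _ _ => measurableSet_ball)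
      (fun x hx y hy hxy => ball_disjoint_ball (hsep x hx y hy hxy))
      (fun z _ => intB hLc.abs z r)]
    refine (sing_mono hLc ?_).trans hA2
    exact iUnion₂_subset fun z hz => sing_ball_sub (hT hz).1 hr1
  have sm := Finset.sum_le_sum each
  rw [Finset.sum_const, hcard, nsmul_eq_mul, ← Finset.mul_sum] at sm
  have f1 : X / 4 * ∑ z ∈ T, ∫ y in ball z r, |Lap (v0 u l (s ^ 2)) y| ≤ X / 4 * A :=
    mul_le_mul_of_nonneg_left tot (by positivity)
  have f2 : X * (A / 4 + 1) ≤ X * (N * (2 * cP 1)) := mul_le_mul_of_nonneg_left hN hX0.le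
  have f3 : B + X * (N * (2 * cP 1)) ≤ X / 4 * A := by
    refine le_trans (le_of_eq ?_) (sm.trans f1)
    rw [hB]; ring
  have f4 := neg_abs_le B
  nlinarith

/-- An upper bound of the energy density. -/
theorem v0_le : ∃ C : ℝ, 1 ≤ C ∧ ∀ (u V : ℂ → ℝ) (l e R t m : ℝ) (z : ℂ), Sl u V l R → 1 ≤ l →
    0 < t → t ≤ 1 → ‖z‖ + t < R → (∀ y, ‖y - z‖ ≤ t → |u y| ≤ m) →
    Gr u z + yy u l e z ≤ C * (l / t) ^ 2 * m ^ 2 + e := by
  obtain ⟨C, hC, hg⟩ := grad_est
  refine ⟨4 * C ^ 2 + 1, by nlinarith [sq_nonneg C], fun u V l e R t m z hS hl ht ht1 hz hm => ?_⟩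
  have hz0 : |u z| ≤ m := hm z (by simpa using ht.le)
  have hm0 : 0 ≤ m := (abs_nonneg _).trans hz0
  have h1 := hg u z t m (l * m) hS.hu ht fun y hy => by
    have hy' : ‖y‖ < R := by
      have := norm_add_le (y - z) z
      rw [sub_add_cancel] at this
      linarith
    refine ⟨hm y hy, ?_⟩
    rw [hS.eq y hy', abs_neg, abs_mul]
    exact mul_le_mul (hS.bd y hy').1 (hm y hy) (abs_nonneg _) (by linarith)
  have a1 : l ≤ l / t := by
    rw [le_div_iff₀ ht]; nlinarith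
  have a2 : m / t ≤ l / t * m := by
    rw [div_mul_eq_mul_div]
    exact div_le_div_of_nonneg_right (by nlinarith) ht.le
  have a3 : t * (l * m) ≤ l / t * m := by
    have : t * l ≤ l / t := le_trans (by nlinarith) a1
    nlinarith
  have h2 : gn u z ≤ 2 * C * (l / t * m) := by
    refine h1.trans ?_
    nlinarith
  have h3 : Gr u z ≤ gn u z ^ 2 := by
    unfold Gr gn
    nlinarith [sq_abs (D 1 u z), sq_abs (D I u z),
      mul_nonneg (abs_nonneg (D 1 u z)) (abs_nonneg (D I u z))]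
  have h4 : gn u z ^ 2 ≤ (2 * C * (l / t * m)) ^ 2 := pow_le_pow_left₀ (gn_nonneg u z) h2 2
  have h5 : u z ^ 2 ≤ m ^ 2 := sq_le_sq' (abs_le.1 hz0).1 (abs_le.1 hz0).2
  have h6 : l ≤ (l / t) ^ 2 := by nlinarith
  have h7 : l * u z ^ 2 ≤ (l / t) ^ 2 * m ^ 2 :=
    mul_le_mul h6 h5 (sq_nonneg _) (sq_nonneg _)
  unfold yy
  nlinarith

/-- An integral bound of the logarithm gives a large value on every small disc. -/
theorem large_value {ρ : ℝ} (hρ : 0 < ρ) (hρ1 : ρ ≤ 1) : ∃ C : ℝ, 1 ≤ C ∧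
    ∀ (u V : ℂ → ℝ) (l c A : ℝ) (z₁ : ℂ), Sl u V l 3 → 3 ≤ l → 0 ≤ c → 0 ≤ A → ‖z₁‖ ≤ 1 →
    (∀ e, 0 < e → e ≤ 1 → ∫ z in ball (0 : ℂ) 2, |v0 u l e z - c| ≤ A) →
    ∃ z, ‖z - z₁‖ ≤ ρ ∧ Real.exp (-(C * (A + Real.log l))) ≤ |u z| := by
  obtain ⟨C, hC, hv⟩ := v0_le
  set w : ℝ := volume.real (ball (0 : ℂ) (ρ / 2)) with hw
  have hw0 : 0 < w :=
    ENNReal.toReal_pos (measure_ball_pos volume _ (half_pos hρ)).ne' measure_ball_lt_top.ne
  set κ : ℝ := 1 / w with hκ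
  have hκ0 : 0 < κ := by positivity
  set K : ℝ := 8 * C / ρ ^ 2 with hK
  have hK0 : 0 < K := by positivity
  refine ⟨κ + K + 1, by linarith, fun u V l c A z₁ hS hl hc hA hz h => ?_⟩
  have hl0 : 0 ≤ l := by linarith
  obtain ⟨z, hzb, hmax⟩ := (isCompact_closedBall z₁ ρ).exists_isMaxOn
    (nonempty_closedBall.2 hρ.le) hS.hu.continuous.abs.continuousOn
  refine ⟨z, mem_closedBall_iff_norm.1 hzb, ?_⟩
  set m : ℝ := |u z| with hm
  have hm0 : 0 ≤ m := abs_nonneg _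
  set e : ℝ := Real.exp (-(κ * A)) / 2 with he
  have he0 : 0 < e := by positivity
  have he1 : e ≤ 1 := by
    have : Real.exp (-(κ * A)) ≤ 1 := Real.exp_le_one_iff.2 (by nlinarith [mul_nonneg hκ0.le hA])
    linarith
  set Q : ℝ := C * (l / (ρ / 2)) ^ 2 * m ^ 2 + e with hQ
  have hQ0 : 0 < Q := by positivity
  have hF := sm_v0 hS.hu hl0 he0
  have hFc : Continuous fun y => v0 u l e y - c := hF.continuous.sub continuous_const
  have pt : ∀ y ∈ ball z₁ (ρ / 2), -Real.log Q ≤ |v0 u l e y - c| := by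
    intro y hy
    have hy1 : ‖y - z₁‖ < ρ / 2 := mem_ball_iff_norm.1 hy
    have hy2 : ‖y‖ ≤ ‖y - z₁‖ + ‖z₁‖ := by
      have := norm_add_le (y - z₁) z₁
      rwa [sub_add_cancel] at this
    have b1 := hv u V l e 3 (ρ / 2) m y hS (by linarith) (half_pos hρ) (by linarith) (by linarith)
      fun x hx => hmax (mem_closedBall_iff_norm.2 (by
        have := norm_add_le (x - y) (y - z₁)
        rw [sub_add_sub_cancel] at this
        linarith))
    have b2 : 0 < Gr u y + yy u l e y := add_pos_of_nonneg_of_pos (Gr_nonneg u y) (yy_pos u hl0 he0 y)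
    have b3 : v0 u l e y ≤ Real.log Q := Real.log_le_log b2 b1
    have b4 := neg_abs_le (v0 u l e y - c)
    linarith
  have i1 := setIntegral_ge_of_const_le_real measurableSet_ball measure_ball_lt_top.ne pt
    (intB hFc.abs z₁ (ρ / 2))
  have i2 : volume.real (ball z₁ (ρ / 2)) = w := by
    rw [hw, Measure.real, Measure.real, Measure.addHaar_ball_center]
  rw [i2] at i1
  have i3 := i1.trans ((sing_mono hFc (sing_ball_sub hz (by linarith))).trans (h e he0 he1))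
  have i4 : -(κ * A) ≤ Real.log Q := by
    have : -Real.log Q ≤ A / w := by rw [le_div_iff₀ hw0]; exact i3
    have e2 : κ * A = A / w := by rw [hκ]; ring
    linarith
  have i5 : Real.exp (-(κ * A)) ≤ Q := by
    rw [← Real.exp_log hQ0]; exact Real.exp_le_exp.2 i4
  have i6 : Real.exp (-(κ * A)) ≤ K * l ^ 2 * m ^ 2 := by
    have e2 : K * l ^ 2 * m ^ 2 = 2 * (C * (l / (ρ / 2)) ^ 2 * m ^ 2) := by
      rw [hK]; field_simp; ring
    rw [e2]
    linarith
  have lg : 1 ≤ Real.log l := by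
    rw [Real.le_log_iff_exp_le (by linarith)]
    linarith [Real.exp_one_lt_d9]
  have j1 : K ≤ Real.exp (K * Real.log l) := by
    have := Real.add_one_le_exp (K * Real.log l)
    nlinarith
  have j2 : l ^ 2 = Real.exp (2 * Real.log l) := by
    rw [two_mul, Real.exp_add, Real.exp_log (by linarith), sq]
  have j3 : K * l ^ 2 * Real.exp (-((κ + K + 1) * (A + Real.log l))) ^ 2 ≤ Real.exp (-(κ * A)) := by
    calc _ ≤ Real.exp (K * Real.log l) * l ^ 2 *
          Real.exp (-((κ + K + 1) * (A + Real.log l))) ^ 2 := by gcongr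
      _ = Real.exp (K * Real.log l + 2 * Real.log l + 2 * -((κ + K + 1) * (A + Real.log l))) := by
          rw [j2, Real.exp_add, Real.exp_add, two_mul (-_), Real.exp_add, sq]
      _ ≤ _ := by
          refine Real.exp_le_exp.2 ?_
          nlinarith [mul_nonneg hκ0.le hA, mul_nonneg hK0.le hA,
            mul_nonneg hκ0.le (zero_le_one.trans lg), mul_nonneg hK0.le (zero_le_one.trans lg)]
  have j4 := le_of_mul_le_mul_left (j3.trans i6) (by positivity)
  exact (sq_le_sq₀ (Real.exp_pos _).le hm0).1 j4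

end Pool.Agent.Lib.MP_a52643_an.YA
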