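import Pool.Agent.Lib.MP_a52643_an.YA.Ratio

/-!
The length of the regular part of the zero set.
-/

namespace Pool.Agent.Lib.MP_a52643_an.YA

open Complex Filter Topology Metric MeasureTheory Set QS
open scoped ContDiff

/-- A countable cover by discs whose diameters are bounded by the area of a thickening. -/
theorem tube_cover (K : Set ℂ) {δ : ℝ} (hδ : 0 < δ) : ∃ u : Set ℂ, u.Countable ∧
    K ⊆ ⋃ i : u, ball (i : ℂ) (4 * δ) ∧
    ∑' i : u, ediam (ball (i : ℂ) (4 * δ)) ≤ ENNReal.ofReal (10 / δ) * volume (thickening δ K) := by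
  obtain ⟨u, h1, h2, h3⟩ := Vitali.exists_disjoint_subfamily_covering_enlargement_ball K id
    (fun _ => δ) δ (fun _ _ => le_rfl) 4 (by norm_num)
  have hc : u.Countable := h2.countable_of_isOpen (fun _ _ => isOpen_ball)
    fun _ _ => nonempty_ball.2 hδ
  refine ⟨u, hc, fun a ha => ?_, ?_⟩
  · obtain ⟨b, hb, h4⟩ := h3 a ha
    exact mem_iUnion.2 ⟨⟨b, hb⟩, h4 (mem_ball_self hδ)⟩
  · have h4 : ∑' i : u, volume (ball (i : ℂ) δ) ≤ volume (thickening δ K) := by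
      refine (measure_biUnion hc h2 fun _ _ => measurableSet_ball).symm.le.trans (measure_mono ?_)
      exact iUnion₂_subset fun a ha => ball_subset_thickening (h1 ha) δ
    refine le_trans ?_ (mul_le_mul_right h4 _)
    rw [← ENNReal.tsum_mul_left]
    refine ENNReal.tsum_le_tsum fun i => ?_
    refine (ediam_le_of_forall_dist_le (C := 8 * δ) fun x hx y hy => ?_).trans ?_
    · linarith [dist_triangle_right x y i, mem_ball.1 hx, mem_ball.1 hy]
    · rw [Complex.volume_ball, ← ENNReal.ofReal_pow hδ.le, ← ENNReal.ofReal_coe_nnreal,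
        ← ENNReal.ofReal_mul (by positivity), ← ENNReal.ofReal_mul (by positivity)]
      refine ENNReal.ofReal_le_ofReal ?_
      have e : 10 / δ * (δ ^ 2 * (NNReal.pi : ℝ)) = 10 * Real.pi * δ := by
        rw [NNReal.coe_real_pi]
        field_simp
      rw [e]
      nlinarith [Real.pi_gt_three]

/-- The Hausdorff measure is bounded by the lower Minkowski content. -/
theorem hausdorff_le {K : Set ℂ} {M δ₀ : ℝ} (hδ : 0 < δ₀)
    (h : ∀ δ, 0 < δ → δ ≤ δ₀ → volume (thickening δ K) ≤ ENNReal.ofReal (M * δ)) :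
    μH[1] K ≤ ENNReal.ofReal (10 * M) := by
  have hp : ∀ n : ℕ, 0 < δ₀ * (1 / ((n : ℝ) + 1)) := fun n => by positivity
  choose u h1 h2 h3 using fun n : ℕ => tube_cover K (hp n)
  haveI : ∀ n, Countable (u n) := fun n => (h1 n).to_subtype
  have h4 : Tendsto (fun n : ℕ => ENNReal.ofReal (8 * (δ₀ * (1 / ((n : ℝ) + 1))))) atTop (𝓝 0) := by
    have := ENNReal.tendsto_ofReal
      ((tendsto_one_div_add_atTop_nhds_zero_nat.const_mul δ₀).const_mul 8)
    simpa using this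
  refine (Measure.hausdorffMeasure_le_liminf_tsum 1 K _ h4
    (fun n (i : u n) => ball (i : ℂ) (4 * (δ₀ * (1 / ((n : ℝ) + 1)))))
    (Eventually.of_forall fun n i => ediam_le_of_forall_dist_le fun x hx y hy => ?_)
    (Eventually.of_forall h2)).trans (liminf_le_of_frequently_le' (Frequently.of_forall fun n => ?_))
  · linarith [dist_triangle_right x y i, mem_ball.1 hx, mem_ball.1 hy]
  · simp only [ENNReal.rpow_one]
    have h5 : δ₀ * (1 / ((n : ℝ) + 1)) ≤ δ₀ :=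
      mul_le_of_le_one_right hδ.le ((div_le_one (by positivity)).2 (by simp))
    refine (h3 n).trans ((mul_le_mul_right (h _ (hp n) h5) _).trans_eq ?_)
    rw [← ENNReal.ofReal_mul (by positivity)]
    congr 1
    field_simp

/-- Near the zeros with a large gradient the function is small against its gradient. -/
theorem tube_near {u : ℂ → ℝ} (hu : Sm u) {η : ℝ} (hη : 0 < η) : ∃ δ₀, 0 < δ₀ ∧ ∀ δ, 0 < δ →
    δ ≤ δ₀ → thickening δ {z : ℂ | ‖z‖ ≤ 1 / 2 ∧ u z = 0 ∧ 2 * η ≤ Gr u z} ⊆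
      {z : ℂ | ‖z‖ ≤ 1 ∧ u z ^ 2 ≤ (4 * δ) ^ 2 * Gr u z} := by
  obtain ⟨r, hr, H⟩ := Metric.uniformContinuousOn_iff_le.1
    ((isCompact_closedBall (0 : ℂ) 1).uniformContinuousOn_of_continuous
      (smGr hu).continuous.continuousOn) η hη
  refine ⟨min r (1 / 2), by positivity, fun δ h0 h1 z hz => ?_⟩
  obtain ⟨y, ⟨y1, y2, y3⟩, hy⟩ := mem_thickening_iff.1 hz
  rw [dist_eq_norm] at hy
  have key : ∀ s, ‖s - y‖ ≤ δ → ‖s‖ ≤ 1 ∧ |Gr u s - Gr u y| ≤ η := fun s hs => by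
    have h2 : ‖s‖ ≤ 1 := by
      linarith [norm_add_le (s - y) y, sub_add_cancel s y ▸ le_refl ‖s - y + y‖,
        h1.trans (min_le_right _ _), norm_le_norm_sub_add s y]
    exact ⟨h2, H s (mem_closedBall_zero_iff.2 h2) y (mem_closedBall_zero_iff.2 (by linarith))
      (by rw [dist_eq_norm]; exact hs.trans (h1.trans (min_le_left _ _)))⟩
  obtain ⟨z1, z2⟩ := key z hy.le
  have h3 := sub_le (z := y) (w := z) (r := δ) (L := √(4 * Gr u z)) hu (fun s hs => by
    have h4 := abs_le.1 (key s hs).2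
    have h5 := abs_le.1 z2
    have h6 : D 1 u s ^ 2 + D I u s ^ 2 ≤ 4 * Gr u z := by
      change Gr u s ≤ _
      linarith [h4.2, h5.1]
    exact ⟨Real.abs_le_sqrt (by nlinarith [sq_nonneg (D I u s)]),
      Real.abs_le_sqrt (by nlinarith [sq_nonneg (D 1 u s)])⟩) hy.le
  refine ⟨z1, ?_⟩
  rw [y2, sub_zero] at h3
  have h7 := pow_le_pow_left₀ (abs_nonneg _) h3 2
  rw [sq_abs, mul_pow, Real.sq_sqrt (by linarith [Gr_nonneg u z])] at h7
  linarith

/-- The length of the regular part of the zero set. -/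
theorem reg_le {u : ℂ → ℝ} (hu : Sm u) {M : ℝ}
    (h : ∀ δ, 0 < δ → volume {z : ℂ | ‖z‖ ≤ 1 ∧ u z ^ 2 ≤ δ ^ 2 * Gr u z} ≤
      ENNReal.ofReal (M * δ)) :
    μH[1] {z : ℂ | ‖z‖ ≤ 1 / 2 ∧ u z = 0 ∧ Gr u z ≠ 0} ≤ ENNReal.ofReal (40 * M) := by
  let K : ℕ → Set ℂ := fun n =>
    {z : ℂ | ‖z‖ ≤ 1 / 2 ∧ u z = 0 ∧ 2 * (1 / ((n : ℝ) + 1)) ≤ Gr u z}
  have hm : Monotone K := fun a b hab z hz =>
    ⟨hz.1, hz.2.1, le_trans (by gcongr) hz.2.2⟩
  have hs : {z : ℂ | ‖z‖ ≤ 1 / 2 ∧ u z = 0 ∧ Gr u z ≠ 0} ⊆ ⋃ n, K n := fun z hz => by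
    obtain ⟨n, hn⟩ := exists_nat_one_div_lt (half_pos ((Gr_nonneg u z).lt_of_ne' hz.2.2))
    exact mem_iUnion.2 ⟨n, hz.1, hz.2.1, by linarith⟩
  refine (measure_mono hs).trans ?_
  rw [hm.measure_iUnion]
  refine iSup_le fun n => ?_
  obtain ⟨δ₀, h0, h1⟩ := tube_near hu (η := 1 / ((n : ℝ) + 1)) (by positivity)
  refine (hausdorff_le (M := 4 * M) h0 fun δ h2 h3 => ?_).trans_eq (by congr 1; ring)
  refine (measure_mono (h1 δ h2 h3)).trans ((h (4 * δ) (by positivity)).trans_eq ?_)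
  congr 1
  ring

end Pool.Agent.Lib.MP_a52643_an.YA
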