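import Pool.Agent.Lib.MP_a52643_an.YA.Key
import Pool.Agent.Lib.MP_a52643_an.YA.Sing
import Pool.Agent.Lib.MP_a52643_an.YA.Tube

/-!
The theorem on a disc.
-/

namespace Pool.Agent.Lib.MP_a52643_an.YA

open Complex Filter Topology Metric MeasureTheory Set QS
open scoped ContDiff

/-- A normalised solution with a point where it is not small. -/
structure Nm (u V : ℂ → ℝ) (l A : ℝ) : Prop where
  sl : Sl u V l 100
  hl : 3 ≤ l
  hA : 0 ≤ A
  le : ∀ z, ‖z‖ < 100 → |u z| ≤ 1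
  ex : ∃ z, ‖z‖ ≤ 1 ∧ Real.exp (-A) ≤ |u z|

theorem loc1_int_le {F G : ℂ → ℝ} (hF : Continuous F) (hG : Continuous G) {R α β : ℝ}
    (h : ∀ z, ‖z‖ < R → F z ≤ α * G z + β) :
    ∫ z in ball (0 : ℂ) R, F z ≤
      α * (∫ z in ball (0 : ℂ) R, G z) + β * volume.real (ball (0 : ℂ) R) := by
  have h1 : IntegrableOn (fun z => α * G z) (ball (0 : ℂ) R) := intB (by fun_prop) 0 R
  have h2 : IntegrableOn (fun _ : ℂ => β) (ball (0 : ℂ) R) := intB continuous_const 0 R
  refine (setIntegral_mono_on (intB hF 0 R) (h1.add h2) measurableSet_ball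
    fun z hz => h z (mem_ball_zero_iff.1 hz)).trans (le_of_eq ?_)
  have h3 := integral_add h1 h2
  refine h3.trans ?_
  rw [integral_const_mul, setIntegral_const, smul_eq_mul, mul_comm (volume.real _)]

theorem loc1_mono {G : ℂ → ℝ} (hG : Continuous G) (h : ∀ z, 0 ≤ G z) {z : ℂ} {r r' : ℝ}
    (hr : r + ‖z‖ ≤ r') : ∫ y in ball (0 : ℂ) r, G y ≤ ∫ y in ball z r', G y :=
  setIntegral_mono_set (intB hG z r') (ae_of_all _ h)
    (ball_subset_ball' (by simpa using hr)).eventuallyLE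

theorem loc1_mono0 {G : ℂ → ℝ} (hG : Continuous G) (h : ∀ z, 0 ≤ G z) {r r' : ℝ}
    (hr : r ≤ r') : ∫ y in ball (0 : ℂ) r, G y ≤ ∫ y in ball (0 : ℂ) r', G y :=
  loc1_mono hG h (by simpa using hr)

theorem loc1_norm {y z : ℂ} {s : ℝ} (h : ‖y - z‖ ≤ s) : ‖y‖ ≤ ‖z‖ + s := by
  linarith [norm_sub_norm_le y z]

/-- The sub-mean value inequality on a disc around the origin. -/
theorem loc1_sub {F : ℂ → ℝ} (hF : Sm F) {z : ℂ} {t b c a : ℝ} (hz : ‖z‖ ≤ 1) (ht : 0 < t)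
    (hb : 0 ≤ b) (hc : ∀ y, ‖y‖ ≤ t + 1 → F y ≤ c) (ha : -a ≤ F z)
    (h : ∀ s, 0 < s → s ≤ t → -(b / s) ≤ av 2 s (Lap F) z) :
    ∫ y in ball (0 : ℂ) (t / 2 - 1), |F y - c| ≤ 8 * t ^ 2 * (c + a + b * t) := by
  have h1 := submean hF ht hb (c := c) (z := z)
    (fun y hy => hc y (by linarith [loc1_norm hy])) h
  have h2 : ∫ y in ball z (t / 2), |F y - c| = ∫ y in ball z (t / 2), (c - F y) :=
    setIntegral_congr_fun measurableSet_ball fun y hy => by
      have h3 := hc y (by linarith [loc1_norm (mem_ball_iff_norm.1 hy).le])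
      rw [abs_of_nonpos (by linarith), neg_sub]
  refine (loc1_mono (z := z) (r' := t / 2) (hF.continuous.sub continuous_const).abs
    (fun _ => abs_nonneg _) (by linarith)).trans (h2.le.trans (h1.trans ?_))
  gcongr
  linarith

theorem loc1_av {u V : ℂ → ℝ} {l A e s t : ℝ} {z : ℂ} (h : Nm u V l A) (he : 0 < e) (hs : 0 < s)
    (hst : s ≤ t) (hz : ‖z‖ + s < 100) : -(160 * t * l / s) ≤ av 2 s (Lap (v0 u l e)) z := by
  have hl := h.hl
  have h1 := av_ge (F := Lap (v0 u l e)) (z := z) (b := 40 * l)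
    (smLap (sm_v0 h.sl.hu (by linarith) he)).continuous 1 hs.le (by linarith)
    fun y hy => v0_lap h.sl (by linarith) he (by linarith [loc1_norm hy])
  refine le_trans ?_ h1
  rw [neg_le_neg_iff, le_div_iff₀ hs]
  nlinarith

theorem loc1_low {u V : ℂ → ℝ} {l A e : ℝ} {z : ℂ} (h : Nm u V l A) (he : 0 < e)
    (hz : Real.exp (-A) ≤ |u z|) : -(2 * A) ≤ v0 u l e z := by
  have hl := h.hl
  have h1 : Real.exp (-A) ^ 2 ≤ u z ^ 2 := by
    rw [← sq_abs (u z)]
    gcongr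
  have h2 : Real.exp (-(2 * A)) = Real.exp (-A) ^ 2 := by
    rw [← Real.exp_nat_mul]
    congr 1
    push_cast
    ring
  unfold v0 yy
  rw [Real.le_log_iff_exp_le (by nlinarith [Gr_nonneg u z, sq_nonneg (u z)]), h2]
  nlinarith [Gr_nonneg u z, sq_nonneg (u z)]

theorem loc1_log {x : ℝ} (hx : 3 ≤ x) : 1 ≤ Real.log x := by
  rw [Real.le_log_iff_exp_le (by linarith)]
  linarith [Real.exp_one_lt_d9]

/-- The crude bounds. -/
theorem crude : ∃ C : ℝ, 1 ≤ C ∧ ∀ (u V : ℂ → ℝ) (l A : ℝ), Nm u V l A → ∃ c, 0 ≤ c ∧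
    c ≤ C * Real.log l ∧ ∀ e, 0 < e → e ≤ 1 → (∀ z, ‖z‖ < 90 → v0 u l e z ≤ c) ∧
      ∫ z in ball (0 : ℂ) 42, |v0 u l e z - c| ≤ C * (l + A) ∧
      ∫ z in ball (0 : ℂ) 41, |Lap (v0 u l e) z| ≤ C * (l + A) ∧
      ∫ z in ball (0 : ℂ) 39, gn (v0 u l e) z ≤ C * (l + A) := by
  obtain ⟨C0, hC0, h0⟩ := v0_le
  obtain ⟨Cm, hCm, hm⟩ := mass_le' (R := 41) (by norm_num)
  obtain ⟨Cg, hCg, hg⟩ := grad_L1 (R := 39) (by norm_num)
  obtain ⟨C1, hC1⟩ : ∃ C1, C1 = Real.log (2 * C0) + 2 := ⟨_, rfl⟩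
  have hC1' : 2 ≤ C1 := by linarith [Real.log_nonneg (show 1 ≤ 2 * C0 by linarith)]
  obtain ⟨C2, hC2⟩ : ∃ C2, C2 = 8 * 86 ^ 2 * (C1 + 2 + 160 * 86 * 86) := ⟨_, rfl⟩
  have hC2' : 0 ≤ C2 := by rw [hC2]; positivity
  obtain ⟨C3, hC3⟩ : ∃ C3, C3 = Cm * (40 + C2) := ⟨_, rfl⟩
  have hC3' : 0 ≤ C3 := by rw [hC3]; positivity
  obtain ⟨C4, hC4⟩ : ∃ C4, C4 = Cg * (C2 + C3) := ⟨_, rfl⟩
  have hC4' : 0 ≤ C4 := by rw [hC4]; positivity
  refine ⟨C1 + C2 + C3 + C4, by linarith, fun u V l A h => ?_⟩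
  have hl := h.hl
  have hA := h.hA
  have hL := loc1_log hl
  have hq : 1 ≤ C0 * l ^ 2 := by nlinarith
  have hc1 : Real.log (C0 * l ^ 2 + 1) ≤ C1 * Real.log l := by
    have h1 : Real.log (C0 * l ^ 2 + 1) ≤ Real.log (2 * C0 * l ^ 2) :=
      Real.log_le_log (by linarith) (by linarith)
    rw [Real.log_mul (by positivity) (by positivity), Real.log_pow] at h1
    have h2 := Real.log_nonneg (show 1 ≤ 2 * C0 by linarith)
    push_cast at h1
    rw [hC1]
    nlinarith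
  refine ⟨Real.log (C0 * l ^ 2 + 1), Real.log_nonneg (by linarith), hc1.trans (by
    gcongr; linarith), fun e he he1 => ?_⟩
  set c := Real.log (C0 * l ^ 2 + 1) with hc
  have hF : Sm (v0 u l e) := sm_v0 h.sl.hu (by linarith) he
  have hup : ∀ z, ‖z‖ < 90 → v0 u l e z ≤ c := by
    intro z hz
    have h1 := h0 u V l e 100 1 1 z h.sl (by linarith) one_pos le_rfl (by linarith)
      fun y hy => h.le y (by linarith [loc1_norm hy])
    have h2 := yy_pos u (show 0 ≤ l by linarith) he z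
    refine Real.log_le_log (by linarith [Gr_nonneg u z]) (h1.trans ?_)
    simp only [div_one, one_pow, mul_one]
    linarith
  obtain ⟨z₀, hz₀, hz₁⟩ := h.ex
  have hI : ∫ z in ball (0 : ℂ) 42, |v0 u l e z - c| ≤ C2 * (l + A) := by
    have h1 := loc1_sub hF (t := 86) (b := 160 * 86 * l) (c := c) hz₀ (by norm_num)
      (by linarith) (fun y hy => hup y (by linarith)) (loc1_low h he hz₁)
      fun s hs hs' => loc1_av h he hs hs' (by linarith)
    rw [show (86 : ℝ) / 2 - 1 = 42 by norm_num] at h1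
    refine h1.trans ?_
    have h2 : C1 * Real.log l ≤ C1 * l := by
      gcongr
      linarith [Real.log_le_sub_one_of_pos (show 0 < l by linarith)]
    rw [hC2, mul_assoc (8 * 86 ^ 2)]
    gcongr
    nlinarith
  have hM : ∫ z in ball (0 : ℂ) 41, |Lap (v0 u l e) z| ≤ C3 * (l + A) := by
    have h1 := hm (v0 u l e) (40 * l) c (C2 * (l + A)) hF (by linarith)
      (fun z hz => v0_lap h.sl (by linarith) he (by linarith))
      (by rw [show (41 : ℝ) + 1 = 42 by norm_num]; exact hI)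
    refine h1.trans ?_
    rw [hC3, mul_assoc]
    gcongr
    linarith
  have hG : ∫ z in ball (0 : ℂ) 39, gn (v0 u l e) z ≤ C4 * (l + A) := by
    have h1 := hg (v0 u l e) (160 * 1 * l) c (C2 * (l + A)) (C3 * (l + A)) 0 hF (by linarith)
      (by rw [show (39 : ℝ) + 3 = 42 by norm_num]; exact hI)
      (fun z t hz ht ht' => loc1_av h he ht ht' (by linarith))
      (by rw [show (39 : ℝ) + 2 = 41 by norm_num]; exact hM)
    refine h1.trans (le_of_eq ?_)
    rw [hC4]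
    simp only [Nat.cast_zero, mul_zero, add_zero, pow_zero, div_one]
    ring
  have hp : 0 ≤ l + A := by linarith
  exact ⟨hup, hI.trans (by gcongr; linarith), hM.trans (by gcongr; linarith),
    hG.trans (by gcongr; linarith)⟩

/-- The three masses that enter the key lemma. -/
theorem loc1_mass : ∃ C : ℝ, 20 * cK ≤ C ∧ ∀ (u V : ℂ → ℝ) (l A C0 c e : ℝ), Nm u V l A → 1 ≤ C0 →
    0 < e → ∫ z in ball (0 : ℂ) 42, |v0 u l e z - c| ≤ C0 * (l + A) →
    ∫ z in ball (0 : ℂ) 39, gn (v0 u l e) z ≤ C0 * (l + A) →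
    ∫ z in ball (0 : ℂ) 38, gn (vv u l e) z ≤ C * C0 * (l + A) ^ 2 ∧
    ∫ z in ball (0 : ℂ) 38, |Lap (vv u l e) z + dv (BB u V l e 1) (BB u V l e I) z| ≤
      C * C0 * (l + A) ^ 2 ∧
    ∫ z in ball (0 : ℂ) 38, |dv (BB u V l e 1) (BB u V l e I) z| ≤ C * C0 * (l + A) ^ 2 := by
  obtain ⟨Cm, hCm, hm⟩ := mass_le (R := 38) (by norm_num)
  have hK := one_le_cK
  obtain ⟨a, ha⟩ : ∃ a, a = volume.real (ball (0 : ℂ) 38) := ⟨_, rfl⟩
  obtain ⟨a', ha'⟩ : ∃ a, a = volume.real (ball (0 : ℂ) 39) := ⟨_, rfl⟩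
  have ha0 : 0 ≤ a := ha ▸ measureReal_nonneg
  have ha0' : 0 ≤ a' := ha' ▸ measureReal_nonneg
  have p1 : 0 ≤ 2 + 6 * a := by positivity
  have p2 : 0 ≤ Cm * (20 * cK + (1 + 2 * a') + 2) := by positivity
  have p3 : 0 ≤ 100 * cK * (1 + a) := by positivity
  refine ⟨20 * cK + (2 + 6 * a) + Cm * (20 * cK + (1 + 2 * a') + 2) + 100 * cK * (1 + a),
    by linarith, fun u V l A C0 c e h hC0 he hI hG => ?_⟩
  have hl := h.hl
  have hA := h.hA
  have hl0 : 0 ≤ l := by linarith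
  have hl1 : 1 ≤ l := by linarith
  have hF : Sm (v0 u l e) := sm_v0 h.sl.hu hl0 he
  have hv : Sm (vv u l e) := sm_vv h.sl.hu hl0 he
  have hB : ∀ v, Sm (BB u V l e v) := sm_BB h.sl.hu h.sl.hV hl0 he
  have hs : √l ≤ l := Real.sqrt_le_self_iff.2 (Or.inr hl1)
  have hs0 : 0 ≤ √l := Real.sqrt_nonneg l
  obtain ⟨X, hX⟩ : ∃ X, X = C0 * (l + A) := ⟨_, rfl⟩
  obtain ⟨Y, hY⟩ : ∃ Y, Y = C0 * (l + A) ^ 2 := ⟨_, rfl⟩
  have hlX : l ≤ X := by rw [hX]; nlinarith
  have hXY' : l * X ≤ Y := by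
    rw [hX, hY]
    have : 0 ≤ C0 * (l + A) * A := by positivity
    nlinarith
  have hXY : X ≤ Y := by nlinarith
  have hY0 : 0 ≤ Y := by linarith
  rw [← hX] at hI hG
  simp only [mul_assoc _ C0, ← hY]
  have hG' : ∫ z in ball (0 : ℂ) 38, gn (v0 u l e) z ≤ X :=
    (loc1_mono0 (gn_cont hF) (gn_nonneg _) (by norm_num)).trans hG
  refine ⟨?_, ?_, ?_⟩
  · have h1 := loc1_int_le (R := 38) (gn_cont hv) (gn_cont hF)
      fun z _ => gn_vv h.sl.hu hl1 he z
    rw [← ha] at h1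
    have h2 : 6 * √l * a ≤ 6 * Y * a := by gcongr; linarith
    calc _ ≤ (2 + 6 * a) * Y := by linarith
      _ ≤ _ := mul_le_mul_of_nonneg_right (by linarith) hY0
  · have h1 := loc1_int_le (R := 39) (α := 1) (β := 2) (hv.continuous.sub continuous_const).abs
      (hF.continuous.sub continuous_const).abs (F := fun z => |vv u l e z - c|)
      (G := fun z => |v0 u l e z - c|) fun z _ => by
        obtain ⟨b1, b2⟩ := vv_v0 u hl0 he z
        have b3 : Real.log 4 ≤ 2 := by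
          rw [show (4 : ℝ) = 2 ^ 2 by norm_num, Real.log_pow]
          push_cast
          linarith [Real.log_two_lt_d9]
        have b4 := le_abs_self (v0 u l e z - c)
        have b5 := neg_abs_le (v0 u l e z - c)
        rw [abs_le]
        constructor <;> linarith
    rw [← ha'] at h1
    have h2 : ∫ z in ball (0 : ℂ) 39, |v0 u l e z - c| ≤ X :=
      (loc1_mono0 (hF.continuous.sub continuous_const).abs (fun _ => abs_nonneg _)
        (by norm_num)).trans hI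
    have h3 := hm (vv u l e) _ _ (20 * cK * l) (2 * √l) c (X + 2 * a') hv (hB 1) (hB I)
      (by positivity) (by positivity)
      (fun z hz => ⟨(T_bd h.sl hl1 he (by linarith)).1, BB_le h.sl hl1 he (by linarith) (Or.inl rfl),
        BB_le h.sl hl1 he (by linarith) (Or.inr rfl)⟩)
      (by rw [show (38 : ℝ) + 1 = 39 by norm_num]; linarith)
    have h4 : 20 * cK * l ≤ 20 * cK * Y := by gcongr; linarith
    have h5 : 2 * a' * 1 ≤ 2 * a' * Y := by gcongr; linarith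
    calc _ ≤ Cm * (20 * cK * l + (X + 2 * a') + 2 * √l) := h3
      _ ≤ Cm * ((20 * cK + (1 + 2 * a') + 2) * Y) := by gcongr; linarith
      _ = Cm * (20 * cK + (1 + 2 * a') + 2) * Y := by ring
      _ ≤ _ := mul_le_mul_of_nonneg_right (by linarith) hY0
  · have h1 := loc1_int_le (R := 38) (α := 100 * cK * √l) (β := 100 * cK * l)
      (smdv (hB 1) (hB I)).continuous.abs (gn_cont hF)
      fun z hz => (dv_le h.sl hl1 he (by linarith)).trans (le_of_eq (by ring))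
    rw [← ha] at h1
    have h2 : 100 * cK * √l * ∫ z in ball (0 : ℂ) 38, gn (v0 u l e) z ≤ 100 * cK * Y := by
      rw [mul_assoc]
      gcongr
      calc _ ≤ √l * X := by gcongr
        _ ≤ l * X := by gcongr; linarith
        _ ≤ Y := hXY'
    have h3 : 100 * cK * l * a ≤ 100 * cK * Y * a := by gcongr; linarith
    calc _ ≤ 100 * cK * (1 + a) * Y := by linarith
      _ ≤ _ := mul_le_mul_of_nonneg_right (by linarith) hY0

theorem loc1_logs {C x : ℝ} (hC : 1 ≤ C) (hx : 3 ≤ x) :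
    1 ≤ Real.log (C * x ^ 2) ∧ Real.log (C * x ^ 2) ≤ (Real.log C + 2) * Real.log x ∧
      Real.log (C * x ^ 2) * √(Real.log (C * x ^ 2)) ≤
        (Real.log C + 2) ^ 2 * (Real.log x * √(Real.log x)) := by
  have h1 := loc1_log hx
  have h2 := Real.log_nonneg hC
  have h3 : Real.log (C * x ^ 2) = Real.log C + 2 * Real.log x := by
    rw [Real.log_mul (by positivity) (by positivity), Real.log_pow]
    push_cast
    ring
  have h4 : Real.log (C * x ^ 2) ≤ (Real.log C + 2) * Real.log x := by rw [h3]; nlinarith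
  refine ⟨by linarith, h4, ?_⟩
  have h5 : √(Real.log (C * x ^ 2)) ≤ (Real.log C + 2) * √(Real.log x) := by
    refine (Real.sqrt_le_sqrt h4).trans ?_
    rw [Real.sqrt_mul (by linarith)]
    gcongr
    exact Real.sqrt_le_self_iff.2 (Or.inr (by linarith))
  calc _ ≤ (Real.log C + 2) * Real.log x * ((Real.log C + 2) * √(Real.log x)) := by gcongr
    _ = _ := by ring

/-- The sharp bounds. -/
theorem sharp : ∃ C : ℝ, 1 ≤ C ∧ ∀ (u V : ℂ → ℝ) (l A : ℝ), Nm u V l A → ∃ c, 0 ≤ c ∧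
    ∀ e, 0 < e → e ≤ 1 →
      ∫ z in ball (0 : ℂ) 2, |v0 u l e z - c| ≤
        C * (A + √l * (Real.log (l + A) * √(Real.log (l + A)))) ∧
      ∫ z in ball (0 : ℂ) 2, gn (vv u l e) z ≤
        C * (A + √l * (Real.log (l + A) ^ 2 * √(Real.log (l + A)))) := by
  obtain ⟨C0, hC0, h0⟩ := crude
  obtain ⟨C1, hC1, h1⟩ := loc1_mass
  obtain ⟨Ck, hCk, hk⟩ := key_scale
  obtain ⟨Cg, hCg, hg⟩ := grad_L1 (R := 2) (by norm_num)
  have hK := one_le_cK
  have hKK : 20 * cK ≤ (20 * cK) ^ 2 := by nlinarith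
  have hCC : 20 * cK ≤ C1 * C0 := by nlinarith
  have hCC1 : 1 ≤ C1 * C0 := by linarith
  obtain ⟨Dd, hD⟩ : ∃ Dd, Dd = Real.log (C1 * C0) + 2 := ⟨_, rfl⟩
  have hD' : 2 ≤ Dd := by linarith [Real.log_nonneg hCC1]
  obtain ⟨Cb, hCb⟩ : ∃ Cb, Cb = Ck * (20 * cK) * Dd ^ 2 := ⟨_, rfl⟩
  have hCb' : 0 ≤ Cb := by rw [hCb]; positivity
  obtain ⟨C5, hC5⟩ : ∃ C5, C5 = 8 * 12 ^ 2 * (C0 + 2 + Cb * 12) := ⟨_, rfl⟩
  have hC5' : 1 ≤ C5 := by rw [hC5]; nlinarith
  obtain ⟨C6, hC6⟩ : ∃ C6, C6 = Cg * (C5 + Cb * (3 * Dd) + 2) := ⟨_, rfl⟩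
  have hC6' : 0 ≤ C6 := by rw [hC6]; positivity
  refine ⟨C5 + C6, by linarith, fun u V l A h => ?_⟩
  obtain ⟨c, hc0, hc1, h2⟩ := h0 u V l A h
  refine ⟨c, hc0, fun e he he1 => ?_⟩
  obtain ⟨hup, hI, -, hG⟩ := h2 e he he1
  obtain ⟨m1, m2, m3⟩ := h1 u V l A C0 c e h hC0 he hI hG
  have hl := h.hl
  have hA := h.hA
  have hl0 : 0 ≤ l := by linarith
  have hl1 : 1 ≤ l := by linarith
  have hx : 3 ≤ l + A := by linarith
  obtain ⟨g1, g2, g3⟩ := loc1_logs hCC1 hx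
  rw [← hD] at g2 g3
  have hL := loc1_log hx
  have hLl : Real.log l ≤ Real.log (l + A) := Real.log_le_log (by linarith) (by linarith)
  have hF : Sm (v0 u l e) := sm_v0 h.sl.hu hl0 he
  have hv : Sm (vv u l e) := sm_vv h.sl.hu hl0 he
  have hB : ∀ v, Sm (BB u V l e v) := sm_BB h.sl.hu h.sl.hV hl0 he
  have hs : √l ≤ l := Real.sqrt_le_self_iff.2 (Or.inr hl1)
  have hs1 : 1 ≤ √l := Real.one_le_sqrt.2 hl1
  have hsL : 1 ≤ √(Real.log (l + A)) := Real.one_le_sqrt.2 hL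
  have hΓk : 20 * cK * √l ≤ C1 * C0 * (l + A) ^ 2 := by
    gcongr
    nlinarith
  have hk1 : 20 * √l ≤ 20 * cK * √l := mul_le_mul_of_nonneg_right (by linarith) (by linarith)
  generalize C1 * C0 * (l + A) ^ 2 = Γ at m1 m2 m3 g1 g2 g3 hΓk
  generalize Real.log (l + A) = L at g2 g3 hL hLl hsL ⊢
  obtain ⟨W, hW⟩ : ∃ W, W = √l * (L * √L) := ⟨_, rfl⟩
  have hLW : L ≤ W := by
    rw [hW]
    calc L = 1 * (L * 1) := by ring
      _ ≤ _ := by gcongr
  have hW2 : √l * (L ^ 2 * √L) = W * L := by rw [hW]; ring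
  rw [hW2, ← hW]
  have hkey : ∀ (z : ℂ) (t : ℝ), 0 < t → t ≤ 12 → ‖z‖ + 3 * t < 38 →
      -(Cb * W / t) ≤ av 2 t (Lap (vv u l e)) z := by
    intro z t ht ht' hz
    refine le_trans ?_ (hk (vv u l e) _ _ (20 * cK * √l) Γ 38 hv (hB 1) (hB I) (by linarith)
      (by linarith) hΓk (fun y hy => ?_) m1 m2 m3 z t ht ht' hz)
    · refine neg_le_neg (div_le_div_of_nonneg_right ?_ ht.le)
      calc _ ≤ Ck * (20 * cK * √l) * (Dd ^ 2 * (L * √L)) :=
            mul_le_mul_of_nonneg_left g3 (by positivity)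
        _ = _ := by rw [hCb, hW]; ring
    · obtain ⟨t1, t2⟩ := T_bd h.sl hl1 he (show ‖y‖ < 100 by linarith)
      refine ⟨(BB_le h.sl hl1 he (by linarith) (Or.inl rfl)).trans (by linarith),
        (BB_le h.sl hl1 he (by linarith) (Or.inr rfl)).trans (by linarith), le_trans ?_ t1,
        fun hh => (t2 hh).trans hk1⟩
      rw [neg_le_neg_iff, mul_pow, Real.sq_sqrt hl0]
      exact mul_le_mul_of_nonneg_right hKK hl0
  have hb : 0 ≤ Cb * W := mul_nonneg hCb' (by linarith)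
  obtain ⟨z₀, hz₀, hz₁⟩ := h.ex
  have b3 : Real.log 4 ≤ 2 := by
    rw [show (4 : ℝ) = 2 ^ 2 by norm_num, Real.log_pow]
    push_cast
    linarith [Real.log_two_lt_d9]
  have hvc : ∀ y, ‖y‖ < 90 → vv u l e y ≤ c := fun y hy => (vv_v0 u hl0 he y).1.trans (hup y hy)
  have hS : ∫ z in ball (0 : ℂ) 5, |vv u l e z - c| ≤ C5 * (A + W) := by
    have a1 := loc1_sub hv (t := 12) (b := Cb * W) (c := c) (a := 2 * A + 2) hz₀ (by norm_num) hb
      (fun y hy => hvc y (by linarith))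
      (by linarith [loc1_low h he hz₁, (vv_v0 u hl0 he z₀).2])
      fun s hs hs' => hkey z₀ s hs hs' (by linarith)
    rw [show (12 : ℝ) / 2 - 1 = 5 by norm_num] at a1
    refine a1.trans ?_
    have a2 : C0 * Real.log l ≤ C0 * W := by gcongr; linarith
    have a3 : 0 ≤ C0 * A := by positivity
    have a4 : 0 ≤ Cb * A := by positivity
    rw [hC5, mul_assoc (8 * 12 ^ 2)]
    refine mul_le_mul_of_nonneg_left ?_ (by norm_num)
    have a5 : (C0 + 2 + Cb * 12) * (A + W) =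
        C0 * A + C0 * W + 2 * A + 2 * W + 12 * (Cb * A) + Cb * W * 12 := by ring
    linarith
  have hp : 0 ≤ A + W := by linarith
  have hWL : W ≤ W * L := le_mul_of_one_le_right (by linarith) hL
  constructor
  · have a1 := loc1_int_le (R := 2) (α := 1) (β := 0) (hF.continuous.sub continuous_const).abs
      (hv.continuous.sub continuous_const).abs (F := fun z => |v0 u l e z - c|)
      (G := fun z => |vv u l e z - c|) fun z hz => by
        have b1 := (vv_v0 u hl0 he z).1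
        have b2 := hup z (by linarith)
        rw [abs_of_nonpos (by linarith), abs_of_nonpos (by linarith)]
        linarith
    have a2 : ∫ z in ball (0 : ℂ) 2, |vv u l e z - c| ≤ ∫ z in ball (0 : ℂ) 5, |vv u l e z - c| :=
      loc1_mono0 (hv.continuous.sub continuous_const).abs (fun _ => abs_nonneg _) (by norm_num)
    calc _ ≤ C5 * (A + W) := by linarith
      _ ≤ _ := mul_le_mul_of_nonneg_right (by linarith) hp
  · obtain ⟨n, hn1, hn2⟩ := exists_nat_pow_near (show 1 ≤ Γ by linarith) (show (1 : ℝ) < 2 by norm_num)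
    have a1 : (n : ℝ) * Real.log 2 ≤ Real.log Γ := by
      rw [← Real.log_pow]
      exact Real.log_le_log (by positivity) hn1
    have a2 : ((n + 1 : ℕ) : ℝ) ≤ 3 * Dd * L := by
      have b1 : (n : ℝ) * (1 / 2) ≤ n * Real.log 2 :=
        mul_le_mul_of_nonneg_left (by linarith [Real.log_two_gt_d9]) (Nat.cast_nonneg n)
      push_cast
      linarith
    have hT := (smLap hv).add (smdv (hB 1) (hB I))
    have a3 : ∫ z in ball (0 : ℂ) 38, |Lap (vv u l e) z| ≤ 2 * Γ := by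
      have b1 := loc1_int_le (R := 38) (α := 1) (β := 0) (smLap hv).continuous.abs
        (hT.continuous.abs.add (smdv (hB 1) (hB I)).continuous.abs)
        (F := fun z => |Lap (vv u l e) z|)
        (G := fun z => |Lap (vv u l e) z + dv (BB u V l e 1) (BB u V l e I) z| +
          |dv (BB u V l e 1) (BB u V l e I) z|) fun z _ => by
          have := abs_sub (Lap (vv u l e) z + dv (BB u V l e 1) (BB u V l e I) z)
            (dv (BB u V l e 1) (BB u V l e I) z)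
          rw [add_sub_cancel_right] at this
          linarith
      rw [integral_add (intB hT.continuous.abs 0 38)
        (intB (smdv (hB 1) (hB I)).continuous.abs 0 38)] at b1
      linarith
    have a4 := hg (vv u l e) (Cb * W) c (C5 * (A + W)) (2 * Γ) (n + 1) hv hb
      (by rw [show (2 : ℝ) + 3 = 5 by norm_num]; exact hS)
      (fun z t hz ht ht' => hkey z t ht (by linarith) (by linarith))
      ((loc1_mono0 (smLap hv).continuous.abs (fun _ => abs_nonneg _) (by norm_num)).trans a3)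
    have a5 : 2 * Γ / 2 ^ (n + 1) ≤ 2 := by
      rw [div_le_iff₀ (by positivity)]
      linarith
    have a6 : Cb * W * ((n + 1 : ℕ) : ℝ) ≤ Cb * W * (3 * Dd * L) := by gcongr
    have a7 : C5 * (A + W) ≤ C5 * (A + W * L) := by gcongr
    have a8 : 0 ≤ Cb * (3 * Dd) * A := by positivity
    calc _ ≤ Cg * (C5 * (A + W) + Cb * W * ((n + 1 : ℕ) : ℝ) + 2 * Γ / 2 ^ (n + 1)) := a4
      _ ≤ Cg * ((C5 + Cb * (3 * Dd) + 2) * (A + W * L)) := by
        refine mul_le_mul_of_nonneg_left ?_ (by linarith)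
        have b1 : (C5 + Cb * (3 * Dd) + 2) * (A + W * L) = C5 * (A + W * L) +
            Cb * (3 * Dd) * A + Cb * W * (3 * Dd * L) + 2 * A + 2 * (W * L) := by ring
        linarith
      _ = C6 * (A + W * L) := by rw [hC6]; ring
      _ ≤ _ := mul_le_mul_of_nonneg_right (by linarith) (by linarith)

end Pool.Agent.Lib.MP_a52643_an.YA
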