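import Pool.Agent.Lib.MP_a52643_an.YA.Green

/-!
The obstacle problem.
-/

namespace Pool.Agent.Lib.MP_a52643_an.YA

open Complex Filter Topology Metric MeasureTheory Set QS
open scoped ContDiff ComplexConjugate

/-- Bounded measurable densities on the unit disc. -/
private def obstB (μ : ℂ → ℝ) : Prop := ∃ m, Bd μ m 1

private theorem obst_comb {p q : ℂ → ℝ} (hp : obstB p) (hq : obstB q) (t : ℝ) :
    obstB fun y => p y + t * q y := by
  obtain ⟨a, ha⟩ := hp
  obtain ⟨b, hb⟩ := hq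
  refine ⟨a + |t| * b, ha.me.add (hb.me.const_mul t), fun y => ?_, fun y hy => ?_⟩
  · refine (abs_add_le _ _).trans (add_le_add (ha.le y) ?_)
    rw [abs_mul]
    exact mul_le_mul_of_nonneg_left (hb.le y) (abs_nonneg t)
  · simp [ha.su y hy, hb.su y hy]

private theorem obst_int_mul {p q : ℂ → ℝ} (hp : obstB p) (hq : obstB q) :
    Integrable fun y => p y * q y := by
  obtain ⟨a, ha⟩ := hp
  obtain ⟨b, hb⟩ := hq
  have h : Bd (fun y => p y * q y) (a * b) 1 := by
    refine ⟨ha.me.mul hb.me, fun y => ?_, fun y hy => by simp [ha.su y hy]⟩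
    rw [abs_mul]
    exact mul_le_mul (ha.le y) (hb.le y) (abs_nonneg _) ((abs_nonneg _).trans (ha.le y))
  exact h.int'

private theorem obst_int {p : ℂ → ℝ} (hp : obstB p) : Integrable p := hp.choose_spec.int'

private theorem obst_intc {p g : ℂ → ℝ} (hp : obstB p) (hg : Continuous g) :
    Integrable fun y => g y * p y := hp.choose_spec.int hg

section kernel

variable {k : ℂ → ℂ → ℝ} {p q r : ℂ → ℝ} {M : ℝ}

private theorem obst_kc (hk : SmK k) (z : ℂ) : Continuous fun y => k z y :=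
  hk.continuous.comp (continuous_const.prodMk continuous_id)

private theorem obst_IKc (hk : SmK k) (hp : obstB p) : Continuous (IK k p) :=
  (sm_IK hk hp.choose_spec).continuous

private theorem obst_IK_comb (hk : SmK k) (hp : obstB p) (hq : obstB q) (t : ℝ) (z : ℂ) :
    IK k (fun y => p y + t * q y) z = IK k p z + t * IK k q z := by
  unfold IK
  rw [← integral_const_mul, ← integral_add (obst_intc hp (obst_kc hk z))
    ((obst_intc hq (obst_kc hk z)).const_mul t)]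
  congr 1
  funext y
  ring

private theorem obst_exM (hk : SmK k) :
    ∃ M, 0 ≤ M ∧ ∀ z y, ‖z‖ ≤ 1 → ‖y‖ ≤ 1 → |k z y| ≤ M := by
  obtain ⟨M, hM⟩ := ((isCompact_closedBall (0 : ℂ) 1).prod
    (isCompact_closedBall (0 : ℂ) 1)).exists_bound_of_continuousOn hk.continuous.continuousOn
  refine ⟨max M 0, le_max_right _ _, fun z y hz hy => le_trans ?_ (le_max_left _ _)⟩
  exact hM (z, y) ⟨mem_closedBall_zero_iff.2 hz, mem_closedBall_zero_iff.2 hy⟩

private theorem obst_IK_le (hM : ∀ z y, ‖z‖ ≤ 1 → ‖y‖ ≤ 1 → |k z y| ≤ M) (hp : obstB p) {z : ℂ}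
    (hz : ‖z‖ ≤ 1) : |IK k p z| ≤ M * ∫ y, |p y| := by
  rw [← integral_const_mul, ← Real.norm_eq_abs, IK]
  refine norm_integral_le_of_norm_le ((obst_int hp).abs.const_mul M) (ae_of_all _ fun y => ?_)
  rw [Real.norm_eq_abs, abs_mul]
  rcases le_or_gt ‖y‖ 1 with hy | hy
  · exact mul_le_mul_of_nonneg_right (hM z y hz hy) (abs_nonneg _)
  · simp [hp.choose_spec.su y hy]

/-- The bilinear form of the kernel. -/
private noncomputable def obstF (k : ℂ → ℂ → ℝ) (p q : ℂ → ℝ) : ℝ := ∫ z, IK k p z * q z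

private theorem obstF_le (hM : ∀ z y, ‖z‖ ≤ 1 → ‖y‖ ≤ 1 → |k z y| ≤ M) (hp : obstB p)
    (hq : obstB q) : |obstF k p q| ≤ (M * ∫ y, |p y|) * ∫ y, |q y| := by
  rw [← integral_const_mul, ← Real.norm_eq_abs, obstF]
  refine norm_integral_le_of_norm_le ((obst_int hq).abs.const_mul _) (ae_of_all _ fun y => ?_)
  rw [Real.norm_eq_abs, abs_mul]
  rcases le_or_gt ‖y‖ 1 with hy | hy
  · exact mul_le_mul_of_nonneg_right (obst_IK_le hM hp hy) (abs_nonneg _)
  · simp [hq.choose_spec.su y hy]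

private theorem obstF_symm (hk : SmK k) (hs : ∀ z y, k z y = k y z) (hp : obstB p)
    (hq : obstB q) : obstF k p q = obstF k q p := by
  obtain ⟨M, -, hM⟩ := obst_exM hk
  have hi : Integrable (Function.uncurry fun z y => k z y * p y * q z) (volume.prod volume) := by
    refine (((obst_int hq).abs.mul_prod (obst_int hp).abs).const_mul M).mono' ?_
      (ae_of_all _ fun w => ?_)
    · exact ((hk.continuous.measurable.mul (hp.choose_spec.me.comp measurable_snd)).mul
        (hq.choose_spec.me.comp measurable_fst)).aestronglyMeasurable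
    · obtain ⟨z, y⟩ := w
      simp only [Function.uncurry_apply_pair, Real.norm_eq_abs, abs_mul]
      rcases le_or_gt ‖z‖ 1 with hz | hz
      · rcases le_or_gt ‖y‖ 1 with hy | hy
        · have := mul_le_mul_of_nonneg_right (hM z y hz hy)
            (mul_nonneg (abs_nonneg (q z)) (abs_nonneg (p y)))
          linarith
        · simp [hp.choose_spec.su y hy]
      · simp [hq.choose_spec.su z hz]
  have h := integral_integral_swap hi
  unfold obstF IK
  simp only [← integral_mul_const]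
  rw [h]
  congr 1
  funext y
  congr 1
  funext z
  rw [hs z y]
  ring

private theorem obstF_comb (hk : SmK k) (hp : obstB p) (hq : obstB q) (hr : obstB r) (t : ℝ) :
    obstF k p (fun y => q y + t * r y) = obstF k p q + t * obstF k p r := by
  unfold obstF
  rw [← integral_const_mul, ← integral_add (obst_intc hq (obst_IKc hk hp))
    ((obst_intc hr (obst_IKc hk hp)).const_mul t)]
  congr 1
  funext y
  ring

private theorem obst_sq (hp : obstB p) (hq : obstB q) (t : ℝ) :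
    ∫ y, (p y + t * q y) * (p y + t * q y) =
      (∫ y, p y * p y) + 2 * t * (∫ y, p y * q y) + t ^ 2 * ∫ y, q y * q y := by
  have h1 := obst_int_mul hp hp
  have h2 := (obst_int_mul hp hq).const_mul (2 * t)
  have h3 := (obst_int_mul hq hq).const_mul (t ^ 2)
  have h4 : Integrable fun y => p y * p y + 2 * t * (p y * q y) := h1.add h2
  rw [← integral_const_mul, ← integral_const_mul, ← integral_add h1 h2, ← integral_add h4 h3]
  congr 1
  funext y
  ring

private theorem obst_cs : ∃ W : ℝ, 0 < W ∧ ∀ q, obstB q → (∫ y, |q y|) ^ 2 ≤ W * ∫ y, q y * q y := by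
  set χ : ℂ → ℝ := (closedBall (0 : ℂ) 1).indicator fun _ => 1 with hχ
  have hb : obstB χ := by
    refine ⟨1, measurable_const.indicator measurableSet_closedBall, fun y => ?_, fun y hy => ?_⟩
    · by_cases h : y ∈ closedBall (0 : ℂ) 1
      · simp [hχ, indicator_of_mem h]
      · simp [hχ, indicator_of_notMem h]
    · exact indicator_of_notMem (by rw [mem_closedBall_zero_iff]; exact not_le.2 hy) _
  have hV : 0 ≤ ∫ y, χ y := integral_nonneg fun y => indicator_nonneg (fun _ _ => zero_le_one) y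
  refine ⟨(∫ y, χ y) + 1, by linarith, fun q hq => ?_⟩
  have key : ∀ s : ℝ, 2 * s * ∫ y, |q y| ≤ (∫ y, q y * q y) + s ^ 2 * ∫ y, χ y := by
    intro s
    have h1 := obst_int_mul hq hq
    have h2 := (obst_int hb).const_mul (s ^ 2)
    rw [← integral_const_mul, ← integral_const_mul, ← integral_add h1 h2]
    refine integral_mono ((obst_int hq).abs.const_mul _) (h1.add h2) fun y => ?_
    by_cases h : y ∈ closedBall (0 : ℂ) 1
    · have e : χ y = 1 := indicator_of_mem h _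
      simp only [e]
      nlinarith [sq_nonneg (|q y| - s), abs_mul_abs_self (q y)]
    · have e : χ y = 0 := indicator_of_notMem h _
      rw [mem_closedBall_zero_iff, not_le] at h
      simp [e, hq.choose_spec.su y h]
  set A := ∫ y, |q y|
  set B := ∫ y, q y * q y
  set V := ∫ y, χ y
  have hW : 0 < V + 1 := by linarith
  obtain ⟨s, hs⟩ : ∃ s, A = s * (V + 1) := ⟨A / (V + 1), by field_simp⟩
  have h := key s
  rw [hs] at h ⊢
  nlinarith [mul_le_mul_of_nonneg_left h hW.le, mul_nonneg hW.le (sq_nonneg s)]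

end kernel

private theorem obst_proj {R η a b : ℝ} (hη : 0 < η) (ha : 0 ≤ a) (hb : a ≤ b) :
    (R + η * a) * (max 0 (min (-R / η) b) + -1 * a) ≤
      -η * ((max 0 (min (-R / η) b) + -1 * a) * (max 0 (min (-R / η) b) + -1 * a)) := by
  obtain ⟨x, rfl⟩ : ∃ x, R = -(η * x) := ⟨-R / η, by field_simp⟩
  have e : - -(η * x) / η = x := by field_simp
  rw [e]
  have h : (max 0 (min x b) - x) * (max 0 (min x b) - a) ≤ 0 := by
    rcases le_total x b with h1 | h1
    · rw [min_eq_left h1]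
      rcases le_total 0 x with h2 | h2
      · rw [max_eq_right h2]; simp
      · rw [max_eq_left h2]; nlinarith
    · rw [min_eq_right h1, max_eq_right (ha.trans hb)]; nlinarith
  nlinarith [mul_le_mul_of_nonneg_left h hη.le]

/-- An approximate solution of the complementarity problem for a symmetric kernel. -/
theorem near_min {k : ℂ → ℂ → ℝ} (hk : SmK k) (hs : ∀ z y, k z y = k y z) {τ : ℂ → ℝ} {m ρ γ : ℝ}
    (hρ : ρ ≤ 1) (hτ : Bd τ m ρ) (hγ : 0 < γ) : ∃ p : ℂ → ℝ, Measurable p ∧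
      (∀ y, 0 ≤ p y ∧ p y ≤ max (-τ y) 0) ∧
      (∀ z, ‖z‖ ≤ 1 → IK k (fun y => p y + τ y) z ≤ -γ → p z = max (-τ z) 0) ∧
      ∀ z, p z ≠ 0 → IK k (fun y => p y + τ y) z ≤ γ := by
  obtain ⟨M, hM0, hM⟩ := obst_exM hk
  obtain ⟨W, hW, hcs⟩ := obst_cs
  have hm : 0 ≤ m := (abs_nonneg _).trans (hτ.le 0)
  have hτ1 : Bd τ m 1 := ⟨hτ.me, hτ.le, fun y hy => hτ.su y (hρ.trans_lt hy)⟩
  have bτ : obstB τ := ⟨m, hτ1⟩
  have hneg : ∀ y, max (-τ y) 0 ≤ |τ y| := fun y => max_le (neg_le_abs _) (abs_nonneg _)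
  set A : Set (ℂ → ℝ) := {p | Measurable p ∧ ∀ y, 0 ≤ p y ∧ p y ≤ max (-τ y) 0} with hA
  have hz0 : ∀ p ∈ A, ∀ y, 1 < ‖y‖ → p y = 0 := fun p hp y hy => by
    have := hp.2 y
    rw [hτ1.su y hy] at this
    simp only [neg_zero, max_self] at this
    exact le_antisymm this.2 this.1
  have bA : ∀ p ∈ A, obstB p := fun p hp => ⟨m, hp.1, fun y => by
    rw [abs_of_nonneg (hp.2 y).1]
    exact (hp.2 y).2.trans ((hneg y).trans (hτ.le y)), hz0 p hp⟩
  obtain ⟨η, hη, hη'⟩ : ∃ η : ℝ, 0 < η ∧ η * (m + 1) = γ / 2 :=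
    ⟨γ / 2 / (m + 1), by positivity, by field_simp⟩
  obtain ⟨t, ht, ht'⟩ : ∃ t : ℝ, 0 < t ∧ t * (M * W + η) = η :=
    ⟨η / (M * W + η), by positivity, by field_simp⟩
  have hMW : 0 ≤ M * W := by positivity
  have ht1 : t ≤ 1 := by nlinarith
  obtain ⟨d, hd, hd'⟩ : ∃ d : ℝ, 0 < d ∧ d * (8 * (M ^ 2 * W + 1)) = t * η * γ ^ 2 :=
    ⟨t * η * γ ^ 2 / (8 * (M ^ 2 * W + 1)), by positivity, by field_simp⟩
  set J : (ℂ → ℝ) → ℝ := fun p => obstF k p p / 2 + obstF k τ p + η / 2 * ∫ y, p y * p y with hJ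
  have hT : ∀ p ∈ A, 0 ≤ ∫ y, |p y| ∧ ∫ y, |p y| ≤ ∫ y, |τ y| := fun p hp =>
    ⟨integral_nonneg fun y => abs_nonneg _,
      integral_mono (obst_int (bA p hp)).abs (obst_int bτ).abs fun y => by
        simp only [abs_of_nonneg (hp.2 y).1]
        exact (hp.2 y).2.trans (hneg y)⟩
  have hbdd : BddBelow (J '' A) := by
    refine ⟨-(2 * (M * (∫ y, |τ y|) * ∫ y, |τ y|)), ?_⟩
    rintro _ ⟨p, hp, rfl⟩
    obtain ⟨h0, h1⟩ := hT p hp
    have a1 := (abs_le.1 (obstF_le hM (bA p hp) (bA p hp))).1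
    have a2 := (abs_le.1 (obstF_le hM bτ (bA p hp))).1
    have a3 : 0 ≤ ∫ y, p y * p y := integral_nonneg fun y => mul_self_nonneg _
    have a4 : (M * ∫ y, |p y|) * ∫ y, |p y| ≤ (M * ∫ y, |τ y|) * ∫ y, |τ y| := by gcongr
    have a5 : (M * ∫ y, |τ y|) * ∫ y, |p y| ≤ (M * ∫ y, |τ y|) * ∫ y, |τ y| :=
      mul_le_mul_of_nonneg_left h1 (mul_nonneg hM0 (h0.trans h1))
    have a6 : 0 ≤ (M * ∫ y, |p y|) * ∫ y, |p y| := by positivity
    have a7 : 0 ≤ η / 2 * ∫ y, p y * p y := by positivity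
    simp only [hJ]
    linarith
  have hne : (J '' A).Nonempty :=
    ⟨_, fun _ => 0, ⟨measurable_const, fun y => ⟨le_rfl, le_max_right _ _⟩⟩, rfl⟩
  obtain ⟨_, ⟨p₀, hp₀, rfl⟩, hlt⟩ := Real.lt_sInf_add_pos hne hd
  have b₀ := bA p₀ hp₀
  set R : ℂ → ℝ := fun z => IK k p₀ z + IK k τ z with hR
  have Rc : Continuous R := (obst_IKc hk b₀).add (obst_IKc hk bτ)
  set p : ℂ → ℝ := fun z => max 0 (min (-R z / η) (max (-τ z) 0)) with hp
  have hpA : p ∈ A := ⟨measurable_const.max ((Rc.measurable.neg.div_const η).min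
    (hτ.me.neg.max measurable_const)), fun y =>
      ⟨le_max_left _ _, max_le (le_max_right _ _) (min_le_right _ _)⟩⟩
  set q : ℂ → ℝ := fun z => p z + -1 * p₀ z with hq
  have bq : obstB q := obst_comb (bA p hpA) b₀ (-1)
  have hc : (fun y => p₀ y + t * q y) ∈ A := by
    refine ⟨hp₀.1.add (bq.choose_spec.me.const_mul t), fun y => ?_⟩
    obtain ⟨a1, a2⟩ := hp₀.2 y
    obtain ⟨a3, a4⟩ := hpA.2 y
    simp only [hq]
    constructor <;> nlinarith
  have hle := csInf_le hbdd ⟨_, hc, rfl⟩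
  have bc := bA _ hc
  have e1 : obstF k (fun y => p₀ y + t * q y) (fun y => p₀ y + t * q y) =
      obstF k p₀ p₀ + 2 * t * obstF k p₀ q + t ^ 2 * obstF k q q := by
    rw [obstF_comb hk bc b₀ bq, obstF_symm hk hs bc b₀, obstF_symm hk hs bc bq,
      obstF_comb hk b₀ b₀ bq, obstF_comb hk bq b₀ bq, obstF_symm hk hs bq b₀]
    ring
  have e2 : obstF k p₀ q + obstF k τ q + η * ∫ y, p₀ y * q y ≤ -η * ∫ y, q y * q y := by
    have h1 := obst_intc bq (obst_IKc hk b₀)
    have h2 := obst_intc bq (obst_IKc hk bτ)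
    have h3 := (obst_int_mul b₀ bq).const_mul η
    have h4 : Integrable fun y => IK k p₀ y * q y + IK k τ y * q y := h1.add h2
    unfold obstF
    rw [← integral_const_mul, ← integral_const_mul, ← integral_add h1 h2, ← integral_add h4 h3]
    refine integral_mono (h4.add h3) ((obst_int_mul bq bq).const_mul _) fun y => ?_
    have := obst_proj (R := R y) hη (hp₀.2 y).1 (hp₀.2 y).2
    simp only [hq, hp]
    simp only [hR] at this ⊢
    linarith
  have hB : 0 ≤ ∫ y, q y * q y := integral_nonneg fun y => mul_self_nonneg _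
  have hA0 : 0 ≤ ∫ y, |q y| := integral_nonneg fun y => abs_nonneg _
  have e3 := (abs_le.1 (obstF_le hM bq bq)).2
  have e4 := hcs q bq
  simp only [hJ] at hle hlt
  rw [e1, obstF_comb hk bτ b₀ bq, obst_sq b₀ bq] at hle
  set Aq := ∫ y, |q y|
  set Bq := ∫ y, q y * q y
  have e5 : obstF k q q ≤ M * W * Bq := by nlinarith [mul_le_mul_of_nonneg_left e4 hM0]
  have e6 : t * η * Bq ≤ 2 * d := by
    have a1 := mul_le_mul_of_nonneg_left e2 ht.le
    have a2 := mul_le_mul_of_nonneg_left e5 (sq_nonneg t)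
    have a3 : t ^ 2 * (M * W * Bq) + η * (t ^ 2 * Bq) = t * η * Bq := by
      linear_combination t * Bq * ht'
    nlinarith
  have e7 : M * Aq ≤ γ / 2 := by
    refine abs_le_of_sq_le_sq' ?_ (by positivity) |>.2
    have htη : 0 < t * η := by positivity
    have a1 : M ^ 2 * Aq ^ 2 ≤ M ^ 2 * (W * Bq) := mul_le_mul_of_nonneg_left e4 (sq_nonneg M)
    have a2 : M ^ 2 * W * (t * η * Bq) ≤ M ^ 2 * W * (2 * d) :=
      mul_le_mul_of_nonneg_left e6 (by positivity)
    have a3 : t * η * (M ^ 2 * (W * Bq)) ≤ t * η * (γ / 2) ^ 2 := by nlinarith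
    have a4 := le_of_mul_le_mul_left a3 htη
    rw [mul_pow]
    linarith
  have hRq : ∀ z, ‖z‖ ≤ 1 → |IK k (fun y => p y + τ y) z - R z| ≤ γ / 2 := by
    intro z hz
    have a1 : (fun y => p y + τ y) = fun y => (p₀ y + 1 * τ y) + 1 * q y := by
      funext y; simp only [hq]; ring
    rw [a1, obst_IK_comb hk (obst_comb b₀ bτ 1) bq, obst_IK_comb hk b₀ bτ]
    have a2 := (obst_IK_le hM bq hz).trans e7
    simp only [hR, one_mul, add_sub_cancel_left]
    exact a2
  refine ⟨p, hpA.1, hpA.2, fun z hz h => ?_, fun z h => ?_⟩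
  · have a1 := (abs_le.1 (hRq z hz)).1
    have a2 : max (-τ z) 0 ≤ -R z / η := by
      rw [le_div_iff₀ hη]
      nlinarith [(hneg z).trans (hτ.le z)]
    simp only [hp]
    rw [min_eq_right a2, max_eq_right (le_max_right _ _)]
  · have hz : ‖z‖ ≤ 1 := not_lt.1 fun hz => h (hz0 p hpA z hz)
    have a1 := (abs_le.1 (hRq z hz)).2
    have a2 : R z ≤ 0 := by
      by_contra hc
      refine h (max_eq_left ((min_le_left _ _).trans ?_))
      exact div_nonpos_of_nonpos_of_nonneg (by linarith) hη.le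
    linarith

/-- The maximum principle. -/
theorem max_pr {R : ℂ → ℝ} (hR : Sm R) {a : ℝ} (ha : 0 ≤ a) (h0 : ∀ z, ‖z‖ = 1 → R z = 0)
    (h : ∀ z, ‖z‖ < 1 → R z < -a → Lap R z ≤ 0) : ∀ z, ‖z‖ ≤ 1 → -a ≤ R z := by
  intro z₀ hz₀
  by_contra hc
  obtain ⟨i, hi, hi'⟩ : ∃ i : ℝ, 0 < i ∧ R z₀ = -a - 2 * i := ⟨(-a - R z₀) / 2, by linarith, by ring⟩
  have hF : Continuous fun z => -R z + i * ‖z‖ ^ 2 := by
    have := hR.continuous
    fun_prop
  obtain ⟨z, hz, hmax⟩ := (isCompact_closedBall (0 : ℂ) 1).exists_isMaxOn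
    ⟨z₀, mem_closedBall_zero_iff.2 hz₀⟩ hF.continuousOn
  have h1 : -R z₀ + i * ‖z₀‖ ^ 2 ≤ -R z + i * ‖z‖ ^ 2 := hmax (mem_closedBall_zero_iff.2 hz₀)
  rw [mem_closedBall_zero_iff] at hz
  have h2 : 0 ≤ i * ‖z₀‖ ^ 2 := by positivity
  have h3 : i * ‖z‖ ^ 2 ≤ i := by
    have : ‖z‖ ^ 2 ≤ 1 := pow_le_one₀ (norm_nonneg _) hz
    nlinarith
  have hlt : ‖z‖ < 1 := lt_of_le_of_ne hz fun e => by
    rw [h0 z e] at h1
    linarith
  have hL := h z hlt (by linarith)
  have hloc : IsLocalMax (fun z => -R z + i * ‖z‖ ^ 2) z :=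
    hmax.isLocalMax (mem_of_superset (isOpen_ball.mem_nhds (mem_ball_zero_iff.2 hlt))
      ball_subset_closedBall)
  have key : ∀ (v : ℂ) (b : ℝ), (∀ t : ℝ, ‖z + t • v‖ ^ 2 = ‖z‖ ^ 2 + 2 * b * t + t ^ 2) →
      2 * i ≤ D v (D v R) z := by
    intro v b hv
    have hm : IsLocalMax (fun t : ℝ => -R (z + t • v) + i * (‖z‖ ^ 2 + 2 * b * t + t ^ 2)) 0 := by
      have hc : ContinuousAt (fun t : ℝ => z + t • v) 0 := by fun_prop
      have hz' : IsLocalMax (fun z => -R z + i * ‖z‖ ^ 2) ((fun t : ℝ => z + t • v) 0) := by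
        simpa using hloc
      have := IsLocalMax.comp_continuous (g := fun t : ℝ => z + t • v) (b := 0) hz' hc
      simpa only [Function.comp_def, hv] using this
    have d1 : ∀ t : ℝ, HasDerivAt
        (fun t : ℝ => -R (z + t • v) + i * (‖z‖ ^ 2 + 2 * b * t + t ^ 2))
        (-D v R (z + t • v) + i * (2 * b + 2 * t)) t := fun t => by
      have a1 : HasDerivAt (fun t : ℝ => ‖z‖ ^ 2 + 2 * b * t + t ^ 2) (2 * b + 2 * t) t := by
        exact ((((hasDerivAt_id' t).const_mul (2 * b)).const_add (‖z‖ ^ 2)).fun_add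
          (hasDerivAt_pow 2 t)).congr_deriv (by simp)
      exact (line hR z v t).neg.add (a1.const_mul i)
    have d2 : HasDerivAt (fun t : ℝ => -D v R (z + t • v) + i * (2 * b + 2 * t))
        (-D v (D v R) (z + (0 : ℝ) • v) + i * 2) 0 := by
      have a1 : HasDerivAt (fun t : ℝ => 2 * b + 2 * t) 2 0 := by
        simpa using ((hasDerivAt_id (0 : ℝ)).const_mul 2).const_add (2 * b)
      exact (line (smD hR v) z v 0).neg.add (a1.const_mul i)
    have := max_test d1 d2 hm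
    simp only [zero_smul, add_zero] at this
    linarith
  have k1 := key 1 z.re fun t => by
    simp only [Complex.sq_norm, normSq_apply]
    simp
    ring
  have k2 := key I z.im fun t => by
    simp only [Complex.sq_norm, normSq_apply]
    simp
    ring
  unfold Lap at hL
  linarith

theorem Bd.add_of_le {τ p : ℂ → ℝ} {m ρ : ℝ} (hτ : Bd τ m ρ) (hp : Measurable p)
    (h : ∀ y, 0 ≤ p y ∧ p y ≤ max (-τ y) 0) : Bd (fun y => p y + τ y) m ρ := by
  refine ⟨hp.add hτ.me, fun y => ?_, fun y hy => ?_⟩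
  · obtain ⟨a1, a2⟩ := h y
    obtain ⟨a3, a4⟩ := abs_le.1 (hτ.le y)
    rw [abs_le]
    rcases le_total (-τ y) 0 with h1 | h1
    · rw [max_eq_right h1] at a2
      constructor <;> linarith
    · rw [max_eq_left h1] at a2
      constructor <;> linarith
  · obtain ⟨a1, a2⟩ := h y
    rw [hτ.su y hy] at a2 ⊢
    simp only [neg_zero, max_self] at a2
    linarith

private theorem obst_slope {R : ℂ → ℝ} (hR : Sm R) {y v : ℂ} {s g c : ℝ} (hs : 0 < s)
    (h1 : ∀ t : ℝ, |t| ≤ s → R y - c * s ≤ R (y + t • v))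
    (h2 : ∀ t : ℝ, |t| ≤ s → |D v R (y + t • v) - D v R y| ≤ g) : |D v R y| ≤ g + c := by
  have hc : Continuous fun t : ℝ => R (y + t • v) :=
    continuous_iff_continuousAt.2 fun t => (line hR y v t).continuousAt
  obtain ⟨a, ha, ea⟩ := exists_hasDerivAt_eq_slope (fun t : ℝ => R (y + t • v))
    (fun t => D v R (y + t • v)) hs hc.continuousOn fun t _ => line hR y v t
  obtain ⟨b, hb, eb⟩ := exists_hasDerivAt_eq_slope (fun t : ℝ => R (y + t • v))
    (fun t => D v R (y + t • v)) (neg_lt_zero.2 hs) hc.continuousOn fun t _ => line hR y v t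
  simp only [zero_smul, add_zero, sub_zero, zero_sub, neg_neg] at ea eb
  have a1 := h1 s (abs_of_pos hs).le
  have a2 := h1 (-s) (by rw [abs_neg]; exact (abs_of_pos hs).le)
  have a3 := abs_le.1 (h2 a (abs_le.2 ⟨by linarith [ha.1], ha.2.le⟩))
  have a4 := abs_le.1 (h2 b (abs_le.2 ⟨hb.1.le, by linarith [hb.2]⟩))
  have a5 : -c ≤ D v R (y + a • v) := by
    rw [ea, le_div_iff₀ hs]; linarith
  have a6 : D v R (y + b • v) ≤ c := by
    rw [eb, div_le_iff₀ hs]; linarith
  rw [abs_le]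
  constructor <;> linarith [a3.1, a3.2, a4.1, a4.2]

/-- The obstacle problem: a nearly nonnegative potential that is flat where mass is added. -/
theorem obstacle (m : ℝ) {ρ : ℝ} (hρ0 : 0 < ρ) (hρ : ρ < 1) : ∃ ε₀, 0 < ε₀ ∧ ε₀ ≤ (1 - ρ) / 4 ∧
    ∀ (ε : ℝ) (τ : ℂ → ℝ), 0 < ε → ε ≤ ε₀ → Bd τ m ρ → ∃ p : ℂ → ℝ, Measurable p ∧
      (∀ y, 0 ≤ p y ∧ p y ≤ max (-τ y) 0) ∧
      (∀ z, ‖z‖ ≤ 1 → -1 ≤ IK (Gk ε ρ) (fun y => p y + τ y) z) ∧
      ∀ y z, p y ≠ 0 → ‖z - y‖ ≤ 2 * ε → gn (IK (Gk ε ρ) fun y => p y + τ y) z ≤ 1 := by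
  obtain ⟨r, hr, hequi⟩ := G_equi hρ m (γ := 1 / 8) (by norm_num)
  obtain ⟨s, hs, hs1, hs2⟩ : ∃ s : ℝ, 0 < s ∧ s ≤ r ∧ s ≤ 1 - ρ :=
    ⟨min r (1 - ρ), lt_min hr (by linarith), min_le_left _ _, min_le_right _ _⟩
  have hm1 : 0 < 1440 * (|m| + 1) := by positivity
  have hdiv : s / (1440 * (|m| + 1)) ≤ s / 4 :=
    div_le_div_of_nonneg_left hs.le (by norm_num) (by nlinarith [abs_nonneg m])
  refine ⟨s / (1440 * (|m| + 1)), by positivity, by linarith, fun ε τ hε hε' hτ => ?_⟩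
  have hm : 0 ≤ m := (abs_nonneg _).trans (hτ.le 0)
  have hε1 : ε ≤ s / 4 := hε'.trans hdiv
  have hε2 : 180 * m * ε ≤ s / 8 := by
    rw [le_div_iff₀ hm1, abs_of_nonneg hm] at hε'
    nlinarith
  obtain ⟨p, hp, hp0, hp1, hp2⟩ := near_min (smK_Gk ε ρ) (Gk_symm ε ρ) hρ.le hτ
    (γ := s / 16) (by positivity)
  have hμ := hτ.add_of_le hp hp0
  set R := IK (Gk ε ρ) fun y => p y + τ y with hR
  have hsm : Sm R := sm_IK (smK_Gk ε ρ) hμ
  have hlow : ∀ z, ‖z‖ ≤ 1 → -(3 * s / 16) ≤ R z := by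
    refine max_pr hsm (by positivity) (fun z hz => G_bdry hρ hε (by linarith) hμ hz)
      fun z hz hRz => ?_
    rw [hR, Lap_G hρ hε hμ hz.le, neg_nonpos]
    refine integral_nonneg fun y => ?_
    rcases le_or_gt (2 * ε) ‖z - y‖ with h1 | h1
    · simp [Qk_out hε h1]
    rcases le_or_gt ‖y‖ 1 with h2 | h2
    · refine mul_nonneg (Qk_nonneg _ _) ?_
      have a1 := (abs_le.1 (G_lip hρ hε hμ hz.le h2)).1
      have a2 : 90 * m * ‖z - y‖ ≤ 90 * m * (2 * ε) :=
        mul_le_mul_of_nonneg_left h1.le (by positivity)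
      rw [hp1 y h2 (by linarith)]
      linarith [le_max_left (-τ y) 0]
    · have := hμ.su y (hρ.trans h2)
      simp [this]
  refine ⟨p, hp, hp0, fun z hz => le_trans (by linarith) (hlow z hz), fun y z hy hzy => ?_⟩
  have hyρ : ‖y‖ ≤ ρ := not_lt.1 fun h => hy (by
    have := hp0 y
    rw [hτ.su y h] at this
    simp only [neg_zero, max_self] at this
    exact le_antisymm this.2 this.1)
  have hy1 : ‖y‖ ≤ 1 := hyρ.trans hρ.le
  have hz1 : ‖z‖ ≤ 1 := by
    have := norm_add_le (z - y) y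
    rw [sub_add_cancel] at this
    linarith
  have key : ∀ v : ℂ, v = 1 ∨ v = I → |D v R z| ≤ 1 / 2 := by
    intro v hv
    have hv1 : ‖v‖ = 1 := by rcases hv with rfl | rfl <;> simp
    have hn : ∀ t : ℝ, |t| ≤ s → ‖t • v‖ ≤ s := fun t ht => by
      rw [norm_smul, hv1, mul_one, Real.norm_eq_abs]; exact ht
    have hin : ∀ t : ℝ, |t| ≤ s → ‖y + t • v‖ ≤ 1 := fun t ht => by
      linarith [norm_add_le y (t • v), hn t ht]
    have a1 : |D v R y| ≤ 1 / 8 + 1 / 4 := obst_slope hsm hs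
      (fun t ht => by linarith [hlow _ (hin t ht), hp2 y hy])
      fun t ht => hequi ε _ _ _ v hε (by linarith) hμ (hin t ht) hy1
        (by rw [add_sub_cancel_left]; exact (hn t ht).trans hs1) hv
    have a2 := abs_le.1 (hequi ε _ z y v hε (by linarith) hμ hz1 hy1 (by linarith) hv)
    have a3 := abs_le.1 a1
    rw [abs_le]
    constructor <;> linarith [a2.1, a2.2, a3.1, a3.2]
  unfold gn
  linarith [key 1 (Or.inl rfl), key I (Or.inr rfl)]

end Pool.Agent.Lib.MP_a52643_an.YA
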