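import Pool.Agent.Lib.MP_a52643_an.YA.Phi1

/-!
Calculus: chain rule, integration by parts, cut-off functions.
-/

namespace Pool.Agent.Lib.MP_a52643_an.YA

open Complex Filter Topology Metric MeasureTheory Set QS
open scoped ContDiff

variable {t : ℝ}

/-- The chain rule. -/
theorem D_comp {g : ℝ → ℝ} {g' : ℝ} {F : ℂ → ℝ} {z : ℂ} (hg : HasDerivAt g g' (F z))
    (hF : DifferentiableAt ℝ F z) (v : ℂ) : D v (fun s => g (F s)) z = g' * D v F z := by
  have h : HasFDerivAt (fun s => g (F s)) (g' • fderiv ℝ F z) z :=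
    hg.comp_hasFDerivAt z hF.hasFDerivAt
  unfold D
  rw [h.fderiv]
  rfl

/-- The Laplacian of a composition. -/
theorem Lap_comp {g g1 g2 : ℝ → ℝ} {F : ℂ → ℝ} (hg : ∀ t, HasDerivAt g (g1 t) t)
    (hg1 : ∀ t, HasDerivAt g1 (g2 t) t) (hF : Sm F) (z : ℂ) :
    Lap (fun s => g (F s)) z = g2 (F z) * Gr F z + g1 (F z) * Lap F z := by
  have e : ∀ v, D v (D v fun s => g (F s)) z = g2 (F z) * D v F z ^ 2 + g1 (F z) * D v (D v F) z := by
    intro v
    rw [show (D v fun s => g (F s)) = fun s => g1 (F s) * D v F s from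
      funext fun s => D_comp (hg _) (dif hF s) v,
      D_mul_at (F := fun s => g1 (F s)) ((hg1 _).differentiableAt.comp z (dif hF z))
        (dif (smD hF v) z), D_comp (hg1 _) (dif hF z)]
    ring
  unfold Lap Gr
  rw [e, e]
  ring

/-- Derivatives vanish where the function does. -/
theorem D_out {F : ℂ → ℝ} (hF : Sm F) {r : ℝ} (h : ∀ z, r ≤ ‖z‖ → F z = 0) (v : ℂ) (z : ℂ)
    (hz : r ≤ ‖z‖) : D v F z = 0 := by
  have k : ∀ y : ℂ, r < ‖y‖ → D v F y = 0 := fun y hy => by
    have e : F =ᶠ[𝓝 y] fun _ => 0 :=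
      ((isOpen_lt continuous_const continuous_norm).eventually_mem hy).mono fun x hx => h x hx.le
    rw [D_congr e]
    simp [D]
  by_cases h0 : z = 0
  · have : F = fun _ => 0 := funext fun x => h x (hz.trans (by rw [h0, norm_zero]; positivity))
    rw [this]
    simp [D]
  have c : Continuous fun s : ℝ => D v F (s • z) := (smD hF v).continuous.comp (by fun_prop)
  have l := (c.tendsto 1).mono_left (nhdsWithin_le_nhds (s := Ioi 1))
  rw [one_smul] at l
  refine tendsto_nhds_unique l (tendsto_const_nhds.congr' ?_)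
  filter_upwards [self_mem_nhdsWithin] with s hs
  have h1 : 1 < s := hs
  refine (k _ ?_).symm
  rw [norm_smul, Real.norm_of_nonneg (by linarith)]
  nlinarith [norm_pos_iff.2 h0]

/-- Integrability of continuous functions that vanish off a disc. -/
theorem int_out {F : ℂ → ℝ} (hF : Continuous F) {r : ℝ} (h : ∀ z, r ≤ ‖z‖ → F z = 0) :
    Integrable F :=
  hF.integrable_of_hasCompactSupport (HasCompactSupport.intro (isCompact_closedBall 0 r)
    fun z hz => h z (by rw [mem_closedBall_zero_iff] at hz; exact (not_le.1 hz).le))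

/-- Integration by parts. -/
theorem ibp1 {w F : ℂ → ℝ} (hw : Sm w) (hF : Sm F) {r : ℝ} (h : ∀ z, r ≤ ‖z‖ → w z = 0) (v : ℂ) :
    ∫ z, w z * D v F z = -∫ z, D v w z * F z :=
  integral_mul_fderiv_eq_neg_fderiv_mul_of_integrable (μ := volume) (f := w) (g := F) (v := v)
    (int_out (F := fun z => D v w z * F z) ((smD hw v).continuous.mul hF.continuous)
      fun z hz => by rw [D_out hw h v z hz, zero_mul])
    (int_out (F := fun z => w z * D v F z) (hw.continuous.mul (smD hF v).continuous)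
      fun z hz => by rw [h z hz, zero_mul])
    (int_out (F := fun z => w z * F z) (hw.continuous.mul hF.continuous)
      fun z hz => by rw [h z hz, zero_mul])
    (fun x _ => dif hw x) fun x _ => dif hF x

/-- The integral of a derivative vanishes. -/
theorem int_D {F : ℂ → ℝ} (hF : Sm F) {r : ℝ} (h : ∀ z, r ≤ ‖z‖ → F z = 0) (v : ℂ) :
    ∫ z, D v F z = 0 := by
  have e := ibp1 (F := fun _ => 1) hF contDiff_const h v
  simp only [D, fderiv_fun_const, Pi.zero_apply, zero_apply, mul_zero,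
    integral_zero, mul_one] at e
  unfold D
  linarith

/-- The identity of Green. -/
theorem green {w F : ℂ → ℝ} (hw : Sm w) (hF : Sm F) {r : ℝ} (h : ∀ z, r ≤ ‖z‖ → w z = 0) :
    ∫ z, w z * Lap F z = ∫ z, Lap w z * F z := by
  have e : ∀ v, ∫ z, w z * D v (D v F) z = ∫ z, D v (D v w) z * F z := fun v => by
    rw [ibp1 hw (smD hF v) h, ibp1 (smD hw v) hF (D_out hw h v), neg_neg]
  have i1 : ∀ v, Integrable fun z => w z * D v (D v F) z := fun v =>
    int_out (hw.continuous.mul (smD (smD hF v) v).continuous) fun z hz => by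
      rw [h z hz, zero_mul]
  have i2 : ∀ v, Integrable fun z => D v (D v w) z * F z := fun v =>
    int_out ((smD (smD hw v) v).continuous.mul hF.continuous) fun z hz => by
      rw [D_out (smD hw v) (D_out hw h v) v z hz, zero_mul]
  simp only [Lap, mul_add, add_mul]
  rw [integral_add (i1 1) (i1 I), integral_add (i2 1) (i2 I), e, e]

/-- A cut-off function. -/
theorem exists_cut {a b : ℝ} (ha : 0 < a) (hab : a < b) : ∃ (χ : ℂ → ℝ) (C : ℝ), Sm χ ∧ 0 ≤ C ∧
    (∀ z, ‖z‖ ≤ a → χ z = 1) ∧ (∀ z, b ≤ ‖z‖ → χ z = 0) ∧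
    ∀ z, 0 ≤ χ z ∧ χ z ≤ 1 ∧ gn χ z ≤ C ∧ |Lap χ z| ≤ C := by
  let f : ContDiffBump (0 : ℂ) := ⟨a, b, ha, hab⟩
  have hs : Sm f := f.contDiff
  have h0 : ∀ z, b ≤ ‖z‖ → f z = 0 := fun z hz => f.zero_of_le_dist (by rwa [dist_zero_right])
  obtain ⟨M, hM⟩ := (isCompact_closedBall (0 : ℂ) b).exists_bound_of_continuousOn
    ((gn_cont hs).add (smLap hs).continuous.abs).continuousOn
  have k : ∀ z, gn f z + |Lap f z| ≤ |M| := fun z => by
    rcases le_total ‖z‖ b with h | h
    · exact (le_abs_self _).trans ((hM z (mem_closedBall_zero_iff.2 h)).trans (le_abs_self M))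
    · unfold gn Lap
      rw [D_out hs h0 1 z h, D_out hs h0 I z h, D_out (smD hs 1) (D_out hs h0 1) 1 z h,
        D_out (smD hs I) (D_out hs h0 I) I z h]
      simp
  refine ⟨f, |M|, hs, abs_nonneg M,
    fun z hz => f.one_of_mem_closedBall (mem_closedBall_zero_iff.2 hz), h0,
    fun z => ⟨f.nonneg, f.le_one, ?_, ?_⟩⟩
  · linarith [k z, abs_nonneg (Lap f z)]
  · linarith [k z, gn_nonneg f z]

end Pool.Agent.Lib.MP_a52643_an.YA
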