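import Pool.Agent.Lib.MP_a52643_an.YA.Defs

/-!
The profile functions.
-/

namespace Pool.Agent.Lib.MP_a52643_an.YA

open Complex Filter Topology Metric MeasureTheory Set QS
open scoped ContDiff

variable {t : ℝ}

theorem phi1_prim {g : ℝ → ℝ} (hg : Continuous g) (t : ℝ) :
    HasDerivAt (fun t => ∫ x in (1 : ℝ)..t, g x) (g t) t :=
  (hg.integral_hasStrictDerivAt 1 t).hasDerivAt

theorem phi1_prim_sm {g : ℝ → ℝ} (hg : ContDiff ℝ ∞ g) :
    ContDiff ℝ ∞ fun t => ∫ x in (1 : ℝ)..t, g x := by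
  refine contDiff_infty_iff_deriv.2 ⟨fun t => (phi1_prim hg.continuous t).differentiableAt, ?_⟩
  rwa [show deriv (fun t => ∫ x in (1 : ℝ)..t, g x) = g from
    funext fun t => (phi1_prim hg.continuous t).deriv]

theorem phi1_prim_low {g : ℝ → ℝ} (hg : ∀ x ≤ 1, g x = 0) (h : t ≤ 1) :
    ∫ x in (1 : ℝ)..t, g x = 0 := by
  rw [intervalIntegral.integral_congr (g := fun _ => 0), intervalIntegral.integral_zero]
  intro x hx
  rw [uIcc_of_ge h] at hx
  exact hg x hx.2

theorem phi1_prim_nonneg {g : ℝ → ℝ} (hg : ∀ x ≤ 1, g x = 0) (h0 : ∀ x, 0 ≤ g x) (t : ℝ) :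
    0 ≤ ∫ x in (1 : ℝ)..t, g x := by
  rcases le_total t 1 with h | h
  · exact (phi1_prim_low hg h).ge
  · exact intervalIntegral.integral_nonneg h fun x _ => h0 x

theorem phi1_ka0 (h : t ≤ 1) : ka t = 0 := Real.smoothTransition.zero_of_nonpos (by linarith)

theorem phi1_ka1 (h : 2 ≤ t) : ka t = 1 := Real.smoothTransition.one_of_one_le (by linarith)

theorem phi1_f0 (h : t ≤ 1) : f1 t = 0 := by rw [f1, phi1_ka0 h, zero_div]

theorem ka_sm : ContDiff ℝ ∞ ka :=
  Real.smoothTransition.contDiff.comp (contDiff_id.sub contDiff_const)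

theorem k1_sm : ContDiff ℝ ∞ k1 := (contDiff_infty_iff_deriv.1 ka_sm).2

theorem f1_sm : ContDiff ℝ ∞ f1 := by
  refine contDiff_iff_contDiffAt.2 fun t => ?_
  rcases lt_or_ge t 1 with h | h
  · refine (contDiffAt_const (c := (0 : ℝ))).congr_of_eventuallyEq ?_
    filter_upwards [Iio_mem_nhds h] with x hx using phi1_f0 (le_of_lt hx)
  · exact ka_sm.contDiffAt.div contDiffAt_id (ne_of_gt (by linarith : (0 : ℝ) < t))

theorem f2_sm : ContDiff ℝ ∞ f2 := (contDiff_infty_iff_deriv.1 f1_sm).2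

theorem ff_sm : ContDiff ℝ ∞ ff := phi1_prim_sm f1_sm

theorem ka_deriv (t : ℝ) : HasDerivAt ka (k1 t) t :=
  ((contDiff_infty_iff_deriv.1 ka_sm).1 t).hasDerivAt

theorem f1_deriv (t : ℝ) : HasDerivAt f1 (f2 t) t :=
  ((contDiff_infty_iff_deriv.1 f1_sm).1 t).hasDerivAt

theorem ff_deriv (t : ℝ) : HasDerivAt ff (f1 t) t := phi1_prim f1_sm.continuous t

theorem ka_nonneg (t : ℝ) : 0 ≤ ka t := Real.smoothTransition.nonneg _

theorem ka_le_one (t : ℝ) : ka t ≤ 1 := Real.smoothTransition.le_one _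

theorem phi1_f1_nonneg (t : ℝ) : 0 ≤ f1 t := by
  rcases le_total t 1 with h | h
  · exact (phi1_f0 h).ge
  · exact div_nonneg (ka_nonneg t) (by linarith)

theorem low (h : t ≤ 1) : ka t = 0 ∧ k1 t = 0 ∧ f1 t = 0 ∧ f2 t = 0 ∧ ff t = 0 := by
  refine ⟨phi1_ka0 h, IsLocalMin.deriv_eq_zero (Eventually.of_forall fun x => ?_), phi1_f0 h,
    IsLocalMin.deriv_eq_zero (Eventually.of_forall fun x => ?_),
    phi1_prim_low (fun _ => phi1_f0) h⟩
  · rw [phi1_ka0 h]
    exact ka_nonneg x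
  · rw [phi1_f0 h]
    exact phi1_f1_nonneg x

theorem high (h : 2 ≤ t) : ka t = 1 ∧ k1 t = 0 := by
  refine ⟨phi1_ka1 h, IsLocalMax.deriv_eq_zero (Eventually.of_forall fun x => ?_)⟩
  rw [phi1_ka1 h]
  exact ka_le_one x

theorem mul_f1 (t : ℝ) : t * f1 t = ka t := by
  rcases le_total t 1 with h | h
  · rw [phi1_f0 h, phi1_ka0 h, mul_zero]
  · exact mul_div_cancel₀ _ (ne_of_gt (by linarith : (0 : ℝ) < t))

theorem mul_f2 (t : ℝ) : t * f2 t = k1 t - f1 t := by
  have h1 := (hasDerivAt_id' t).mul (f1_deriv t)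
  have h2 : HasDerivAt (fun t => t * f1 t) (k1 t) t := by
    rw [show (fun t => t * f1 t) = ka from funext mul_f1]
    exact ka_deriv t
  have := h1.unique h2
  linarith

theorem f1_nonneg (t : ℝ) : 0 ≤ f1 t := phi1_f1_nonneg t

theorem phi1_glue (x : ℝ) : HasDerivAt expNegInvGlue (x⁻¹ ^ 2 * expNegInvGlue x) x := by
  simpa using expNegInvGlue.hasDerivAt_polynomial_eval_inv_mul 1 x

theorem phi1_st (x : ℝ) : HasDerivAt Real.smoothTransition
    ((x⁻¹ ^ 2 + (1 - x)⁻¹ ^ 2) * (Real.smoothTransition x * (1 - Real.smoothTransition x))) x := by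
  have hd := (Real.smoothTransition.pos_denom x).ne'
  have h1 := (phi1_glue (1 - x)).comp x ((hasDerivAt_id' x).const_sub 1)
  have h2 := (phi1_glue x).div ((phi1_glue x).add h1) hd
  refine h2.congr_deriv ?_
  simp only [Real.smoothTransition, Pi.add_apply, Function.comp_apply]
  generalize x⁻¹ ^ 2 = a
  generalize (1 - x)⁻¹ ^ 2 = b
  field_simp
  ring

theorem k1_ge (t : ℝ) : ka t * (1 - ka t) ≤ k1 t := by
  have h := (ka_deriv t).unique ((phi1_st (t - 1)).comp t ((hasDerivAt_id' t).sub_const 1))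
  rcases le_or_gt t 1 with h1 | h1
  · rw [(low h1).1, (low h1).2.1, zero_mul]
  rcases le_total 2 t with h2 | h2
  · rw [(high h2).1, (high h2).2, sub_self, mul_zero]
  rw [h, mul_one]
  refine le_mul_of_one_le_left (mul_nonneg (ka_nonneg t) (sub_nonneg.2 (ka_le_one t))) ?_
  have a : 1 ≤ (t - 1)⁻¹ := (one_le_inv₀ (by linarith)).2 (by linarith)
  nlinarith [sq_nonneg (1 - (t - 1))⁻¹]

theorem k1_nonneg (t : ℝ) : 0 ≤ k1 t :=
  (mul_nonneg (ka_nonneg t) (sub_nonneg.2 (ka_le_one t))).trans (k1_ge t)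

theorem phi1_bdd : BddAbove (range k1) := by
  refine (isCompact_Icc (a := (1 : ℝ)) (b := 2).bddAbove_image
    k1_sm.continuous.continuousOn).mono ?_
  rintro _ ⟨t, rfl⟩
  rcases le_total t 1 with h1 | h1
  · exact ⟨1, ⟨le_rfl, one_le_two⟩, by rw [(low le_rfl).2.1, (low h1).2.1]⟩
  rcases le_total 2 t with h2 | h2
  · exact ⟨1, ⟨le_rfl, one_le_two⟩, by rw [(low le_rfl).2.1, (high h2).2]⟩
  · exact ⟨t, ⟨h1, h2⟩, rfl⟩

theorem k1_le (t : ℝ) : k1 t ≤ cK :=
  (le_csSup phi1_bdd ⟨t, rfl⟩).trans (le_add_of_nonneg_left zero_le_one)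

theorem one_le_cK : 1 ≤ cK :=
  le_add_of_nonneg_right ((k1_nonneg 0).trans (le_csSup phi1_bdd ⟨0, rfl⟩))

theorem k1_pos : ∃ t, 0 < t ∧ 0 < k1 t :=
  ⟨3 / 2, by norm_num, (mul_pos (Real.smoothTransition.pos_of_pos (by norm_num))
    (sub_pos.2 (Real.smoothTransition.lt_one_of_lt_one (by norm_num)))).trans_le (k1_ge _)⟩

theorem ff_high (h : 2 ≤ t) : ff t = Real.log t + (ff 2 - Real.log 2) := by
  have e : ∫ x in (2 : ℝ)..t, f1 x = Real.log t - Real.log 2 := by
    rw [intervalIntegral.integral_congr (g := fun x => 1 / x),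
      integral_one_div_of_pos two_pos (by linarith), Real.log_div (by linarith) two_ne_zero]
    intro x hx
    rw [uIcc_of_le h] at hx
    simp only [f1, phi1_ka1 hx.1]
  have := intervalIntegral.integral_add_adjacent_intervals (μ := volume)
    (f1_sm.continuous.intervalIntegrable 1 2) (f1_sm.continuous.intervalIntegrable 2 t)
  unfold ff
  linarith

theorem ff_nonneg (t : ℝ) : 0 ≤ ff t := phi1_prim_nonneg (fun _ => phi1_f0) f1_nonneg t

theorem ff_bd (h : 1 ≤ t) : Real.log t - Real.log 2 ≤ ff t ∧ ff t ≤ Real.log t := by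
  constructor
  · rcases le_total 2 t with h2 | h2
    · linarith [ff_high h2, ff_nonneg 2]
    · linarith [Real.log_le_log (by linarith) h2, ff_nonneg t]
  · have e := integral_one_div_of_pos one_pos (by linarith : 0 < t)
    rw [div_one] at e
    rw [← e]
    refine intervalIntegral.integral_mono_on h (f1_sm.continuous.intervalIntegrable 1 t)
      (intervalIntegral.intervalIntegrable_one_div (f := fun x => x) (fun x hx => ?_)
        continuousOn_id) fun x hx => div_le_div_of_nonneg_right (ka_le_one x) (by linarith [hx.1])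
    rw [uIcc_of_le h] at hx
    exact ne_of_gt (by linarith [hx.1])

/-- The primitive of the step. -/
theorem exists_prim : ∃ E : ℝ → ℝ, ContDiff ℝ ∞ E ∧ (∀ t, HasDerivAt E (ka t) t) ∧
    (∀ t, t ≤ 1 → E t = 0) ∧ ∀ t, 0 ≤ t → 0 ≤ E t ∧ t - 2 ≤ E t ∧ E t ≤ t := by
  have h0 := phi1_prim_nonneg (fun _ => phi1_ka0) ka_nonneg
  refine ⟨fun t => ∫ x in (1 : ℝ)..t, ka x, phi1_prim_sm ka_sm, phi1_prim ka_sm.continuous,
    fun t h => phi1_prim_low (fun _ => phi1_ka0) h, fun t ht => ⟨h0 t, ?_, ?_⟩⟩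
  · rcases le_total 2 t with h2 | h2
    · have e : ∫ x in (2 : ℝ)..t, ka x = t - 2 := by
        rw [intervalIntegral.integral_congr (g := fun _ => 1), integral_one]
        intro x hx
        rw [uIcc_of_le h2] at hx
        exact phi1_ka1 hx.1
      have := intervalIntegral.integral_add_adjacent_intervals (μ := volume)
        (ka_sm.continuous.intervalIntegrable 1 2) (ka_sm.continuous.intervalIntegrable 2 t)
      linarith [h0 2]
    · linarith [h0 t]
  · rcases le_total t 1 with h1 | h1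
    · exact (phi1_prim_low (fun _ => phi1_ka0) h1).trans_le ht
    · have := intervalIntegral.integral_mono_on (μ := volume) h1
        (ka_sm.continuous.intervalIntegrable 1 t) (continuous_const.intervalIntegrable 1 t)
        fun x _ => ka_le_one x
      rw [integral_one] at this
      linarith

end Pool.Agent.Lib.MP_a52643_an.YA
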