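import Pool.Agent.Lib.MP_a52643_an.YA.Phi

/-!
The area of the set where the function is small against its gradient, and the length of the
regular part of the zero set.
-/

namespace Pool.Agent.Lib.MP_a52643_an.YA

open Complex Filter Topology Metric MeasureTheory Set QS
open scoped ContDiff

theorem ratio_abs {x y a b : ℝ} (hx : |x| ≤ a) (hy : |y| ≤ b) : |x * y| ≤ a * b := by
  rw [abs_mul]
  exact mul_le_mul hx hy (abs_nonneg _) ((abs_nonneg _).trans hx)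

theorem ratio_dot {x1 x2 p1 p2 : ℝ} (h1 : |p1| ≤ 2) (h2 : |p2| ≤ 2) :
    |x1 * p1 + x2 * p2| ≤ 2 * (|x1| + |x2|) := by
  have a1 := ratio_abs (le_refl |x1|) h1
  have a2 := ratio_abs (le_refl |x2|) h2
  have a3 := abs_add_le (x1 * p1) (x2 * p2)
  linarith

theorem ratio_alg {χ b q p1 p2 c1 c2 w1 w2 h C s : ℝ} (h0 : 0 ≤ χ) (h1 : χ ≤ 1) (hb : |b| ≤ 2)
    (hq : |q| ≤ 1 / 2) (hp1 : |p1| ≤ 2) (hp2 : |p2| ≤ 2) (hc : |c1| + |c2| ≤ C) (hh : |h| ≤ 2 * s) :
    -(b * (c1 * p1 + c2 * p2)) + χ * q * (w1 * p1 + w2 * p2) / 2 - χ * b * h +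
      χ * b * (w1 * p1 + w2 * p2) / 2 ≤ 4 * C + 4 * s + 3 * (|w1| + |w2|) := by
  have hχ : |χ| ≤ 1 := by rw [abs_of_nonneg h0]; exact h1
  have a1 := ratio_abs hb (ratio_dot (x1 := c1) (x2 := c2) hp1 hp2)
  have a2 := ratio_abs (ratio_abs hχ hq) (ratio_dot (x1 := w1) (x2 := w2) hp1 hp2)
  have a3 := ratio_abs (ratio_abs hχ hb) hh
  have a4 := ratio_abs (ratio_abs hχ hb) (ratio_dot (x1 := w1) (x2 := w2) hp1 hp2)
  have b1 := (abs_le.1 a1).1
  have b2 := (abs_le.1 a2).2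
  have b3 := (abs_le.1 a3).1
  have b4 := (abs_le.1 a4).2
  have := abs_nonneg w1
  have := abs_nonneg w2
  linarith

theorem ratio_smE {w : ℂ → ℝ} (hw : Sm w) : Sm fun z => Real.exp (-(1 / 2) * w z) :=
  Real.contDiff_exp.comp (contDiff_const.mul hw)

theorem ratio_DE {w : ℂ → ℝ} (hw : Sm w) (v z : ℂ) :
    D v (fun z => Real.exp (-(1 / 2) * w z)) z =
      Real.exp (-(1 / 2) * w z) * (-(1 / 2) * D v w z) := by
  have h := D_comp (F := fun z => -(1 / 2) * w z) (z := z) (Real.hasDerivAt_exp _)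
    ((dif hw z).const_mul _) v
  rw [h, D_cmul_at (dif hw z)]

theorem ratio_smb {ψ : ℂ → ℝ} (hψ : Sm ψ) (τ : ℝ) : Sm fun z => Real.arctan (ψ z / τ) :=
  Real.contDiff_arctan.comp (hψ.div_const τ)

theorem ratio_Db {ψ : ℂ → ℝ} (hψ : Sm ψ) {τ : ℝ} (hτ : 0 < τ) (v z : ℂ) :
    D v (fun z => Real.arctan (ψ z / τ)) z = τ / (τ ^ 2 + ψ z ^ 2) * D v ψ z := by
  have h1 : HasDerivAt (fun x : ℝ => Real.arctan (x / τ)) (τ / (τ ^ 2 + ψ z ^ 2)) (ψ z) := by
    have e : τ / (τ ^ 2 + ψ z ^ 2) = 1 / (1 + (ψ z / τ) ^ 2) * (1 / τ) := by field_simp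
    rw [e]
    exact (Real.hasDerivAt_arctan (ψ z / τ)).comp (ψ z) ((hasDerivAt_id (ψ z)).div_const τ)
  exact D_comp (g := fun x : ℝ => Real.arctan (x / τ)) h1 (dif hψ z) v

/-- One component of the divergence. -/
theorem ratio_DX {u w χ : ℂ → ℝ} (hu : Sm u) (hw : Sm w) (hχ : Sm χ) (s : ℝ) {τ : ℝ} (hτ : 0 < τ)
    (v z : ℂ) :
    D v (fun z => χ z * (Real.arctan (s * (u z * Real.exp (-(1 / 2) * w z)) / τ) *
      (D v u z * Real.exp (-(1 / 2) * w z)))) z =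
      D v χ z * (Real.arctan (s * (u z * Real.exp (-(1 / 2) * w z)) / τ) *
        (D v u z * Real.exp (-(1 / 2) * w z))) +
      χ z * (τ / (τ ^ 2 + (s * (u z * Real.exp (-(1 / 2) * w z))) ^ 2) *
          (s * (D v u z * Real.exp (-(1 / 2) * w z) +
            u z * (Real.exp (-(1 / 2) * w z) * (-(1 / 2) * D v w z)))) *
          (D v u z * Real.exp (-(1 / 2) * w z)) +
        Real.arctan (s * (u z * Real.exp (-(1 / 2) * w z)) / τ) *
          (D v (D v u) z * Real.exp (-(1 / 2) * w z) +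
            D v u z * (Real.exp (-(1 / 2) * w z) * (-(1 / 2) * D v w z)))) := by
  have hE := ratio_smE hw
  have hψ : Sm fun z => s * (u z * Real.exp (-(1 / 2) * w z)) := contDiff_const.mul (hu.mul hE)
  have hb := ratio_smb hψ τ
  have hp : Sm fun z => D v u z * Real.exp (-(1 / 2) * w z) := (smD hu v).mul hE
  rw [D_mul_at (dif hχ z) (dif (hb.mul hp) z), D_mul_at (dif hb z) (dif hp z), ratio_Db hψ hτ,
    D_cmul_at (dif (hu.mul hE) z), D_mul_at (dif hu z) (dif hE z),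
    D_mul_at (dif (smD hu v) z) (dif hE z), ratio_DE hw]

theorem ratio_two {x : ℝ} (h : x ^ 2 ≤ 4) : |x| ≤ 2 :=
  abs_le.2 ⟨by nlinarith, by nlinarith⟩

theorem ratio_three {a b E p : ℝ} (h : (a ^ 2 + b ^ 2) * E ^ 2 + p ^ 2 ≤ 4) :
    |a * E| ≤ 2 ∧ |b * E| ≤ 2 ∧ |p| ≤ 2 := by
  have e : (a ^ 2 + b ^ 2) * E ^ 2 = (a * E) ^ 2 + (b * E) ^ 2 := by ring
  have h1 := sq_nonneg (a * E)
  have h2 := sq_nonneg (b * E)
  have h3 := sq_nonneg p
  exact ⟨ratio_two (by linarith), ratio_two (by linarith), ratio_two (by linarith)⟩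

theorem ratio_arctan (x : ℝ) : |Real.arctan x| ≤ 2 := by
  have := Real.arctan_lt_pi_div_two x
  have := Real.neg_pi_div_two_lt_arctan x
  have := Real.pi_le_four
  exact abs_le.2 ⟨by linarith, by linarith⟩

theorem ratio_half {τ : ℝ} (hτ : 0 < τ) (p : ℝ) : |τ / (τ ^ 2 + p ^ 2) * p| ≤ 1 / 2 := by
  have hd : 0 < τ ^ 2 + p ^ 2 := by positivity
  rw [div_mul_eq_mul_div, abs_le, le_div_iff₀ hd, div_le_iff₀ hd]
  constructor <;> nlinarith [sq_nonneg (τ + p), sq_nonneg (τ - p)]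

theorem ratio_four {g s u e E x : ℝ} (he : 0 < e) (h : g + (s ^ 2 * u ^ 2 + e) ≤ 4 * x)
    (hE : 0 < E) (hx : E ^ 2 * x = 1) : g * E ^ 2 + (s * (u * E)) ^ 2 ≤ 4 := by
  have a3 : 0 < E ^ 2 := pow_pos hE 2
  have a5 := mul_le_mul_of_nonneg_right h a3.le
  nlinarith [mul_pos he a3]

theorem ratio_low {g s u e E x τ : ℝ} (hs : 1 ≤ s) (hg : 0 ≤ g) (hτ : 0 < τ) (hτ1 : τ ≤ 1)
    (h : x ≤ g + (s ^ 2 * u ^ 2 + e)) (hE : 0 < E) (hx : E ^ 2 * x = 1)
    (h4 : g * E ^ 2 + (s * (u * E)) ^ 2 ≤ 4) (z2 : s ^ 2 * u ^ 2 ≤ τ ^ 2 * g) (z3 : e ≤ g) :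
    s / (15 * τ) ≤ τ / (τ ^ 2 + (s * (u * E)) ^ 2) * (s * (g * E ^ 2)) := by
  have a3 : 0 < E ^ 2 := pow_pos hE 2
  have a7 : τ ^ 2 * g ≤ g := mul_le_of_le_one_left hg (by nlinarith)
  have b1 : 1 / 3 ≤ g * E ^ 2 := by
    have := mul_le_mul_of_nonneg_left (show x ≤ 3 * g by linarith) a3.le
    linarith
  have b2 : (s * (u * E)) ^ 2 ≤ 4 * τ ^ 2 := by
    have c1 := mul_le_mul_of_nonneg_right z2 a3.le
    have c2 : τ ^ 2 * (g * E ^ 2) ≤ τ ^ 2 * 4 :=
      mul_le_mul_of_nonneg_left (by linarith [sq_nonneg (s * (u * E))]) (sq_nonneg τ)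
    nlinarith
  have b3 : 1 / (5 * τ) ≤ τ / (τ ^ 2 + (s * (u * E)) ^ 2) := by
    rw [div_le_div_iff₀ (by positivity) (by positivity)]
    linarith
  calc s / (15 * τ) = 1 / (5 * τ) * (s * (1 / 3)) := by field_simp; norm_num
    _ ≤ _ := by gcongr

theorem ratio_lap {V u E s : ℝ} (hs : 1 ≤ s) (hV : |V| ≤ s ^ 2) (h : |s * (u * E)| ≤ 2) :
    |-(V * u) * E| ≤ 2 * s := by
  rw [abs_mul, abs_of_nonneg (by linarith : 0 ≤ s)] at h
  have b3 : |-(V * u) * E| = |V| * |u * E| := by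
    rw [← abs_mul, ← abs_neg]; congr 1; ring
  have b4 := abs_nonneg (u * E)
  rw [b3]
  calc _ ≤ s ^ 2 * |u * E| := by gcongr
    _ = (s * |u * E|) * s := by ring
    _ ≤ 2 * s := by gcongr

theorem ratio_fin {m s τ K C J : ℝ} (hs : 1 ≤ s) (hτ : 0 < τ) (hK : 0 ≤ K) (hC : 0 ≤ C)
    (hJ : 0 ≤ J) (hm : s / (15 * τ) * m ≤ (4 * C + 4 * s) * K + 3 * J) :
    m ≤ (45 + 60 * K * (C + 1)) * τ * (1 + J / s) := by
  rw [div_mul_eq_mul_div, div_le_iff₀ (by positivity)] at hm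
  have hs0 : 0 < s := by linarith
  refine le_of_mul_le_mul_left ?_ hs0
  have e4 : s * ((45 + 60 * K * (C + 1)) * τ * (1 + J / s)) =
      (45 + 60 * K * (C + 1)) * (s + J) * τ := by field_simp
  rw [e4]
  refine hm.trans ?_
  have d1 : K * C ≤ K * C * s := le_mul_of_one_le_right (mul_nonneg hK hC) hs
  have d2 : 0 ≤ K * (C + 1) * J := by positivity
  have d3 : ((4 * C + 4 * s) * K + 3 * J) * 15 ≤ (45 + 60 * K * (C + 1)) * (s + J) := by
    nlinarith
  calc _ = ((4 * C + 4 * s) * K + 3 * J) * 15 * τ := by ring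
    _ ≤ _ := mul_le_mul_of_nonneg_right d3 hτ.le

/-- The identity of Dong, as a bound of an area. -/
theorem ratio_area : ∃ C : ℝ, 1 ≤ C ∧ ∀ (u V w : ℂ → ℝ) (l e τ : ℝ), Sl u V l 3 → Sm w → 1 ≤ l →
    0 < e → 0 < τ → τ ≤ 1 →
    (∀ z, Gr u z + yy u l e z ≤ 4 * Real.exp (w z) ∧ Real.exp (w z) ≤ Gr u z + yy u l e z) →
    volume {z : ℂ | ‖z‖ ≤ 1 ∧ l * u z ^ 2 ≤ τ ^ 2 * Gr u z ∧ e ≤ Gr u z} ≤
      ENNReal.ofReal (C * τ * (1 + (∫ z in ball (0 : ℂ) 2, gn w z) / √l)) := by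
  obtain ⟨χ, C0, hχ, hC0, hχ1, hχ0, hχb⟩ := exists_cut (a := 1) (b := 2) one_pos (by norm_num)
  set K : ℝ := volume.real (ball (0 : ℂ) 2) with hK
  have hK0 : 0 ≤ K := measureReal_nonneg
  refine ⟨45 + 60 * K * (C0 + 1), by nlinarith [mul_nonneg hK0 hC0], ?_⟩
  intro u V w l e τ hS hw hl he hτ hτ1 hwz
  have hu := hS.hu
  set s : ℝ := √l with hs
  have hs1 : 1 ≤ s := Real.one_le_sqrt.2 hl
  have hss : s ^ 2 = l := Real.sq_sqrt (by linarith)
  set E : ℂ → ℝ := fun z => Real.exp (-(1 / 2) * w z) with hEd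
  have hE : Sm E := ratio_smE hw
  have hE0 : ∀ z, 0 < E z := fun z => Real.exp_pos _
  have hEE : ∀ z, E z ^ 2 * Real.exp (w z) = 1 := fun z => by
    simp only [hEd]
    rw [sq, ← Real.exp_add, ← Real.exp_add]
    simp only [Real.exp_eq_one_iff]
    ring
  set ψ : ℂ → ℝ := fun z => s * (u z * E z) with hψd
  have hψ : Sm ψ := contDiff_const.mul (hu.mul hE)
  set X : ℂ → ℂ → ℝ := fun v z => χ z * (Real.arctan (ψ z / τ) * (D v u z * E z)) with hXd
  have hX : ∀ v, Sm (X v) := fun v => hχ.mul ((ratio_smb hψ τ).mul ((smD hu v).mul hE))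
  have hX0 : ∀ v z, 2 ≤ ‖z‖ → X v z = 0 := fun v z hz => by simp only [hXd, hχ0 z hz, zero_mul]
  set M : ℂ → ℝ := fun z => χ z * (τ / (τ ^ 2 + ψ z ^ 2) * (s * (Gr u z * E z ^ 2))) with hMd
  have hMc : Continuous M := by
    refine hχ.continuous.mul (Continuous.mul ?_ ?_)
    · exact continuous_const.div (continuous_const.add (hψ.continuous.pow 2))
        fun z => by positivity
    · exact continuous_const.mul ((smGr hu).continuous.mul (hE.continuous.pow 2))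
  have hM0 : ∀ z, 2 ≤ ‖z‖ → M z = 0 := fun z hz => by simp only [hMd, hχ0 z hz, zero_mul]
  have hMi : Integrable M := int_out hMc hM0
  have hMn : ∀ z, 0 ≤ M z := fun z => by
    have := (hχb z).1
    have := Gr_nonneg u z
    simp only [hMd]
    positivity
  have h4 : ∀ z, Gr u z * E z ^ 2 + ψ z ^ 2 ≤ 4 := fun z =>
    ratio_four he (by rw [hss]; exact (hwz z).1) (hE0 z) (hEE z)
  set B : ℂ → ℝ := fun z => 4 * C0 + 4 * s + 3 * gn w z with hBd
  have hBc : Continuous B := continuous_const.add (continuous_const.mul (gn_cont hw))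
  have hpt : ∀ z, M z ≤ D 1 (X 1) z + D I (X I) z + (ball (0 : ℂ) 2).indicator B z := fun z => by
    by_cases hz : z ∈ ball (0 : ℂ) 2
    · rw [indicator_of_mem hz]
      have hz3 : ‖z‖ < 3 := by
        have := mem_ball_zero_iff.1 hz
        linarith
      have e1 := ratio_DX hu hw hχ s hτ 1 z
      have e2 := ratio_DX hu hw hχ s hτ I z
      obtain ⟨p1, p2, p3⟩ := ratio_three (h4 z)
      have hb := ratio_arctan (ψ z / τ)
      have hq := ratio_half hτ (ψ z)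
      have hh : |Lap u z * E z| ≤ 2 * s := by
        rw [hS.eq z hz3]
        exact ratio_lap hs1 (by rw [hss]; exact (hS.bd z hz3).1) p3
      have key := ratio_alg (w1 := D 1 w z) (w2 := D I w z) (hχb z).1 (hχb z).2.1 hb hq p1 p2
        (hχb z).2.2.1 hh
      have e3 : M z - (D 1 (X 1) z + D I (X I) z) =
          -(Real.arctan (ψ z / τ) * (D 1 χ z * (D 1 u z * E z) + D I χ z * (D I u z * E z))) +
          χ z * (τ / (τ ^ 2 + ψ z ^ 2) * ψ z) *
            (D 1 w z * (D 1 u z * E z) + D I w z * (D I u z * E z)) / 2 -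
          χ z * Real.arctan (ψ z / τ) * (Lap u z * E z) +
          χ z * Real.arctan (ψ z / τ) *
            (D 1 w z * (D 1 u z * E z) + D I w z * (D I u z * E z)) / 2 := by
        have f1 : D 1 (X 1) z = _ := e1
        have f2 : D I (X I) z = _ := e2
        rw [f1, f2]
        simp only [hMd, hψd, hEd, Gr, Lap]
        ring
      simp only [hBd, gn]
      linarith
    · have hz2 : 2 ≤ ‖z‖ := not_lt.1 fun h => hz (mem_ball_zero_iff.2 h)
      rw [indicator_of_notMem hz, hM0 z hz2, D_out (hX 1) (hX0 1) 1 z hz2,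
        D_out (hX I) (hX0 I) I z hz2]
      simp
  have i1 : Integrable (D 1 (X 1)) := int_out (smD (hX 1) 1).continuous (D_out (hX 1) (hX0 1) 1)
  have i2 : Integrable (D I (X I)) := int_out (smD (hX I) I).continuous (D_out (hX I) (hX0 I) I)
  have i3 : Integrable ((ball (0 : ℂ) 2).indicator B) :=
    (integrable_indicator_iff measurableSet_ball).2 (intB hBc 0 2)
  set J : ℝ := ∫ z in ball (0 : ℂ) 2, gn w z with hJ
  have hJ0 : 0 ≤ J := integral_nonneg fun z => gn_nonneg w z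
  have hint : ∫ z, M z ≤ (4 * C0 + 4 * s) * K + 3 * J := by
    refine (integral_mono hMi ((i1.add i2).add i3) hpt).trans (le_of_eq ?_)
    rw [integral_add' (i1.add i2) i3, integral_add' i1 i2, int_D (hX 1) (hX0 1),
      int_D (hX I) (hX0 I), integral_indicator measurableSet_ball]
    have j1 : IntegrableOn (fun _ : ℂ => 4 * C0 + 4 * s) (ball 0 2) := intB continuous_const 0 2
    have j2 : IntegrableOn (fun z : ℂ => 3 * gn w z) (ball 0 2) :=
      intB (continuous_const.mul (gn_cont hw)) 0 2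
    simp only [hBd]
    rw [integral_add j1 j2, integral_const_mul, setIntegral_const, smul_eq_mul]
    ring
  have hε : 0 < s / (15 * τ) := by positivity
  have hsub : {z : ℂ | ‖z‖ ≤ 1 ∧ l * u z ^ 2 ≤ τ ^ 2 * Gr u z ∧ e ≤ Gr u z} ⊆
      {z | s / (15 * τ) ≤ M z} := by
    rintro z ⟨z1, z2, z3⟩
    show s / (15 * τ) ≤ M z
    simp only [hMd]
    rw [hχ1 z z1, one_mul]
    exact ratio_low hs1 (Gr_nonneg u z) hτ hτ1 (by rw [hss]; exact (hwz z).2) (hE0 z) (hEE z)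
      (h4 z) (by rw [hss]; exact z2) z3
  have hfin : volume {z | s / (15 * τ) ≤ M z} ≠ ⊤ := by
    refine ne_top_of_le_ne_top (measure_ball_lt_top (x := (0 : ℂ)) (r := 2)).ne (measure_mono ?_)
    intro z hz
    by_contra h
    have hz2 : 2 ≤ ‖z‖ := not_lt.1 fun h' => h (mem_ball_zero_iff.2 h')
    have : s / (15 * τ) ≤ M z := hz
    rw [hM0 z hz2] at this
    linarith
  have hm := (mul_meas_ge_le_integral_of_nonneg (Eventually.of_forall hMn) hMi
    (s / (15 * τ))).trans hint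
  refine (measure_mono hsub).trans ?_
  rw [← ofReal_measureReal hfin]
  exact ENNReal.ofReal_le_ofReal (ratio_fin hs1 hτ hK0 hC0 hJ0 hm)

end Pool.Agent.Lib.MP_a52643_an.YA
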