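import Pool.Agent.Lib.MP_a52643_an.YA.Scale1

/-!
The total variation.
-/

namespace Pool.Agent.Lib.MP_a52643_an.YA

open Complex Filter Topology Metric MeasureTheory Set QS
open scoped ContDiff

variable {F : ℂ → ℝ} {s t b c : ℝ} {z : ℂ}

theorem scale_nonneg {G : ℂ → ℝ} (k : ℕ) (t : ℝ) (z : ℂ) : 0 ≤ av k t (fun y => |G y|) z :=
  integral_nonneg fun _ => mul_nonneg (abs_nonneg _) (P_nonneg _ _)

theorem scale_pt (hF : Sm F) (hs : 0 ≤ s) (hst : s ≤ t) {v : ℂ} (hv : ‖v‖ ≤ 1) (z : ℂ) :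
    |av 2 t (D v F) z - av 2 s (D v F) z| ≤ ∫ τ in s..t, av 2 τ (fun y => |Lap F y|) z := by
  have hG := smD hF v
  have hL := smLap hF
  have c1 : Continuous fun τ : ℝ => av 3 τ (Lap (D v F)) z :=
    (av_cont_t (smLap hG).continuous 2).comp (Continuous.prodMk_left z)
  have c2 : Continuous fun τ : ℝ => av 2 τ (fun y => |Lap F y|) z :=
    (av_cont_t hL.continuous.abs 1).comp (Continuous.prodMk_left z)
  have e := intervalIntegral.integral_eq_sub_of_hasDerivAt (a := s) (b := t)
    (fun τ _ => av_deriv hG 1 z τ) (Continuous.intervalIntegrable (by fun_prop) _ _)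
  rw [← e, ← Real.norm_eq_abs]
  refine intervalIntegral.norm_integral_le_of_norm_le hst (Eventually.of_forall fun τ hτ => ?_)
    (c2.intervalIntegrable _ _)
  have h0 : 0 < τ := hs.trans_lt hτ.1
  have h1 := av_D_le hL 1 h0 hv z
  rw [Lap_D hF, Real.norm_eq_abs, abs_mul, abs_of_nonneg (by positivity)]
  norm_num at h1 ⊢
  linarith

/-- One step in the scale. -/
theorem step (hF : Sm F) (hs : 0 ≤ s) (hst : s ≤ t) (ht : t ≤ 1) {v : ℂ} (hv : ‖v‖ ≤ 1) (R : ℝ) :
    ∫ z in ball (0 : ℂ) R, |av 2 t (D v F) z - av 2 s (D v F) z| ≤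
      4 * (t - s) * ∫ y in ball (0 : ℂ) (R + 1), |Lap F y| := by
  have hG := (smD hF v).continuous
  have hL := (smLap hF).continuous.abs
  have c := av_cont_t hL 1
  have hi : Integrable (Function.uncurry fun (τ : ℝ) (z : ℂ) => av 2 τ (fun y => |Lap F y|) z)
      ((volume.restrict (uIoc s t)).prod (volume.restrict (ball (0 : ℂ) R))) := by
    rw [Measure.prod_restrict]
    refine (c.continuousOn.integrableOn_compact
      ((isCompact_uIcc (a := s) (b := t)).prod (isCompact_closedBall (0 : ℂ) R))).mono_set ?_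
    exact prod_mono uIoc_subset_uIcc ball_subset_closedBall
  have c3 : Continuous fun z : ℂ => ∫ τ in s..t, av 2 τ (fun y => |Lap F y|) z :=
    intervalIntegral.continuous_parametric_intervalIntegral_of_continuous'
      (f := fun (z : ℂ) (τ : ℝ) => av 2 τ (fun y => |Lap F y|) z) (c.comp continuous_swap) s t
  refine (integral_mono (intB ((av_cont hG 1 t).sub (av_cont hG 1 s)).abs 0 R) (intB c3 0 R)
    fun z => scale_pt hF hs hst hv z).trans ?_
  rw [← intervalIntegral_integral_swap hi]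
  have h2 := intervalIntegral.norm_integral_le_of_norm_le_const (a := s) (b := t)
    (f := fun τ => ∫ z in ball (0 : ℂ) R, av 2 τ (fun y => |Lap F y|) z)
    (C := 4 * ∫ y in ball (0 : ℂ) (R + 1), |Lap F y|) fun τ hτ => by
      rw [uIoc_of_le hst] at hτ
      have h3 := int_av_le hL 1 (hs.trans hτ.1.le) (R := R) (R' := R + 1) (by linarith [hτ.2])
      simp only [abs_abs, abs_of_nonneg (scale_nonneg _ _ _)] at h3
      rwa [Real.norm_of_nonneg (integral_nonneg fun z => scale_nonneg _ _ _)]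
  rw [abs_of_nonneg (sub_nonneg.2 hst), Real.norm_eq_abs] at h2
  linarith [le_abs_self (∫ τ in s..t, ∫ z in ball (0 : ℂ) R, av 2 τ (fun y => |Lap F y|) z)]

theorem scale_mono {G : ℂ → ℝ} (hG : Continuous G) {R R' : ℝ} (h : R ≤ R') :
    ∫ z in ball (0 : ℂ) R, |G z| ≤ ∫ z in ball (0 : ℂ) R', |G z| :=
  setIntegral_mono_set (intB hG.abs 0 R') (Eventually.of_forall fun _ => abs_nonneg _)
    (ball_subset_ball h).eventuallyLE

theorem scale_tri {f g h k : ℂ → ℝ} (hf : Continuous f) (hg : Continuous g) (hh : Continuous h)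
    (hk : Continuous k) (e : ∀ z, f z = g z - h z - k z) (R : ℝ) :
    ∫ z in ball (0 : ℂ) R, |f z| ≤ (∫ z in ball (0 : ℂ) R, |g z|) +
      (∫ z in ball (0 : ℂ) R, |h z|) + ∫ z in ball (0 : ℂ) R, |k z| := by
  rw [← integral_add (intB hg.abs 0 R) (intB hh.abs 0 R),
    ← integral_add (intB (F := fun z => |g z| + |h z|) (hg.abs.add hh.abs) 0 R) (intB hk.abs 0 R)]
  refine integral_mono (intB hf.abs 0 R) (intB ((hg.abs.add hh.abs).add hk.abs) 0 R) fun z => ?_
  simp only [e z]
  exact (abs_sub _ _).trans (add_le_add_left (abs_sub _ _) _)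

/-- One direction of the gradient. -/
theorem scale_dir {R C b A Γ : ℝ} (hC : 0 ≤ C) (hF : Sm F)
    (hA : ∫ z in ball (0 : ℂ) (R + 3), |F z| ≤ A)
    (hm : ∀ t, 0 < t → t ≤ 1 →
      ∫ z in ball (0 : ℂ) (R + 1), |Lap (av 2 t F) z| ≤ C * (b / t + 4 * A))
    (hΓ : ∫ z in ball (0 : ℂ) (R + 2), |Lap F z| ≤ Γ) (J : ℕ) {v : ℂ} (hv : ‖v‖ ≤ 1) :
    cP 2 ^ 2 * ∫ z in ball (0 : ℂ) R, |D v F z| ≤
      64 * A + 6 * C * b * J + 32 * C * A + 32 * (Γ / 2 ^ J) := by
  have hG := smD hF v
  have cG := hG.continuous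
  have cA : ∀ s t, Continuous (av 2 s (av 2 t (D v F))) := fun s t =>
    av_cont (av_cont cG 1 t) 1 s
  have hA0 : 0 ≤ A := (integral_nonneg fun _ => abs_nonneg _).trans hA
  have hΓ0 : 0 ≤ Γ := (integral_nonneg fun _ => abs_nonneg _).trans hΓ
  have key : ∀ j : ℕ, ∫ z in ball (0 : ℂ) R, |av 2 (1 / 2 ^ j) (av 2 (1 / 2 ^ j) (D v F)) z| ≤
      64 * A + 6 * C * b * j + 32 * C * A * (1 - 1 / 2 ^ j) := by
    intro j
    induction j with
    | zero =>
      have h1 := sm_av hF 1 1
      have h2 := int_av_le h1.continuous.abs 0 zero_le_one (R := R) (R' := R + 1) le_rfl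
      have h3 := int_av_le hF.continuous 1 zero_le_one (R := R + 1) (R' := R + 3) (by linarith)
      simp only [abs_abs, abs_of_nonneg (scale_nonneg _ _ _)] at h2
      have h4 : ∫ z in ball (0 : ℂ) R, |av 2 1 (av 2 1 (D v F)) z| ≤
          ∫ z in ball (0 : ℂ) R, 4 * av 1 1 (fun y => |av 2 1 F y|) z := by
        refine integral_mono (intB (cA 1 1).abs 0 R)
          (intB ((av_cont h1.continuous.abs 0 1).const_mul 4) 0 R) fun z => ?_
        have h5 := av_D_le h1 0 one_pos hv z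
        rw [D_av hF] at h5
        norm_num at h5
        exact h5
      rw [integral_const_mul] at h4
      norm_num at h2 h3 ⊢
      linarith
    | succ j ih =>
      set s : ℝ := 1 / 2 ^ (j + 1) with hs
      have s0 : 0 < s := by positivity
      have e : (1 : ℝ) / 2 ^ j = 2 * s := by rw [hs, pow_succ]; field_simp
      have s1 : 2 * s ≤ 1 := by
        rw [← e, div_le_one (by positivity)]
        exact one_le_pow₀ one_le_two
      rw [e] at ih
      have a1 := step (sm_av hF 1 (2 * s)) s0.le (by linarith : s ≤ 2 * s) s1 hv R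
      have a2 := step (sm_av hF 1 s) s0.le (by linarith : s ≤ 2 * s) s1 hv R
      rw [D_av hF] at a1 a2
      have b1 := hm (2 * s) (by linarith) s1
      have b2 := hm s s0 (by linarith)
      have h1 := scale_tri (cA s s) (cA (2 * s) (2 * s)) ((cA (2 * s) (2 * s)).sub (cA s (2 * s)))
        ((cA (2 * s) s).sub (cA s s)) (fun z => by
          simp only [Pi.sub_apply]
          rw [av_comm cG 1 1 s (2 * s)]
          ring) R
      have d1 := mul_le_mul_of_nonneg_left b1 (show 0 ≤ 4 * (2 * s - s) by linarith)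
      have d2 := mul_le_mul_of_nonneg_left b2 (show 0 ≤ 4 * (2 * s - s) by linarith)
      have e1 : 4 * (2 * s - s) * (C * (b / (2 * s) + 4 * A)) = 2 * C * b + 16 * C * A * s := by
        field_simp
        ring
      have e2 : 4 * (2 * s - s) * (C * (b / s + 4 * A)) = 4 * C * b + 16 * C * A * s := by
        field_simp
        ring
      simp only [Pi.sub_apply] at h1
      norm_num at a1 a2 h1 ⊢
      linarith
  set d : ℝ := 1 / 2 ^ J with hd
  have d0 : 0 < d := by positivity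
  have d1 : d ≤ 1 := by
    rw [hd, div_le_one (by positivity)]
    exact one_le_pow₀ one_le_two
  have k := key J
  have a1 := step hF le_rfl d0.le d1 hv R
  have a2 := step (sm_av hF 1 d) le_rfl d0.le d1 hv R
  rw [D_av hF, Lap_av hF] at a2
  have b1 := scale_mono (smLap hF).continuous (show R + 1 ≤ R + 2 by linarith)
  have b2 := int_av_le (smLap hF).continuous 1 d0.le (R := R + 1) (R' := R + 2) (by linarith)
  have c0 := cP_pos 1
  have c1 := cP_le 1
  have h1 := scale_tri (cG.const_mul (cP 2 ^ 2)) (cA d d)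
    (((av_cont cG 1 d).sub (av_cont cG 1 0)).const_mul (cP 2)) ((cA d d).sub (cA 0 d))
    (fun z => by
      simp only [Pi.sub_apply, av_zero]
      ring) R
  simp only [Pi.sub_apply, abs_mul, integral_const_mul, abs_of_pos c0, abs_pow] at h1
  have a3 := mul_le_mul c1 (a1.trans (mul_le_mul_of_nonneg_left (b1.trans hΓ) (by linarith)))
    (integral_nonneg fun _ => abs_nonneg _) (by norm_num)
  have a4 := a2.trans (mul_le_mul_of_nonneg_left (b2.trans
    (mul_le_mul_of_nonneg_left hΓ (by norm_num))) (by linarith))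
  have e : Γ / 2 ^ J = d * Γ := by rw [hd]; ring
  have a5 : 0 ≤ C * A * d := by positivity
  rw [e]
  norm_num at a3 a4 h1 ⊢
  linarith

/-- The total variation. -/
theorem grad_L1 {R : ℝ} (hR : 0 < R) : ∃ C : ℝ, 1 ≤ C ∧ ∀ (F : ℂ → ℝ) (b c A Γ : ℝ) (J : ℕ),
    Sm F → 0 ≤ b → ∫ z in ball (0 : ℂ) (R + 3), |F z - c| ≤ A →
    (∀ (z : ℂ) (t : ℝ), ‖z‖ < R + 2 → 0 < t → t ≤ 1 → -(b / t) ≤ av 2 t (Lap F) z) →
    ∫ z in ball (0 : ℂ) (R + 2), |Lap F z| ≤ Γ →
    ∫ z in ball (0 : ℂ) R, gn F z ≤ C * (A + b * J + Γ / 2 ^ J) := by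
  obtain ⟨C, hC, h⟩ := mass_le' (show 0 < R + 1 by linarith)
  have c0 := pow_pos (cP_pos 1) 2
  refine ⟨1 + 2 * (64 + 32 * C) / cP 2 ^ 2, le_add_of_nonneg_right (by positivity),
    fun F b c A Γ J hF hb hA hl hΓ => ?_⟩
  have hH : Sm fun z => F z - c := hF.sub contDiff_const
  have eD : ∀ v, D v (fun z => F z - c) = D v F := fun v => by
    funext z
    simp only [D, fderiv_sub_const]
  have eL : Lap (fun z => F z - c) = Lap F := by
    funext z
    simp only [Lap, eD]
  have hA0 : 0 ≤ A := (integral_nonneg fun _ => abs_nonneg _).trans hA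
  have hΓ0 : 0 ≤ Γ := (integral_nonneg fun _ => abs_nonneg _).trans hΓ
  have hm : ∀ t, 0 < t → t ≤ 1 → ∫ z in ball (0 : ℂ) (R + 1),
      |Lap (av 2 t fun z => F z - c) z| ≤ C * (b / t + 4 * A) := fun t t0 t1 => by
    refine h _ _ 0 _ (sm_av hH 1 t) (by positivity) (fun z hz => ?_) ?_
    · rw [Lap_av hH, eL]
      exact hl z t (by linarith) t0 t1
    · simp only [sub_zero]
      exact (int_av_le hH.continuous 1 t0.le (R' := R + 3) (by linarith)).trans (by linarith)
  have a1 := scale_dir (by linarith) hH hA hm (eL ▸ hΓ) J (v := 1) (by simp)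
  have a2 := scale_dir (by linarith) hH hA hm (eL ▸ hΓ) J (v := I) (by simp)
  rw [eD] at a1 a2
  simp only [gn]
  rw [integral_add (intB (smD hF 1).continuous.abs 0 R) (intB (smD hF I).continuous.abs 0 R)]
  have p1 : 0 ≤ b * J := by positivity
  have p2 : 0 ≤ Γ / 2 ^ J := by positivity
  refine le_trans ?_ (mul_le_mul_of_nonneg_right (le_add_of_nonneg_left zero_le_one)
    (by positivity))
  rw [div_mul_eq_mul_div, le_div_iff₀ c0]
  have p3 : 0 ≤ C * (b * J) := by positivity
  have p4 : 0 ≤ C * (Γ / 2 ^ J) := by positivity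
  norm_num at a1 a2 ⊢
  nlinarith

end Pool.Agent.Lib.MP_a52643_an.YA
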