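import Pool.Agent.Lib.MP_a52643_an.YA.Av

/-!
Estimates over all scales.
-/

namespace Pool.Agent.Lib.MP_a52643_an.YA

open Complex Filter Topology Metric MeasureTheory Set QS
open scoped ContDiff

variable {F : ℂ → ℝ} {s t b c : ℝ} {z : ℂ}

/-- The sub-mean value inequality. -/
theorem submean (hF : Sm F) (ht : 0 < t) (hb : 0 ≤ b) (hc : ∀ y, ‖y - z‖ ≤ t → F y ≤ c)
    (h : ∀ s, 0 < s → s ≤ t → -(b / s) ≤ av 2 s (Lap F) z) :
    ∫ y in ball z (t / 2), (c - F y) ≤ 8 * t ^ 2 * (c - F z + b * t) := by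
  obtain ⟨r, ⟨r0, r1⟩, hr⟩ := exists_hasDerivAt_eq_slope _ _ ht
    (fun r _ => (av_deriv hF 0 z r).continuousAt.continuousWithinAt) fun r _ => av_deriv hF 0 z r
  rw [av_zero, sub_zero, eq_div_iff ht.ne'] at hr
  simp only [Nat.cast_zero, zero_add] at hr
  have h1 := h r r0 r1.le
  rw [← neg_div, div_le_iff₀' r0] at h1
  have h2 : -(b * t / 4) ≤ av 1 t F z - cP 1 * F z := by
    rw [← hr]
    nlinarith
  have hc' : Continuous fun s : ℂ => F (z + t • s) := hF.continuous.comp (by fun_prop)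
  have h3 : av 1 t (fun y => c - F y) z = cP 1 * c - av 1 t F z := by
    unfold av cP
    rw [mul_comm, ← integral_const_mul, ← integral_sub ((intP' 0).const_mul c) (intP hc' 0)]
    congr 1
    funext s
    ring
  have h4 := ball_le_av (G := fun y => c - F y) (continuous_const.sub hF.continuous) ht
    fun y hy => sub_nonneg.2 (hc y hy)
  have h5 : 0 ≤ c - F z := sub_nonneg.2 (hc z (by simpa using ht.le))
  have h6 : cP 1 * (c - F z) ≤ 4 * (c - F z) := mul_le_mul_of_nonneg_right (cP_le 0) h5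
  have h7 : av 1 t (fun y => c - F y) z ≤ 4 * (c - F z + b * t) := by
    have := mul_nonneg hb ht.le
    rw [h3]
    linarith
  calc _ ≤ _ := h4
    _ ≤ 2 * t ^ 2 * (4 * (c - F z + b * t)) := by gcongr
    _ = _ := by ring

theorem scale1_abs {w f : ℂ → ℝ} {r M : ℝ} (hf : Continuous f)
    (h0 : ∀ z, r ≤ ‖z‖ → w z = 0) (hM : ∀ z, |w z| ≤ M) :
    |∫ z, w z * f z| ≤ M * ∫ z in ball (0 : ℂ) r, |f z| := by
  rw [← setIntegral_eq_integral_of_forall_compl_eq_zero (s := ball (0 : ℂ) r) fun z hz => by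
    rw [h0 z (by simpa using hz), zero_mul], ← integral_const_mul, ← Real.norm_eq_abs]
  refine norm_integral_le_of_norm_le ((intB hf.abs 0 r).const_mul M) (Eventually.of_forall fun z => ?_)
  rw [Real.norm_eq_abs, abs_mul]
  exact mul_le_mul_of_nonneg_right (hM z) (abs_nonneg _)

theorem scale1_const {f : ℂ → ℝ} {r K : ℝ} (hf : Continuous f) (h : ∀ z, ‖z‖ < r → |f z| ≤ K) :
    ∫ z in ball (0 : ℂ) r, |f z| ≤ volume.real (ball (0 : ℂ) r) * K := by
  rw [← smul_eq_mul, ← setIntegral_const]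
  exact setIntegral_mono_on (intB hf.abs 0 r) (intB continuous_const 0 r) measurableSet_ball
    fun z hz => h z (by simpa using hz)

/-- A lower bound of a divergence gives a bound of its total mass. -/
theorem mass_le {R : ℝ} (hR : 0 < R) : ∃ C : ℝ, 1 ≤ C ∧ ∀ (H B₁ B₂ : ℂ → ℝ) (β K c A : ℝ),
    Sm H → Sm B₁ → Sm B₂ → 0 ≤ β → 0 ≤ K →
    (∀ z, ‖z‖ < R + 1 → -β ≤ Lap H z + dv B₁ B₂ z ∧ |B₁ z| ≤ K ∧ |B₂ z| ≤ K) →
    ∫ z in ball (0 : ℂ) (R + 1), |H z - c| ≤ A →
    ∫ z in ball (0 : ℂ) R, |Lap H z + dv B₁ B₂ z| ≤ C * (β + A + K) := by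
  obtain ⟨χ, M, hχ, hM, h1, h0, hb⟩ := exists_cut hR (lt_add_one R)
  set W := volume.real (ball (0 : ℂ) (R + 1)) with hW
  have W0 : 0 ≤ W := measureReal_nonneg
  refine ⟨1 + 2 * W + M + 2 * (M * W), by nlinarith [mul_nonneg hM W0],
    fun H B₁ B₂ β K c A hH hB₁ hB₂ hβ hK h hA => ?_⟩
  have A0 : 0 ≤ A := (integral_nonneg fun z => abs_nonneg _).trans hA
  have c0 := hχ.continuous
  have cL := (smLap hH).continuous
  have c1 := (smD hB₁ 1).continuous
  have c2 := (smD hB₂ I).continuous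
  have cg : Continuous fun z => Lap H z + dv B₁ B₂ z := cL.add (smdv hB₁ hB₂).continuous
  have io : ∀ {f : ℂ → ℝ}, Continuous f → Integrable fun z => χ z * f z := fun hf =>
    int_out (c0.mul hf) fun z hz => by rw [h0 z hz, zero_mul]
  have e1 : ∫ z in ball (0 : ℂ) R, |Lap H z + dv B₁ B₂ z| ≤
      ∫ z, χ z * (Lap H z + dv B₁ B₂ z + 2 * β) := by
    have i1 : Integrable fun z => χ z * (Lap H z + dv B₁ B₂ z + 2 * β) :=
      io (cg.add (continuous_const (y := 2 * β)))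
    refine le_trans (setIntegral_mono_on (intB cg.abs 0 R) i1.integrableOn measurableSet_ball
      fun z hz => ?_) (setIntegral_le_integral i1 (Eventually.of_forall fun z => ?_))
    · have hz' : ‖z‖ < R := by simpa using hz
      have := (h z (by linarith)).1
      rw [h1 z hz'.le, one_mul, abs_le]
      constructor <;> linarith [le_abs_self (Lap H z + dv B₁ B₂ z)]
    · rcases le_or_gt (R + 1) ‖z‖ with hz | hz
      · simp [h0 z hz]
      · exact mul_nonneg (hb z).1 (by linarith [(h z hz).1])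
  have e2 : ∫ z, χ z * (Lap H z + dv B₁ B₂ z + 2 * β) = (∫ z, χ z * Lap H z) +
      (∫ z, χ z * D 1 B₁ z) + (∫ z, χ z * D I B₂ z) + ∫ z, χ z * (2 * β) := by
    have j1 : Integrable fun z => χ z * Lap H z + χ z * D 1 B₁ z := (io cL).add (io c1)
    have j2 : Integrable fun z => χ z * Lap H z + χ z * D 1 B₁ z + χ z * D I B₂ z := j1.add (io c2)
    rw [← integral_add (io cL) (io c1), ← integral_add j1 (io c2),
      ← integral_add j2 (io continuous_const)]
    congr 1
    funext z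
    simp only [dv]
    ring
  have hH' : Sm fun z => H z - c := hH.sub contDiff_const
  have e3 : Lap H = Lap fun z => H z - c := by
    have : ∀ v, D v (fun z => H z - c) = D v H := fun v => by
      funext z
      simp only [D, fderiv_sub_const]
    unfold Lap
    rw [this, this]
  have d0 : ∀ v z, R + 1 ≤ ‖z‖ → D v χ z = 0 := fun v => D_out hχ h0 v
  have g1 : ∀ z, |D 1 χ z| ≤ M := fun z =>
    (le_add_of_nonneg_right (abs_nonneg _)).trans (hb z).2.2.1
  have g2 : ∀ z, |D I χ z| ≤ M := fun z =>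
    (le_add_of_nonneg_left (abs_nonneg _)).trans (hb z).2.2.1
  have t1 : ∫ z, χ z * Lap H z ≤ M * A := by
    rw [e3, green hχ hH' h0]
    refine (le_abs_self _).trans ((scale1_abs hH'.continuous (fun z hz => ?_)
      fun z => (hb z).2.2.2).trans (mul_le_mul_of_nonneg_left hA hM))
    unfold Lap
    rw [D_out (smD hχ 1) (d0 1) 1 z hz, D_out (smD hχ I) (d0 I) I z hz, add_zero]
  have t2 : ∫ z, χ z * D 1 B₁ z ≤ M * (W * K) := by
    rw [ibp1 hχ hB₁ h0]
    exact (neg_le_abs _).trans ((scale1_abs hB₁.continuous (d0 1) g1).trans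
      (mul_le_mul_of_nonneg_left (scale1_const hB₁.continuous fun z hz => (h z hz).2.1) hM))
  have t3 : ∫ z, χ z * D I B₂ z ≤ M * (W * K) := by
    rw [ibp1 hχ hB₂ h0]
    exact (neg_le_abs _).trans ((scale1_abs hB₂.continuous (d0 I) g2).trans
      (mul_le_mul_of_nonneg_left (scale1_const hB₂.continuous fun z hz => (h z hz).2.2) hM))
  have t4 : ∫ z, χ z * (2 * β) ≤ 1 * (W * (2 * β)) :=
    (le_abs_self _).trans ((scale1_abs continuous_const h0 fun z => by
      rw [abs_of_nonneg (hb z).1]; exact (hb z).2.1).trans (mul_le_mul_of_nonneg_left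
        (scale1_const continuous_const fun z _ => (abs_of_nonneg (by positivity)).le) zero_le_one))
  have := mul_nonneg hM W0
  nlinarith [mul_nonneg W0 A0, mul_nonneg W0 hK, mul_nonneg hM hβ, mul_nonneg hM hK,
    mul_nonneg this hβ, mul_nonneg this A0]

theorem mass_le' {R : ℝ} (hR : 0 < R) : ∃ C : ℝ, 1 ≤ C ∧ ∀ (H : ℂ → ℝ) (β c A : ℝ),
    Sm H → 0 ≤ β → (∀ z, ‖z‖ < R + 1 → -β ≤ Lap H z) →
    ∫ z in ball (0 : ℂ) (R + 1), |H z - c| ≤ A →
    ∫ z in ball (0 : ℂ) R, |Lap H z| ≤ C * (β + A) := by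
  obtain ⟨C, hC, h⟩ := mass_le hR
  refine ⟨C, hC, fun H β c A hH hβ h1 h2 => ?_⟩
  have e : ∀ z, dv (fun _ => 0) (fun _ => 0) z = 0 := fun z => by simp [dv, D]
  have := h H (fun _ => 0) (fun _ => 0) β 0 c A hH contDiff_const contDiff_const hβ le_rfl
    (fun z hz => by simpa [e] using h1 z hz) h2
  simpa [e] using this

theorem scale1_grad {u : ℂ → ℝ} {m Λ : ℝ} {v : ℂ} (hu : Sm u) (ht : 0 < t) (hv : ‖v‖ ≤ 1)
    (h : ∀ y, ‖y - z‖ ≤ t → |u y| ≤ m ∧ |Lap u y| ≤ Λ) :
    cP 2 * |D v u z| ≤ 16 * m / t + t * (4 * Λ) := by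
  obtain ⟨r, ⟨r0, r1⟩, hr⟩ := exists_hasDerivAt_eq_slope _ _ ht
    (fun r _ => (av_deriv (smD hu v) 1 z r).continuousAt.continuousWithinAt)
    fun r _ => av_deriv (smD hu v) 1 z r
  rw [av_zero, sub_zero, eq_div_iff ht.ne', Lap_D hu] at hr
  have hΛ : 0 ≤ Λ := (abs_nonneg _).trans (h z (by simpa using ht.le)).2
  have h1 := av_D_le (smLap hu) 1 r0 hv z
  have h2 : av (1 + 1) r (fun y => |Lap u y|) z ≤ Λ * cP (1 + 1) :=
    (le_abs_self _).trans (abs_int_le (fun s hs => by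
      rw [abs_abs]
      refine (h _ ?_).2
      rw [add_sub_cancel_left, norm_smul, Real.norm_of_nonneg r0.le]
      nlinarith) 1)
  have h3 : Λ * cP (1 + 1) ≤ Λ * 4 := mul_le_mul_of_nonneg_left (cP_le 1) hΛ
  have h4 := av_div hu ht hv fun y hy => (h y hy).1
  have h5 : |av (1 + 1) t (D v u) z - cP (1 + 1) * D v u z| ≤ t * (4 * Λ) := by
    rw [← hr, abs_mul, abs_mul, abs_of_pos ht, abs_of_pos (by positivity), mul_comm]
    refine mul_le_mul_of_nonneg_left ?_ ht.le
    push_cast at h1 ⊢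
    linarith
  rw [← abs_of_pos (cP_pos 1), ← abs_mul]
  have h6 := abs_sub_abs_le_abs_sub (cP (1 + 1) * D v u z) (av (1 + 1) t (D v u) z)
  rw [abs_sub_comm] at h6
  exact (sub_le_iff_le_add'.1 (h6.trans h5)).trans (add_le_add_left h4 _)

/-- The interior gradient estimate. -/
theorem grad_est : ∃ C : ℝ, 1 ≤ C ∧ ∀ (u : ℂ → ℝ) (z : ℂ) (t m Λ : ℝ), Sm u → 0 < t →
    (∀ y, ‖y - z‖ ≤ t → |u y| ≤ m ∧ |Lap u y| ≤ Λ) → gn u z ≤ C * (m / t + t * Λ) := by
  have hP : 0 < cP 2 := cP_pos 1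
  refine ⟨1 + 32 / cP 2, le_add_of_nonneg_right (by positivity), fun u z t m Λ hu ht h => ?_⟩
  have h1 := scale1_grad (v := 1) hu ht (by simp) h
  have h2 := scale1_grad (v := I) hu ht (by simp) h
  have hz := h z (by simpa using ht.le)
  have a1 : 0 ≤ m / t := div_nonneg ((abs_nonneg _).trans hz.1) ht.le
  have a2 : 0 ≤ t * Λ := mul_nonneg ht.le ((abs_nonneg _).trans hz.2)
  have h3 : gn u z ≤ 32 / cP 2 * (m / t + t * Λ) := by
    rw [div_mul_eq_mul_div, le_div_iff₀' hP, gn, mul_add]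
    rw [mul_div_assoc] at h1 h2
    linarith
  rw [add_mul]
  linarith

/-- The growth of the averages is bounded by the mass of the Laplacian. -/
theorem av_growth (hF : Sm F) (hs : 0 < s) (hst : s ≤ t) (z : ℂ) :
    av 1 t F z - av 1 s F z ≤ Real.log (t / s) / 4 * ∫ y in ball z t, |Lap F y| := by
  rcases hst.eq_or_lt with rfl | hlt
  · simp [hs.ne']
  set M := ∫ y in ball z t, |Lap F y| with hM
  have hd : ∀ r, s ≤ r → HasDerivAt (fun r => av (0 + 1) r F z - Real.log r / 4 * M)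
      (r / (2 * ((0 : ℕ) + 2)) * av (0 + 2) r (Lap F) z - r⁻¹ / 4 * M) r := fun r hr =>
    (av_deriv hF 0 z r).sub (((Real.hasDerivAt_log (hs.trans_le hr).ne').div_const 4).mul_const M)
  obtain ⟨r, ⟨r0, r1⟩, hr⟩ := exists_hasDerivAt_eq_slope _ _ hlt
    (fun r hr => (hd r hr.1).continuousAt.continuousWithinAt) fun r hr => hd r hr.1.le
  have hr0 := hs.trans r0
  have cL := (smLap hF).continuous
  have h1 : r ^ 2 * |av (1 + 1) r (Lap F) z| ≤ M := (av_le_ball cL 1 hr0 z).trans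
    (setIntegral_mono_set (intB cL.abs z t) (Eventually.of_forall fun y => abs_nonneg _)
      (ball_subset_ball r1.le).eventuallyLE)
  have h2 : r / (2 * ((0 : ℕ) + 2)) * av (0 + 2) r (Lap F) z - r⁻¹ / 4 * M ≤ 0 := by
    have h3 : r ^ 2 * av (1 + 1) r (Lap F) z ≤ M :=
      (mul_le_mul_of_nonneg_left (le_abs_self _) (by positivity)).trans h1
    have h4 : r / (2 * ((0 : ℕ) + 2)) * av (0 + 2) r (Lap F) z =
        r⁻¹ / 4 * (r ^ 2 * av (1 + 1) r (Lap F) z) := by
      simp only [Nat.cast_zero, zero_add]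
      field_simp
      norm_num [mul_comm]
    rw [h4, sub_nonpos]
    exact mul_le_mul_of_nonneg_left h3 (by positivity)
  rw [hr, div_nonpos_iff] at h2
  rw [Real.log_div (hs.trans hlt).ne' hs.ne']
  rcases h2 with h2 | h2
  · linarith [h2.2]
  · have := h2.1
    simp only [zero_add] at this
    linarith

end Pool.Agent.Lib.MP_a52643_an.YA
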