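import Pool.Agent.Lib.MP_a52643_an.YA.Phi

/-!
The test function, and the mass of a function that is harmonic where its gradient is large.
-/

namespace Pool.Agent.Lib.MP_a52643_an.YA

open Complex Filter Topology Metric MeasureTheory Set QS
open scoped ContDiff

private theorem test_sm (δ : ℝ) : Sm fun z : ℂ => δ⁻¹ * (1 - ‖z‖ ^ 2) :=
  contDiff_const.mul (contDiff_const.sub (contDiff_norm_sq ℝ))

private theorem test_D (δ : ℝ) (v : ℂ) : D v (fun z : ℂ => δ⁻¹ * (1 - ‖z‖ ^ 2)) =
    fun z => -2 * δ⁻¹ * (v.re * z.re + v.im * z.im) := by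
  funext z
  have h := (((hasStrictFDerivAt_norm_sq z).hasFDerivAt.const_sub 1).const_mul δ⁻¹).fderiv
  rw [D, h]
  simp
  ring

private theorem test_DD (c : ℝ) (v u z : ℂ) :
    D u (fun z : ℂ => c * (v.re * z.re + v.im * z.im)) z = c * (v.re * u.re + v.im * u.im) := by
  have h := ((((reCLM.hasFDerivAt (x := z)).const_mul v.re).add
    ((imCLM.hasFDerivAt (x := z)).const_mul v.im)).const_mul c).fderiv
  have h2 : fderiv ℝ (fun z : ℂ => c * (v.re * z.re + v.im * z.im)) z = _ := h
  rw [D, h2]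
  simp [mul_add]

private theorem test_Gr (δ : ℝ) (z : ℂ) :
    Gr (fun z : ℂ => δ⁻¹ * (1 - ‖z‖ ^ 2)) z = 4 * δ⁻¹ ^ 2 * ‖z‖ ^ 2 := by
  simp only [Gr, test_D]
  simp [Complex.sq_norm, normSq_apply]
  ring

private theorem test_Lap (δ : ℝ) (z : ℂ) :
    Lap (fun z : ℂ => δ⁻¹ * (1 - ‖z‖ ^ 2)) z = -4 * δ⁻¹ := by
  simp only [Lap, test_D, test_DD]
  simp
  ring

private theorem test_area {f : ℂ → ℝ} (hf : Continuous f) (h1 : ∀ z, f z ≤ 1)
    (h0 : ∀ z, 1 ≤ ‖z‖ → f z = 0) : 4 * ∫ z, f z ≤ 13 := by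
  have hm : MeasurableSet (ball (0 : ℂ) 1) := measurableSet_ball
  have h2 : ∫ z, f z ≤ ∫ z, (ball (0 : ℂ) 1).indicator (fun _ => (1 : ℝ)) z := by
    refine integral_mono (int_out hf h0)
      ((integrableOn_const measure_ball_lt_top.ne).integrable_indicator hm) fun z => ?_
    by_cases hz : z ∈ ball (0 : ℂ) 1
    · simpa only [indicator_of_mem hz] using h1 z
    · rw [indicator_of_notMem hz, h0 z (not_lt.1 (mt mem_ball_zero_iff.2 hz))]
  rw [integral_indicator_const _ hm, measureReal_def, Complex.volume_ball] at h2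
  simp at h2
  linarith [Real.pi_lt_d2]

/-- A smooth weight close to `P 1`. -/
theorem exists_test : ∃ C : ℝ, 1 ≤ C ∧ ∀ δ : ℝ, 0 < δ → δ ≤ 1 / 4 → ∃ w : ℂ → ℝ, Sm w ∧
    (∀ z, 1 ≤ ‖z‖ → w z = 0) ∧
    (∀ z, 0 ≤ w z ∧ w z ≤ 1 ∧ |w z - P 1 z| ≤ 2 * δ ∧ gn w z ≤ 4 ∧
      |Lap (fun s => w s * w s) z| ≤ C) ∧
    ∀ (R : ℂ → ℝ) (L : ℝ), Sm R → (∀ z, ‖z‖ ≤ 1 → -1 ≤ R z ∧ |R z| ≤ L * (1 - ‖z‖ ^ 2)) →
      ∫ z, w z * Lap R z ≤ 13 + C * L * δ := by
  obtain ⟨E, sE, dE, E0, Eb⟩ := exists_prim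
  have hK := one_le_cK
  refine ⟨16 + 16 * cK, by linarith, fun δ hδ _ => ?_⟩
  set X : ℂ → ℝ := fun z => δ⁻¹ * (1 - ‖z‖ ^ 2) with hX
  have sX : Sm X := test_sm δ
  have hi : 0 < δ⁻¹ := inv_pos.2 hδ
  have dX : ∀ z, δ * X z = 1 - ‖z‖ ^ 2 := fun z => by
    simp only [hX]
    rw [← mul_assoc, mul_inv_cancel₀ hδ.ne', one_mul]
  have out : ∀ z, 1 ≤ ‖z‖ → X z ≤ 1 := fun z hz =>
    (mul_nonpos_of_nonneg_of_nonpos hi.le (by nlinarith)).trans zero_le_one
  have inn : ∀ z, ‖z‖ ≤ 1 → 0 ≤ X z := fun z hz =>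
    mul_nonneg hi.le (by nlinarith [norm_nonneg z])
  have sw : Sm fun z => δ * E (X z) := contDiff_const.mul (sE.comp sX)
  have w0 : ∀ z, 1 ≤ ‖z‖ → δ * E (X z) = 0 := fun z hz => by rw [E0 _ (out z hz), mul_zero]
  have Lw : ∀ z, Lap (fun z => δ * E (X z)) z =
      4 * δ⁻¹ * ‖z‖ ^ 2 * k1 (X z) - 4 * ka (X z) := fun z => by
    rw [Lap_comp (g := fun t => δ * E t) (fun t => (dE t).const_mul δ)
      (fun t => (ka_deriv t).const_mul δ) sX, hX, test_Gr, test_Lap]
    field_simp
    ring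
  have Lww : ∀ z, Lap (fun s => δ * E (X s) * (δ * E (X s))) z =
      8 * ‖z‖ ^ 2 * (ka (X z) * ka (X z) + E (X z) * k1 (X z)) -
        8 * (δ * E (X z)) * ka (X z) := fun z => by
    rw [Lap_comp (g := fun t => δ * E t * (δ * E t)) (g1 := fun t => 2 * δ ^ 2 * (E t * ka t))
      (g2 := fun t => 2 * δ ^ 2 * (ka t * ka t + E t * k1 t))
      (fun t => (((dE t).const_mul δ).mul ((dE t).const_mul δ)).congr_deriv (by ring))
      (fun t => ((dE t).mul (ka_deriv t)).const_mul _) sX, hX, test_Gr, test_Lap]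
    field_simp
    ring
  refine ⟨fun z => δ * E (X z), sw, w0, fun z => ?_, fun R L sR hR => ?_⟩
  · have Dw : ∀ v, D v (fun z => δ * E (X z)) z =
        -2 * ka (X z) * (v.re * z.re + v.im * z.im) := fun v => by
      rw [D_comp (g := fun t => δ * E t) ((dE _).const_mul δ) (dif sX z), hX, test_D]
      field_simp
    have a0 := ka_nonneg (X z)
    have a1 := ka_le_one (X z)
    simp only [gn, Dw, Lww, one_re, one_im, I_re, I_im, one_mul, zero_mul, add_zero, zero_add]
    rcases le_total ‖z‖ 1 with h | h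
    · obtain ⟨b0, b1, b2⟩ := Eb _ (inn z h)
      have c0 := dX z
      have c1 := mul_nonneg hδ.le b0
      have c2 := mul_le_mul_of_nonneg_left b2 hδ.le
      have c3 := mul_le_mul_of_nonneg_left b1 hδ.le
      have n0 := sq_nonneg ‖z‖
      have n1 : ‖z‖ ^ 2 ≤ 1 := by nlinarith [norm_nonneg z]
      have k0 := k1_nonneg (X z)
      have e0 := mul_nonneg b0 k0
      have e1 : E (X z) * k1 (X z) ≤ 2 * cK := by
        rcases le_total 2 (X z) with h2 | h2
        · rw [(high h2).2, mul_zero]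
          linarith
        · exact mul_le_mul (b2.trans h2) (k1_le _) k0 zero_le_two
      have e2 := mul_nonneg a0 a0
      have e3 : ka (X z) * ka (X z) ≤ 1 := mul_le_one₀ a1 a0 a1
      refine ⟨c1, by linarith, ?_, ?_, ?_⟩
      · rw [P_in h, pow_one, abs_le]
        constructor <;> linarith
      · have r1 := (abs_re_le_norm z).trans h
        have r2 := (abs_im_le_norm z).trans h
        simp only [abs_mul, abs_neg, abs_two, abs_of_nonneg a0]
        nlinarith [abs_nonneg z.re, abs_nonneg z.im]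
      · have f1 := mul_nonneg n0 (add_nonneg e2 e0)
        have f2 := mul_le_of_le_one_left (add_nonneg e2 e0) n1
        have f3 := mul_nonneg c1 a0
        have f4 := mul_le_of_le_one_right c1 a1
        rw [abs_le]
        constructor <;> nlinarith
    · obtain ⟨b0, b1, -⟩ := low (out z h)
      rw [w0 z h, b0, b1, P_out h]
      simp
      constructor <;> linarith
  · have hL : 0 ≤ L := by simpa using (abs_nonneg _).trans (hR 0 (by simp)).2
    have ck : Continuous fun z => ka (X z) := (ka_sm.comp sX).continuous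
    have k0 : ∀ z, 1 ≤ ‖z‖ → ka (X z) = 0 := fun z hz => (low (out z hz)).1
    have cL := (smLap sw).continuous
    have L0 : ∀ z, 1 ≤ ‖z‖ → Lap (fun z => δ * E (X z)) z = 0 := fun z hz => by
      rw [Lw, k0 z hz, (low (out z hz)).2.1]
      ring
    have i1 := int_out cL L0
    have i2 := int_out ck k0
    have hA := test_area ck (fun z => ka_le_one _) k0
    have hz : ∫ z, Lap (fun z => δ * E (X z)) z = 0 := by
      have h1 := green sw (F := fun _ => (1 : ℝ)) contDiff_const w0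
      have h2 : ∀ v, D v (fun _ => (1 : ℝ)) = fun _ => 0 := fun v => by
        funext z
        simp [D]
      have h3 : ∀ z, Lap (fun _ => (1 : ℝ)) z = 0 := fun z => by
        simp only [Lap, h2]
        simp [D]
      simpa [h3] using h1.symm
    have hLδ := mul_nonneg hL hδ.le
    rw [green sw sR w0]
    have h1 : ∫ z, Lap (fun z => δ * E (X z)) z * R z ≤
        ∫ z, (2 * (L * δ) * Lap (fun z => δ * E (X z)) z + (8 * (L * δ) + 4) * ka (X z)) := by
      refine integral_mono (int_out (r := 1) (cL.mul sR.continuous) fun z hz => ?_)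
        ((i1.const_mul _).add (i2.const_mul _)) fun z => ?_
      · simp [L0 z hz]
      · rcases le_total ‖z‖ 1 with h | h
        · obtain ⟨b0, b1⟩ := hR z h
          have a0 := ka_nonneg (X z)
          have e1 : k1 (X z) * R z ≤ k1 (X z) * (2 * (L * δ)) := by
            rcases le_total 2 (X z) with h2 | h2
            · simp [(high h2).2]
            · refine mul_le_mul_of_nonneg_left ((le_abs_self _).trans (b1.trans ?_))
                (k1_nonneg _)
              rw [← dX z]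
              nlinarith
          have e2 := mul_le_mul_of_nonneg_left e1
            (show 0 ≤ 4 * δ⁻¹ * ‖z‖ ^ 2 by positivity)
          have e3 := mul_le_mul_of_nonneg_left b0 a0
          simp only [Lw]
          nlinarith
        · simp [L0 z h, k0 z h]
    rw [integral_add (i1.const_mul _) (i2.const_mul _), integral_const_mul, integral_const_mul,
      hz] at h1
    nlinarith [mul_le_mul_of_nonneg_left hA hLδ, mul_le_mul_of_nonneg_left hK hLδ]

end Pool.Agent.Lib.MP_a52643_an.YA
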